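import Mathlib

/-!
# Topologies of uniform convergence on sets of characters of `ℤ`
-/

set_option autoImplicit false
set_option warn.classDefReducibility false

namespace Pool.Agent.X198.TauTop

open Set Filter Topology

/-- the circle group `ℝ/ℤ`; the norm is the distance to the nearest integer -/
abbrev T : Type := UnitAddCircle

/-- the topology on `ℤ` of uniform convergence on the set `E` of characters `k ↦ k • t` -/
noncomputable def unif (E : Set T) : TopologicalSpace ℤ :=
  TopologicalSpace.induced (fun k : ℤ => UniformFun.ofFun fun t : E => k • (t : T))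
    (UniformFun.topologicalSpace E T)

/-- the characters of `(ℤ, τ)`, a character being identified with its value at `1` -/
def dual (τ : TopologicalSpace ℤ) : Set T :=
  {t | @Continuous ℤ T τ inferInstance fun k : ℤ => k • t}

/-- D-sequences -/
def IsD (b : ℕ → ℕ) : Prop := b 0 = 1 ∧ ∀ n, 0 < b n ∧ b n ∣ b (n + 1) ∧ b n ≠ b (n + 1)

/-- D-sequences whose ratios tend to infinity -/
def DInf (b : ℕ → ℕ) : Prop :=
  IsD b ∧ Tendsto (fun n => (b (n + 1) : ℝ) / b n) atTop atTop

/-- the linear topology generated by the cosets of the subgroups `b n ℤ` -/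
def lam (b : ℕ → ℕ) : TopologicalSpace ℤ :=
  TopologicalSpace.generateFrom {s | ∃ (x : ℤ) (n : ℕ), s = {y : ℤ | (b n : ℤ) ∣ y - x}}

/-- the topology of uniform convergence on the characters `1 / c n` -/
noncomputable def tau (c : ℕ → ℕ) : TopologicalSpace ℤ :=
  unif {t | ∃ n, t = ((1 / (c n : ℝ) : ℝ) : T)}

/-- the supremum of the topologies `tau c` (the coarsest topology finer than all of them, which is
the infimum for the order of Mathlib), over the sequences `c` in `D_∞` with `lam c = lam b` -/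
noncomputable def sTop (b : ℕ → ℕ) : TopologicalSpace ℤ :=
  ⨅ c ∈ {c : ℕ → ℕ | DInf c ∧ lam c = lam b}, tau c

/-- the group of the `k / b n` -/
def HH (b : ℕ → ℕ) : Set T := {t | ∃ (k : ℤ) (n : ℕ), t = ((k / (b n : ℝ) : ℝ) : T)}

theorem mem_nhds_unif {E : Set T} {U : Set ℤ} {x : ℤ} :
    U ∈ @nhds ℤ (unif E) x ↔ ∃ ε > 0, ∀ y : ℤ, (∀ t ∈ E, ‖(y - x) • t‖ < ε) → y ∈ U := by
  unfold unif
  rw [nhds_induced]
  have hb := (UniformFun.hasBasis_nhds_of_basis E T (UniformFun.ofFun fun t : E => x • (t : T))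
    Metric.uniformity_basis_dist).comap (fun k : ℤ => UniformFun.ofFun fun t : E => k • (t : T))
  rw [hb.mem_iff]
  refine exists_congr fun ε => and_congr_right fun hε => ?_
  constructor
  · intro h y hy
    refine h fun t => ?_
    change dist (x • (t : T)) (y • (t : T)) < ε
    rw [dist_comm, dist_eq_norm, ← sub_smul]
    exact hy t t.2
  · intro h y hy
    refine h y fun t ht => ?_
    have h1 : dist (x • t) (y • t) < ε := hy ⟨t, ht⟩
    rw [dist_comm, dist_eq_norm, ← sub_smul] at h1
    exact h1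

theorem group_unif (E : Set T) : @IsTopologicalAddGroup ℤ (unif E) _ :=
  topologicalAddGroup_induced (AddMonoidHom.mk'
    (fun k : ℤ => UniformFun.ofFun fun t : E => k • (t : T))
    fun _ _ => funext fun _ => add_zsmul _ _ _)

/-- Doubling. -/
theorem double {y : T} {η : ℝ} (hη : η ≤ 1 / 4) (t : ℕ)
    (h : ∀ j ≤ t, ‖(2 ^ j : ℤ) • y‖ ≤ η) : ‖y‖ ≤ η / 2 ^ t := by
  have hdbl : ∀ z : T, ‖z‖ ≤ 1 / 4 → ‖(2 : ℤ) • z‖ = 2 * ‖z‖ := by
    intro z hz
    obtain ⟨r, rfl⟩ : ∃ r : ℝ, (r : T) = z := QuotientAddGroup.mk_surjective z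
    have h1 : ∃ s : ℝ, (s : T) = (r : T) ∧ |s| ≤ 1 / 4 := by
      refine ⟨r - round r, ?_, ?_⟩
      · have h0 : (((round r : ℤ) : ℝ) : T) = 0 :=
          (AddCircle.coe_eq_zero_iff 1).2 ⟨round r, by simp⟩
        rw [AddCircle.coe_sub, h0, sub_zero]
      · rwa [UnitAddCircle.norm_eq] at hz
    obtain ⟨s, hs, hs4⟩ := h1
    rw [← hs]
    have h2 : ((2 : ℤ) • (s : T)) = ((2 * s : ℝ) : T) := by
      rw [← AddCircle.coe_zsmul, zsmul_eq_mul]
      norm_num
    rw [h2, (AddCircle.norm_coe_eq_abs_iff 1 one_ne_zero).2 (by rw [abs_mul, abs_two]; norm_num; linarith),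
      (AddCircle.norm_coe_eq_abs_iff 1 one_ne_zero).2 (by norm_num; linarith), abs_mul, abs_two]
  induction t with
  | zero =>
    have := h 0 le_rfl
    simpa using this
  | succ t ih =>
    -- work with `2 ^ i • y`
    have key : ∀ i ≤ t + 1, ‖(2 ^ i : ℤ) • y‖ = 2 ^ i * ‖y‖ := by
      intro i
      induction i with
      | zero => intro _; simp
      | succ i ihi =>
        intro hi
        have h3 : ((2 ^ (i + 1) : ℤ) • y) = (2 : ℤ) • ((2 ^ i : ℤ) • y) := by
          rw [← mul_zsmul, pow_succ, mul_comm]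
        rw [h3, hdbl _ ((h i (by omega)).trans hη), ihi (by omega), pow_succ]
        ring
    have h4 := h (t + 1) le_rfl
    rw [key _ le_rfl] at h4
    rw [le_div_iff₀ (by positivity), mul_comm]
    exact h4

end Pool.Agent.X198.TauTop
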