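import Mathlib
import Pool.Agent.X198.TauTop

/-!
# D-sequences from blocks of growing length
-/

set_option autoImplicit false

namespace Pool.Agent.X198.TauBlocks

open Set Filter Topology Pool.Agent.X198.TauTop

/-- the state machine: block `t` has positions `0, …, t + 1` -/
def st : ℕ → ℕ × ℕ
  | 0 => (0, 0)
  | n + 1 => if (st n).2 ≤ (st n).1 then ((st n).1, (st n).2 + 1) else ((st n).1 + 1, 0)

theorem st_le (n : ℕ) : (st n).2 ≤ (st n).1 + 1 := by
  induction n with
  | zero => simp [st]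
  | succ n ih =>
    rw [st]
    split_ifs with h
    · simpa using h
    · simp

theorem reach_in {t n : ℕ} (h : st n = (t, 0)) : ∀ i ≤ t + 1, st (n + i) = (t, i) := by
  intro i
  induction i with
  | zero => intro _; exact h
  | succ i ih =>
    intro hi
    have h1 := ih (by omega)
    rw [← add_assoc, st, h1]
    rw [if_pos (by simpa using hi)]

theorem reach (t : ℕ) : ∃ n, st n = (t, 0) := by
  induction t with
  | zero => exact ⟨0, rfl⟩
  | succ t ih =>
    obtain ⟨n, hn⟩ := ih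
    refine ⟨n + (t + 1) + 1, ?_⟩
    have h1 := reach_in hn (t + 1) le_rfl
    rw [st, h1, if_neg (by simp)]

theorem st_mono : Monotone fun n => (st n).1 := by
  refine monotone_nat_of_le_succ fun n => ?_
  rw [st]
  split_ifs
  · exact le_rfl
  · exact Nat.le_succ _

theorem st_tendsto : Tendsto (fun n => (st n).1) atTop atTop :=
  tendsto_atTop_atTop_of_monotone st_mono fun t => by
    obtain ⟨n, hn⟩ := reach t
    exact ⟨n, by rw [hn]⟩

/-- A sequence from values in blocks. -/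
theorem seq_of_blocks {val : ℕ → ℕ → ℕ} (h0 : val 0 0 = 1)
    (h1 : ∀ t i, i ≤ t → ∃ r, t + 2 ≤ r ∧ val t (i + 1) = val t i * r)
    (h2 : ∀ t, ∃ r, t + 2 ≤ r ∧ val (t + 1) 0 = val t (t + 1) * r) :
    ∃ c : ℕ → ℕ, DInf c ∧ (∀ t i, i ≤ t + 1 → ∃ n, c n = val t i) ∧
      ∀ n, ∃ t i, i ≤ t + 1 ∧ c n = val t i := by
  set c : ℕ → ℕ := fun n => val (st n).1 (st n).2 with hc
  have hstep : ∀ n, ∃ r, (st n).1 + 2 ≤ r ∧ c (n + 1) = c n * r := by
    intro n
    have e : c (n + 1) = val (st (n + 1)).1 (st (n + 1)).2 := rfl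
    rw [e, st]
    split_ifs with h
    · exact h1 _ _ h
    · have h3 := st_le n
      have h4 : (st n).2 = (st n).1 + 1 := by omega
      have e2 : c n = val (st n).1 ((st n).1 + 1) := by
        rw [← h4]
      rw [e2]
      exact h2 _
  have hpos : ∀ n, 0 < c n := by
    intro n
    induction n with
    | zero => change 0 < val 0 0; rw [h0]; exact one_pos
    | succ n ih =>
      obtain ⟨r, hr, hr'⟩ := hstep n
      rw [hr']
      exact Nat.mul_pos ih (by omega)
  refine ⟨c, ⟨⟨h0, fun n => ?_⟩, ?_⟩, ?_, fun n => ⟨_, _, st_le n, rfl⟩⟩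
  · obtain ⟨r, hr, hr'⟩ := hstep n
    refine ⟨hpos n, ⟨r, hr'⟩, ?_⟩
    rw [hr']
    have := hpos n
    have h3 : c n * 1 < c n * r := Nat.mul_lt_mul_of_pos_left (by omega) this
    omega
  · refine tendsto_atTop_mono (f := fun n => (((st n).1 : ℕ) : ℝ)) (fun n => ?_)
      (tendsto_natCast_atTop_atTop.comp st_tendsto)
    obtain ⟨r, hr, hr'⟩ := hstep n
    have h3 : (0 : ℝ) < c n := by exact_mod_cast hpos n
    rw [le_div_iff₀ h3, hr']
    push_cast
    have h4 : ((st n).1 : ℝ) ≤ r := by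
      have : (st n).1 ≤ r := by omega
      exact_mod_cast this
    nlinarith
  · intro t i hi
    obtain ⟨n, hn⟩ := reach t
    have h3 := reach_in hn i hi
    exact ⟨n + i, by rw [hc]; simp only [h3]⟩

/-- A sequence through given stations `Q t`, containing all `Q (t + 1) / a t j`, `j ≤ t`. -/
theorem exists_seq {Q R : ℕ → ℕ} {a : ℕ → ℕ → ℕ} (hQ0 : Q 0 = 1)
    (hQ : ∀ t, Q (t + 1) = Q t * (R t * a t t)) (hR : ∀ t, t + 2 ≤ R t)
    (ha0 : ∀ t, t + 2 ≤ a t 0) (ha : ∀ t j, ∃ r, t + 2 ≤ r ∧ a t (j + 1) = a t j * r) :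
    ∃ c : ℕ → ℕ, DInf c ∧ (∀ t, ∃ n, c n = Q t) ∧ (∀ n, ∃ t, c n ∣ Q t) ∧
      ∀ t j, j ≤ t → ∃ n, c n * a t j = Q (t + 1) := by
  have hapos : ∀ t j, 0 < a t j := by
    intro t j
    induction j with
    | zero => have := ha0 t; omega
    | succ j ih =>
      obtain ⟨r, hr, hr'⟩ := ha t j
      rw [hr']
      exact Nat.mul_pos ih (by omega)
  have hadiv : ∀ t i j, i ≤ j → a t i ∣ a t j := by
    intro t i j hij
    induction j, hij using Nat.le_induction with
    | base => exact dvd_rfl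
    | succ j _ ih =>
      obtain ⟨r, -, hr'⟩ := ha t j
      rw [hr']
      exact ih.mul_right r
  -- the values
  set val : ℕ → ℕ → ℕ := fun t i => match i with
    | 0 => Q t
    | i + 1 => Q (t + 1) / a t (t - i) with hval
  have hv : ∀ t i, i ≤ t → val t (i + 1) * a t (t - i) = Q (t + 1) := by
    intro t i hi
    refine Nat.div_mul_cancel ?_
    rw [hQ]
    exact ((hadiv t _ _ (by omega)).mul_left _).mul_left _
  obtain ⟨c, hc, hc1, hc2⟩ := seq_of_blocks (val := val) hQ0 (by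
    intro t i hi
    cases i with
    | zero =>
      refine ⟨R t, hR t, ?_⟩
      have h3 := hv t 0 (Nat.zero_le _)
      rw [Nat.sub_zero, hQ, ← mul_assoc] at h3
      exact Nat.eq_of_mul_eq_mul_right (hapos _ _) h3
    | succ i =>
      obtain ⟨r, hr, hr'⟩ := ha t (t - (i + 1))
      refine ⟨r, hr, ?_⟩
      have h3 := hv t (i + 1) hi
      have h4 := hv t i (by omega)
      have e : t - i = t - (i + 1) + 1 := by omega
      rw [e, hr', ← h3] at h4
      refine (Nat.eq_of_mul_eq_mul_right (hapos t (t - (i + 1))) ?_)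
      rw [← h4]
      ring) (by
    intro t
    refine ⟨a t 0, ha0 t, ?_⟩
    have h3 := hv t t le_rfl
    rw [Nat.sub_self] at h3
    exact h3.symm)
  refine ⟨c, hc, fun t => hc1 t 0 (Nat.zero_le _), fun n => ?_, fun t j hj => ?_⟩
  · obtain ⟨t, i, hi, hn⟩ := hc2 n
    cases i with
    | zero => exact ⟨t, by rw [hn]⟩
    | succ i =>
      refine ⟨t + 1, ?_⟩
      rw [hn, ← hv t i (by omega)]
      exact Dvd.intro _ rfl
  · obtain ⟨n, hn⟩ := hc1 t (t - j + 1) (by omega)
    refine ⟨n, ?_⟩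
    have h3 := hv t (t - j) (by omega)
    rw [← hn] at h3
    have e : t - (t - j) = j := by omega
    rwa [e] at h3

theorem lam_le {b c : ℕ → ℕ} (h : ∀ n, ∃ m, b n ∣ c m) : lam c ≤ lam b := by
  unfold lam
  refine le_generateFrom ?_
  rintro s ⟨x, n, rfl⟩
  obtain ⟨m, hm⟩ := h n
  have hm' : (b n : ℤ) ∣ c m := by exact_mod_cast hm
  have e : {y : ℤ | (b n : ℤ) ∣ y - x} =
      ⋃ z ∈ {y : ℤ | (b n : ℤ) ∣ y - x}, {y : ℤ | (c m : ℤ) ∣ y - z} := by
    ext y
    simp only [mem_ofPred_eq, mem_iUnion, exists_prop]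
    constructor
    · intro hy
      exact ⟨y, hy, by simp⟩
    · rintro ⟨z, hz, hy⟩
      have := dvd_add (hm'.trans hy) hz
      rwa [sub_add_sub_cancel] at this
  rw [e]
  let _ := TopologicalSpace.generateFrom
    {s : Set ℤ | ∃ (x : ℤ) (n : ℕ), s = {y : ℤ | (c n : ℤ) ∣ y - x}}
  refine isOpen_biUnion fun z _ => ?_
  exact TopologicalSpace.isOpen_generateFrom_of_mem ⟨z, m, rfl⟩

theorem lam_eq {b c : ℕ → ℕ} (h1 : ∀ n, ∃ m, b n ∣ c m) (h2 : ∀ n, ∃ m, c n ∣ b m) :
    lam c = lam b := le_antisymm (lam_le h1) (lam_le h2)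

end Pool.Agent.X198.TauBlocks
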