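import Mathlib
import Pool.Agent.X198.TauBlocks

/-!
# The dyadic case: neighbourhoods of the supremum topology, and the continuous characters
-/

set_option autoImplicit false

namespace Pool.Agent.X198.TauDyadic

open Set Filter Topology Pool.Agent.X198.TauTop Pool.Agent.X198.TauBlocks

/-- the D-sequence `2 ^ n` -/
def b2 (n : ℕ) : ℕ := 2 ^ n

theorem isD_b2 : IsD b2 := by
  refine ⟨rfl, fun n => ⟨Nat.two_pow_pos n, pow_dvd_pow 2 (Nat.le_succ n), ?_⟩⟩
  intro h
  have := Nat.pow_right_injective le_rfl h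
  omega

theorem nhds_sTop {b : ℕ → ℕ} {U : Set ℤ} (hU : U ∈ @nhds ℤ (sTop b) 0) :
    ∃ F : Finset (ℕ → ℕ), (∀ c ∈ F, DInf c ∧ lam c = lam b) ∧ ∃ ε > 0, ∀ k : ℤ,
      (∀ c ∈ F, ∀ n, ‖k • ((1 / (c n : ℝ) : ℝ) : T)‖ < ε) → k ∈ U := by
  have e : sTop b = ⨅ c : {c : ℕ → ℕ | DInf c ∧ lam c = lam b}, tau c := iInf_subtype'
  rw [e, nhds_iInf, Filter.mem_iInf_finite] at hU
  obtain ⟨F, hF⟩ := hU
  have key : ∀ (F : Finset {c : ℕ → ℕ | DInf c ∧ lam c = lam b}) (U : Set ℤ),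
      U ∈ (⨅ c ∈ F, @nhds ℤ (tau c.1) 0) → ∃ ε > 0, ∀ k : ℤ,
        (∀ c ∈ F, ∀ n, ‖k • ((1 / (c.1 n : ℝ) : ℝ) : T)‖ < ε) → k ∈ U := by
    classical
    intro F
    induction F using Finset.induction_on with
    | empty =>
      intro U hU
      simp only [Finset.notMem_empty, not_false_eq_true, iInf_neg, iInf_top, mem_top] at hU
      exact ⟨1, one_pos, fun k _ => by rw [hU]; exact mem_univ k⟩
    | insert c F hc ih =>
      intro U hU
      rw [Finset.iInf_insert, mem_inf_iff] at hU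
      obtain ⟨V, hV, W, hW, rfl⟩ := hU
      obtain ⟨ε, hε, h1⟩ := ih W hW
      unfold tau at hV
      rw [mem_nhds_unif] at hV
      obtain ⟨ε', hε', h2⟩ := hV
      refine ⟨min ε ε', lt_min hε hε', fun k hk => ⟨h2 k ?_, h1 k ?_⟩⟩
      · rintro t ⟨n, rfl⟩
        rw [sub_zero]
        exact (hk c (Finset.mem_insert_self _ _) n).trans_le (min_le_right _ _)
      · intro c' hc' n
        exact (hk c' (Finset.mem_insert_of_mem hc') n).trans_le (min_le_left _ _)
  obtain ⟨ε, hε, h⟩ := key F U hF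
  classical
  refine ⟨F.image Subtype.val, ?_, ε, hε, fun k hk => h k fun c hc n => ?_⟩
  · intro c hc
    obtain ⟨c', -, rfl⟩ := Finset.mem_image.1 hc
    exact c'.2
  · exact hk _ (Finset.mem_image_of_mem _ hc) n

theorem lam_open {b : ℕ → ℕ} (hb : IsD b) {U : Set ℤ} (hU : @IsOpen ℤ (lam b) U) :
    ∀ x ∈ U, ∃ m, {y : ℤ | (b m : ℤ) ∣ y - x} ⊆ U := by
  have hdiv : ∀ {m n : ℕ}, m ≤ n → b m ∣ b n := by
    intro m n h
    induction n, h using Nat.le_induction with
    | base => exact dvd_rfl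
    | succ n _ ih => exact ih.trans (hb.2 n).2.1
  induction hU with
  | basic s hs =>
    obtain ⟨x', n, rfl⟩ := hs
    intro x hx
    refine ⟨n, fun y hy => ?_⟩
    have := dvd_add hy hx
    rwa [sub_add_sub_cancel] at this
  | univ => exact fun x _ => ⟨0, subset_univ _⟩
  | inter s t _ _ ihs iht =>
    intro x hx
    obtain ⟨m, hm⟩ := ihs x hx.1
    obtain ⟨n, hn⟩ := iht x hx.2
    have h1 : ((b m : ℕ) : ℤ) ∣ b (max m n) := by exact_mod_cast hdiv (le_max_left m n)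
    have h2 : ((b n : ℕ) : ℤ) ∣ b (max m n) := by exact_mod_cast hdiv (le_max_right m n)
    exact ⟨max m n, fun y hy => ⟨hm (h1.trans hy), hn (h2.trans hy)⟩⟩
  | sUnion S _ ih =>
    rintro x ⟨s, hs, hx⟩
    obtain ⟨m, hm⟩ := ih s hs x hx
    exact ⟨m, fun y hy => ⟨s, hs, hm hy⟩⟩

theorem pow_of {c : ℕ → ℕ} (hl : lam c = lam b2) (n : ℕ) : ∃ a, c n = 2 ^ a := by
  have h1 : @IsOpen ℤ (lam c) {y : ℤ | (c n : ℤ) ∣ y - 0} :=
    TopologicalSpace.isOpen_generateFrom_of_mem ⟨0, n, rfl⟩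
  rw [hl] at h1
  obtain ⟨m, hm⟩ := lam_open isD_b2 h1 0 (by simp)
  have h2 : (c n : ℤ) ∣ (b2 m : ℤ) - 0 := hm (show (b2 m : ℤ) ∣ (b2 m : ℤ) - 0 by simp)
  rw [sub_zero] at h2
  have h3 : c n ∣ 2 ^ m := by exact_mod_cast h2
  obtain ⟨a, -, ha⟩ := (Nat.dvd_prime_pow Nat.prime_two).1 h3
  exact ⟨a, ha⟩

theorem norm_coe_le (r : ℝ) : ‖(r : T)‖ ≤ |r| := by
  rw [UnitAddCircle.norm_eq]
  have := round_le r 0
  simpa using this

/-- large gaps -/
def Gap (A : Set ℕ) : Prop := ∀ W, ∃ p0, ∀ a ∈ A, ∀ a' ∈ A, p0 ≤ a → a < a' → a + W ≤ a'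

theorem gap_of {c : ℕ → ℕ} (hc : DInf c) (hl : lam c = lam b2) : Gap {a | ∃ n, c n = 2 ^ a} := by
  choose e he using fun n => pow_of hl n
  have hmono : StrictMono e := by
    refine strictMono_nat_of_lt_succ fun n => ?_
    have h1 := (hc.1.2 n).2
    rw [he, he] at h1
    have h2 := (Nat.pow_dvd_pow_iff_le_right (x := 2) (by norm_num)).1 h1.1
    rcases h2.lt_or_eq with h | h
    · exact h
    · exact absurd (by rw [h]) h1.2
  intro W
  obtain ⟨n0, hn0⟩ := eventually_atTop.1 (hc.2.eventually_ge_atTop ((2 : ℝ) ^ W))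
  refine ⟨e n0, ?_⟩
  rintro a ⟨n, hn⟩ a' ⟨m, hm⟩ ha haa'
  rw [he] at hn hm
  have hn' : e n = a := Nat.pow_right_injective le_rfl hn
  have hm' : e m = a' := Nat.pow_right_injective le_rfl hm
  subst hn' hm'
  have hnm : n < m := hmono.lt_iff_lt.1 haa'
  have hn0n : n0 ≤ n := hmono.le_iff_le.1 ha
  have h3 := hn0 n hn0n
  rw [he, he, le_div_iff₀ (by positivity)] at h3
  push_cast at h3
  rw [← pow_add] at h3
  have h4 : W + e n ≤ e (n + 1) := (pow_le_pow_iff_right₀ (by norm_num : (1 : ℝ) < 2)).1 h3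
  have h5 : e (n + 1) ≤ e m := hmono.monotone hnm
  omega

/-- Windows avoid the dangerous positions. -/
theorem window {ι : Type} (F : Finset ι) (A : ι → Set ℕ) (hA : ∀ i ∈ F, Gap (A i)) (L : ℕ) :
    ∃ R p0, ∀ p, p0 ≤ p → ∃ q, q ≤ p ∧ p ≤ q + R ∧ ∀ i ∈ F, ∀ a ∈ A i, ¬ (q < a ∧ a ≤ q + L) := by
  set R := F.card * L with hR
  choose! P hP using fun i hi => hA i hi (R + L + 1)
  refine ⟨R, F.sup P + R + 1, fun p hp => ?_⟩
  by_contra hcon
  push Not at hcon
  classical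
  set al : ι → ℕ := fun i => if h : ∃ a ∈ A i, p < a + R ∧ a ≤ p + L then h.choose else 0 with hal
  have hsub : Finset.Icc (p - R) p ⊆ F.biUnion fun i => Finset.Ico (al i - L) (al i) := by
    intro q hq
    rw [Finset.mem_Icc] at hq
    obtain ⟨i, hi, a, ha, h1, h2⟩ := hcon q hq.2 (by omega)
    have hex : ∃ a ∈ A i, p < a + R ∧ a ≤ p + L := ⟨a, ha, by omega, by omega⟩
    have hali : al i = a := by
      rw [hal]
      simp only
      rw [dif_pos hex]
      obtain ⟨h3, h4, h5⟩ := hex.choose_spec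
      have hPi : P i ≤ F.sup P := Finset.le_sup (f := P) hi
      rcases lt_trichotomy hex.choose a with h | h | h
      · have := hP i hi _ h3 _ ha (by omega) h
        omega
      · exact h
      · have := hP i hi _ ha _ h3 (by omega) h
        omega
    rw [Finset.mem_biUnion]
    refine ⟨i, hi, ?_⟩
    rw [hali, Finset.mem_Ico]
    omega
  have hcard := Finset.card_le_card hsub
  have h1 : (F.biUnion fun i => Finset.Ico (al i - L) (al i)).card ≤ F.card * L := by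
    refine Finset.card_biUnion_le_card_mul _ _ _ fun i _ => ?_
    rw [Nat.card_Ico]
    omega
  rw [Nat.card_Icc] at hcard
  omega

/-- The estimate for sums of powers avoiding the positions just below `a`. -/
theorem sum_norm_le {J : Finset ℕ} {a L : ℕ} (h : ∀ p ∈ J, p < a → p + L < a) :
    ‖(∑ p ∈ J, 2 ^ p : ℤ) • ((1 / (2 ^ a : ℝ) : ℝ) : T)‖ ≤ 1 / 2 ^ L := by
  classical
  have hsplit : (∑ p ∈ J, 2 ^ p : ℤ) = ∑ p ∈ J with p < a, 2 ^ p + ∑ p ∈ J with ¬ p < a, 2 ^ p :=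
    (Finset.sum_filter_add_sum_filter_not J (fun p => p < a) _).symm
  have hz : (∑ p ∈ J with ¬ p < a, 2 ^ p : ℤ) • ((1 / (2 ^ a : ℝ) : ℝ) : T) = 0 := by
    rw [Finset.sum_smul]
    refine Finset.sum_eq_zero fun p hp => ?_
    rw [Finset.mem_filter, not_lt] at hp
    rw [← AddCircle.coe_zsmul, AddCircle.coe_eq_zero_iff]
    refine ⟨2 ^ (p - a), ?_⟩
    rw [zsmul_eq_mul, zsmul_eq_mul]
    push_cast
    rw [mul_one, mul_one_div, eq_div_iff (by positivity), ← pow_add]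
    congr 1
    omega
  rw [hsplit, add_smul, hz, add_zero, ← AddCircle.coe_zsmul, zsmul_eq_mul]
  have hlt : (∑ p ∈ J with p < a, 2 ^ p : ℕ) ≤ 2 ^ (a - L) := by
    refine (Nat.geomSum_lt le_rfl fun p hp => ?_).le
    rw [Finset.mem_filter] at hp
    have := h p hp.1 hp.2
    omega
  rcases Nat.lt_or_ge a L with haL | haL
  · have hemp : (J.filter fun p => p < a) = ∅ := by
      rw [Finset.filter_eq_empty_iff]
      intro p hp hpa
      have := h p hp hpa
      omega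
    rw [hemp]
    simp
  · refine (norm_coe_le _).trans ?_
    have hlt' : ((∑ p ∈ J with p < a, 2 ^ p : ℤ) : ℝ) ≤ 2 ^ (a - L) := by exact_mod_cast hlt
    have hnn : (0 : ℝ) ≤ ((∑ p ∈ J with p < a, 2 ^ p : ℤ) : ℝ) := by positivity
    rw [abs_of_nonneg (by positivity)]
    calc ((∑ p ∈ J with p < a, 2 ^ p : ℤ) : ℝ) * (1 / 2 ^ a) ≤ 2 ^ (a - L) * (1 / 2 ^ a) := by
          gcongr
      _ = 1 / 2 ^ L := by
          rw [mul_one_div, div_eq_div_iff (by positivity) (by positivity), one_mul, ← pow_add]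
          congr 1
          omega

theorem coe_sum (J : Finset ℕ) (y : ℕ → ℝ) : ((∑ q ∈ J, y q : ℝ) : T) = ∑ q ∈ J, (y q : T) :=
  map_sum (QuotientAddGroup.mk' (AddSubgroup.zmultiples (1 : ℝ))) y J

/-- An infinite family bounded away from zero has an unbounded finite sum. -/
theorem gliding {f : ℕ → T} {P : Set ℕ} (hP : P.Infinite) {η : ℝ} (hη : 0 < η)
    (h1 : ∀ p ∈ P, η ≤ ‖f p‖) (h2 : ∀ J : Finset ℕ, (J : Set ℕ) ⊆ P → ‖∑ p ∈ J, f p‖ ≤ 1 / 4) :
    False := by
  classical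
  -- representatives
  have hrep : ∀ z : T, ∃ y : ℝ, (y : T) = z ∧ |y| = ‖z‖ := by
    intro z
    obtain ⟨r, rfl⟩ : ∃ r : ℝ, (r : T) = z := QuotientAddGroup.mk_surjective z
    refine ⟨r - round r, ?_, UnitAddCircle.norm_eq.symm⟩
    have h0 : (((round r : ℤ) : ℝ) : T) = 0 := (AddCircle.coe_eq_zero_iff 1).2 ⟨round r, by simp⟩
    rw [AddCircle.coe_sub, h0, sub_zero]
  have main : ∀ (f : ℕ → T) (y : ℕ → ℝ) (P : Set ℕ), P.Infinite → (∀ p, (y p : T) = f p) →
      (∀ p, |y p| = ‖f p‖) → (∀ p ∈ P, η ≤ y p) →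
      (∀ J : Finset ℕ, (J : Set ℕ) ⊆ P → ‖∑ p ∈ J, f p‖ ≤ 1 / 4) → False := by
    intro f y P hP hy hy' hpos hJ
    have hle : ∀ J : Finset ℕ, (J : Set ℕ) ⊆ P → ∑ p ∈ J, y p ≤ 1 / 4 := by
      intro J
      induction J using Finset.induction_on with
      | empty => intro _; simp
      | insert p J hp ih =>
        intro hJP
        rw [Finset.coe_insert, insert_subset_iff] at hJP
        have h3 := ih hJP.2
        have h4 := hJ (insert p J) (by rw [Finset.coe_insert, insert_subset_iff]; exact hJP)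
        have h5 : ((∑ q ∈ insert p J, y q : ℝ) : T) = ∑ q ∈ insert p J, f q := by
          rw [coe_sum]
          exact Finset.sum_congr rfl fun q _ => hy q
        rw [← h5] at h4
        have h6 : |y p| ≤ 1 / 4 := by
          have := hJ {p} (by simpa using hJP.1)
          rw [Finset.sum_singleton] at this
          rw [hy']
          exact this
        have h7 : 0 ≤ ∑ q ∈ J, y q :=
          Finset.sum_nonneg fun q hq => hη.le.trans (hpos q (hJP.2 hq))
        have h8 : 0 ≤ y p := hη.le.trans (hpos p hJP.1)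
        rw [Finset.sum_insert hp] at h4 ⊢
        have h9 : |y p + ∑ q ∈ J, y q| ≤ |(1 : ℝ)| / 2 := by
          rw [abs_of_nonneg (by linarith), abs_one]
          have := le_abs_self (y p)
          linarith
        rw [(AddCircle.norm_coe_eq_abs_iff 1 one_ne_zero).2 h9] at h4
        exact (le_abs_self _).trans h4
    obtain ⟨N, hN⟩ := exists_nat_gt (1 / (4 * η))
    obtain ⟨J, hJP, hJN⟩ := hP.exists_subset_card_eq N
    have h3 := hle J hJP
    have h4 : (N : ℝ) * η ≤ ∑ p ∈ J, y p := by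
      rw [← hJN, ← nsmul_eq_mul]
      exact Finset.card_nsmul_le_sum _ _ _ fun p hp => hpos p (hJP hp)
    rw [div_lt_iff₀ (by positivity)] at hN
    nlinarith
  choose y hy hy' using fun p => hrep (f p)
  have hunion : P = {p ∈ P | 0 ≤ y p} ∪ {p ∈ P | y p < 0} := by
    ext p
    simp only [mem_union, mem_ofPred_eq]
    rcases le_or_gt 0 (y p) with h | h
    · exact ⟨fun hp => Or.inl ⟨hp, h⟩, fun hp => hp.elim (fun x => x.1) fun x => x.1⟩
    · exact ⟨fun hp => Or.inr ⟨hp, h⟩, fun hp => hp.elim (fun x => x.1) fun x => x.1⟩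
  rw [hunion, infinite_union] at hP
  rcases hP with hP | hP
  · refine main f y _ hP hy hy' (fun p hp => ?_) fun J hJ => h2 J (hJ.trans fun p hp => hp.1)
    have := h1 p hp.1
    rwa [← hy', abs_of_nonneg hp.2] at this
  · refine main (fun p => -f p) (fun p => -y p) _ hP (fun p => ?_) (fun p => ?_) (fun p hp => ?_)
      fun J hJ => ?_
    · rw [AddCircle.coe_neg, hy]
    · rw [abs_neg, hy', norm_neg]
    · have := h1 p hp.1
      rwa [← hy', abs_of_neg hp.2] at this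
    · rw [Finset.sum_neg_distrib, norm_neg]
      exact h2 J (hJ.trans fun p hp => hp.1)

/-- A character that is small at all large positions outside a set with bounded runs is dyadic. -/
theorem dyadic_of {t : T} {U : Set ℕ} {R p0 : ℕ}
    (hU : ∀ p, p0 ≤ p → ∃ q, q ≤ p ∧ p ≤ q + R ∧ q ∉ U)
    (hfin : ∀ η > 0, {p : ℕ | p ∉ U ∧ η ≤ ‖(2 ^ p : ℤ) • t‖}.Finite) : t ∈ HH b2 := by
  set η : ℝ := 1 / 2 ^ (R + 2) with hη
  have hη0 : 0 < η := by positivity
  obtain ⟨p1, hp1⟩ := (hfin η hη0).bddAbove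
  set P := max p0 (p1 + R + 1) with hPdef
  have hsmall : ∀ p, P ≤ p → ‖(2 ^ p : ℤ) • t‖ ≤ 1 / 4 := by
    intro p hp
    obtain ⟨q, hqp, hpq, hqU⟩ := hU p ((le_max_left _ _).trans hp)
    have hq1 : p1 < q := by
      have := (le_max_right p0 (p1 + R + 1)).trans hp
      omega
    have hq2 : ‖(2 ^ q : ℤ) • t‖ < η := by
      by_contra hcon
      rw [not_lt] at hcon
      exact absurd (hp1 ⟨hqU, hcon⟩) (not_le.2 hq1)
    have e : (2 ^ p : ℤ) • t = (2 ^ (p - q) : ℤ) • ((2 ^ q : ℤ) • t) := by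
      rw [← mul_zsmul, ← pow_add]
      congr 2
      omega
    rw [e]
    refine (norm_zsmul_le _ _).trans ?_
    have h3 : ‖((2 ^ (p - q) : ℤ) : ℤ)‖ ≤ 2 ^ R := by
      rw [Int.norm_eq_abs]
      push_cast
      rw [abs_of_pos (by positivity)]
      exact pow_le_pow_right₀ (by norm_num) (by omega)
    calc ‖((2 ^ (p - q) : ℤ) : ℤ)‖ * ‖(2 ^ q : ℤ) • t‖ ≤ 2 ^ R * η := by
          gcongr
      _ = 1 / 4 := by
          rw [hη, pow_add]
          field_simp
          norm_num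
  have hz : (2 ^ P : ℤ) • t = 0 := by
    rw [← norm_le_zero_iff]
    have h3 : ∀ n : ℕ, ‖(2 ^ P : ℤ) • t‖ ≤ (1 / 4) / 2 ^ n := by
      intro n
      refine double le_rfl n fun j _ => ?_
      rw [← mul_zsmul, ← pow_add]
      exact hsmall _ (by omega)
    have h4 : Tendsto (fun n : ℕ => (1 / 4 : ℝ) / 2 ^ n) atTop (𝓝 0) :=
      tendsto_const_nhds.div_atTop (tendsto_pow_atTop_atTop_of_one_lt (by norm_num))
    exact ge_of_tendsto' h4 h3
  obtain ⟨r, rfl⟩ : ∃ r : ℝ, (r : T) = t := QuotientAddGroup.mk_surjective t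
  rw [← AddCircle.coe_zsmul, AddCircle.coe_eq_zero_iff] at hz
  obtain ⟨m, hm⟩ := hz
  refine ⟨m, P, ?_⟩
  congr 1
  rw [zsmul_eq_mul, zsmul_eq_mul, mul_one] at hm
  push_cast at hm
  unfold b2
  push_cast
  rw [hm]
  field_simp

theorem mem_dual_unif {E : Set T} {t : T} (ht : t ∈ E) : t ∈ dual (unif E) := by
  let _ : TopologicalSpace ℤ := unif E
  have hgrp : @IsTopologicalAddGroup ℤ (unif E) _ := group_unif E
  refine continuous_of_continuousAt_zero (zmultiplesHom T t) ?_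
  rw [ContinuousAt, map_zero, Metric.tendsto_nhds]
  intro δ hδ
  refine mem_nhds_unif.2 ⟨δ, hδ, fun y hy => ?_⟩
  have := hy t ht
  rw [sub_zero] at this
  change dist (y • t) 0 < δ
  rwa [dist_zero_right]

theorem dual_smul {τ : TopologicalSpace ℤ} {t : T} (ht : t ∈ dual τ) (k : ℤ) : k • t ∈ dual τ := by
  have h1 : @Continuous ℤ T τ inferInstance fun m : ℤ => k • (m • t) :=
    (continuous_zsmul k).comp ht
  have e : (fun m : ℤ => k • (m • t)) = fun m : ℤ => m • (k • t) := by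
    funext m
    rw [smul_comm]
  rw [e] at h1
  exact h1

/-- For `b n = 2 ^ n` the supremum topology is compatible. -/
theorem dual_sTop : dual (sTop b2) = HH b2 := by
  apply Subset.antisymm
  · intro t ht
    have hcont : @ContinuousAt ℤ T (sTop b2) _ (fun k : ℤ => k • t) 0 :=
      @Continuous.continuousAt ℤ T (sTop b2) _ _ 0 ht
    have hU : {k : ℤ | ‖k • t‖ < 1 / 4} ∈ @nhds ℤ (sTop b2) 0 := by
      have h1 := hcont (Metric.ball_mem_nhds _ (show (0 : ℝ) < 1 / 4 by norm_num))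
      rw [mem_map] at h1
      simpa [Metric.ball, dist_zero_right] using h1
    obtain ⟨F, hF, ε, hε, hV⟩ := nhds_sTop hU
    obtain ⟨L, hL⟩ : ∃ L : ℕ, 1 / (2 : ℝ) ^ L < ε := by
      obtain ⟨L, hL⟩ := exists_pow_lt_of_lt_one hε (by norm_num : (1 / 2 : ℝ) < 1)
      exact ⟨L, by rwa [one_div_pow] at hL⟩
    obtain ⟨R, p0, hR⟩ := window F (fun c => {a | ∃ n, c n = 2 ^ a})
      (fun c hc => gap_of (hF c hc).1 (hF c hc).2) L
    refine dyadic_of (U := {q | ∃ c ∈ F, ∃ a, (∃ n, c n = 2 ^ a) ∧ q < a ∧ a ≤ q + L})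
      (R := R) (p0 := p0) (fun p hp => ?_) fun η hη => ?_
    · obtain ⟨q, h1, h2, h3⟩ := hR p hp
      refine ⟨q, h1, h2, ?_⟩
      rintro ⟨c, hc, a, ha, h4⟩
      exact h3 c hc a ha h4
    · by_contra hinf
      refine gliding (f := fun p => (2 ^ p : ℤ) • t) hinf hη (fun p hp => hp.2) fun J hJ => ?_
      rw [← Finset.sum_smul]
      refine (hV _ fun c hc n => ?_).le
      obtain ⟨a, ha⟩ := pow_of (hF c hc).2 n
      rw [ha]
      push_cast
      refine (sum_norm_le (L := L) fun p hp hpa => ?_).trans_lt hL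
      by_contra hcon
      exact (hJ hp).1 ⟨c, hc, a, ⟨n, ha⟩, hpa, by omega⟩
  · rintro t ⟨k, n, rfl⟩
    -- the sequence `2 ^ (j ^ 2)`
    have hc : DInf fun j => 2 ^ (j ^ 2) := by
      have hlt : ∀ j : ℕ, j ^ 2 < (j + 1) ^ 2 := fun j => Nat.pow_lt_pow_left (by omega) (by norm_num)
      refine ⟨⟨rfl, fun j => ⟨by positivity, pow_dvd_pow 2 (hlt j).le, fun h => ?_⟩⟩, ?_⟩
      · have := Nat.pow_right_injective le_rfl h
        exact absurd this (hlt j).ne
      · have e : (fun j : ℕ => (((2 ^ ((j + 1) ^ 2) : ℕ) : ℝ)) / ((2 ^ (j ^ 2) : ℕ) : ℝ)) =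
            fun j : ℕ => (2 : ℝ) ^ (2 * j + 1) := by
          funext j
          push_cast
          rw [div_eq_iff (by positivity), ← pow_add]
          congr 1
          ring
        rw [e]
        exact (tendsto_pow_atTop_atTop_of_one_lt (by norm_num : (1 : ℝ) < 2)).comp
          (tendsto_atTop_mono (fun j => by simp only [id]; omega) tendsto_id)
    have hl : lam (fun j => 2 ^ (j ^ 2)) = lam b2 := by
      refine lam_eq (fun j => ⟨j, pow_dvd_pow 2 ?_⟩) fun j => ⟨j ^ 2, dvd_rfl⟩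
      nlinarith [Nat.zero_le j, sq_nonneg ((j : ℤ))]
    have hle : sTop b2 ≤ tau fun j => 2 ^ (j ^ 2) := iInf₂_le _ ⟨hc, hl⟩
    have h1 : ((1 / ((2 ^ (n ^ 2) : ℕ) : ℝ) : ℝ) : T) ∈ dual (tau fun j => 2 ^ (j ^ 2)) :=
      mem_dual_unif ⟨n, rfl⟩
    have h2 := dual_smul h1 (k * 2 ^ (n ^ 2 - n))
    have e : (k * 2 ^ (n ^ 2 - n)) • ((1 / ((2 ^ (n ^ 2) : ℕ) : ℝ) : ℝ) : T) =
        ((k / (b2 n : ℝ) : ℝ) : T) := by
      rw [← AddCircle.coe_zsmul, zsmul_eq_mul]
      congr 1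
      unfold b2
      push_cast
      rw [mul_one_div, div_eq_div_iff (by positivity) (by positivity), mul_assoc, ← pow_add]
      congr 2
      have : n ≤ n ^ 2 := by nlinarith [Nat.zero_le n]
      omega
    rw [e] at h2
    exact continuous_le_dom hle h2

end Pool.Agent.X198.TauDyadic
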