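import Mathlib
import Pool.Agent.X198.TauDyadic

/-!
# A compatible topology that is not coarser than the supremum topology
-/

set_option autoImplicit false

namespace Pool.Agent.X198.TauBlk

open Set Filter Topology Pool.Agent.X198.TauTop Pool.Agent.X198.TauBlocks
  Pool.Agent.X198.TauDyadic

/-- quasi-convex sets for a topology on `ℤ` -/
def QC (τ : TopologicalSpace ℤ) (A : Set ℤ) : Prop :=
  {x : ℤ | ∀ t ∈ dual τ, (∀ a ∈ A, ‖a • t‖ ≤ 1 / 4) → ‖x • t‖ ≤ 1 / 4} = A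

/-- local quasi-convexity -/
def LQC (τ : TopologicalSpace ℤ) : Prop :=
  ∀ U ∈ @nhds ℤ τ 0, ∃ A ∈ @nhds ℤ τ 0, A ⊆ U ∧ QC τ A

theorem lqc_unif (E : Set T) : LQC (unif E) := by
  intro U hU
  rw [mem_nhds_unif] at hU
  obtain ⟨ε, hε, h⟩ := hU
  obtain ⟨m, hm⟩ := exists_pow_lt_of_lt_one hε (by norm_num : (1 / 2 : ℝ) < 1)
  rw [one_div_pow] at hm
  refine ⟨{k : ℤ | ∀ t ∈ E, ∀ j ≤ m, ‖k • ((2 ^ j : ℤ) • t)‖ ≤ 1 / 4}, ?_, ?_, ?_⟩
  · rw [mem_nhds_unif]
    refine ⟨(1 / 4) / 2 ^ m, by positivity, fun y hy t ht j hj => ?_⟩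
    have h1 := hy t ht
    rw [sub_zero] at h1
    rw [smul_comm]
    refine (norm_zsmul_le _ _).trans ?_
    have h2 : ‖((2 ^ j : ℤ) : ℤ)‖ ≤ 2 ^ m := by
      rw [Int.norm_eq_abs]
      push_cast
      rw [abs_of_pos (by positivity)]
      exact pow_le_pow_right₀ (by norm_num) hj
    calc ‖((2 ^ j : ℤ) : ℤ)‖ * ‖y • t‖ ≤ 2 ^ m * ((1 / 4) / 2 ^ m) := by gcongr
      _ = 1 / 4 := by field_simp
  · intro k hk
    refine h k fun t ht => ?_
    rw [sub_zero]
    have h1 : ‖k • t‖ ≤ (1 / 4) / 2 ^ m := by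
      refine double le_rfl m fun j hj => ?_
      rw [smul_comm]
      exact hk t ht j hj
    have h2 : (1 / 4 : ℝ) / 2 ^ m ≤ 1 / 2 ^ m := by gcongr; norm_num
    exact (h1.trans h2).trans_lt hm
  · apply Subset.antisymm
    · intro x hx t ht j hj
      exact hx _ (dual_smul (mem_dual_unif ht) _) fun a ha => ha t ht j hj
    · intro x hx t _ h1
      exact h1 x hx

/-- the blocks of exponents -/
def blk (n : ℕ) : Finset ℕ := (Finset.Icc 1 n).image fun i => n ^ 3 + i * n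

/-- the set of characters `∑ 1 / 2 ^ a`, the sum over a subset of a block -/
def E0 : Set T :=
  {t | ∃ (n : ℕ) (F : Finset ℕ), F ⊆ blk n ∧ t = ((∑ a ∈ F, 1 / (2 ^ a : ℝ) : ℝ) : T)}

theorem mem_blk {n a : ℕ} (h : a ∈ blk n) : 1 ≤ n ∧ n ^ 3 + n ≤ a ∧ a ≤ n ^ 3 + n ^ 2 := by
  unfold blk at h
  obtain ⟨i, hi, rfl⟩ := Finset.mem_image.1 h
  rw [Finset.mem_Icc] at hi
  refine ⟨by omega, ?_, ?_⟩
  · nlinarith
  · nlinarith

theorem lt_next (n : ℕ) : n ^ 3 + n ^ 2 < (n + 1) ^ 3 := by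
  have : (n + 1) ^ 3 = n ^ 3 + 3 * n ^ 2 + 3 * n + 1 := by ring
  nlinarith

theorem blk_sep {n a a' : ℕ} (h : a ∈ blk n) (h' : a' ∈ blk n) (hlt : a < a') : a + n ≤ a' := by
  unfold blk at h h'
  obtain ⟨i, hi, rfl⟩ := Finset.mem_image.1 h
  obtain ⟨j, hj, rfl⟩ := Finset.mem_image.1 h'
  have hij : i < j := by
    by_contra hcon
    have : j * n ≤ i * n := Nat.mul_le_mul_right n (not_lt.1 hcon)
    omega
  have : (i + 1) * n ≤ j * n := Nat.mul_le_mul_right n hij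
  rw [add_mul, one_mul] at this
  omega

theorem card_blk (n : ℕ) : (blk n).card = n := by
  rcases Nat.eq_zero_or_pos n with rfl | hn
  · rfl
  unfold blk
  rw [Finset.card_image_of_injective, Nat.card_Icc, Nat.add_sub_cancel]
  intro i j hij
  have h1 : i * n = j * n := by
    have : n ^ 3 + i * n = n ^ 3 + j * n := hij
    omega
  exact Nat.eq_of_mul_eq_mul_right hn h1

theorem gap_blk : Gap {a | ∃ n, a ∈ blk n} := by
  intro W
  refine ⟨W ^ 3 + W ^ 2, ?_⟩
  rintro a ⟨n, ha⟩ a' ⟨m, ha'⟩ hWa haa'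
  have h1 := mem_blk ha
  have h2 := mem_blk ha'
  have hWn : W ≤ n := by
    by_contra hcon
    have h3 : n + 1 ≤ W := by omega
    have h4 := Nat.pow_le_pow_left h3 3
    have h5 := lt_next n
    have : W ^ 3 + W ^ 2 ≤ n ^ 3 + n ^ 2 := hWa.trans h1.2.2
    omega
  rcases lt_trichotomy n m with h | h | h
  · have h3 : (n + 1) ^ 3 ≤ m ^ 3 := Nat.pow_le_pow_left h 3
    have h4 := lt_next n
    omega
  · subst h
    have := blk_sep ha ha' haa'
    omega
  · have h3 : (m + 1) ^ 3 ≤ n ^ 3 := Nat.pow_le_pow_left h 3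
    have h4 := lt_next m
    omega

theorem geo {F : Finset ℕ} {m : ℕ} (h : ∀ a ∈ F, m ≤ a) :
    ∑ a ∈ F, 1 / (2 ^ a : ℝ) ≤ 2 / 2 ^ m := by
  have hsub : F ⊆ Finset.Ico m (F.sup id + 1) := fun a ha => by
    rw [Finset.mem_Ico]
    exact ⟨h a ha, Nat.lt_succ_of_le (Finset.le_sup (f := id) ha)⟩
  have h1 := Finset.sum_le_sum_of_subset_of_nonneg (f := fun a : ℕ => (1 / 2 : ℝ) ^ a) hsub
    (fun _ _ _ => by positivity)
  have h2 := geom_sum_Ico_le_of_lt_one (x := (1 / 2 : ℝ)) (by norm_num) (by norm_num)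
    (m := m) (n := F.sup id + 1)
  have e : ∀ a : ℕ, (1 / 2 : ℝ) ^ a = 1 / 2 ^ a := fun a => one_div_pow 2 a
  simp only [e] at h1 h2
  refine (h1.trans h2).trans (le_of_eq ?_)
  field_simp
  norm_num

theorem geo_nonneg (F : Finset ℕ) : 0 ≤ ∑ a ∈ F, 1 / (2 ^ a : ℝ) :=
  Finset.sum_nonneg fun _ _ => by positivity

/-- `2 ^ p • s` only sees the exponents above `p`. -/
theorem smul_filter (F : Finset ℕ) (p : ℕ) :
    (2 ^ p : ℤ) • ((∑ a ∈ F, 1 / (2 ^ a : ℝ) : ℝ) : T) =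
      ((∑ a ∈ F with p < a, 2 ^ p / (2 ^ a : ℝ) : ℝ) : T) := by
  classical
  rw [← Finset.sum_filter_add_sum_filter_not F (fun a => p < a), AddCircle.coe_add, smul_add]
  have h0 : (2 ^ p : ℤ) • ((∑ a ∈ F with ¬ p < a, 1 / (2 ^ a : ℝ) : ℝ) : T) = 0 := by
    rw [coe_sum, Finset.smul_sum]
    refine Finset.sum_eq_zero fun a ha => ?_
    rw [Finset.mem_filter, not_lt] at ha
    rw [← AddCircle.coe_zsmul, AddCircle.coe_eq_zero_iff]
    refine ⟨2 ^ (p - a), ?_⟩
    rw [zsmul_eq_mul, zsmul_eq_mul]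
    push_cast
    rw [mul_one, mul_one_div, eq_div_iff (by positivity), ← pow_add]
    congr 1
    omega
  rw [h0, add_zero, ← AddCircle.coe_zsmul, zsmul_eq_mul, Finset.mul_sum]
  push_cast
  congr 1
  refine Finset.sum_congr rfl fun a _ => ?_
  rw [mul_one_div]

theorem norm_pow_smul {F : Finset ℕ} {p L : ℕ} (h : ∀ a ∈ F, p < a → p + L < a) :
    ‖(2 ^ p : ℤ) • ((∑ a ∈ F, 1 / (2 ^ a : ℝ) : ℝ) : T)‖ ≤ 1 / 2 ^ L := by
  rw [smul_filter]
  refine (norm_coe_le _).trans ?_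
  have h1 : ∑ a ∈ F with p < a, (2 ^ p / (2 ^ a : ℝ)) =
      2 ^ p * ∑ a ∈ F with p < a, 1 / (2 ^ a : ℝ) := by
    rw [Finset.mul_sum]
    exact Finset.sum_congr rfl fun a _ => by rw [mul_one_div]
  rw [h1, abs_of_nonneg (mul_nonneg (by positivity) (geo_nonneg _))]
  have h2 := geo (F := F.filter fun a => p < a) (m := p + L + 1) fun a ha => by
    rw [Finset.mem_filter] at ha
    exact h a ha.1 ha.2
  calc (2 : ℝ) ^ p * ∑ a ∈ F with p < a, 1 / (2 ^ a : ℝ) ≤ 2 ^ p * (2 / 2 ^ (p + L + 1)) := by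
        gcongr
    _ = 1 / 2 ^ L := by
        rw [pow_succ, pow_add]
        field_simp

/-- The estimate for sums with at most one position per region. -/
theorem norm_block {J : Finset ℕ} {L : ℕ} (hM : ∀ p ∈ J, (L + 1) ^ 3 ≤ p)
    (hone : ∀ p ∈ J, ∀ p' ∈ J, ∀ n, n ^ 3 ≤ p → p < (n + 1) ^ 3 → n ^ 3 ≤ p' → p' < (n + 1) ^ 3 →
      p = p') (hU : ∀ p ∈ J, ∀ n, ∀ a ∈ blk n, p < a → p + L < a) {n : ℕ} {F : Finset ℕ}
    (hF : F ⊆ blk n) :
    ‖(∑ p ∈ J, 2 ^ p : ℤ) • ((∑ a ∈ F, 1 / (2 ^ a : ℝ) : ℝ) : T)‖ ≤ 2 / 2 ^ L := by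
  classical
  set s : T := ((∑ a ∈ F, 1 / (2 ^ a : ℝ) : ℝ) : T) with hs
  have hsplit : (∑ p ∈ J, 2 ^ p : ℤ) =
      ∑ p ∈ J with p < n ^ 3, 2 ^ p + ∑ p ∈ J with ¬ p < n ^ 3, 2 ^ p :=
    (Finset.sum_filter_add_sum_filter_not J (fun p => p < n ^ 3) _).symm
  rw [hsplit, add_smul]
  have h1 : ‖(∑ p ∈ J with p < n ^ 3, 2 ^ p : ℤ) • s‖ ≤ 1 / 2 ^ L := by
    rcases (J.filter fun p => p < n ^ 3).eq_empty_or_nonempty with he | ⟨p, hp⟩
    · rw [he]
      simp
    · rw [Finset.mem_filter] at hp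
      have hn : L + 1 < n := by
        by_contra hcon
        have := Nat.pow_le_pow_left (not_lt.1 hcon) 3
        have := hM p hp.1
        omega
      rw [hs, ← AddCircle.coe_zsmul, zsmul_eq_mul]
      refine (norm_coe_le _).trans ?_
      have hlt : (∑ p ∈ J with p < n ^ 3, 2 ^ p : ℕ) ≤ 2 ^ (n ^ 3) :=
        (Nat.geomSum_lt le_rfl fun p hp => (Finset.mem_filter.1 hp).2).le
      have hlt' : ((∑ p ∈ J with p < n ^ 3, 2 ^ p : ℤ) : ℝ) ≤ 2 ^ (n ^ 3) := by exact_mod_cast hlt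
      have hnn : (0 : ℝ) ≤ ((∑ p ∈ J with p < n ^ 3, 2 ^ p : ℤ) : ℝ) := by positivity
      have h2 := geo (F := F) (m := n ^ 3 + n) fun a ha => (mem_blk (hF ha)).2.1
      have h3 := geo_nonneg F
      rw [abs_of_nonneg (mul_nonneg hnn h3)]
      calc ((∑ p ∈ J with p < n ^ 3, 2 ^ p : ℤ) : ℝ) * ∑ a ∈ F, 1 / (2 ^ a : ℝ)
          ≤ 2 ^ (n ^ 3) * (2 / 2 ^ (n ^ 3 + n)) := by gcongr
        _ = 2 / 2 ^ n := by
            rw [pow_add]
            field_simp
        _ ≤ 2 / 2 ^ (L + 1) := by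
            gcongr <;> first | omega | norm_num
        _ = 1 / 2 ^ L := by
            rw [pow_succ]
            field_simp
  have h2 : ‖(∑ p ∈ J with ¬ p < n ^ 3, 2 ^ p : ℤ) • s‖ ≤ 1 / 2 ^ L := by
    have hfar : ∀ p, (n + 1) ^ 3 ≤ p → (2 ^ p : ℤ) • s = 0 := by
      intro p hp
      rw [hs, smul_filter]
      have : F.filter (fun a => p < a) = ∅ := by
        rw [Finset.filter_eq_empty_iff]
        intro a ha hpa
        have h3 := mem_blk (hF ha)
        have h4 := lt_next n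
        omega
      rw [this]
      simp
    rw [Finset.sum_smul]
    by_cases hex : ∃ p ∈ J, n ^ 3 ≤ p ∧ p < (n + 1) ^ 3
    · obtain ⟨p, hpJ, hp1, hp2⟩ := hex
      rw [Finset.sum_eq_single_of_mem p (Finset.mem_filter.2 ⟨hpJ, not_lt.2 hp1⟩)]
      · exact norm_pow_smul fun a ha hpa => hU p hpJ n a (hF ha) hpa
      · intro p' hp' hne
        rw [Finset.mem_filter, not_lt] at hp'
        refine hfar p' ?_
        by_contra hcon
        exact hne (hone p' hp'.1 p hpJ n hp'.2 (not_le.1 hcon) hp1 hp2)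
    · push Not at hex
      rw [Finset.sum_eq_zero]
      · simp
      · intro p hp
        rw [Finset.mem_filter, not_lt] at hp
        exact hfar p (hex p hp.1 hp.2)
  refine (norm_add_le _ _).trans ?_
  have e : (2 : ℝ) / 2 ^ L = 1 / 2 ^ L + 1 / 2 ^ L := by ring
  rw [e]
  exact add_le_add h1 h2

theorem exists_reg (p : ℕ) : ∃ n, n ^ 3 ≤ p ∧ p < (n + 1) ^ 3 := by
  refine ⟨Nat.findGreatest (fun n => n ^ 3 ≤ p) p, ?_, ?_⟩
  · exact Nat.findGreatest_spec (P := fun n => n ^ 3 ≤ p) (Nat.zero_le p) (by simp)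
  · by_contra hcon
    rw [not_lt] at hcon
    set g := Nat.findGreatest (fun n => n ^ 3 ≤ p) p with hg
    have h1 : g + 1 ≤ p := by
      refine le_trans ?_ hcon
      exact Nat.le_self_pow (by norm_num) _
    have := Nat.le_findGreatest (P := fun n => n ^ 3 ≤ p) h1 hcon
    omega

theorem dual_E0 : dual (unif E0) = HH b2 := by
  classical
  apply Subset.antisymm
  · intro t ht
    have hcont : @ContinuousAt ℤ T (unif E0) _ (fun k : ℤ => k • t) 0 :=
      @Continuous.continuousAt ℤ T (unif E0) _ _ 0 ht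
    have hU : {k : ℤ | ‖k • t‖ < 1 / 4} ∈ @nhds ℤ (unif E0) 0 := by
      have h1 := hcont (Metric.ball_mem_nhds _ (show (0 : ℝ) < 1 / 4 by norm_num))
      rw [mem_map] at h1
      simpa [Metric.ball, dist_zero_right] using h1
    rw [mem_nhds_unif] at hU
    obtain ⟨ε, hε, hV⟩ := hU
    obtain ⟨L, hL⟩ : ∃ L : ℕ, 2 / (2 : ℝ) ^ L < ε := by
      obtain ⟨L, hL⟩ := exists_pow_lt_of_lt_one (half_pos hε) (by norm_num : (1 / 2 : ℝ) < 1)
      refine ⟨L, ?_⟩
      rw [one_div_pow] at hL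
      have e : (2 : ℝ) / 2 ^ L = 2 * (1 / 2 ^ L) := by ring
      rw [e]
      linarith
    obtain ⟨R, p0, hR⟩ := window ({()} : Finset Unit) (fun _ => {a | ∃ n, a ∈ blk n})
      (fun _ _ => gap_blk) L
    refine dyadic_of (U := {q | ∃ n, ∃ a ∈ blk n, q < a ∧ a ≤ q + L})
      (R := R) (p0 := p0) (fun p hp => ?_) fun η hη => ?_
    · obtain ⟨q, h1, h2, h3⟩ := hR p hp
      refine ⟨q, h1, h2, ?_⟩
      rintro ⟨n, a, ha, h4⟩
      exact h3 () (Finset.mem_singleton_self _) a ⟨n, ha⟩ h4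
    · by_contra hinf
      choose reg hreg1 hreg2 using exists_reg
      set P0 := {p : ℕ | p ∉ {q | ∃ n, ∃ a ∈ blk n, q < a ∧ a ≤ q + L} ∧ η ≤ ‖(2 ^ p : ℤ) • t‖}
        with hP0
      have hinf1 : (P0 \ Iio ((L + 1) ^ 3)).Infinite :=
        Set.Infinite.sdiff hinf (finite_Iio _)
      obtain ⟨P, hP, hbij⟩ := exists_subset_bijOn (P0 \ Iio ((L + 1) ^ 3)) reg
      have himg : (reg '' (P0 \ Iio ((L + 1) ^ 3))).Infinite := by
        intro hfin
        obtain ⟨N, hN⟩ := hfin.bddAbove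
        refine hinf1 ((finite_Iio ((N + 1) ^ 3)).subset fun p hp => ?_)
        have h1 : reg p ≤ N := hN ⟨p, hp, rfl⟩
        have h2 : (reg p + 1) ^ 3 ≤ (N + 1) ^ 3 := Nat.pow_le_pow_left (by omega) 3
        exact (hreg2 p).trans_le h2
      have hPinf : P.Infinite := by
        intro hfin
        refine himg ?_
        rw [← hbij.image_eq]
        exact hfin.image _
      refine gliding (f := fun p => (2 ^ p : ℤ) • t) hPinf hη (fun p hp => (hP hp).1.2)
        fun J hJ => ?_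
      rw [← Finset.sum_smul]
      refine (hV _ ?_).le
      rintro s ⟨n, F, hF, rfl⟩
      rw [sub_zero]
      refine (norm_block (L := L) (fun p hp => not_lt.1 (hP (hJ hp)).2) ?_ ?_ hF).trans_lt hL
      · intro p hp p' hp' m h1 h2 h3 h4
        have hm : ∀ q, m ^ 3 ≤ q → q < (m + 1) ^ 3 → reg q = m := by
          intro q hq1 hq2
          rcases lt_trichotomy (reg q) m with h | h | h
          · have := Nat.pow_le_pow_left (show reg q + 1 ≤ m from h) 3
            have := hreg2 q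
            omega
          · exact h
          · have := Nat.pow_le_pow_left (show m + 1 ≤ reg q from h) 3
            have := hreg1 q
            omega
        exact hbij.injOn (hJ hp) (hJ hp') ((hm p h1 h2).trans (hm p' h3 h4).symm)
      · intro p hp m a ha hpa
        by_contra hcon
        exact (hP (hJ hp)).1.1 ⟨m, a, ha, hpa, by omega⟩
  · rintro t ⟨k, n, rfl⟩
    set m := n + 1 with hm
    have hmem : m ^ 3 + 1 * m ∈ blk m :=
      Finset.mem_image.2 ⟨1, by rw [Finset.mem_Icc]; omega, rfl⟩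
    have h1 : ((1 / (2 ^ (m ^ 3 + 1 * m) : ℝ) : ℝ) : T) ∈ dual (unif E0) := by
      refine mem_dual_unif ⟨m, {m ^ 3 + 1 * m}, ?_, ?_⟩
      · simpa using hmem
      · rw [Finset.sum_singleton]
    have h2 := dual_smul h1 (k * 2 ^ (m ^ 3 + 1 * m - n))
    have e : (k * 2 ^ (m ^ 3 + 1 * m - n)) • ((1 / (2 ^ (m ^ 3 + 1 * m) : ℝ) : ℝ) : T) =
        ((k / (b2 n : ℝ) : ℝ) : T) := by
      rw [← AddCircle.coe_zsmul, zsmul_eq_mul]
      congr 1
      unfold b2
      push_cast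
      rw [mul_one_div, div_eq_div_iff (by positivity) (by positivity), mul_assoc, ← pow_add]
      congr 2
      omega
    rw [e] at h2
    exact h2

/-- A subset with weight in `[1/4, 3/4)`. -/
theorem exists_subset_weight {w : ℕ → ℝ} (S : Finset ℕ) (hw : ∀ a ∈ S, w a ≤ 1 / 2)
    (hS : 1 / 4 ≤ ∑ a ∈ S, w a) : ∃ F ⊆ S, 1 / 4 ≤ ∑ a ∈ F, w a ∧ ∑ a ∈ F, w a < 3 / 4 := by
  classical
  induction S using Finset.induction_on with
  | empty =>
    rw [Finset.sum_empty] at hS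
    norm_num at hS
  | insert a S ha ih =>
    by_cases h : 1 / 4 ≤ ∑ b ∈ S, w b
    · obtain ⟨F, hF, h1⟩ := ih (fun b hb => hw b (Finset.mem_insert_of_mem hb)) h
      exact ⟨F, hF.trans (Finset.subset_insert _ _), h1⟩
    · refine ⟨insert a S, subset_rfl, hS, ?_⟩
      rw [Finset.sum_insert ha]
      have := hw a (Finset.mem_insert_self _ _)
      linarith

theorem norm_ge {r : ℝ} (h1 : 1 / 4 ≤ r) (h2 : r ≤ 4 / 5) : 1 / 5 ≤ ‖(r : T)‖ := by
  rw [UnitAddCircle.norm_eq, abs_sub_round_eq_min]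
  have hf : Int.fract r = r := Int.fract_eq_self.2 ⟨by linarith, by linarith⟩
  rw [hf]
  refine le_min (by linarith) (by linarith)

/-- The topology is not coarser than the supremum topology. -/
theorem not_le : ¬ sTop b2 ≤ unif E0 := by
  classical
  intro hle
  have hW : {k : ℤ | ∀ s ∈ E0, ‖k • s‖ < 1 / 5} ∈ @nhds ℤ (unif E0) 0 := by
    rw [mem_nhds_unif]
    refine ⟨1 / 5, by norm_num, fun y hy s hs => ?_⟩
    have := hy s hs
    rwa [sub_zero] at this
  have hW' := nhds_mono hle hW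
  obtain ⟨F, hF, ε, hε, hV⟩ := nhds_sTop hW'
  obtain ⟨L, hL⟩ : ∃ L : ℕ, 1 / (2 : ℝ) ^ L < ε := by
    obtain ⟨L, hL⟩ := exists_pow_lt_of_lt_one hε (by norm_num : (1 / 2 : ℝ) < 1)
    exact ⟨L, by rwa [one_div_pow] at hL⟩
  obtain ⟨R, p0, hR⟩ := window F (fun c => {a | ∃ n, c n = 2 ^ a})
    (fun c hc => gap_of (hF c hc).1 (hF c hc).2) L
  obtain ⟨n, hn1, hn2, hn3⟩ : ∃ n : ℕ, p0 + R + 2 ≤ n ∧ (n : ℝ) / 2 ^ n < 1 / 20 ∧
      (2 : ℝ) ^ (R + 1) ≤ n := by
    have h1 : Tendsto (fun n : ℕ => (n : ℝ) / 2 ^ n) atTop (𝓝 0) := by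
      simpa using tendsto_pow_const_div_const_pow_of_one_lt 1 (by norm_num : (1 : ℝ) < 2)
    obtain ⟨N, hN⟩ := exists_nat_ge ((2 : ℝ) ^ (R + 1))
    obtain ⟨n, h2, h3, h4⟩ := ((eventually_ge_atTop (p0 + R + 2)).and
      ((h1.eventually_lt_const (show (0 : ℝ) < 1 / 20 by norm_num)).and
        (eventually_ge_atTop N))).exists
    exact ⟨n, h2, h3, hN.trans (by exact_mod_cast h4)⟩
  have hq : ∀ a ∈ blk n, ∃ q, q < a ∧ a ≤ q + R + 1 ∧
      ∀ c ∈ F, ∀ a' ∈ {a | ∃ n, c n = 2 ^ a}, ¬ (q < a' ∧ a' ≤ q + L) := by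
    intro a ha
    have h1 := mem_blk ha
    have h2 : n ≤ n ^ 3 + n := by omega
    obtain ⟨q, h3, h4, h5⟩ := hR (a - 1) (by omega)
    exact ⟨q, by omega, by omega, h5⟩
  choose! q hq1 hq2 hq3 using hq
  obtain ⟨F', hF', hw1, hw2⟩ := exists_subset_weight (w := fun a => 1 / (2 : ℝ) ^ (a - q a)) (blk n)
    (fun a ha => by
      have h1 := hq1 a ha
      calc (1 : ℝ) / 2 ^ (a - q a) ≤ 1 / 2 ^ 1 := by
            gcongr
            · norm_num
            · omega
        _ = 1 / 2 := by norm_num)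
    (by
      have h1 : ∀ a ∈ blk n, (1 : ℝ) / 2 ^ (R + 1) ≤ 1 / 2 ^ (a - q a) := by
        intro a ha
        have := hq2 a ha
        gcongr
        · norm_num
        · omega
      have h2 := Finset.card_nsmul_le_sum _ _ _ h1
      rw [card_blk, nsmul_eq_mul] at h2
      refine le_trans ?_ h2
      rw [mul_one_div, le_div_iff₀ (by positivity)]
      linarith)
  have hinj : ∀ a ∈ F', ∀ a' ∈ F', q a = q a' → a = a' := by
    intro a ha a' ha' he
    rcases lt_trichotomy a a' with h | h | h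
    · have := blk_sep (hF' ha) (hF' ha') h
      have := hq1 a (hF' ha)
      have := hq2 a' (hF' ha')
      omega
    · exact h
    · have := blk_sep (hF' ha') (hF' ha) h
      have := hq1 a' (hF' ha')
      have := hq2 a (hF' ha)
      omega
  set J := F'.image q with hJ
  have hkJ : (∑ p ∈ J, 2 ^ p : ℤ) = ∑ a ∈ F', 2 ^ q a := Finset.sum_image fun a ha a' ha' => hinj a ha a' ha'
  have hkV : (∑ p ∈ J, 2 ^ p : ℤ) ∈ {k : ℤ | ∀ s ∈ E0, ‖k • s‖ < 1 / 5} := by
    refine hV _ fun c hc m => ?_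
    obtain ⟨a, ha⟩ := pow_of (hF c hc).2 m
    rw [ha]
    push_cast
    refine (sum_norm_le (L := L) fun p hp hpa => ?_).trans_lt hL
    obtain ⟨a', ha', rfl⟩ := Finset.mem_image.1 hp
    by_contra hcon
    exact hq3 a' (hF' ha') c hc a ⟨m, ha⟩ ⟨hpa, by omega⟩
  have hsmall := hkV _ ⟨n, F', hF', rfl⟩
  rw [hkJ] at hsmall
  -- the value of the character
  have hterm : ∀ a' ∈ F', ∃ e : ℝ, 0 ≤ e ∧ e ≤ 1 / 2 ^ n ∧
      (∑ a ∈ F', 2 ^ q a : ℤ) • ((1 / (2 ^ a' : ℝ) : ℝ) : T) =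
        ((1 / (2 : ℝ) ^ (a' - q a') + e : ℝ) : T) := by
    intro a' ha'
    have h1 := hq1 a' (hF' ha')
    refine ⟨(∑ a ∈ F' with a < a', 2 ^ q a : ℕ) / 2 ^ a', by positivity, ?_, ?_⟩
    · have hlt : (∑ a ∈ F' with a < a', 2 ^ q a : ℕ) ≤ 2 ^ (a' - n) := by
        have e1 : (∑ a ∈ F' with a < a', 2 ^ q a : ℕ) = ∑ p ∈ (F'.filter fun a => a < a').image q, 2 ^ p := by
          rw [Finset.sum_image]
          intro a ha b hb
          exact hinj a (Finset.mem_filter.1 ha).1 b (Finset.mem_filter.1 hb).1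
        rw [e1]
        refine (Nat.geomSum_lt le_rfl fun p hp => ?_).le
        obtain ⟨a, ha, rfl⟩ := Finset.mem_image.1 hp
        rw [Finset.mem_filter] at ha
        have := blk_sep (hF' ha.1) (hF' ha') ha.2
        have := hq1 a (hF' ha.1)
        omega
      have hlt' : (((∑ a ∈ F' with a < a', 2 ^ q a : ℕ)) : ℝ) ≤ 2 ^ (a' - n) := by exact_mod_cast hlt
      have hna : n ≤ a' := by
        have := mem_blk (hF' ha')
        omega
      calc (((∑ a ∈ F' with a < a', 2 ^ q a : ℕ)) : ℝ) / 2 ^ a' ≤ 2 ^ (a' - n) / 2 ^ a' := by gcongr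
        _ = 1 / 2 ^ n := by
            rw [div_eq_div_iff (by positivity) (by positivity), one_mul, ← pow_add]
            congr 1
            omega
    · have hz : (∑ a ∈ F' with a' < a, 2 ^ q a : ℤ) • ((1 / (2 ^ a' : ℝ) : ℝ) : T) = 0 := by
        rw [Finset.sum_smul]
        refine Finset.sum_eq_zero fun a ha => ?_
        rw [Finset.mem_filter] at ha
        have h2 := blk_sep (hF' ha') (hF' ha.1) ha.2
        have h3 := hq2 a (hF' ha.1)
        rw [← AddCircle.coe_zsmul, AddCircle.coe_eq_zero_iff]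
        refine ⟨2 ^ (q a - a'), ?_⟩
        rw [zsmul_eq_mul, zsmul_eq_mul]
        push_cast
        rw [mul_one, mul_one_div, eq_div_iff (by positivity), ← pow_add]
        congr 1
        omega
      have hsplit : (∑ a ∈ F', 2 ^ q a : ℤ) = (2 ^ q a' + ∑ a ∈ F' with a < a', 2 ^ q a) +
          ∑ a ∈ F' with a' < a, 2 ^ q a := by
        rw [← Finset.sum_filter_add_sum_filter_not F' (fun a => a' < a), add_comm]
        congr 1
        rw [← Finset.sum_filter_add_sum_filter_not (F'.filter fun a => ¬ a' < a) (fun a => a < a'),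
          add_comm, Finset.filter_filter, Finset.filter_filter]
        congr 1
        · have e1 : (F'.filter fun a => ¬ a' < a ∧ ¬ a < a') = {a'} := by
            ext a
            rw [Finset.mem_filter, Finset.mem_singleton]
            constructor
            · rintro ⟨-, h2, h3⟩
              omega
            · rintro rfl
              exact ⟨ha', by omega, by omega⟩
          rw [e1, Finset.sum_singleton]
        · refine Finset.sum_congr ?_ fun _ _ => rfl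
          ext a
          rw [Finset.mem_filter, Finset.mem_filter]
          constructor
          · rintro ⟨h2, h3, h4⟩
            exact ⟨h2, h4⟩
          · rintro ⟨h2, h3⟩
            exact ⟨h2, by omega, h3⟩
      rw [hsplit, add_smul, hz, add_zero, ← AddCircle.coe_zsmul, zsmul_eq_mul]
      congr 1
      push_cast
      rw [add_mul]
      congr 1
      · rw [mul_one_div, div_eq_div_iff (by positivity) (by positivity), one_mul, ← pow_add]
        congr 1
        omega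
      · rw [mul_one_div]
  choose! e he0 he1 he2 using hterm
  have hval : (∑ a ∈ F', 2 ^ q a : ℤ) • ((∑ a ∈ F', 1 / (2 ^ a : ℝ) : ℝ) : T) =
      ((∑ a ∈ F', (1 / (2 : ℝ) ^ (a - q a) + e a) : ℝ) : T) := by
    rw [coe_sum, coe_sum, Finset.smul_sum]
    exact Finset.sum_congr rfl fun a ha => he2 a ha
  rw [hval, Finset.sum_add_distrib] at hsmall
  have h5 : 0 ≤ ∑ a ∈ F', e a := Finset.sum_nonneg he0
  have h6 : ∑ a ∈ F', e a ≤ 1 / 20 := by
    have h7 := Finset.sum_le_card_nsmul _ _ _ he1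
    have h8 : F'.card ≤ n := (Finset.card_le_card hF').trans_eq (card_blk n)
    have h9 : (F'.card : ℝ) ≤ n := by exact_mod_cast h8
    rw [nsmul_eq_mul] at h7
    refine h7.trans (le_trans ?_ hn2.le)
    rw [mul_one_div]
    gcongr
  have h10 := norm_ge (r := ∑ a ∈ F', 1 / (2 : ℝ) ^ (a - q a) + ∑ a ∈ F', e a) (by linarith)
    (by linarith)
  exact absurd hsmall (not_lt.2 h10)

end Pool.Agent.X198.TauBlk
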