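import Mathlib
import Pool.Agent.X198.TauBlocks

/-!
# The supremum of the topologies `tau c` need not be compatible
-/

set_option autoImplicit false

namespace Pool.Agent.X198.TauCounter

open Set Filter Topology Pool.Agent.X198.TauTop Pool.Agent.X198.TauBlocks

/-- two chains with doubling differences -/
def uw (t : ℕ) : ℕ → ℕ × ℕ
  | 0 => (t + 3, t + 2)
  | j + 1 => (((uw t j).2 + 2) * (uw t j).1, ((uw t j).1 + 2) * (uw t j).2)

/-- first chain -/
def u (t j : ℕ) : ℕ := (uw t j).1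
/-- second chain -/
def w (t j : ℕ) : ℕ := (uw t j).2

theorem u_succ (t j : ℕ) : u t (j + 1) = (w t j + 2) * u t j := rfl
theorem w_succ (t j : ℕ) : w t (j + 1) = (u t j + 2) * w t j := rfl

theorem u_eq (t j : ℕ) : u t j = w t j + 2 ^ j := by
  induction j with
  | zero => rfl
  | succ j ih =>
    rw [u_succ, w_succ, ih, pow_succ]
    ring

theorem w_ge (t j : ℕ) : t + 2 ≤ w t j := by
  induction j with
  | zero => exact le_rfl
  | succ j ih =>
    rw [w_succ]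
    nlinarith [Nat.zero_le (u t j)]

theorem u_ge (t j : ℕ) : t + 2 ≤ u t j := by
  rw [u_eq]
  exact (w_ge t j).trans (Nat.le_add_right _ _)

/-- the stations -/
def Q : ℕ → ℕ
  | 0 => 1
  | t + 1 => Q t * (u t t * w t t)

theorem Q_pos (t : ℕ) : 0 < Q t := by
  induction t with
  | zero => exact one_pos
  | succ t ih =>
    rw [Q]
    have := w_ge t t
    have := u_ge t t
    exact Nat.mul_pos ih (Nat.mul_pos (by omega) (by omega))

theorem Q_succ_ge (t : ℕ) : 4 * Q t ≤ Q (t + 1) := by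
  rw [Q, mul_comm 4]
  refine Nat.mul_le_mul_left _ ?_
  have := w_ge t t
  have := u_ge t t
  nlinarith

theorem isD_Q : IsD Q := by
  refine ⟨rfl, fun n => ⟨Q_pos n, ⟨_, rfl⟩, ?_⟩⟩
  have := Q_succ_ge n
  have := Q_pos n
  omega

theorem exists_c : ∃ c : ℕ → ℕ, DInf c ∧ lam c = lam Q ∧
    ∀ t j, j ≤ t → ∃ n, c n * u t j = Q (t + 1) := by
  obtain ⟨c, hc, h1, h2, h3⟩ := exists_seq (Q := Q) (R := fun t => w t t) (a := u) rfl
    (fun t => by rw [Q, mul_comm (u t t)]) (fun t => w_ge t t) (fun t => u_ge t 0)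
    (fun t j => ⟨w t j + 2, by have := w_ge t j; omega, by rw [u_succ, mul_comm]⟩)
  refine ⟨c, hc, lam_eq (fun n => ?_) h2, h3⟩
  obtain ⟨m, hm⟩ := h1 n
  exact ⟨m, by rw [hm]⟩

theorem exists_c' : ∃ c : ℕ → ℕ, DInf c ∧ lam c = lam Q ∧
    ∀ t j, j ≤ t → ∃ n, c n * w t j = Q (t + 1) := by
  obtain ⟨c, hc, h1, h2, h3⟩ := exists_seq (Q := Q) (R := fun t => u t t) (a := w) rfl
    (fun t => by rw [Q]) (fun t => u_ge t t) (fun t => w_ge t 0)
    (fun t j => ⟨u t j + 2, by have := u_ge t j; omega, by rw [w_succ, mul_comm]⟩)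
  refine ⟨c, hc, lam_eq (fun n => ?_) h2, h3⟩
  obtain ⟨m, hm⟩ := h1 n
  exact ⟨m, by rw [hm]⟩

/-- partial sums -/
noncomputable def S (n : ℕ) : ℝ := ∑ t ∈ Finset.range n, 1 / (Q (t + 1) : ℝ)

theorem S_succ (n : ℕ) : S (n + 1) = S n + 1 / (Q (n + 1) : ℝ) := by
  unfold S
  rw [Finset.sum_range_succ]

theorem Qr_pos (t : ℕ) : (0 : ℝ) < Q t := by exact_mod_cast Q_pos t

theorem S_mono : Monotone S := by
  refine monotone_nat_of_le_succ fun n => ?_
  rw [S_succ]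
  have := Qr_pos (n + 1)
  have : (0 : ℝ) < 1 / (Q (n + 1) : ℝ) := by positivity
  linarith

theorem S_anti : Antitone fun n => S n + 1 / (3 * Q n : ℝ) := by
  refine antitone_nat_of_succ_le fun n => ?_
  rw [S_succ]
  have h1 := Qr_pos n
  have h2 := Qr_pos (n + 1)
  have h3 : (4 : ℝ) * Q n ≤ Q (n + 1) := by exact_mod_cast Q_succ_ge n
  have h4 : 1 / (Q (n + 1) : ℝ) ≤ 1 / (4 * Q n) := one_div_le_one_div_of_le (by positivity) h3
  have e1 : 1 / (3 * Q (n + 1) : ℝ) = (1 / 3) * (1 / (Q (n + 1) : ℝ)) := by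
    field_simp
  have e2 : 1 / (3 * Q n : ℝ) = (4 / 3) * (1 / (4 * Q n)) := by
    field_simp
  rw [e1, e2]
  linarith

theorem exists_limit : ∃ x : ℝ, Tendsto S atTop (𝓝 x) ∧
    ∀ n, S n + 1 / (Q (n + 1) : ℝ) ≤ x ∧ x ≤ S n + 1 / (3 * Q n : ℝ) := by
  have hbdd : BddAbove (range S) := by
    refine ⟨S 0 + 1 / (3 * Q 0 : ℝ), ?_⟩
    rintro y ⟨n, rfl⟩
    have h1 := S_anti (Nat.zero_le n)
    have h2 := Qr_pos n
    have h3 : (0 : ℝ) ≤ 1 / (3 * Q n) := by positivity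
    simp only at h1
    linarith
  have hx := tendsto_atTop_ciSup S_mono hbdd
  refine ⟨_, hx, fun n => ⟨?_, ?_⟩⟩
  · rw [← S_succ]
    exact le_ciSup hbdd (n + 1)
  · refine le_of_tendsto hx ?_
    filter_upwards [eventually_ge_atTop n] with m hm
    have h1 := S_anti hm
    have h2 := Qr_pos m
    have h3 : (0 : ℝ) ≤ 1 / (3 * Q m) := by positivity
    simp only at h1
    linarith

theorem Q_dvd {m n : ℕ} (h : m ≤ n) : Q m ∣ Q n := by
  induction n, h using Nat.le_induction with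
  | base => exact dvd_rfl
  | succ n _ ih => exact ih.trans (isD_Q.2 n).2.1

/-- `Q n * S n` is an integer -/
theorem QS_int (n : ℕ) : ∃ m : ℤ, (Q n : ℝ) * S n = m := by
  unfold S
  rw [Finset.mul_sum]
  have h : ∀ t ∈ Finset.range n, ∃ m : ℤ, (Q n : ℝ) * (1 / (Q (t + 1) : ℝ)) = m := by
    intro t ht
    rw [Finset.mem_range] at ht
    obtain ⟨r, hr⟩ := Q_dvd (show t + 1 ≤ n from ht)
    refine ⟨r, ?_⟩
    have h1 := Qr_pos (t + 1)
    rw [hr]
    push_cast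
    field_simp
  choose! m hm using h
  exact ⟨∑ t ∈ Finset.range n, m t, by push_cast; exact Finset.sum_congr rfl hm⟩

theorem coe_intCast (m : ℤ) : (((m : ℝ)) : T) = 0 :=
  (AddCircle.coe_eq_zero_iff 1).2 ⟨m, by simp⟩

/-- The limit is not in the group. -/
theorem not_mem {x : ℝ} (hx : ∀ n, S n + 1 / (Q (n + 1) : ℝ) ≤ x ∧ x ≤ S n + 1 / (3 * Q n : ℝ)) :
    (x : T) ∉ HH Q := by
  rintro ⟨k, n, hk⟩
  have h1 : ((x - k / (Q n : ℝ) : ℝ) : T) = 0 := by
    rw [AddCircle.coe_sub, hk, sub_self]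
  obtain ⟨m, hm⟩ := (AddCircle.coe_eq_zero_iff 1).1 h1
  obtain ⟨l, hl⟩ := QS_int n
  have hQ := Qr_pos n
  have hQ1 := Qr_pos (n + 1)
  have h2 : (Q n : ℝ) * (x - S n) = ((m * Q n + k - l : ℤ) : ℝ) := by
    rw [zsmul_eq_mul, mul_one] at hm
    have h3 : x = m + k / (Q n : ℝ) := by linarith
    push_cast
    rw [mul_sub, hl, h3]
    field_simp
  have h4 : 0 < (Q n : ℝ) * (x - S n) := by
    have : 0 < 1 / (Q (n + 1) : ℝ) := by positivity
    have : 0 < x - S n := by linarith [(hx n).1]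
    positivity
  have h5 : (Q n : ℝ) * (x - S n) < 1 := by
    have h6 : x - S n ≤ 1 / (3 * Q n : ℝ) := by linarith [(hx n).2]
    calc (Q n : ℝ) * (x - S n) ≤ Q n * (1 / (3 * Q n : ℝ)) := by gcongr
      _ = 1 / 3 := by field_simp
      _ < 1 := by norm_num
  rw [h2] at h4 h5
  have h6 : (0 : ℤ) < m * Q n + k - l := by exact_mod_cast h4
  have h7 : (m * Q n + k - l : ℤ) < 1 := by exact_mod_cast h5
  omega

/-- The norm estimate at the stations. -/
theorem norm_le {c c' : ℕ → ℕ} (hc : ∀ t j, j ≤ t → ∃ n, c n * u t j = Q (t + 1))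
    (hc' : ∀ t j, j ≤ t → ∃ n, c' n * w t j = Q (t + 1)) {ε : ℝ} (hε : ε ≤ 1 / 8) {k : ℤ}
    (h : ∀ n, ‖k • ((1 / (c n : ℝ) : ℝ) : T)‖ ≤ ε) (h' : ∀ n, ‖k • ((1 / (c' n : ℝ) : ℝ) : T)‖ ≤ ε)
    (t : ℕ) : ‖k • ((1 / (Q (t + 1) : ℝ) : ℝ) : T)‖ ≤ (2 * ε) / 2 ^ t := by
  refine double (by linarith) t fun j hj => ?_
  obtain ⟨n, hn⟩ := hc t j hj
  obtain ⟨m, hm⟩ := hc' t j hj
  have hQ := Qr_pos (t + 1)
  have hn' : (c n : ℝ) * u t j = Q (t + 1) := by exact_mod_cast hn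
  have hm' : (c' m : ℝ) * w t j = Q (t + 1) := by exact_mod_cast hm
  have hcn : (c n : ℝ) ≠ 0 := by
    intro h0
    rw [h0, zero_mul] at hn'
    exact hQ.ne hn'
  have hcm : (c' m : ℝ) ≠ 0 := by
    intro h0
    rw [h0, zero_mul] at hm'
    exact hQ.ne hm'
  have hu : (u t j : ℝ) = w t j + 2 ^ j := by exact_mod_cast u_eq t j
  have e1 : (1 / (c n : ℝ)) = u t j / Q (t + 1) := by
    rw [← hn']
    have : (u t j : ℝ) ≠ 0 := by
      intro h0
      rw [h0, mul_zero] at hn'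
      exact hQ.ne hn'
    field_simp
  have e2 : (1 / (c' m : ℝ)) = w t j / Q (t + 1) := by
    rw [← hm']
    have : (w t j : ℝ) ≠ 0 := by
      intro h0
      rw [h0, mul_zero] at hm'
      exact hQ.ne hm'
    field_simp
  have e3 : (2 ^ j : ℤ) • (k • ((1 / (Q (t + 1) : ℝ) : ℝ) : T)) =
      k • ((1 / (c n : ℝ) : ℝ) : T) - k • ((1 / (c' m : ℝ) : ℝ) : T) := by
    rw [smul_comm, ← smul_sub, ← AddCircle.coe_sub, ← AddCircle.coe_zsmul]
    congr 2
    rw [e1, e2, ← sub_div, hu, add_sub_cancel_left, zsmul_eq_mul]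
    push_cast
    ring
  rw [e3]
  refine (norm_sub_le _ _).trans ?_
  linarith [h n, h' m]

/-- The limit is a continuous character. -/
theorem mem_dual {x : ℝ} (hx : Tendsto S atTop (𝓝 x)) : (x : T) ∈ dual (sTop Q) := by
  obtain ⟨c, hc, hcl, hcu⟩ := exists_c
  obtain ⟨c', hc', hcl', hcu'⟩ := exists_c'
  have hle : sTop Q ≤ tau c ⊓ tau c' :=
    le_inf (iInf₂_le c ⟨hc, hcl⟩) (iInf₂_le c' ⟨hc', hcl'⟩)
  have hcont : @Continuous ℤ T (tau c ⊓ tau c') inferInstance fun k : ℤ => k • (x : T) := by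
    let _ : TopologicalSpace ℤ := tau c ⊓ tau c'
    have hgrp : @IsTopologicalAddGroup ℤ (tau c ⊓ tau c') _ :=
      topologicalAddGroup_inf (group_unif _) (group_unif _)
    refine continuous_of_continuousAt_zero (zmultiplesHom T (x : T)) ?_
    rw [ContinuousAt, map_zero, Metric.tendsto_nhds]
    intro δ hδ
    set ε := min (δ / 8) (1 / 8) with hε
    have hε0 : 0 < ε := lt_min (by linarith) (by norm_num)
    have h1 : {k : ℤ | ∀ n, ‖k • ((1 / (c n : ℝ) : ℝ) : T)‖ < ε} ∈ @nhds ℤ (tau c) 0 := by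
      unfold tau
      rw [mem_nhds_unif]
      refine ⟨ε, hε0, fun y hy n => ?_⟩
      have := hy _ ⟨n, rfl⟩
      rwa [sub_zero] at this
    have h2 : {k : ℤ | ∀ n, ‖k • ((1 / (c' n : ℝ) : ℝ) : T)‖ < ε} ∈ @nhds ℤ (tau c') 0 := by
      unfold tau
      rw [mem_nhds_unif]
      refine ⟨ε, hε0, fun y hy n => ?_⟩
      have := hy _ ⟨n, rfl⟩
      rwa [sub_zero] at this
    have h3 : ∀ᶠ k in 𝓝 (0 : ℤ), (∀ n, ‖k • ((1 / (c n : ℝ) : ℝ) : T)‖ < ε) ∧
        ∀ n, ‖k • ((1 / (c' n : ℝ) : ℝ) : T)‖ < ε := by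
      have e := @nhds_inf ℤ (tau c) (tau c') 0
      have h4 := Filter.inter_mem_inf h1 h2
      rw [← e] at h4
      exact h4
    filter_upwards [h3] with k hk
    rw [dist_zero_right]
    change ‖k • (x : T)‖ < δ
    have h4 : ∀ n, ‖k • ((S n : ℝ) : T)‖ ≤ 4 * ε * (1 - 1 / 2 ^ n) := by
      intro n
      induction n with
      | zero => simp [S]
      | succ n ih =>
        rw [S_succ, AddCircle.coe_add, smul_add]
        refine (norm_add_le _ _).trans ?_
        have h5 := norm_le hcu hcu' (min_le_right _ _) (fun n => (hk.1 n).le)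
          (fun n => (hk.2 n).le) n
        have h6 : 4 * ε * (1 - 1 / 2 ^ n) + (2 * ε) / 2 ^ n = 4 * ε * (1 - 1 / 2 ^ (n + 1)) := by
          rw [pow_succ]
          field_simp
          ring
        linarith
    have h5 : ∀ n, ‖k • ((S n : ℝ) : T)‖ ≤ 4 * ε := by
      intro n
      refine (h4 n).trans ?_
      have : (0 : ℝ) < 1 / 2 ^ n := by positivity
      nlinarith
    have h6 : Tendsto (fun n => ‖k • ((S n : ℝ) : T)‖) atTop (𝓝 ‖k • (x : T)‖) := by
      have hco : Continuous fun y : ℝ => ‖k • (y : T)‖ :=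
        continuous_norm.comp ((continuous_zsmul k).comp (AddCircle.continuous_mk' 1))
      exact (hco.tendsto x).comp hx
    have h7 := le_of_tendsto' h6 h5
    have h8 : ε ≤ δ / 8 := min_le_left _ _
    linarith
  exact continuous_le_dom hle hcont

end Pool.Agent.X198.TauCounter
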