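import Mathlib

/-!
# A Boolean group of cardinality at most the continuum with two-sided countable duality

`T` is the type of countably branching well-founded trees, labelled.  `T →₀ ZMod 2` carries the
characters `chi a`, `a : T`.  Every countable family of coordinates takes arbitrary values, and
every homomorphism on a countable subset is a coordinate.
-/

set_option autoImplicit false

namespace Pool.Agent.X198.PsTree

open Set Filter Topology Cardinal

/-- labelled trees -/
inductive T : Type
  | leaf : T
  | node (h : ℕ → T) (f : ℕ → ZMod 2) : T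

/-- `g` is a child of `a` -/
def Child (g a : T) : Prop := ∃ (h : ℕ → T) (f : ℕ → ZMod 2) (n : ℕ), a = T.node h f ∧ h n = g

theorem not_both (a : T) : ∀ g, Child g a → ¬ Child a g := by
  induction a with
  | leaf =>
    rintro g ⟨h, f, n, h1, -⟩
    cases h1
  | node h f ih =>
    rintro g ⟨h', f', n, h1, rfl⟩ h2
    cases h1
    exact ih n _ h2 ⟨h, f, n, rfl, rfl⟩

open Classical in
/-- the label of a child -/
noncomputable def val : T → T → ZMod 2
  | T.leaf, _ => 0
  | T.node h f, g => if hx : ∃ n, h n = g then f hx.choose else 0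

open Classical in
theorem val_node {h : ℕ → T} {f : ℕ → ZMod 2} (hf : ∀ m n, h m = h n → f m = f n) (n : ℕ) :
    val (T.node h f) (h n) = f n := by
  have hx : ∃ m, h m = h n := ⟨n, rfl⟩
  have e : val (T.node h f) (h n) = if hx : ∃ m, h m = h n then f hx.choose else 0 := rfl
  rw [e, dif_pos hx]
  exact hf _ _ hx.choose_spec

open Classical in
/-- the matrix -/
noncomputable def M (a g : T) : ZMod 2 :=
  if Child g a then val a g else if Child a g then val g a else 0

theorem M_coord {h : ℕ → T} {f : ℕ → ZMod 2} (hf : ∀ m n, h m = h n → f m = f n) (n : ℕ) :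
    M (T.node h f) (h n) = f n := by
  unfold M
  rw [if_pos ⟨h, f, n, rfl, rfl⟩, val_node hf]

theorem M_elem {h : ℕ → T} {f : ℕ → ZMod 2} (hf : ∀ m n, h m = h n → f m = f n) (n : ℕ) :
    M (h n) (T.node h f) = f n := by
  unfold M
  have h1 : Child (h n) (T.node h f) := ⟨h, f, n, rfl, rfl⟩
  rw [if_neg (not_both _ _ h1), if_pos h1, val_node hf]

/-- the group -/
abbrev G1 : Type := T →₀ ZMod 2

/-- the characters -/
noncomputable def chi (a : T) : G1 →ₗ[ZMod 2] ZMod 2 := Finsupp.linearCombination (ZMod 2) (M a)

theorem chi_single (a g : T) : chi a (Finsupp.single g 1) = M a g := by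
  unfold chi
  rw [Finsupp.linearCombination_single, one_smul]

/-- Countably many coordinates take arbitrary (consistent) values. -/
theorem exists_elem (a : ℕ → T) (f : ℕ → ZMod 2) (hf : ∀ m n, a m = a n → f m = f n) :
    ∃ g : G1, ∀ n, chi (a n) g = f n :=
  ⟨Finsupp.single (T.node a f) 1, fun n => by rw [chi_single, M_elem hf]⟩

theorem exists_elem' {C : Set T} (hC : C.Countable) (f : T → ZMod 2) :
    ∃ g : G1, ∀ a ∈ C, chi a g = f a := by
  rcases C.eq_empty_or_nonempty with rfl | hne
  · exact ⟨0, fun a ha => absurd ha (notMem_empty a)⟩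
  · obtain ⟨h, rfl⟩ := hC.exists_eq_range hne
    obtain ⟨g, hg⟩ := exists_elem h (fun n => f (h n)) (fun m n e => by rw [e])
    exact ⟨g, by rintro a ⟨n, rfl⟩; exact hg n⟩

/-- Every homomorphism restricted to a countable set is a coordinate. -/
theorem exists_coord {X : Set G1} (hX : X.Countable) (φ : G1 →ₗ[ZMod 2] ZMod 2) :
    ∃ a, ∀ x ∈ X, chi a x = φ x := by
  have hC : (insert T.leaf (⋃ x ∈ X, (x.support : Set T))).Countable :=
    (hX.biUnion fun x _ => x.support.countable_toSet).insert _
  obtain ⟨h, hh⟩ := hC.exists_eq_range ⟨_, mem_insert _ _⟩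
  refine ⟨T.node h fun n => φ (Finsupp.single (h n) 1), fun x hx => ?_⟩
  have hval : ∀ g ∈ x.support, M (T.node h fun n => φ (Finsupp.single (h n) 1)) g
      = φ (Finsupp.single g 1) := by
    intro g hg
    have hg' : g ∈ range h := by
      rw [← hh]
      exact Or.inr (mem_iUnion₂.2 ⟨x, hx, hg⟩)
    obtain ⟨n, rfl⟩ := hg'
    rw [M_coord (fun m n e => by rw [e])]
  unfold chi
  rw [Finsupp.linearCombination_apply, Finsupp.sum]
  conv_rhs => rw [← Finsupp.sum_single x, Finsupp.sum, map_sum]
  refine Finset.sum_congr rfl fun g hg => ?_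
  rw [hval g hg, ← map_smul, Finsupp.smul_single, smul_eq_mul, mul_one]

/-- arities -/
def Ar : Option (ℕ → ZMod 2) → Type
  | none => PEmpty
  | some _ => ℕ

/-- encoding of trees -/
def toW : T → WType Ar
  | T.leaf => WType.mk none PEmpty.elim
  | T.node h f => WType.mk (some f) fun n : ℕ => toW (h n)

theorem toW_inj : Function.Injective toW := by
  intro a
  induction a with
  | leaf =>
    intro b hb
    cases b with
    | leaf => rfl
    | node h f => simp [toW] at hb
  | node h f ih =>
    intro b hb
    cases b with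
    | leaf => simp [toW] at hb
    | node h' f' =>
      simp only [toW, WType.mk.injEq, Option.some.injEq] at hb
      obtain ⟨rfl, h2⟩ := hb
      have h3 : (fun n => toW (h n)) = fun n => toW (h' n) := eq_of_heq h2
      have h4 : h = h' := funext fun n => ih n (congrFun h3 n)
      rw [h4]

theorem card_T : #T ≤ 𝔠 := by
  refine (mk_le_of_injective toW_inj).trans ?_
  refine WType.cardinalMk_le_of_le ?_
  have h1 : ∀ a : Option (ℕ → ZMod 2), 𝔠 ^ #(Ar a) ≤ 𝔠 := by
    intro a
    cases a with
    | none =>
      have : #(Ar none) = 0 := by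
        rw [show Ar none = PEmpty from rfl, mk_pempty]
      rw [this, power_zero]
      exact (one_lt_aleph0.trans aleph0_lt_continuum).le
    | some f =>
      have : #(Ar (some f)) = ℵ₀ := by
        rw [show Ar (some f) = ℕ from rfl, mk_nat]
      rw [this, continuum_power_aleph0]
  refine (sum_le_sum _ _ h1).trans ?_
  rw [sum_const']
  have h2 : #(Option (ℕ → ZMod 2)) ≤ 𝔠 := by
    rw [mk_option]
    have h3 : #(ℕ → ZMod 2) = 𝔠 := by
      rw [← power_def, mk_nat]
      have : #(ZMod 2) = 2 := by
        rw [show ZMod 2 = Fin 2 from rfl, mk_fin]; rfl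
      rw [this, two_power_aleph0]
    rw [h3]
    rw [add_eq_left aleph0_le_continuum (one_lt_aleph0.trans aleph0_lt_continuum).le]
  calc #(Option (ℕ → ZMod 2)) * 𝔠 ≤ 𝔠 * 𝔠 := mul_le_mul_left h2 _
    _ = 𝔠 := continuum_mul_self

end Pool.Agent.X198.PsTree
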