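import Mathlib
import Pool.Agent.X198.PsTree

/-!
# The topology on the tree group, feeble compactness, cardinality
-/

set_option autoImplicit false

namespace Pool.Agent.X198.PsTop

open Set Filter Topology Cardinal Pool.Agent.X198.PsTree

/-- every sequence of nonempty open sets has a cluster point -/
def FC (X : Type*) [TopologicalSpace X] : Prop :=
  ∀ V : ℕ → Set X, (∀ n, IsOpen (V n) ∧ (V n).Nonempty) →
    ∃ y, ∀ O ∈ 𝓝 y, ∃ᶠ n in atTop, (O ∩ V n).Nonempty

/-- pseudocompactness -/
def Pseudocompact (X : Type*) [TopologicalSpace X] : Prop :=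
  ∀ f : X → ℝ, Continuous f → ∃ C, ∀ x, |f x| ≤ C

/-- selective pseudocompactness -/
def SelPseudocompact (X : Type*) [TopologicalSpace X] : Prop :=
  ∀ U : ℕ → Set X, (∀ n, IsOpen (U n) ∧ (U n).Nonempty) →
    ∃ x : ℕ → X, (∀ n, x n ∈ U n) ∧ ∃ p, ∀ V ∈ 𝓝 p, {n | x n ∈ V}.Infinite

theorem FC.pseudocompact {X : Type*} [TopologicalSpace X] (h : FC X) : Pseudocompact X := by
  intro f hf
  by_contra hcon
  push Not at hcon
  obtain ⟨y, hy⟩ := h (fun n : ℕ => {x | (n : ℝ) < |f x|}) fun n =>
    ⟨isOpen_lt continuous_const hf.abs, hcon n⟩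
  obtain ⟨N, hN⟩ := exists_nat_gt (|f y| + 1)
  have hO : {x | |f x| < |f y| + 1} ∈ 𝓝 y :=
    (isOpen_lt hf.abs continuous_const).mem_nhds (show |f y| < |f y| + 1 by linarith)
  obtain ⟨n, hn, x, hx1, hx2⟩ := frequently_atTop.1 (hy _ hO) N
  have h1 : |f x| < |f y| + 1 := hx1
  have h2 : (n : ℝ) < |f x| := hx2
  have h3 : (N : ℝ) ≤ n := by exact_mod_cast hn
  linarith

theorem Pseudocompact.fc {X : Type*} [TopologicalSpace X] [CompletelyRegularSpace X]
    (h : Pseudocompact X) : FC X := by
  intro V hV
  by_contra hcon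
  push Not at hcon
  have hlf : LocallyFinite V := by
    intro y
    obtain ⟨O, hO, hOf⟩ := hcon y
    refine ⟨O, hO, ?_⟩
    obtain ⟨N, hN⟩ := eventually_atTop.1 hOf
    refine (finite_lt_nat N).subset fun n hn => ?_
    by_contra hlt
    rw [mem_ofPred_eq, not_lt] at hlt
    rw [mem_ofPred_eq, inter_comm] at hn
    exact hn.ne_empty (hN n hlt)
  choose v hv using fun n => (hV n).2
  choose g hgc hg0 hg1 using fun n =>
    CompletelyRegularSpace.completely_regular (v n) (V n)ᶜ (hV n).1.isClosed_compl
      (not_not_intro (hv n))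
  set F : ℕ → X → ℝ := fun n x => (n : ℝ) * (1 - (g n x : ℝ)) with hF
  have hsupp : ∀ n, Function.support (F n) ⊆ V n := by
    intro n x hx
    by_contra hxV
    apply hx
    have : g n x = 1 := hg1 n hxV
    simp [hF, this]
  have hcont : Continuous fun x => ∑ᶠ n, F n x := by
    refine continuous_finsum (fun n => ?_) (hlf.subset hsupp)
    exact continuous_const.mul (continuous_const.sub (continuous_subtype_val.comp (hgc n)))
  obtain ⟨C, hC⟩ := h _ hcont
  obtain ⟨N, hN⟩ := exists_nat_gt C
  have h1 : (N : ℝ) ≤ ∑ᶠ n, F n (v N) := by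
    have h2 : F N (v N) = N := by simp [hF, hg0]
    have hnn : ∀ n, 0 ≤ F n (v N) := fun n =>
      mul_nonneg n.cast_nonneg (sub_nonneg.2 (g n (v N)).2.2)
    have hfin : (Function.support fun n => F n (v N)).Finite :=
      (hlf.point_finite (v N)).subset fun n hn => hsupp n hn
    conv_lhs => rw [← h2]
    exact single_le_finsum N hfin hnn
  have h3 := (le_abs_self _).trans (hC (v N))
  linarith

/-- the topology of the tree group -/
noncomputable instance : TopologicalSpace G1 :=
  TopologicalSpace.induced (fun g (a : T) => chi a g) inferInstance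

theorem continuous_all : Continuous fun (g : G1) (a : T) => chi a g := continuous_induced_dom

theorem continuous_chi (a : T) : Continuous fun g : G1 => chi a g :=
  (continuous_apply a).comp continuous_all

instance : IsTopologicalAddGroup G1 :=
  topologicalAddGroup_induced (AddMonoidHom.mk' (fun (g : G1) (a : T) => chi a g)
    (fun x y => funext fun a => map_add (chi a) x y))

theorem nhds_basis {x : G1} {W : Set G1} (hW : W ∈ 𝓝 x) :
    ∃ E : Finset T, ∀ z : G1, (∀ a ∈ E, chi a z = chi a x) → z ∈ W := by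
  rw [nhds_induced, mem_comap] at hW
  obtain ⟨t, ht, htW⟩ := hW
  rw [nhds_pi, Filter.mem_pi] at ht
  obtain ⟨I, hI, s, hs, hst⟩ := ht
  refine ⟨hI.toFinset, fun z hz => htW (hst fun a ha => ?_)⟩
  change chi a z ∈ s a
  rw [hz a (hI.mem_toFinset.2 ha)]
  exact mem_of_mem_nhds (hs a)

instance : T2Space G1 := by
  refine IsTopologicalAddGroup.t2Space_of_zero_sep ?_
  intro x hx
  obtain ⟨φ, hφ⟩ : ∃ φ : G1 →ₗ[ZMod 2] ZMod 2, φ x ≠ 0 := by
    by_contra hcon
    push Not at hcon
    apply hx
    ext g
    have := hcon (Finsupp.lapply g)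
    simpa using this
  obtain ⟨a, ha⟩ := exists_coord (countable_singleton x) φ
  have hax := ha x rfl
  refine ⟨{z | chi a z = 0}, ?_, ?_⟩
  · have hop : IsOpen {z : G1 | chi a z = 0} :=
      (isOpen_discrete {(0 : ZMod 2)}).preimage (continuous_chi a)
    exact hop.mem_nhds (map_zero (chi a))
  · change ¬ chi a x = 0
    rw [hax]
    exact hφ

/-- The product with a feebly compact space is feebly compact. -/
theorem FC.prod {X : Type*} [TopologicalSpace X] (h : FC X) : FC (G1 × X) := by
  intro W hW
  choose p hp using fun n => (hW n).2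
  have hbox : ∀ n, ∃ (E : Finset T) (V : Set X), IsOpen V ∧ (p n).2 ∈ V ∧
      ∀ z : G1, (∀ a ∈ E, chi a z = chi a (p n).1) → ∀ v ∈ V, (z, v) ∈ W n := by
    intro n
    have h1 : W n ∈ 𝓝 ((p n).1, (p n).2) := (hW n).1.mem_nhds (hp n)
    rw [mem_nhds_prod_iff] at h1
    obtain ⟨A, hA, B, hB, hAB⟩ := h1
    obtain ⟨E, hE⟩ := nhds_basis hA
    obtain ⟨V, hVB, hV, hpV⟩ := mem_nhds_iff.1 hB
    exact ⟨E, V, hV, hpV, fun z hz v hv => hAB ⟨hE z hz, hVB hv⟩⟩
  choose E V hVo hpV hEV using hbox
  have hC : (insert T.leaf (⋃ n, (E n : Set T))).Countable :=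
    (countable_iUnion fun n => (E n).countable_toSet).insert _
  obtain ⟨a, ha⟩ := hC.exists_eq_range ⟨_, mem_insert _ _⟩
  have haE : ∀ n, ∀ e ∈ E n, ∃ k, a k = e := by
    intro n e he
    have : e ∈ range a := by
      rw [← ha]
      exact Or.inr (mem_iUnion.2 ⟨n, he⟩)
    exact this
  obtain ⟨b, -, φ, hφ, hb⟩ := isCompact_univ.tendsto_subseq
    (x := fun n : ℕ => fun k : ℕ => chi (a k) (p n).1) (fun _ => mem_univ _)
  have hbk : ∀ k, ∀ᶠ n in atTop, chi (a k) (p (φ n)).1 = b k := by
    intro k
    have h1 := (continuous_apply k).continuousAt.tendsto.comp hb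
    have h2 := h1.eventually ((isOpen_discrete {b k}).mem_nhds rfl)
    exact h2
  have hcons : ∀ k l, a k = a l → b k = b l := by
    intro k l hkl
    obtain ⟨n, h1, h2⟩ := ((hbk k).and (hbk l)).exists
    rw [← h1, ← h2, hkl]
  obtain ⟨x, hx⟩ := exists_elem a b hcons
  obtain ⟨y, hy⟩ := h (fun n => V (φ n)) fun n => ⟨hVo _, _, hpV _⟩
  refine ⟨(x, y), fun O hO => ?_⟩
  rw [mem_nhds_prod_iff] at hO
  obtain ⟨A, hA, B, hB, hAB⟩ := hO
  obtain ⟨D, hD⟩ := nhds_basis hA
  -- eventually agreement on `D ∩ range a`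
  have hev : ∀ᶠ n in atTop, ∀ e ∈ D, (∃ k, a k = e) → chi e (p (φ n)).1 = chi e x := by
    rw [Filter.eventually_all_finset]
    intro e _
    by_cases hk : ∃ k, a k = e
    · obtain ⟨k, rfl⟩ := hk
      filter_upwards [hbk k] with n hn _
      rw [hn, hx]
    · exact Eventually.of_forall fun n hn => absurd hn hk
  rw [frequently_atTop]
  intro N
  obtain ⟨M, hM⟩ := eventually_atTop.1 hev
  obtain ⟨n, hn, w, hwB, hwV⟩ := frequently_atTop.1 (hy B hB) (max M N)
  refine ⟨φ n, (le_of_max_le_right hn).trans (hφ.id_le n), ?_⟩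
  classical
  obtain ⟨z, hz⟩ := exists_elem' ((D ∪ E (φ n)).countable_toSet)
    (fun e => if e ∈ D then chi e x else chi e (p (φ n)).1)
  refine ⟨(z, w), hAB ⟨hD z fun e he => ?_, hwB⟩, hEV _ z (fun e he => ?_) w hwV⟩
  · rw [hz e (by simp [he]), if_pos he]
  · rw [hz e (by simp [he])]
    split_ifs with heD
    · exact (hM n (le_of_max_le_left hn) e heD (haE _ e he)).symm
    · rfl

/-- distinct coordinates -/
def co (m : ℕ) : T := T.node (fun _ => T.leaf) (Pi.single m 1)

theorem co_inj : Function.Injective co := by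
  intro m n h
  unfold co at h
  rw [T.node.injEq] at h
  by_contra hne
  have h1 := congrFun h.2 m
  rw [Pi.single_eq_same, Pi.single_eq_of_ne hne] at h1
  exact one_ne_zero h1

/-- A triangular sequence is linearly independent. -/
theorem triangular {x : ℕ → G1} (hx1 : ∀ n, chi (co n) (x n) = 1)
    (hx0 : ∀ m n, m < n → chi (co m) (x n) = 0) : LinearIndependent (ZMod 2) x := by
  rw [linearIndependent_iff']
  intro s c hc
  by_contra hcon
  push Not at hcon
  have hex : ∃ i, i ∈ s ∧ c i ≠ 0 := hcon
  classical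
  obtain ⟨hi, hci⟩ := Nat.find_spec hex
  set i := Nat.find hex with hidef
  have hmin : ∀ j < i, j ∈ s → c j = 0 := by
    intro j hj hjs
    by_contra h0
    exact Nat.find_min hex hj ⟨hjs, h0⟩
  have h1 : chi (co i) (∑ j ∈ s, c j • x j) = c i := by
    rw [map_sum, Finset.sum_eq_single i]
    · rw [map_smul, hx1, smul_eq_mul, mul_one]
    · intro j hj hji
      rw [map_smul, smul_eq_mul]
      rcases lt_or_gt_of_ne hji with h | h
      · rw [hmin j h hj, zero_mul]
      · rw [hx0 i j h, mul_zero]
    · intro h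
      exact absurd hi h
  rw [hc, map_zero] at h1
  exact hci h1.symm

/-- For each point there is a coordinate separating it from almost all terms. -/
theorem separate {x : ℕ → G1} (hli : LinearIndependent (ZMod 2) x) (y : G1) :
    ∃ (a : T) (N : ℕ), ∀ n, N ≤ n → chi a (x n) ≠ chi a y := by
  obtain ⟨φ, N, hφ⟩ : ∃ (φ : G1 →ₗ[ZMod 2] ZMod 2) (N : ℕ), ∀ n, N ≤ n → φ (x n) ≠ φ y := by
    by_cases hy : y ∈ Submodule.span (ZMod 2) (range x)
    · rw [← Finsupp.range_linearCombination] at hy
      obtain ⟨c, hc⟩ := hy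
      classical
      obtain ⟨ψ, hψ⟩ : ∃ ψ : G1 →ₗ[ZMod 2] ZMod 2, ∀ n, ψ (x n) = if n ∈ c.support then 0 else 1 := by
        obtain ⟨ψ, hψ⟩ := LinearMap.exists_extend
          ((Finsupp.linearCombination (ZMod 2) fun n : ℕ =>
            (if n ∈ c.support then 0 else 1 : ZMod 2)) ∘ₗ hli.repr)
        refine ⟨ψ, fun n => ?_⟩
        have h1 := LinearMap.congr_fun hψ ⟨x n, Submodule.subset_span (mem_range_self n)⟩
        rw [LinearMap.comp_apply, LinearMap.comp_apply] at h1
        have h2 : hli.repr ⟨x n, Submodule.subset_span (mem_range_self n)⟩ =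
            Finsupp.single n 1 := hli.repr_eq_single n _ rfl
        change ψ (x n) = Finsupp.linearCombination (ZMod 2) _ (hli.repr _) at h1
        rw [h1, h2, Finsupp.linearCombination_single, one_smul]
      refine ⟨ψ, c.support.sup id + 1, fun n hn => ?_⟩
      have h1 : n ∉ c.support := by
        intro h
        have := Finset.le_sup (f := id) h
        simp only [id_eq] at this
        omega
      have h2 : ψ y = 0 := by
        rw [← hc, Finsupp.linearCombination_apply, Finsupp.sum, map_sum]
        refine Finset.sum_eq_zero fun m hm => ?_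
        rw [map_smul, hψ, if_pos hm, smul_zero]
      rw [hψ, if_neg h1, h2]
      exact one_ne_zero
    · obtain ⟨ψ, hψ1, hψ2⟩ := Submodule.exists_le_ker_of_notMem hy
      refine ⟨ψ, 0, fun n _ h => hψ1 ?_⟩
      rw [← h]
      exact hψ2 (Submodule.subset_span (mem_range_self n))
  obtain ⟨a, ha⟩ := exists_coord ((countable_range x).insert y) φ
  refine ⟨a, N, fun n hn => ?_⟩
  rw [ha _ (Or.inr ⟨n, rfl⟩), ha _ (Or.inl rfl)]
  exact hφ n hn

/-- The product is not selectively pseudocompact. -/
theorem not_sel (X : Type*) [TopologicalSpace X] [Nonempty X] : ¬ SelPseudocompact (G1 × X) := by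
  intro h
  classical
  obtain ⟨x, hx, p, hp⟩ := h
    (fun n => {g | ∀ m ≤ n, chi (co m) g = if m = n then 1 else 0} ×ˢ Set.univ) fun n => by
      refine ⟨IsOpen.prod ?_ isOpen_univ, ?_⟩
      · have e : {g : G1 | ∀ m ≤ n, chi (co m) g = if m = n then 1 else 0} =
            ⋂ m ∈ Iic n, {g : G1 | chi (co m) g = if m = n then 1 else 0} := by
          ext g
          simp
        rw [e]
        refine (finite_Iic n).isOpen_biInter fun m _ => ?_
        exact (isOpen_discrete {(if m = n then 1 else 0 : ZMod 2)}).preimage (continuous_chi _)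
      · obtain ⟨g, hg⟩ := exists_elem co (fun m => if m = n then 1 else 0)
          (fun k l hkl => by rw [co_inj hkl])
        obtain ⟨v⟩ := (inferInstance : Nonempty X)
        exact ⟨(g, v), fun m _ => hg m, mem_univ v⟩
  have hx' : ∀ n, ∀ m ≤ n, chi (co m) (x n).1 = if m = n then 1 else 0 := fun n => (hx n).1
  have hli : LinearIndependent (ZMod 2) fun n => (x n).1 := by
    refine triangular (fun n => ?_) (fun m n hmn => ?_)
    · rw [hx' n n le_rfl, if_pos rfl]
    · rw [hx' n m hmn.le, if_neg hmn.ne]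
  obtain ⟨a, N, haN⟩ := separate hli p.1
  have hop : IsOpen {z : G1 × X | chi a z.1 = chi a p.1} :=
    (isOpen_discrete {chi a p.1}).preimage ((continuous_chi a).comp continuous_fst)
  refine hp _ (hop.mem_nhds rfl) ((finite_lt_nat N).subset fun n hn => ?_)
  by_contra hlt
  rw [mem_ofPred_eq, not_lt] at hlt
  exact haN n hlt hn

/-- A nonempty feebly compact regular Hausdorff space without isolated points has at least
continuum many points. -/
theorem continuum_le {X : Type*} [TopologicalSpace X] [T3Space X] [Nonempty X] (h : FC X)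
    (hiso : ∀ x : X, ¬ IsOpen {x}) : 𝔠 ≤ #X := by
  have hsplit : ∀ U : {U : Set X // IsOpen U ∧ U.Nonempty},
      ∃ V : Bool → {U : Set X // IsOpen U ∧ U.Nonempty},
        (∀ b, closure (V b).1 ⊆ U.1) ∧ Disjoint (closure (V true).1) (closure (V false).1) := by
    rintro ⟨U, hU, u, hu⟩
    obtain ⟨v, hv, hvu⟩ : ∃ v ∈ U, v ≠ u := by
      by_contra hcon
      push Not at hcon
      refine hiso u ?_
      have : U = {u} := Subset.antisymm (fun v hv => hcon v hv) (singleton_subset_iff.2 hu)
      rwa [← this]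
    obtain ⟨A, B, hA, hB, hvA, huB, hAB⟩ := t2_separation hvu
    obtain ⟨A', hA', hA'c, hA's⟩ := exists_mem_nhds_isClosed_subset
      (inter_mem (hA.mem_nhds hvA) (hU.mem_nhds hv))
    obtain ⟨B', hB', hB'c, hB's⟩ := exists_mem_nhds_isClosed_subset
      (inter_mem (hB.mem_nhds huB) (hU.mem_nhds hu))
    have hcA : closure (interior A') ⊆ A' := closure_minimal interior_subset hA'c
    have hcB : closure (interior B') ⊆ B' := closure_minimal interior_subset hB'c
    refine ⟨fun b => if b then ⟨interior A', isOpen_interior, v, mem_interior_iff_mem_nhds.2 hA'⟩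
      else ⟨interior B', isOpen_interior, u, mem_interior_iff_mem_nhds.2 hB'⟩, ?_, ?_⟩
    · intro b
      cases b
      · exact hcB.trans (hB's.trans inter_subset_right)
      · exact hcA.trans (hA's.trans inter_subset_right)
    · exact hAB.mono (hcA.trans (hA's.trans inter_subset_left))
        (hcB.trans (hB's.trans inter_subset_left))
  choose sp hsp1 hsp2 using hsplit
  let st : (ℕ → Bool) → ℕ → {U : Set X // IsOpen U ∧ U.Nonempty} := fun x n =>
    Nat.rec ⟨Set.univ, isOpen_univ, univ_nonempty⟩ (fun n U => sp U (x n)) n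
  have hst : ∀ x n, st x (n + 1) = sp (st x n) (x n) := fun x n => rfl
  have hsub : ∀ x n, closure (st x (n + 1)).1 ⊆ (st x n).1 := by
    intro x n
    rw [hst]
    exact hsp1 _ _
  have hanti : ∀ x, Antitone fun n => (st x n).1 := fun x =>
    antitone_nat_of_succ_le fun n => subset_closure.trans (hsub x n)
  have hex : ∀ x : ℕ → Bool, ∃ y : X, ∀ n, y ∈ closure (st x n).1 := by
    intro x
    obtain ⟨y, hy⟩ := h (fun n => (st x n).1) fun n => (st x n).2
    refine ⟨y, fun n => mem_closure_iff_nhds.2 fun O hO => ?_⟩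
    obtain ⟨m, hm, hne⟩ := frequently_atTop.1 (hy O hO) n
    exact hne.mono (inter_subset_inter_right _ (hanti x hm))
  choose y hy using hex
  have hinj : Function.Injective y := by
    intro x x' hxx'
    by_contra hne
    have hex : ∃ n, x n ≠ x' n := by
      by_contra hcon
      push Not at hcon
      exact hne (funext hcon)
    classical
    set n := Nat.find hex with hn
    have hneq : x n ≠ x' n := Nat.find_spec hex
    have heq : ∀ m ≤ n, st x m = st x' m := by
      intro m
      induction m with
      | zero => intro _; rfl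
      | succ m ih =>
        intro hm
        rw [hst, hst, ih (by omega)]
        have : x m = x' m := by
          by_contra h0
          have := Nat.find_min' hex h0
          omega
        rw [this]
    have h1 := hy x (n + 1)
    have h2 := hy x' (n + 1)
    rw [hst, heq n le_rfl] at h1
    rw [hst, ← hxx'] at h2
    have hd := hsp2 (st x' n)
    cases hb : x n with
    | false =>
      have hb' : x' n = true := by
        cases hb'' : x' n with
        | false => exact absurd (hb.trans hb''.symm) hneq
        | true => rfl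
      rw [hb] at h1
      rw [hb'] at h2
      exact disjoint_left.1 hd h2 h1
    | true =>
      have hb' : x' n = false := by
        cases hb'' : x' n with
        | true => exact absurd (hb.trans hb''.symm) hneq
        | false => rfl
      rw [hb] at h1
      rw [hb'] at h2
      exact disjoint_left.1 hd h1 h2
  have h1 := mk_le_of_injective (f := fun x : ULift (ℕ → Bool) => y x.down)
    (fun a b hab => ULift.ext _ _ (hinj hab))
  rw [mk_uLift] at h1
  have h2 : #(ℕ → Bool) = 𝔠 := by
    rw [← power_def, mk_nat, mk_bool, two_power_aleph0]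
  rw [h2, lift_continuum] at h1
  exact h1

theorem not_isOpen_singleton {G : Type*} [AddGroup G] [TopologicalSpace G]
    [IsTopologicalAddGroup G] [Infinite G] (h : FC G) (x : G) : ¬ IsOpen {x} := by
  intro hx
  have hall : ∀ y : G, IsOpen {y} := by
    intro y
    have e : (Homeomorph.addRight (-y + x)) ⁻¹' {x} = {y} := by
      ext z
      simp only [mem_preimage, Homeomorph.coe_addRight, mem_singleton_iff]
      constructor
      · intro hz
        have h1 : z + (-y + x) = 0 + x := by rw [hz, zero_add]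
        rw [← add_assoc] at h1
        have h2 := add_right_cancel h1
        rw [← sub_eq_add_neg, sub_eq_zero] at h2
        exact h2
      · rintro rfl
        rw [← add_assoc, add_neg_cancel, zero_add]
    rw [← e]
    exact hx.preimage (Homeomorph.addRight (-y + x)).continuous
  obtain ⟨f⟩ : Nonempty (ℕ ↪ G) := ⟨Infinite.natEmbedding G⟩
  obtain ⟨y, hy⟩ := h (fun n => {f n}) fun n => ⟨hall _, singleton_nonempty _⟩
  have hy' := frequently_atTop.1 (hy {y} ((hall y).mem_nhds rfl))
  obtain ⟨m, -, z, hz1, hz2⟩ := hy' 0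
  obtain ⟨n, hn, w, hw1, hw2⟩ := hy' (m + 1)
  rw [mem_singleton_iff] at hz1 hz2 hw1 hw2
  have : f m = f n := by rw [← hz2, ← hw2, hz1, hw1]
  have := f.injective this
  omega

end Pool.Agent.X198.PsTop
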