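import Mathlib

/-!
# Three four-point metric spaces without consistent optimal matchings
-/

set_option autoImplicit false
set_option linter.style.haveILetI false

namespace Pool.Agent.X198.ThreeGH

open Set Metric

/-- distances of the first space -/
def D1 : Fin 4 → Fin 4 → ℕ := ![![0, 10, 10, 12], ![10, 0, 13, 11], ![10, 13, 0, 12], ![12, 11, 12, 0]]
/-- distances of the second space -/
def D2 : Fin 4 → Fin 4 → ℕ := ![![0, 10, 11, 11], ![10, 0, 11, 12], ![11, 11, 0, 13], ![11, 12, 13, 0]]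
/-- distances of the third space -/
def D3 : Fin 4 → Fin 4 → ℕ := ![![0, 10, 11, 13], ![10, 0, 12, 13], ![11, 12, 0, 12], ![13, 13, 12, 0]]

/-- the conditions making a function a metric with well separated points -/
def Good (D : Fin 4 → Fin 4 → ℕ) : Prop :=
  (∀ x, D x x = 0) ∧ (∀ x y, D x y = D y x) ∧ (∀ x y z, D x z ≤ D x y + D y z) ∧
    ∀ x y, x ≠ y → 10 ≤ D x y

instance (D : Fin 4 → Fin 4 → ℕ) : Decidable (Good D) := by unfold Good; infer_instance

theorem good1 : Good D1 := by decide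
theorem good2 : Good D2 := by decide
theorem good3 : Good D3 := by decide

/-- a four-point space -/
structure Pt (D : Fin 4 → Fin 4 → ℕ) where
  /-- the underlying index -/
  ix : Fin 4

/-- the metric -/
@[reducible] noncomputable def ms (D : Fin 4 → Fin 4 → ℕ) (h : Good D) : MetricSpace (Pt D) where
  dist x y := D x.ix y.ix
  dist_self x := by
    change (D x.ix x.ix : ℝ) = 0
    rw [h.1]; simp
  dist_comm x y := by
    change (D x.ix y.ix : ℝ) = D y.ix x.ix
    rw [h.2.1]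
  dist_triangle x y z := by
    change (D x.ix z.ix : ℝ) ≤ D x.ix y.ix + D y.ix z.ix
    exact_mod_cast h.2.2.1 _ _ _
  eq_of_dist_eq_zero := by
    intro x y hxy
    have h0 : (D x.ix y.ix : ℝ) = 0 := hxy
    have h1 : D x.ix y.ix = 0 := by exact_mod_cast h0
    by_contra hne
    have h2 : x.ix ≠ y.ix := fun h' => hne (by cases x; cases y; simpa using h')
    have := h.2.2.2 _ _ h2
    omega

/-- the three distance tables -/
def DD : Fin 3 → Fin 4 → Fin 4 → ℕ
  | 0 => D1
  | 1 => D2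
  | 2 => D3

theorem goodDD : ∀ i, Good (DD i) := by decide

/-- the three spaces -/
def X (i : Fin 3) : Type := Pt (DD i)

/-- the metrics -/
noncomputable instance (i : Fin 3) : MetricSpace (X i) := ms (DD i) (goodDD i)

theorem distX (i : Fin 3) (x y : X i) : dist x y = DD i x.ix y.ix := rfl

instance (D : Fin 4 → Fin 4 → ℕ) : Finite (Pt D) :=
  Finite.of_injective Pt.ix fun x y h => by cases x; cases y; simpa using h

instance (D : Fin 4 → Fin 4 → ℕ) : Nonempty (Pt D) := ⟨⟨0⟩⟩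

instance (i : Fin 3) : Finite (X i) := inferInstanceAs (Finite (Pt (DD i)))
instance (i : Fin 3) : Nonempty (X i) := inferInstanceAs (Nonempty (Pt (DD i)))

theorem X_ext {i : Fin 3} {x y : X i} (h : x.ix = y.ix) : x = y :=
  congrArg Pt.mk h

theorem sep {i : Fin 3} {x y : X i} (h : dist x y < 10) : x = y := by
  by_contra hne
  have h1 : x.ix ≠ y.ix := fun h' => hne (X_ext h')
  have h2 := (goodDD i).2.2.2 _ _ h1
  rw [distX] at h
  have h3 : (10 : ℝ) ≤ DD i x.ix y.ix := by exact_mod_cast h2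
  linarith

/-- closeness of distances under a map -/
def Close (D E : Fin 4 → Fin 4 → ℕ) (p : Fin 4 → Fin 4) : Prop :=
  ∀ x y, D x y ≤ E (p x) (p y) + 1 ∧ E (p x) (p y) ≤ D x y + 1

instance (D E : Fin 4 → Fin 4 → ℕ) (p : Fin 4 → Fin 4) : Decidable (Close D E p) := by
  unfold Close; infer_instance

set_option maxRecDepth 100000 in
theorem uniq12' : ∀ a b c d : Fin 4, Close D1 D2 ![a, b, c, d] → a = 0 ∧ b = 1 ∧ c = 3 ∧ d = 2 := by
  decide

set_option maxRecDepth 100000 in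
theorem uniq23' : ∀ a b c d : Fin 4, Close D2 D3 ![a, b, c, d] → a = 2 ∧ b = 0 ∧ c = 1 ∧ d = 3 := by
  decide

theorem vec4 (p : Fin 4 → Fin 4) : p = ![p 0, p 1, p 2, p 3] := by
  funext i
  fin_cases i <;> rfl

theorem uniq12 {p : Fin 4 → Fin 4} (h : Close D1 D2 p) : p = ![0, 1, 3, 2] := by
  rw [vec4 p] at h
  obtain ⟨h0, h1, h2, h3⟩ := uniq12' _ _ _ _ h
  rw [vec4 p, h0, h1, h2, h3]

theorem uniq23 {p : Fin 4 → Fin 4} (h : Close D2 D3 p) : p = ![2, 0, 1, 3] := by
  rw [vec4 p] at h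
  obtain ⟨h0, h1, h2, h3⟩ := uniq23' _ _ _ _ h
  rw [vec4 p, h0, h1, h2, h3]

theorem bad13 : ¬ Close D1 D3 fun x => (![2, 0, 1, 3] : Fin 4 → Fin 4) (![0, 1, 3, 2] x) := by
  decide

/-- No consistent pair of maps. -/
theorem no_consistent {p q : Fin 4 → Fin 4} (hp : Close D1 D2 p) (hq : Close D2 D3 q)
    (h : Close D1 D3 fun x => q (p x)) : False := by
  rw [uniq12 hp, uniq23 hq] at h
  exact bad13 h

theorem close12 : Close D1 D2 ![0, 1, 3, 2] := by decide
theorem close23 : Close D2 D3 ![2, 0, 1, 3] := by decide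
theorem close13 : Close D1 D3 ![0, 2, 1, 3] := by decide

theorem abs_of_nat {a b : ℕ} (h1 : a ≤ b + 1) (h2 : b ≤ a + 1) : |(a : ℝ) - b| ≤ 1 := by
  have h3 : (a : ℝ) ≤ b + 1 := by exact_mod_cast h1
  have h4 : (b : ℝ) ≤ a + 1 := by exact_mod_cast h2
  rw [abs_le]
  constructor <;> linarith

theorem nat_of_abs {a b : ℕ} (h : |(a : ℝ) - b| < 2) : a ≤ b + 1 ∧ b ≤ a + 1 := by
  rw [abs_lt] at h
  have h1 : (a : ℝ) < b + 2 := by linarith [h.2]
  have h2 : (b : ℝ) < a + 2 := by linarith [h.1]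
  have h3 : a < b + 2 := by exact_mod_cast h1
  have h4 : b < a + 2 := by exact_mod_cast h2
  omega

/-- The matchings. -/
def mt : Fin 3 → Fin 3 → Fin 4 → Fin 4
  | 0, 0 => ![0, 1, 2, 3]
  | 1, 1 => ![0, 1, 2, 3]
  | 2, 2 => ![0, 1, 2, 3]
  | 0, 1 => ![0, 1, 3, 2]
  | 1, 0 => ![0, 1, 3, 2]
  | 1, 2 => ![2, 0, 1, 3]
  | 2, 1 => ![1, 2, 0, 3]
  | 0, 2 => ![0, 2, 1, 3]
  | 2, 0 => ![0, 2, 1, 3]

theorem mt_close : ∀ i j, Close (DD i) (DD j) (mt i j) := by decide

theorem mt_surj : ∀ i j y, ∃ x, mt i j x = y := by decide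

/-- the matching as a map between the spaces -/
def mtX (i j : Fin 3) (x : X i) : X j := ⟨mt i j x.ix⟩

theorem mtX_surj (i j : Fin 3) (y : X j) : ∃ x, mtX i j x = y := by
  obtain ⟨x, hx⟩ := mt_surj i j y.ix
  exact ⟨⟨x⟩, X_ext hx⟩

theorem mtX_close (i j : Fin 3) (x y : X i) : |dist x y - dist (mtX i j x) (mtX i j y)| ≤ 1 := by
  have h := mt_close i j x.ix y.ix
  exact abs_of_nat h.1 h.2

/-- The key: there are no three choice maps, close to isometries and consistent. -/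
theorem key (p : X 0 → X 1) (q : X 1 → X 2) (r : X 0 → X 2)
    (hp : ∀ x y, |dist x y - dist (p x) (p y)| < 2)
    (hq : ∀ x y, |dist x y - dist (q x) (q y)| < 2)
    (hr : ∀ x y, |dist x y - dist (r x) (r y)| < 2)
    (h : ∀ x, dist (r x) (q (p x)) < 10) : False := by
  have h' : ∀ x, r x = q (p x) := fun x => sep (h x)
  refine no_consistent (p := fun x => (p ⟨x⟩).ix) (q := fun x => (q ⟨x⟩).ix) ?_ ?_ ?_
  · intro x y
    exact nat_of_abs (hp ⟨x⟩ ⟨y⟩)
  · intro x y
    exact nat_of_abs (hq ⟨x⟩ ⟨y⟩)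
  · intro x y
    have h1 := nat_of_abs (hr ⟨x⟩ ⟨y⟩)
    rw [h', h'] at h1
    exact h1

/-- No common space realises all three distances being at most `1/2`. -/
theorem no_space {Z : Type*} [MetricSpace Z] (φ : ∀ i, X i → Z) (hφ : ∀ i, Isometry (φ i))
    (h : ∀ i j, i ≠ j → hausdorffDist (range (φ i)) (range (φ j)) ≤ 1 / 2) : False := by
  have hex : ∀ i j, i ≠ j → ∀ x : X i, ∃ y : X j, dist (φ i x) (φ j y) < 3 / 5 := by
    intro i j hij x
    have hb : ∀ k, Bornology.IsBounded (range (φ k)) := fun k => (finite_range (φ k)).isBounded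
    have hfin := hausdorffEDist_ne_top_of_nonempty_of_bounded (range_nonempty (φ i))
      (range_nonempty (φ j)) (hb i) (hb j)
    obtain ⟨z, ⟨y, rfl⟩, hz⟩ := exists_dist_lt_of_hausdorffDist_lt (mem_range_self x)
      (lt_of_le_of_lt (h i j hij) (by norm_num : (1 / 2 : ℝ) < 3 / 5)) hfin
    exact ⟨y, hz⟩
  choose p hp using hex 0 1 (by decide)
  choose q hq using hex 1 2 (by decide)
  choose r hr using hex 0 2 (by decide)
  have hgen : ∀ (i j : Fin 3) (f : X i → X j), (∀ x, dist (φ i x) (φ j (f x)) < 3 / 5) →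
      ∀ x y, |dist x y - dist (f x) (f y)| < 2 := by
    intro i j f hf x y
    rw [← (hφ i).dist_eq x y, ← (hφ j).dist_eq (f x) (f y)]
    have h1 := dist_triangle4 (φ i x) (φ j (f x)) (φ j (f y)) (φ i y)
    have h2 := dist_triangle4 (φ j (f x)) (φ i x) (φ i y) (φ j (f y))
    have h3 := hf x
    have h4 := hf y
    rw [dist_comm (φ j (f y)) (φ i y)] at h1
    rw [dist_comm (φ j (f x)) (φ i x)] at h2
    rw [abs_lt]
    constructor <;> linarith
  refine key p q r (hgen _ _ p hp) (hgen _ _ q hq) (hgen _ _ r hr) fun x => ?_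
  rw [← (hφ 2).dist_eq]
  have h1 := dist_triangle4 (φ 2 (r x)) (φ 0 x) (φ 1 (p x)) (φ 2 (q (p x)))
  have h2 := hr x
  rw [dist_comm] at h2
  linarith [hp x, hq (p x)]

end Pool.Agent.X198.ThreeGH
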