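import Mathlib

/-!
# Folded doubling maps

The maps `x ↦ ‖2x + s α‖` on the line, `s = ± 1`, where `‖·‖` is the distance to the nearest
integer.
-/

set_option autoImplicit false

namespace Pool.Agent.X198.FoldIFS

open Set Filter Topology Metric

/-- the Hutchinson operator of a set of maps -/
def hut {X : Type*} (F : Set (X → X)) (B : Set X) : Set X := ⋃ f ∈ F, f '' B

theorem mem_hut {X : Type*} {F : Set (X → X)} {B : Set X} {f : X → X} (hf : f ∈ F) {x : X}
    (hx : x ∈ B) : f x ∈ hut F B :=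
  mem_biUnion hf (mem_image_of_mem f hx)

/-- distance to the nearest integer -/
noncomputable def fold (t : ℝ) : ℝ := ‖(t : UnitAddCircle)‖

theorem fold_nonneg (t : ℝ) : 0 ≤ fold t := norm_nonneg _

theorem fold_le (t : ℝ) : fold t ≤ 1 / 2 := by
  have := AddCircle.norm_le_half_period (1 : ℝ) (x := (t : UnitAddCircle)) one_ne_zero
  simpa [fold] using this

theorem fold_continuous : Continuous fold := by
  unfold fold
  exact continuous_norm.comp (AddCircle.continuous_mk' 1)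

theorem fold_of_mem {t : ℝ} (h0 : 0 ≤ t) (h1 : t ≤ 1 / 2) : fold t = t := by
  unfold fold
  rw [(AddCircle.norm_coe_eq_abs_iff 1 one_ne_zero).2 (by rw [abs_of_nonneg h0]; simpa using h1),
    abs_of_nonneg h0]

theorem fold_neg (t : ℝ) : fold (-t) = fold t := by
  unfold fold
  rw [AddCircle.coe_neg, norm_neg]

theorem coe_sub_one (t : ℝ) : ((t - 1 : ℝ) : UnitAddCircle) = t := by
  rw [AddCircle.coe_sub]
  have : ((1 : ℝ) : UnitAddCircle) = 0 := AddCircle.coe_period 1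
  rw [this, sub_zero]

theorem fold_of_mem' {t : ℝ} (h0 : 1 / 2 ≤ t) (h1 : t ≤ 1) : fold t = 1 - t := by
  have h2 : fold t = fold (t - 1) := by
    unfold fold
    rw [coe_sub_one]
  rw [h2, ← fold_neg, fold_of_mem (by linarith) (by linarith)]
  ring

theorem coe_fold (t : ℝ) :
    ((fold t : ℝ) : UnitAddCircle) = t ∨ ((fold t : ℝ) : UnitAddCircle) = -t := by
  have h : fold t = |t - round t| := UnitAddCircle.norm_eq
  have h1 : ((t - round t : ℝ) : UnitAddCircle) = t := by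
    have h0 : (((round t : ℤ) : ℝ) : UnitAddCircle) = 0 :=
      (AddCircle.coe_eq_zero_iff 1).2 ⟨round t, by simp⟩
    rw [AddCircle.coe_sub, h0, sub_zero]
  rcases abs_choice (t - round t) with h2 | h2
  · left
    rw [h, h2, h1]
  · right
    rw [h, h2, AddCircle.coe_neg, h1]

/-- the folded doubling map -/
noncomputable def g (α s x : ℝ) : ℝ := fold (2 * x + s * α)

theorem g_continuous (α s : ℝ) : Continuous (g α s) := by
  unfold g
  exact fold_continuous.comp (by fun_prop)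

/-- The key computation. -/
theorem exists_step (α : ℝ) {z u : ℝ} (hz : (z : UnitAddCircle) = u ∨ (z : UnitAddCircle) = -u)
    (b : ℝ) (hb : b = 1 ∨ b = -1) :
    ∃ s : ℝ, (s = 1 ∨ s = -1) ∧
      (((g α s z : ℝ) : UnitAddCircle) = ((2 * u + b * α : ℝ) : UnitAddCircle) ∨
        ((g α s z : ℝ) : UnitAddCircle) = -((2 * u + b * α : ℝ) : UnitAddCircle)) := by
  rcases hz with hz | hz
  · refine ⟨b, hb, ?_⟩
    have h : ((2 * z + b * α : ℝ) : UnitAddCircle) = ((2 * u + b * α : ℝ) : UnitAddCircle) := by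
      rw [AddCircle.coe_add, AddCircle.coe_add, two_mul, two_mul, AddCircle.coe_add,
        AddCircle.coe_add, hz]
    rw [← h]
    exact coe_fold _
  · refine ⟨-b, ?_, ?_⟩
    · rcases hb with rfl | rfl
      · right; rfl
      · left; norm_num
    have h : ((2 * z + -b * α : ℝ) : UnitAddCircle) = -((2 * u + b * α : ℝ) : UnitAddCircle) := by
      have e : ∀ a c : ℝ, ((2 * a + c : ℝ) : UnitAddCircle)
          = ((a : UnitAddCircle) + a) + (c : UnitAddCircle) := by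
        intro a c
        rw [AddCircle.coe_add, two_mul, AddCircle.coe_add]
      rw [e, e, hz, neg_mul, AddCircle.coe_neg]
      abel
    rcases coe_fold (2 * z + -b * α) with h1 | h1
    · right
      rw [← h]
      exact h1
    · left
      rw [h, neg_neg] at h1
      exact h1

/-- The points reached after `k` steps. -/
theorem reach (α : ℝ) (S : Set ℝ → Set ℝ)
    (hS : ∀ (B : Set ℝ) (z : ℝ), z ∈ B → ∀ s : ℝ, (s = 1 ∨ s = -1) → g α s z ∈ S B)
    (B : Set ℝ) {x : ℝ} (hx : x ∈ B) (k : ℕ) :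
    ∀ j : ℕ, j < 2 ^ k → ∃ z ∈ S^[k] B,
      ((z : UnitAddCircle) = ((2 ^ k * x + (1 - 2 ^ k) * α + j * (2 * α) : ℝ) : UnitAddCircle) ∨
       (z : UnitAddCircle) =
        -((2 ^ k * x + (1 - 2 ^ k) * α + j * (2 * α) : ℝ) : UnitAddCircle)) := by
  induction k with
  | zero =>
    intro j hj
    have h0 : j = 0 := by simpa using hj
    subst h0
    exact ⟨x, hx, Or.inl (by simp)⟩
  | succ k ih =>
    intro j hj
    have hj2 : j / 2 < 2 ^ k := by
      rw [pow_succ] at hj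
      omega
    obtain ⟨z, hz, hzu⟩ := ih (j / 2) hj2
    obtain ⟨s, hs, hsg⟩ := exists_step α hzu (2 * ((j % 2 : ℕ) : ℝ) - 1) (by
      rcases Nat.mod_two_eq_zero_or_one j with h | h
      · right; rw [h]; norm_num
      · left; rw [h]; norm_num)
    refine ⟨g α s z, ?_, ?_⟩
    · rw [Function.iterate_succ_apply']
      exact hS _ z hz s hs
    · have hj3 : (j : ℝ) = 2 * ((j / 2 : ℕ) : ℝ) + ((j % 2 : ℕ) : ℝ) := by
        exact_mod_cast (Nat.div_add_mod j 2).symm
      have e : 2 * (2 ^ k * x + (1 - 2 ^ k) * α + ((j / 2 : ℕ) : ℝ) * (2 * α)) +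
          (2 * ((j % 2 : ℕ) : ℝ) - 1) * α
          = 2 ^ (k + 1) * x + (1 - 2 ^ (k + 1)) * α + j * (2 * α) := by
        rw [hj3, pow_succ]
        ring
      rw [e] at hsg
      exact hsg

/-- Uniform density of finite pieces of an irrational rotation. -/
theorem unif {b : ℝ} (hb : Irrational b) {ε : ℝ} (hε : 0 < ε) :
    ∃ N : ℕ, ∀ w : UnitAddCircle, ∃ j : ℕ, j < N ∧ ‖((j * b : ℝ) : UnitAddCircle) - w‖ < ε := by
  have hd : DenseRange (fun n : ℤ => n • (b : UnitAddCircle)) := by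
    rw [AddCircle.denseRange_zsmul_coe_iff]
    simpa using hb
  obtain ⟨T, hT⟩ := isCompact_univ.elim_finite_subcover
    (fun n : ℤ => ball (n • (b : UnitAddCircle)) ε) (fun _ => isOpen_ball) (by
      intro w _
      obtain ⟨n, hn⟩ := hd.exists_dist_lt w hε
      exact mem_iUnion.2 ⟨n, hn⟩)
  obtain ⟨J, hJ⟩ : ∃ J : ℕ, ∀ n ∈ T, |n| ≤ J := by
    refine ⟨T.sup fun n => n.natAbs, fun n hn => ?_⟩
    have := Finset.le_sup (f := fun n : ℤ => n.natAbs) hn
    have h2 : |n| = (n.natAbs : ℤ) := Int.abs_eq_natAbs n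
    rw [h2]
    exact_mod_cast this
  refine ⟨2 * J + 1, fun w => ?_⟩
  have h := hT (mem_univ (w - (J : ℤ) • (b : UnitAddCircle)))
  rw [mem_iUnion₂] at h
  obtain ⟨n, hn, hn'⟩ := h
  have hn1 := abs_le.1 (hJ n hn)
  obtain ⟨j, hj⟩ : ∃ j : ℕ, (j : ℤ) = n + J := ⟨(n + J).toNat, Int.toNat_of_nonneg (by omega)⟩
  refine ⟨j, by omega, ?_⟩
  rw [mem_ball, dist_eq_norm] at hn'
  have e : ((j * b : ℝ) : UnitAddCircle) = n • (b : UnitAddCircle) + (J : ℤ) • (b : UnitAddCircle) := by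
    rw [← add_zsmul, ← hj]
    simp
  rw [e, ← norm_neg]
  refine lt_of_eq_of_lt ?_ hn'
  congr 1
  abel

/-- Every point of `[0, 1/2]` is approximated, uniformly. -/
theorem approx {α : ℝ} (hα : Irrational α) {ε : ℝ} (hε : 0 < ε) :
    ∃ K : ℕ, ∀ (S : Set ℝ → Set ℝ),
      (∀ (B : Set ℝ) (z : ℝ), z ∈ B → ∀ s : ℝ, (s = 1 ∨ s = -1) → g α s z ∈ S B) →
      ∀ (B : Set ℝ), B.Nonempty → ∀ k, K ≤ k → S^[k] B ⊆ Icc 0 (1 / 2) →
        ∀ y ∈ Icc (0 : ℝ) (1 / 2), ∃ z ∈ S^[k] B, |y - z| < ε := by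
  obtain ⟨N, hN⟩ := unif (hα.natCast_mul (m := 2) two_ne_zero) hε
  refine ⟨N, fun S hS B hB k hk hsub y hy => ?_⟩
  obtain ⟨x, hx⟩ := hB
  have hk2 : N < 2 ^ k := lt_of_le_of_lt hk k.lt_two_pow_self
  obtain ⟨j, hjN, hj⟩ := hN ((y : UnitAddCircle) -
    ((2 ^ k * x + (1 - 2 ^ k) * α : ℝ) : UnitAddCircle))
  obtain ⟨z, hz, hzu⟩ := reach α S hS B hx k j (hjN.trans hk2)
  refine ⟨z, hz, ?_⟩
  have hz1 := hsub hz
  have h1 : fold z = z := fold_of_mem hz1.1 hz1.2
  have h2 : fold y = y := fold_of_mem hy.1 hy.2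
  set c : ℝ := 2 ^ k * x + (1 - 2 ^ k) * α with hc
  have h3 : fold z = ‖((c + j * (2 * α) : ℝ) : UnitAddCircle)‖ := by
    unfold fold
    rcases hzu with h | h
    · rw [h]
    · rw [h, norm_neg]
  rw [← h1, ← h2, h3]
  have h4 : |fold y - ‖((c + j * (2 * α) : ℝ) : UnitAddCircle)‖|
      ≤ ‖(y : UnitAddCircle) - ((c + j * (2 * α) : ℝ) : UnitAddCircle)‖ :=
    abs_norm_sub_norm_le _ _
  refine h4.trans_lt ?_
  rw [← norm_neg]
  refine lt_of_eq_of_lt ?_ hj
  congr 1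
  rw [AddCircle.coe_add]
  push_cast
  abel

/-- The maps cover `[0, 1/2]`. -/
theorem cover (α : ℝ) {y : ℝ} (hy : y ∈ Icc (0 : ℝ) (1 / 2)) (hα0 : 0 < α) (hα : α < 1 / 2) :
    ∃ x ∈ Icc (0 : ℝ) (1 / 2), g α 1 x = y := by
  refine ⟨(1 - α - y) / 2, ⟨by linarith [hy.2], by linarith [hy.1]⟩, ?_⟩
  unfold g
  have e : 2 * ((1 - α - y) / 2) + 1 * α = 1 - y := by ring
  rw [e, fold_of_mem' (by linarith [hy.2]) (by linarith [hy.1])]
  ring

/-- The repelling fixed points. -/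
theorem repel {α : ℝ} (h0 : 0 < α) (h1 : α < 1 / 2) {s : ℝ} (hs : s = 1 ∨ s = -1) :
    ∃ p : ℝ, ∃ r > 0, ∀ x, |x - p| ≤ r → |g α s x - p| = 2 * |x - p| := by
  rcases hs with rfl | rfl
  · refine ⟨(1 - α) / 3, 1 / 100, by norm_num, fun x hx => ?_⟩
    have hx' := abs_le.1 hx
    unfold g
    rw [fold_of_mem' (by linarith [hx'.1]) (by linarith [hx'.2])]
    have e : 1 - (2 * x + 1 * α) - (1 - α) / 3 = -(2 * (x - (1 - α) / 3)) := by ring
    rw [e, abs_neg, abs_mul, abs_two]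
  · have hm : 0 < min (α / 4) ((1 / 2 - α) / 4) :=
      lt_min (by linarith) (by linarith)
    refine ⟨α, min (α / 4) ((1 / 2 - α) / 4), hm, fun x hx => ?_⟩
    have hx' := abs_le.1 hx
    have h2 := min_le_left (α / 4) ((1 / 2 - α) / 4)
    have h3 := min_le_right (α / 4) ((1 / 2 - α) / 4)
    unfold g
    rw [fold_of_mem (by linarith [hx'.1]) (by linarith [hx'.2])]
    have e : 2 * x + -1 * α - α = 2 * (x - α) := by ring
    rw [e, abs_mul, abs_two]

theorem repel_iter {f : ℝ → ℝ} {p r : ℝ} (h : ∀ x, |x - p| ≤ r → |f x - p| = 2 * |x - p|)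
    (k : ℕ) : ∀ x, 2 ^ k * |x - p| ≤ 2 * r → |f^[k] x - p| = 2 ^ k * |x - p| := by
  induction k with
  | zero => intro x _; simp
  | succ k ih =>
    intro x hx
    rw [pow_succ] at hx
    have h1 : |x - p| ≤ r := by
      have h2 : (1 : ℝ) ≤ 2 ^ k := one_le_pow₀ (by norm_num)
      nlinarith [abs_nonneg (x - p)]
    rw [Function.iterate_succ_apply, ih (f x) (by rw [h x h1]; linarith), h x h1, pow_succ]
    ring

end Pool.Agent.X198.FoldIFS
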