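import Mathlib

/-!
# The connected group of integer valued integrable functions
-/

set_option autoImplicit false

namespace Pool.Agent.X198.LOneZ

open MeasureTheory Set Filter Topology

/-- Lebesgue measure on the unit interval -/
noncomputable abbrev μI : Measure ℝ := volume.restrict (Ioc (0 : ℝ) 1)

/-- integer valued integrable functions on the unit interval, modulo null functions -/
abbrev B : Type := Lp ℤ 1 μI

instance : Fact ((1 : ENNReal) ≠ ⊤) := ⟨ENNReal.one_ne_top⟩

instance : SecondCountableTopology B := Lp.SecondCountableTopology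

theorem coeFn_nsmul (n : ℕ) (f : B) : ⇑(n • f) =ᵐ[μI] fun x => (n : ℤ) * f x := by
  induction n with
  | zero =>
    rw [zero_smul]
    filter_upwards [Lp.coeFn_zero ℤ 1 μI] with x hx
    rw [hx]
    simp
  | succ n ih =>
    rw [succ_nsmul]
    filter_upwards [Lp.coeFn_add (n • f) f, ih] with x hx h2
    rw [hx, Pi.add_apply, h2]
    push_cast
    ring

theorem norm_nsmul_eq (n : ℕ) (f : B) : ‖n • f‖ = n * ‖f‖ := by
  rw [L1.norm_eq_integral_norm, L1.norm_eq_integral_norm, ← integral_const_mul]
  refine integral_congr_ae ?_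
  filter_upwards [coeFn_nsmul n f] with x hx
  rw [hx, norm_mul]
  congr 1
  simp

theorem exists_not_double : ∃ b : B, ∀ g : B, g + g ≠ b := by
  refine ⟨Lp.const 1 μI (1 : ℤ), fun g hg => ?_⟩
  have h1 := Lp.coeFn_const (p := 1) (μ := μI) (1 : ℤ)
  have h2 := Lp.coeFn_add g g
  rw [hg] at h2
  have h3 : ∀ᵐ x ∂μI, False := by
    filter_upwards [h1, h2] with x hx1 hx2
    rw [hx1, Pi.add_apply] at hx2
    simp only [Function.const_apply] at hx2
    omega
  rw [ae_iff] at h3
  simp [μI] at h3

/-- cutting off a function -/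
noncomputable def cut (f : B) (t : ℝ) : B :=
  ((Lp.memLp f).indicator (measurableSet_Iic (a := t))).toLp _

theorem coeFn_cut (f : B) (t : ℝ) : ⇑(cut f t) =ᵐ[μI] (Iic t).indicator f :=
  MemLp.coeFn_toLp _

theorem cut_continuous (f : B) : Continuous (cut f) := by
  rw [continuous_iff_continuousAt]
  intro t
  rw [ContinuousAt, tendsto_iff_norm_sub_tendsto_zero]
  have h1 : ∀ s, ‖cut f s - cut f t‖ = ∫ x, ‖(Iic s).indicator f x - (Iic t).indicator f x‖ ∂μI := by
    intro s
    rw [L1.norm_eq_integral_norm]
    refine integral_congr_ae ?_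
    filter_upwards [Lp.coeFn_sub (cut f s) (cut f t), coeFn_cut f s, coeFn_cut f t] with x h1 h2 h3
    rw [h1, Pi.sub_apply, h2, h3]
  simp only [h1]
  have h0 : (0 : ℝ) = ∫ x, (0 : ℝ) ∂μI := by simp
  rw [h0]
  have hint : Integrable (fun x => (f x : ℤ)) μI := L1.integrable_coeFn f
  refine tendsto_integral_filter_of_dominated_convergence (fun x => 2 * ‖f x‖) ?_ ?_ ?_ ?_
  · refine Eventually.of_forall fun s => ?_
    exact ((hint.aestronglyMeasurable.indicator measurableSet_Iic).sub
      (hint.aestronglyMeasurable.indicator measurableSet_Iic)).norm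
  · refine Eventually.of_forall fun s => Eventually.of_forall fun x => ?_
    rw [norm_norm]
    refine (norm_sub_le _ _).trans ?_
    have e1 := norm_indicator_le_norm_self (s := Iic s) (f := f) x
    have e2 := norm_indicator_le_norm_self (s := Iic t) (f := f) x
    linarith
  · exact hint.norm.const_mul 2
  · have hne : ∀ᵐ x ∂μI, x ≠ t := by
      rw [ae_iff]
      have : {a : ℝ | ¬ a ≠ t} = {t} := by
        ext a
        simp
      rw [this]
      exact measure_singleton t
    filter_upwards [hne] with x hx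
    refine tendsto_const_nhds.congr' ?_
    rcases lt_or_gt_of_ne hx with h | h
    · filter_upwards [eventually_gt_nhds h] with s hs
      rw [indicator_of_mem (show x ∈ Iic s from hs.le), indicator_of_mem (show x ∈ Iic t from h.le),
        sub_self, norm_zero]
    · filter_upwards [eventually_lt_nhds h] with s hs
      rw [indicator_of_notMem (show x ∉ Iic s from not_le.2 hs),
        indicator_of_notMem (show x ∉ Iic t from not_le.2 h), sub_self, norm_zero]

theorem ae_mem : ∀ᵐ x ∂μI, x ∈ Ioc (0 : ℝ) 1 := ae_restrict_mem measurableSet_Ioc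

theorem cut_zero (f : B) : cut f 0 = 0 := by
  refine Lp.ext ?_
  filter_upwards [coeFn_cut f 0, Lp.coeFn_zero ℤ 1 μI, ae_mem] with x h1 h2 h3
  rw [h1, h2, indicator_of_notMem (show x ∉ Iic (0 : ℝ) from not_le.2 h3.1)]
  rfl

theorem cut_one (f : B) : cut f 1 = f := by
  refine Lp.ext ?_
  filter_upwards [coeFn_cut f 1, ae_mem] with x h1 h3
  rw [h1, indicator_of_mem (show x ∈ Iic (1 : ℝ) from h3.2)]

instance : PreconnectedSpace B := by
  refine ⟨isPreconnected_of_forall (0 : B) fun f _ => ?_⟩
  exact ⟨range (cut f), subset_univ _, ⟨0, cut_zero f⟩, ⟨1, cut_one f⟩,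
    isPreconnected_range (cut_continuous f)⟩

end Pool.Agent.X198.LOneZ
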