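import Mathlib

/-!
# A sequentially complete locally minimal group with a small component
-/

set_option autoImplicit false

namespace Pool.Agent.X198.SeqLM

open Set Filter Topology

/-- the discrete cyclic group of order four -/
def Z4 : Type := ZMod 4

instance : AddCommGroup Z4 := inferInstanceAs (AddCommGroup (ZMod 4))
instance : Fintype Z4 := inferInstanceAs (Fintype (ZMod 4))
instance : DecidableEq Z4 := inferInstanceAs (DecidableEq (ZMod 4))
instance : UniformSpace Z4 := ⊥
instance : DiscreteUniformity Z4 := ⟨rfl⟩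
instance : DiscreteTopology Z4 := inferInstance
instance : IsUniformAddGroup Z4 := ⟨by
  exact DiscreteUniformity.uniformContinuous _ _⟩

/-- reduction modulo two -/
def m2 : Z4 →+ ZMod 2 := (ZMod.castHom (show 2 ∣ 4 by norm_num) (ZMod 2)).toAddMonoidHom

/-- twice an element -/
theorem m2_add_self (x : Z4) : m2 (x + x) = 0 := by
  rw [map_add]
  exact CharTwo.add_self_eq_zero _

theorem eq_zero_of (x : Z4) (h : x + x = 0) : m2 x = 0 := by
  revert x
  decide

theorem m2_surj (y : ZMod 2) : ∃ x, m2 x = y := by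
  revert y
  decide

variable {B : Type} [NormedAddCommGroup B]

/-- the index set -/
abbrev Ix (B : Type) [NormedAddCommGroup B] : Type := (B →+ ZMod 2) × ℝ

/-- the big group -/
abbrev L (B : Type) [NormedAddCommGroup B] : Type := B × (Ix B → Z4)

/-- the set of bad indices -/
def bad (p : L B) : Set (Ix B) := {i | m2 (p.2 i) ≠ i.1 p.1}

/-- the group -/
def G (B : Type) [NormedAddCommGroup B] : AddSubgroup (L B) where
  carrier := {p | (bad p).Countable}
  zero_mem' := by
    have : bad (0 : L B) = ∅ := by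
      ext i
      simp [bad]
    change (bad (0 : L B)).Countable
    rw [this]
    exact countable_empty
  add_mem' := by
    intro p q hp hq
    refine (hp.union hq).mono fun i hi => ?_
    by_contra hcon
    rw [mem_union, not_or] at hcon
    have h1 : m2 (p.2 i) = i.1 p.1 := by
      by_contra h
      exact hcon.1 h
    have h2 : m2 (q.2 i) = i.1 q.1 := by
      by_contra h
      exact hcon.2 h
    apply hi
    change m2 (p.2 i + q.2 i) = i.1 (p.1 + q.1)
    rw [map_add, map_add, h1, h2]
  neg_mem' := by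
    intro p hp
    refine hp.mono fun i hi => ?_
    intro h
    apply hi
    change m2 (-p.2 i) = i.1 (-p.1)
    rw [map_neg, map_neg, h]

theorem mem_G {p : L B} : p ∈ G B ↔ (bad p).Countable := Iff.rfl

theorem basic {W : Set (G B)} (hW : W ∈ 𝓝 (0 : G B)) :
    ∃ δ > 0, ∃ F : Finset (Ix B), ∀ p : G B, ‖p.1.1‖ < δ → (∀ j ∈ F, p.1.2 j = 0) → p ∈ W := by
  rw [nhds_subtype, mem_comap] at hW
  obtain ⟨t, ht, htW⟩ := hW
  have ht' : t ∈ 𝓝 ((0 : B), (0 : Ix B → Z4)) := ht
  rw [mem_nhds_prod_iff] at ht'
  obtain ⟨A, hA, C, hC, hAC⟩ := ht'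
  obtain ⟨δ, hδ, hδA⟩ := Metric.mem_nhds_iff.1 hA
  rw [nhds_pi, Filter.mem_pi] at hC
  obtain ⟨I, hI, s, hs, hsC⟩ := hC
  refine ⟨δ, hδ, hI.toFinset, fun p hp1 hp2 => htW (hAC ⟨hδA ?_, hsC fun j hj => ?_⟩)⟩
  · rw [mem_ball_zero_iff]
    exact hp1
  · rw [hp2 j (hI.mem_toFinset.2 hj)]
    exact mem_of_mem_nhds (hs j)

theorem dense_G [Nonempty B] : Dense (G B : Set (L B)) := by
  classical
  intro p
  rw [mem_closure_iff_nhds]
  intro t ht
  have ht' : t ∈ 𝓝 (p.1, p.2) := ht
  rw [mem_nhds_prod_iff] at ht'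
  obtain ⟨A, hA, C, hC, hAC⟩ := ht'
  rw [nhds_pi, Filter.mem_pi] at hC
  obtain ⟨I, hI, s, hs, hsC⟩ := hC
  choose lift hlift using m2_surj
  refine ⟨(p.1, fun j => if j ∈ I then p.2 j else lift (j.1 p.1)), hAC ⟨mem_of_mem_nhds hA,
    hsC fun j hj => ?_⟩, ?_⟩
  · change (if j ∈ I then p.2 j else lift (j.1 p.1)) ∈ s j
    rw [if_pos hj]
    exact mem_of_mem_nhds (hs j)
  · refine hI.countable.mono fun j hj => ?_
    by_contra hjI
    apply hj
    change m2 (if j ∈ I then p.2 j else lift (j.1 p.1)) = j.1 p.1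
    rw [if_neg hjI, hlift]

/-- local minimality -/
def LocallyMinimal (G : Type) [AddCommGroup G] [TopologicalSpace G] : Prop :=
  ∃ V ∈ 𝓝 (0 : G), ∀ (H : Type) [AddCommGroup H] [TopologicalSpace H] [IsTopologicalAddGroup H]
    [T2Space H] (f : G ≃+ H), Continuous f → f '' V ∈ 𝓝 (0 : H) → IsOpenMap f

open Classical in
/-- a finitely supported part of an element -/
noncomputable def part (F : Finset (Ix B)) (k : Ix B → Z4) : L B :=
  (0, fun j => if j ∈ F then k j else 0)

theorem part_mem (F : Finset (Ix B)) (k : Ix B → Z4) : part F k ∈ G B := by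
  classical
  refine F.countable_toSet.mono fun j hj => ?_
  by_contra hjF
  rw [Finset.mem_coe] at hjF
  apply hj
  change m2 (if j ∈ F then k j else 0) = j.1 0
  rw [if_neg hjF, map_zero, map_zero]

theorem locallyMinimal (hn : ∀ (n : ℕ) (f : B), ‖n • f‖ = n * ‖f‖) : LocallyMinimal (G B) := by
  classical
  refine ⟨{p | ‖p.1.1‖ < 1}, ?_, ?_⟩
  · have hc : Continuous fun p : G B => ‖p.1.1‖ :=
      continuous_norm.comp (continuous_fst.comp continuous_subtype_val)
    refine (isOpen_lt hc continuous_const).mem_nhds ?_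
    change ‖(0 : B)‖ < 1
    rw [norm_zero]
    exact one_pos
  · intro H _ _ _ _ e he hV
    -- the pulled back neighbourhood filter
    set S : Filter (G B) := comap e (𝓝 (0 : H)) with hS
    have hSle : 𝓝 (0 : G B) ≤ S := by
      rw [hS, ← tendsto_iff_comap]
      have := he.tendsto 0
      rwa [map_zero] at this
    have hVS : {p : G B | ‖p.1.1‖ < 1} ∈ S := by
      refine mem_comap.2 ⟨_, hV, ?_⟩
      rw [e.injective.preimage_image]
    have hsub : ∀ O ∈ S, ∃ P ∈ S, ∀ p ∈ P, ∀ q ∈ P, p - q ∈ O := by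
      intro O hO
      obtain ⟨O', hO', hOO⟩ := mem_comap.1 hO
      have hcont : Tendsto (fun x : H × H => x.1 - x.2) (𝓝 (0, 0)) (𝓝 0) := by
        have h0 : Continuous fun x : H × H => x.1 - x.2 := continuous_fst.sub continuous_snd
        have := h0.tendsto (0, 0)
        rwa [sub_self] at this
      have h1 := hcont hO'
      rw [mem_map, mem_nhds_prod_iff] at h1
      obtain ⟨A, hA, C, hC, hAC⟩ := h1
      refine ⟨e ⁻¹' (A ∩ C), preimage_mem_comap (inter_mem hA hC), fun p hp q hq => hOO ?_⟩
      change e (p - q) ∈ O'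
      rw [map_sub]
      exact hAC (show (e p, e q) ∈ A ×ˢ C from ⟨hp.1, hq.2⟩)
    have hmul : ∀ (n : ℕ) (O : Set (G B)), O ∈ S → {p : G B | n • p ∈ O} ∈ S := by
      intro n O hO
      obtain ⟨O', hO', hOO⟩ := mem_comap.1 hO
      have h1 : Tendsto (fun x : H => n • x) (𝓝 0) (𝓝 0) := by
        have := (continuous_nsmul n : Continuous fun x : H => n • x).tendsto 0
        simpa using this
      refine mem_comap.2 ⟨_, h1 hO', fun p hp => hOO ?_⟩
      change e (n • p) ∈ O'
      rw [map_nsmul]
      exact hp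
    have step1 : ∀ δ > 0, {p : G B | ‖p.1.1‖ < δ} ∈ S := by
      intro δ hδ
      obtain ⟨n, hn1⟩ := exists_nat_gt (1 / δ)
      have hn0 : (0 : ℝ) < n := lt_trans (by positivity) hn1
      refine mem_of_superset (hmul n _ hVS) fun p hp => ?_
      have h1 : ‖n • p.1.1‖ < 1 := hp
      rw [hn] at h1
      change ‖p.1.1‖ < δ
      rw [div_lt_iff₀ hδ] at hn1
      by_contra hcon
      rw [not_lt] at hcon
      nlinarith
    -- the compact part
    have step0 : ∀ i : Ix B, {p : G B | (p.1.1 = 0 ∧ ∀ j, m2 (p.1.2 j) = 0) → p.1.2 i = 0} ∈ S := by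
      intro i
      set N : Set (G B) := {p | (p.1.1 = 0 ∧ ∀ j, m2 (p.1.2 j) = 0) ∧ p.1.2 i ≠ 0} with hN
      have hNc : IsCompact N := by
        rw [Subtype.isCompact_iff]
        have e1 : (Subtype.val '' N : Set (L B)) =
            (fun k : Ix B → Z4 => ((0 : B), k)) '' {k | (∀ j, m2 (k j) = 0) ∧ k i ≠ 0} := by
          ext p
          constructor
          · rintro ⟨q, ⟨⟨h1, h2⟩, h3⟩, rfl⟩
            exact ⟨q.1.2, ⟨h2, h3⟩, Prod.ext h1.symm rfl⟩
          · rintro ⟨k, ⟨h1, h2⟩, rfl⟩
            refine ⟨⟨(0, k), ?_⟩, ⟨⟨rfl, h1⟩, h2⟩, rfl⟩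
            have : bad ((0 : B), k) = ∅ := by
              ext j
              simp only [bad, mem_ofPred_eq, mem_empty_iff_false, iff_false, not_not]
              rw [h1, map_zero]
            rw [mem_G, this]
            exact countable_empty
        rw [e1]
        refine IsCompact.image (IsClosed.isCompact ?_) (by fun_prop)
        have hcl1 : IsClosed {k : Ix B → Z4 | ∀ j, m2 (k j) = 0} := by
          have : {k : Ix B → Z4 | ∀ j, m2 (k j) = 0} = ⋂ j, {k | m2 (k j) = 0} := by
            ext k
            simp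
          rw [this]
          refine isClosed_iInter fun j => ?_
          have hc : Continuous fun k : Ix B → Z4 => k j := continuous_apply j
          exact (isClosed_discrete {x : Z4 | m2 x = 0}).preimage hc
        have hc : Continuous fun k : Ix B → Z4 => k i := continuous_apply i
        exact hcl1.inter ((isClosed_discrete {x : Z4 | x ≠ 0}).preimage hc)
      have hcl : IsClosed (e '' N) := (hNc.image he).isClosed
      have h0 : (0 : H) ∉ e '' N := by
        rintro ⟨p, hp, hp0⟩
        have : p = 0 := by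
          rw [← map_zero e] at hp0
          exact e.injective hp0
        rw [this] at hp
        exact hp.2 rfl
      refine mem_comap.2 ⟨_, hcl.isOpen_compl.mem_nhds h0, fun p hp hpN => ?_⟩
      by_contra h
      exact hp ⟨p, ⟨hpN, h⟩, rfl⟩
    have finInter : ∀ (P : Ix B → Set (G B)) (F : Finset (Ix B)), (∀ i, P i ∈ S) →
        {p : G B | ∀ i ∈ F, p ∈ P i} ∈ S := by
      intro P F hP
      have h1 := (Filter.biInter_finset_mem F).2 fun i (_ : i ∈ F) => hP i
      refine mem_of_superset h1 fun p hp => ?_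
      simpa using hp
    have stepA1 : ∀ i : Ix B, {p : G B | p.1.1 = 0 → m2 (p.1.2 i) = 0} ∈ S := by
      intro i
      refine mem_of_superset (hmul 2 _ (step0 i)) fun p hp hp0 => ?_
      refine eq_zero_of _ ?_
      have h1 := hp ⟨by
        change 2 • p.1.1 = 0
        rw [hp0, smul_zero], fun j => by
        change m2 (2 • p.1.2 j) = 0
        rw [two_nsmul]
        exact m2_add_self _⟩
      change 2 • p.1.2 i = 0 at h1
      rwa [two_nsmul] at h1
    have stepA : ∀ i : Ix B, {p : G B | p.1.1 = 0 → p.1.2 i = 0} ∈ S := by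
      intro i
      obtain ⟨P, hP, hPO⟩ := hsub _ (step0 i)
      obtain ⟨δ, hδ, F, hF⟩ := basic (hSle hP)
      have hA := finInter (fun j => {p : G B | p.1.1 = 0 → m2 (p.1.2 j) = 0}) (insert i F) stepA1
      refine mem_of_superset (inter_mem hP hA) ?_
      rintro p ⟨hpP, hpA⟩ hp0
      set ν : G B := ⟨part (insert i F) p.1.2, part_mem _ _⟩ with hν
      have hw : p - ν ∈ P := by
        refine hF _ ?_ fun j hj => ?_
        · change ‖p.1.1 - 0‖ < δ
          rw [hp0, sub_zero, norm_zero]
          exact hδ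
        · change p.1.2 j - (if j ∈ insert i F then p.1.2 j else 0) = 0
          rw [if_pos (Finset.mem_insert_of_mem hj), sub_self]
      have h1 := hPO p hpP _ hw
      rw [sub_sub_cancel] at h1
      have h2 : ν.1.2 i = 0 := h1 ⟨rfl, fun j => by
        change m2 (if j ∈ insert i F then p.1.2 j else 0) = 0
        split_ifs with hj
        · exact hpA j hj hp0
        · exact map_zero _⟩
      change (if i ∈ insert i F then p.1.2 i else 0) = 0 at h2
      rwa [if_pos (Finset.mem_insert_self _ _)] at h2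
    have stepB : ∀ i : Ix B, {p : G B | p.1.2 i = 0} ∈ S := by
      intro i
      obtain ⟨P, hP, hPO⟩ := hsub _ (stepA i)
      obtain ⟨δ, hδ, F, hF⟩ := basic (hSle hP)
      refine mem_of_superset (inter_mem hP (step1 δ hδ)) ?_
      rintro p ⟨hpP, hpδ⟩
      set ν : G B := ⟨part (insert i F) p.1.2, part_mem _ _⟩ with hν
      have hw : p - ν ∈ P := by
        refine hF _ ?_ fun j hj => ?_
        · change ‖p.1.1 - 0‖ < δ
          rw [sub_zero]
          exact hpδ
        · change p.1.2 j - (if j ∈ insert i F then p.1.2 j else 0) = 0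
          rw [if_pos (Finset.mem_insert_of_mem hj), sub_self]
      have h1 := hPO p hpP _ hw
      rw [sub_sub_cancel] at h1
      have h2 : ν.1.2 i = 0 := h1 rfl
      change (if i ∈ insert i F then p.1.2 i else 0) = 0 at h2
      rwa [if_pos (Finset.mem_insert_self _ _)] at h2
    -- conclusion
    have hfin : ∀ W ∈ 𝓝 (0 : G B), W ∈ S := by
      intro W hW
      obtain ⟨δ, hδ, F, hF⟩ := basic hW
      refine mem_of_superset (inter_mem (step1 δ hδ)
        (finInter (fun j => {p : G B | p.1.2 j = 0}) F stepB)) ?_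
      rintro p ⟨h1, h2⟩
      exact hF p h1 h2
    have hle : 𝓝 (0 : H) ≤ map e (𝓝 (0 : G B)) := by
      intro W hW
      rw [mem_map] at hW
      obtain ⟨O, hO, hOW⟩ := mem_comap.1 (hfin _ hW)
      refine mem_of_superset hO fun y hy => ?_
      have h1 : e.symm y ∈ e ⁻¹' O := by
        change e (e.symm y) ∈ O
        rwa [e.apply_symm_apply]
      have h2 := hOW h1
      change e (e.symm y) ∈ W at h2
      rwa [e.apply_symm_apply] at h2
    exact (IsTopologicalAddGroup.isOpenMap_iff_nhds_zero (f := e)).2 hle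

end Pool.Agent.X198.SeqLM
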