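import Mathlib
import Pool.Agent.X198.SeqLM

/-!
# Sequential completeness of the group, and its completion
-/

set_option autoImplicit false

namespace Pool.Agent.X198.SeqLM

open Set Filter Topology

variable {B : Type} [NormedAddCommGroup B]

/-- prescribed values on a linearly independent sequence -/
theorem exists_functional {V : Type} [AddCommGroup V] [Module (ZMod 2) V] {x : ℕ → V}
    (hli : LinearIndependent (ZMod 2) x) (ε : ℕ → ZMod 2) :
    ∃ ψ : V →ₗ[ZMod 2] ZMod 2, ∀ n, ψ (x n) = ε n := by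
  obtain ⟨ψ, hψ⟩ := LinearMap.exists_extend
    ((Finsupp.linearCombination (ZMod 2) ε) ∘ₗ hli.repr)
  refine ⟨ψ, fun n => ?_⟩
  have h1 := LinearMap.congr_fun hψ ⟨x n, Submodule.subset_span (mem_range_self n)⟩
  rw [LinearMap.comp_apply, LinearMap.comp_apply] at h1
  have h2 : hli.repr ⟨x n, Submodule.subset_span (mem_range_self n)⟩ =
      Finsupp.single n 1 := hli.repr_eq_single n _ rfl
  change ψ (x n) = Finsupp.linearCombination (ZMod 2) _ (hli.repr _) at h1
  rw [h1, h2, Finsupp.linearCombination_single, one_smul]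

/-- the doubles -/
def D (B : Type) [NormedAddCommGroup B] : AddSubgroup B := (nsmulAddMonoidHom (α := B) 2).range

theorem mem_D {b : B} : b ∈ D B ↔ ∃ g, g + g = b := by
  constructor
  · rintro ⟨g, hg⟩
    exact ⟨g, by rw [← hg, nsmulAddMonoidHom_apply, two_nsmul]⟩
  · rintro ⟨g, hg⟩
    exact ⟨g, by rw [← hg, nsmulAddMonoidHom_apply, two_nsmul]⟩

theorem char_D (χ : B →+ ZMod 2) {b : B} (hb : b ∈ D B) : χ b = 0 := by
  obtain ⟨g, rfl⟩ := mem_D.1 hb
  rw [map_add]
  exact CharTwo.add_self_eq_zero _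

theorem isClosed_D [CompleteSpace B] (hn : ∀ (n : ℕ) (f : B), ‖n • f‖ = n * ‖f‖) :
    IsClosed (D B : Set B) := by
  have e : (D B : Set B) = range (fun b : B => 2 • b) := by
    ext b
    simp [D]
  rw [e]
  refine AntilipschitzWith.isClosed_range (K := 1) ?_ ?_
  · refine AntilipschitzWith.of_le_mul_dist fun x y => ?_
    rw [dist_eq_norm, dist_eq_norm, ← smul_sub, hn]
    push_cast
    nlinarith [norm_nonneg (x - y)]
  · refine (LipschitzWith.of_dist_le_mul (K := 2) fun x y => ?_).uniformContinuous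
    rw [dist_eq_norm, dist_eq_norm, ← smul_sub, hn]
    push_cast
    exact le_rfl

theorem finite_span {V : Type} [AddCommGroup V] [Module (ZMod 2) V] {s : Set V} (hs : s.Finite) :
    (Submodule.span (ZMod 2) s : Set V).Finite := by
  have h1 : Module.Finite (ZMod 2) (Submodule.span (ZMod 2) s) :=
    Module.Finite.iff_fg.2 (Submodule.fg_span hs)
  have h2 : Finite (Submodule.span (ZMod 2) s) := Module.finite_of_finite (ZMod 2)
  exact h2

/-- A null sequence on which all characters converge is eventually in the doubles. -/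
theorem eventually_D [CompleteSpace B] (hn : ∀ (n : ℕ) (f : B), ‖n • f‖ = n * ‖f‖) {g : ℕ → B}
    (hg : Tendsto g atTop (𝓝 0)) (hconv : ∀ χ : B →+ ZMod 2, ∃ c N, ∀ n, N ≤ n → χ (g n) = c) :
    ∀ᶠ n in atTop, g n ∈ D B := by
  by_contra hcon
  have hJ : {n | g n ∉ D B}.Infinite := by
    intro hfin
    obtain ⟨N, hN⟩ := hfin.bddAbove
    refine hcon (eventually_atTop.2 ⟨N + 1, fun n hn' => ?_⟩)
    by_contra h
    have := hN h
    omega
  let _ : Module (ZMod 2) (B ⧸ D B) := AddCommGroup.zmodModule (n := 2) fun x => by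
    obtain ⟨b, rfl⟩ := QuotientAddGroup.mk_surjective x
    rw [← QuotientAddGroup.mk_nsmul, QuotientAddGroup.eq_zero_iff]
    exact ⟨b, rfl⟩
  set π : B →+ B ⧸ D B := QuotientAddGroup.mk' (D B) with hπ
  set S : Set (B ⧸ D B) := (fun n => π (g n)) '' {n | g n ∉ D B} with hS
  have hSinf : S.Infinite := by
    intro hfin
    obtain ⟨v, hvS, hv⟩ : ∃ v ∈ S, {n | g n ∉ D B ∧ π (g n) = v}.Infinite := by
      by_contra hall
      push Not at hall
      refine hJ ((hfin.biUnion fun v hv => hall v hv).subset fun n hn' => ?_)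
      exact mem_iUnion₂.2 ⟨π (g n), ⟨n, hn', rfl⟩, hn', rfl⟩
    obtain ⟨n0, hn0, hn0v⟩ := hvS
    have hfreq : ∃ᶠ n in atTop, g n - g n0 ∈ (D B : Set B) := by
      rw [frequently_atTop]
      intro N
      obtain ⟨n, hn1, hn2⟩ := hv.exists_gt N
      refine ⟨n, hn2.le, ?_⟩
      rw [SetLike.mem_coe, ← QuotientAddGroup.eq_zero_iff]
      change π (g n - g n0) = 0
      rw [map_sub, hn1.2, ← hn0v, sub_self]
    have hlim : Tendsto (fun n => g n - g n0) atTop (𝓝 (0 - g n0)) := hg.sub_const _
    have hmem := (isClosed_D hn).mem_of_frequently_of_tendsto hfreq hlim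
    rw [zero_sub, SetLike.mem_coe, neg_mem_iff] at hmem
    exact hn0 hmem
  obtain ⟨b, hbS, hspan, hli⟩ := exists_linearIndependent (ZMod 2) S
  have hbinf : b.Infinite := by
    intro hfin
    refine hSinf ((finite_span hfin).subset ?_)
    rw [hspan]
    exact Submodule.subset_span
  have hbi : Infinite b := hbinf.to_subtype
  set ι := Infinite.natEmbedding b with hι
  have hli' : LinearIndependent (ZMod 2) fun j => ((ι j : b) : B ⧸ D B) := hli.comp ι ι.injective
  obtain ⟨φ, hφ⟩ := exists_functional hli' (fun j => (j : ZMod 2))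
  have hpre : ∀ j, ∃ n, π (g n) = (ι j : b) := by
    intro j
    obtain ⟨n, -, hn'⟩ := hbS (ι j).2
    exact ⟨n, hn'⟩
  choose nn hnn using hpre
  have hinj : Function.Injective nn := by
    intro i j hij
    apply ι.injective
    apply Subtype.ext
    rw [← hnn i, ← hnn j, hij]
  obtain ⟨c, N, hc⟩ := hconv (φ.toAddMonoidHom.comp π)
  have hfin : {j | nn j < N}.Finite := (finite_Iio N).preimage hinj.injOn
  obtain ⟨j0, hj0⟩ := hfin.bddAbove
  have hval : ∀ j, j0 < j → (j : ZMod 2) = c := by
    intro j hj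
    rw [← hφ j, ← hnn j]
    refine hc (nn j) ?_
    by_contra h
    have := hj0 (show j ∈ {j | nn j < N} from not_le.1 h)
    omega
  have h1 := hval (j0 + 1) (by omega)
  have h2 := hval (j0 + 1 + 1) (by omega)
  rw [← h1] at h2
  push_cast at h2
  have h3 : (1 : ZMod 2) = 0 := by
    have := congrArg (fun z => z - ((j0 : ZMod 2) + 1)) h2
    simp at this
  exact one_ne_zero h3

theorem exists_good {C : Set (Ix B)} (hC : C.Countable) (χ : B →+ ZMod 2) : ∃ r : ℝ, (χ, r) ∉ C := by
  by_contra hcon
  push Not at hcon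
  have h1 : (univ : Set ℝ).Countable := by
    refine (hC.preimage (f := fun r : ℝ => (χ, r)) fun a b hab => congrArg Prod.snd hab).mono ?_
    intro r _
    exact hcon r
  exact not_countable_univ h1

/-- The group is sequentially closed. -/
theorem seq_closed [CompleteSpace B] (hn : ∀ (n : ℕ) (f : B), ‖n • f‖ = n * ‖f‖) {u : ℕ → G B}
    {p : L B} (h : Tendsto (fun n => (u n).1) atTop (𝓝 p)) : p ∈ G B := by
  set C : Set (Ix B) := ⋃ n, bad (u n).1 with hCdef
  have hC : C.Countable := countable_iUnion fun n => (u n).2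
  have h1 : Tendsto (fun n => (u n).1.1) atTop (𝓝 p.1) := (continuous_fst.tendsto p).comp h
  have h2 : ∀ i, ∀ᶠ n in atTop, (u n).1.2 i = p.2 i := by
    intro i
    have hc : Continuous fun q : L B => q.2 i := (continuous_apply i).comp continuous_snd
    exact ((hc.tendsto p).comp h).eventually ((isOpen_discrete {p.2 i}).mem_nhds rfl)
  have hgood : ∀ i, i ∉ C → ∀ n, m2 ((u n).1.2 i) = i.1 (u n).1.1 := by
    intro i hi n
    by_contra hcon
    exact hi (mem_iUnion.2 ⟨n, hcon⟩)
  have hconv : ∀ χ : B →+ ZMod 2, ∃ c N, ∀ n, N ≤ n → χ ((u n).1.1 - p.1) = c := by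
    intro χ
    obtain ⟨r, hr⟩ := exists_good hC χ
    obtain ⟨N, hN⟩ := eventually_atTop.1 (h2 (χ, r))
    refine ⟨m2 (p.2 (χ, r)) - χ p.1, N, fun n hn' => ?_⟩
    rw [map_sub, ← hN n hn', hgood _ hr n]
  have hg : Tendsto (fun n => (u n).1.1 - p.1) atTop (𝓝 0) := by
    have := h1.sub_const p.1
    rwa [sub_self] at this
  have hD := eventually_D hn hg hconv
  refine hC.mono fun i hi => ?_
  by_contra hiC
  apply hi
  obtain ⟨n, hn1, hn2⟩ := (hD.and (h2 i)).exists
  rw [← hn2, hgood i hiC n]
  have := char_D i.1 hn1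
  rwa [map_sub, sub_eq_zero] at this

/-- sequential completeness of an abelian topological group -/
def SeqComplete (G : Type) [AddCommGroup G] [TopologicalSpace G] : Prop :=
  ∀ u : ℕ → G, (∀ U ∈ 𝓝 (0 : G), ∃ N, ∀ m ≥ N, ∀ n ≥ N, u m - u n ∈ U) →
    ∃ x, Tendsto u atTop (𝓝 x)

theorem seqComplete [CompleteSpace B] (hn : ∀ (n : ℕ) (f : B), ‖n • f‖ = n * ‖f‖) :
    SeqComplete (G B) := by
  intro u hu
  have hc : CauchySeq fun n => (u n).1 := by
    rw [cauchySeq_iff]
    intro V hV
    rw [uniformity_eq_comap_nhds_zero (L B), mem_comap] at hV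
    obtain ⟨U, hU, hUV⟩ := hV
    have hU' : (Subtype.val ⁻¹' U : Set (G B)) ∈ 𝓝 (0 : G B) := by
      rw [nhds_subtype]
      exact preimage_mem_comap hU
    obtain ⟨N, hN⟩ := hu _ hU'
    refine ⟨N, fun m hm n hn' => hUV ?_⟩
    exact hN n hn' m hm
  obtain ⟨p, hp⟩ := cauchySeq_tendsto_of_complete hc
  refine ⟨⟨p, seq_closed hn hp⟩, ?_⟩
  rw [tendsto_subtype_rng]
  exact hp

/-- the weight of a space -/
noncomputable def weight (X : Type) [TopologicalSpace X] : Cardinal.{0} :=
  sInf {c | ∃ S : Set (Set X), TopologicalSpace.IsTopologicalBasis S ∧ Cardinal.mk S = c}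

/-- Ulam-measurable cardinals -/
def UlamMeasurable (κ : Cardinal.{0}) : Prop :=
  ∃ (S : Type) (U : Ultrafilter S), Cardinal.mk S = κ ∧ (∀ s : S, {s} ∉ U) ∧
    CountableInterFilter (U : Filter S)

theorem not_ulam {κ : Cardinal.{0}} (hκ : κ ≤ Cardinal.aleph0) : ¬ UlamMeasurable κ := by
  rintro ⟨S, U, hS, hfree, hU⟩
  rw [← hS] at hκ
  have hc : Countable S := Cardinal.mk_le_aleph0_iff.1 hκ
  have h1 : ⋂ s : S, ({s}ᶜ : Set S) ∈ (U : Filter S) := by
    rw [countable_iInter_mem]
    intro s
    exact Ultrafilter.compl_mem_iff_notMem.2 (hfree s)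
  have h2 : ⋂ s : S, ({s}ᶜ : Set S) = ∅ := by
    ext x
    simp
  rw [h2] at h1
  exact (U : Filter S).empty_notMem h1

theorem weight_le {X : Type} [TopologicalSpace X] [SecondCountableTopology X] :
    weight X ≤ Cardinal.aleph0 := by
  obtain ⟨b, hb, -, hb'⟩ := TopologicalSpace.exists_countable_basis X
  have h1 : weight X ≤ Cardinal.mk b := csInf_le (OrderBot.bddBelow _) ⟨b, hb', rfl⟩
  exact h1.trans (Cardinal.mk_le_aleph0_iff.2 hb.to_subtype)

theorem comp_snd {p : G B} (hp : p ∈ connectedComponent (0 : G B)) : p.1.2 = 0 := by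
  have hc : Continuous fun q : G B => q.1.2 := continuous_snd.comp continuous_subtype_val
  have h1 : ((fun q : G B => q.1.2) '' connectedComponent (0 : G B)).Subsingleton :=
    (isPreconnected_connectedComponent.image _ hc.continuousOn).subsingleton
  exact h1 ⟨p, hp, rfl⟩ ⟨0, mem_connectedComponent, rfl⟩

theorem secondCountable_comp [SecondCountableTopology B] :
    SecondCountableTopology (connectedComponent (0 : G B)) := by
  have h1 : Topology.IsInducing fun x : connectedComponent (0 : G B) => (x.1.1 : L B) :=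
    Topology.IsInducing.subtypeVal.comp Topology.IsInducing.subtypeVal
  have h2 : Topology.IsInducing fun x : connectedComponent (0 : G B) => x.1.1.1 := by
    refine Topology.IsInducing.of_comp (g := fun b : B => (b, (0 : Ix B → Z4))) ?_ ?_ ?_
    · exact continuous_fst.comp h1.continuous
    · fun_prop
    · have e : (fun b : B => (b, (0 : Ix B → Z4))) ∘
          (fun x : connectedComponent (0 : G B) => x.1.1.1) = fun x => (x.1.1 : L B) := by
        funext x
        exact Prod.ext rfl (comp_snd x.2).symm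
      rw [e]
      exact h1
  exact h2.secondCountableTopology

theorem exists_char {b0 : B} (h : ∀ g, g + g ≠ b0) : ∃ χ : B →+ ZMod 2, χ b0 ≠ 0 := by
  let _ : Module (ZMod 2) (B ⧸ D B) := AddCommGroup.zmodModule (n := 2) fun x => by
    obtain ⟨b, rfl⟩ := QuotientAddGroup.mk_surjective x
    rw [← QuotientAddGroup.mk_nsmul, QuotientAddGroup.eq_zero_iff]
    exact ⟨b, rfl⟩
  set π : B →+ B ⧸ D B := QuotientAddGroup.mk' (D B) with hπ
  have hne : π b0 ≠ 0 := by
    intro h0
    have : b0 ∈ D B := (QuotientAddGroup.eq_zero_iff b0).1 h0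
    obtain ⟨g, hg⟩ := mem_D.1 this
    exact h g hg
  by_contra hcon
  push Not at hcon
  apply hne
  rw [← Module.forall_dual_apply_eq_zero_iff (ZMod 2)]
  intro φ
  exact hcon (φ.toAddMonoidHom.comp π)

theorem not_mem_G {b0 : B} (h : ∀ g, g + g ≠ b0) : ((b0, 0) : L B) ∉ G B := by
  intro hmem
  obtain ⟨χ, hχ⟩ := exists_char h
  obtain ⟨r, hr⟩ := exists_good (mem_G.1 hmem) χ
  apply hr
  intro h0
  apply hχ
  have h1 : m2 (0 : Z4) = χ b0 := h0
  rw [← h1, map_zero]

/-- The components do not match. -/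
theorem components [CompleteSpace B] [PreconnectedSpace B] {b0 : B} (h : ∀ g, g + g ≠ b0) :
    ((↑) : G B → UniformSpace.Completion (G B)) '' connectedComponent (0 : G B) ≠
      connectedComponent (0 : UniformSpace.Completion (G B)) := by
  intro heq
  let pkg : AbstractCompletion (G B) :=
    { space := L B
      coe := Subtype.val
      uniformStruct := inferInstance
      complete := inferInstance
      separation := inferInstance
      isUniformInducing := isUniformEmbedding_subtype_val.isUniformInducing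
      dense := by
        have := dense_G (B := B)
        exact this.denseRange_val }
  let cpkg := UniformSpace.Completion.cPkg (α := G B)
  let e : UniformSpace.Completion (G B) ≃ᵤ L B := cpkg.compareEquiv pkg
  have hcoe : ∀ g : G B, e (g : UniformSpace.Completion (G B)) = g.1 := fun g =>
    cpkg.compare_coe pkg g
  have h1 : ((b0, 0) : L B) ∈ connectedComponent (0 : L B) := by
    have hc : Continuous fun b : B => ((b, 0) : L B) := by fun_prop
    exact (isPreconnected_range hc).subset_connectedComponent ⟨0, rfl⟩ ⟨b0, rfl⟩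
  have h2 : e.symm ((b0, 0) : L B) ∈ connectedComponent (0 : UniformSpace.Completion (G B)) := by
    have h3 := e.symm.continuous.image_connectedComponent_subset (0 : L B) ⟨_, h1, rfl⟩
    have h4 : e.symm (0 : L B) = (0 : UniformSpace.Completion (G B)) := by
      have h5 : e ((0 : G B) : UniformSpace.Completion (G B)) = (0 : L B) := hcoe 0
      rw [← h5, e.symm_apply_apply]
      rfl
    rw [h4] at h3
    exact h3
  rw [← heq] at h2
  obtain ⟨g, -, hg⟩ := h2
  have h5 : g.1 = (b0, 0) := by
    rw [← hcoe g, hg, UniformEquiv.apply_symm_apply]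
  exact not_mem_G h (h5 ▸ g.2)

end Pool.Agent.X198.SeqLM
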