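import Mathlib

/-!
# Bounded supports, ladders: an ordered group without suitable set
-/

set_option autoImplicit false
set_option linter.unusedSectionVars false

namespace Pool.Agent.X198.GOG

open Set Filter Topology Cardinal

/-- properties of the index set -/
structure Idx (I : Type) [LinearOrder I] (κ : Cardinal.{0}) : Prop where
  aleph : ℵ₀ < κ
  seg : ∀ i : I, #(Iio i) < κ
  bound : ∀ S : Set I, #S < κ → ∃ b, ∀ s ∈ S, s < b

theorem Idx.nonempty {I : Type} [LinearOrder I] {κ : Cardinal.{0}} (hI : Idx I κ) :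
    Nonempty I := by
  obtain ⟨b, _⟩ := hI.bound ∅ (by
    rw [mk_eq_zero]; exact aleph0_pos.trans hI.aleph)
  exact ⟨b⟩

variable {I : Type} [LinearOrder I] [WellFoundedLT I]

/-- limits of strictly increasing sequences -/
def OmLim (α : I) : Prop :=
  ∃ c : ℕ → I, StrictMono c ∧ (∀ n, c n < α) ∧ ∀ β < α, ∃ n, β < c n

/-- a ladder at `α` -/
noncomputable def lad {α : I} (h : OmLim α) : ℕ → I := h.choose

theorem lad_mono {α : I} (h : OmLim α) : StrictMono (lad h) := h.choose_spec.1
theorem lad_lt {α : I} (h : OmLim α) (n : ℕ) : lad h n < α := h.choose_spec.2.1 n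
theorem lad_cof {α : I} (h : OmLim α) {β : I} (hβ : β < α) : ∃ n, β < lad h n :=
  h.choose_spec.2.2 β hβ

open Classical in
/-- the characteristic function of the ladder at `α` -/
noncomputable def xl (α : I) : I → ℤ := fun ξ => if ∃ h : OmLim α, ∃ n, lad h n = ξ then 1 else 0

theorem xl_of_le {α ξ : I} (h : α ≤ ξ) : xl α ξ = 0 := by
  classical
  unfold xl
  rw [if_neg]
  rintro ⟨h', n, rfl⟩
  exact absurd (lad_lt h' n) (not_lt.2 h)

theorem xl_lad {α : I} (h : OmLim α) (n : ℕ) : xl α (lad h n) = 1 := by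
  classical
  unfold xl
  rw [if_pos ⟨h, n, rfl⟩]

/-- truncation -/
noncomputable def tr (δ : I) : (I → ℤ) →+ (I → ℤ) where
  toFun g := fun ξ => if ξ < δ then g ξ else 0
  map_zero' := by funext ξ; simp
  map_add' g h := by
    funext ξ
    by_cases hξ : ξ < δ <;> simp [hξ]

theorem tr_of_lt {δ ξ : I} (g : I → ℤ) (h : ξ < δ) : tr δ g ξ = g ξ := if_pos h
theorem tr_of_le {δ ξ : I} (g : I → ℤ) (h : δ ≤ ξ) : tr δ g ξ = 0 := if_neg (not_lt.2 h)

/-- unit vectors -/
noncomputable def ev (ξ : I) : I → ℤ := Pi.single ξ 1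

theorem ev_self (ξ : I) : ev ξ ξ = 1 := Pi.single_eq_same ξ 1
theorem ev_ne {ξ η : I} (h : η ≠ ξ) : ev ξ η = 0 := Pi.single_eq_of_ne h 1

variable (I) in
/-- the group -/
noncomputable def G : AddSubgroup (I → ℤ) := AddSubgroup.closure (range ev ∪ range xl)

/-- generators below `δ` -/
noncomputable def D (δ : I) : Set (I → ℤ) := ev '' Iio δ ∪ xl '' Iic δ

theorem ev_mem (ξ : I) : (ev ξ : I → ℤ) ∈ G I := AddSubgroup.subset_closure (Or.inl ⟨ξ, rfl⟩)
theorem xl_mem (ξ : I) : (xl ξ : I → ℤ) ∈ G I := AddSubgroup.subset_closure (Or.inr ⟨ξ, rfl⟩)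

theorem closure_D_le (δ : I) : AddSubgroup.closure (D δ) ≤ G I := by
  refine AddSubgroup.closure_mono ?_
  rintro g (⟨ξ, _, rfl⟩ | ⟨ξ, _, rfl⟩)
  · exact Or.inl ⟨ξ, rfl⟩
  · exact Or.inr ⟨ξ, rfl⟩

theorem tr_mem_D (δ : I) {g : I → ℤ} (hg : g ∈ G I) : tr δ g ∈ AddSubgroup.closure (D δ) := by
  classical
  have hev : ∀ ξ, ξ < δ → ev ξ ∈ AddSubgroup.closure (D δ) := fun ξ h =>
    AddSubgroup.subset_closure (Or.inl ⟨ξ, h, rfl⟩)
  induction hg using AddSubgroup.closure_induction with
  | mem g hg =>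
    rcases hg with ⟨ξ, rfl⟩ | ⟨γ, rfl⟩
    · rcases lt_or_ge ξ δ with h | h
      · have : tr δ (ev ξ) = ev ξ := by
          funext η
          rcases lt_or_ge η δ with h' | h'
          · exact tr_of_lt _ h'
          · rw [tr_of_le _ h']
            exact (ev_ne (h.trans_le h').ne').symm
        rw [this]
        exact hev ξ h
      · have : tr δ (ev ξ) = 0 := by
          funext η
          rcases lt_or_ge η δ with h' | h'
          · rw [tr_of_lt _ h']
            exact ev_ne (h'.trans_le h).ne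
          · exact tr_of_le _ h'
        rw [this]
        exact AddSubgroup.zero_mem _
    · rcases le_or_gt γ δ with h | h
      · have : tr δ (xl γ) = xl γ := by
          funext η
          rcases lt_or_ge η δ with h' | h'
          · exact tr_of_lt _ h'
          · rw [tr_of_le _ h', xl_of_le (h.trans h')]
        rw [this]
        exact AddSubgroup.subset_closure (Or.inr ⟨γ, h, rfl⟩)
      · by_cases hγ : OmLim γ
        · obtain ⟨N, hN⟩ := lad_cof hγ h
          have : tr δ (xl γ) = ∑ n ∈ (Finset.range N).filter (fun n => lad hγ n < δ),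
              ev (lad hγ n) := by
            funext η
            rw [Finset.sum_apply]
            rcases lt_or_ge η δ with h' | h'
            · rw [tr_of_lt _ h']
              by_cases hη : ∃ n, lad hγ n = η
              · obtain ⟨n, rfl⟩ := hη
                rw [xl_lad, Finset.sum_eq_single n]
                · exact (ev_self _).symm
                · intro m _ hm
                  exact ev_ne (fun he => hm ((lad_mono hγ).injective he.symm))
                · intro hn
                  exfalso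
                  apply hn
                  rw [Finset.mem_filter, Finset.mem_range]
                  exact ⟨(lad_mono hγ).lt_iff_lt.1 (h'.trans hN), h'⟩
              · have h1 : xl γ η = 0 := by
                  unfold xl
                  rw [if_neg]
                  rintro ⟨_, n, hn⟩
                  exact hη ⟨n, hn⟩
                rw [h1]
                refine (Finset.sum_eq_zero fun m _ => ?_).symm
                exact ev_ne (fun he => hη ⟨m, he.symm⟩)
            · rw [tr_of_le _ h']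
              refine (Finset.sum_eq_zero fun m hm => ?_).symm
              have h2 := (Finset.mem_filter.1 hm).2
              exact ev_ne (h2.trans_le h').ne'
          rw [this]
          refine AddSubgroup.sum_mem _ fun n hn => hev _ (Finset.mem_filter.1 hn).2
        · have : xl γ = 0 := by
            funext η
            unfold xl
            rw [if_neg]
            · rfl
            · rintro ⟨h', _⟩
              exact hγ h'
          rw [this, map_zero]
          exact AddSubgroup.zero_mem _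
  | zero => rw [map_zero]; exact AddSubgroup.zero_mem _
  | add x y _ _ hx hy => rw [map_add]; exact AddSubgroup.add_mem _ hx hy
  | neg x _ hx => rw [map_neg]; exact AddSubgroup.neg_mem _ hx

theorem tr_mem (δ : I) {g : I → ℤ} (hg : g ∈ G I) : tr δ g ∈ G I :=
  closure_D_le δ (tr_mem_D δ hg)

/-- members with support below `δ` -/
def B (δ : I) : Set (I → ℤ) := {g | g ∈ G I ∧ ∀ ξ, δ ≤ ξ → g ξ = 0}

theorem B_mono {δ δ' : I} (h : δ ≤ δ') : B δ ⊆ B δ' := fun _ hg => ⟨hg.1, fun ξ hξ =>
  hg.2 ξ (h.trans hξ)⟩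

theorem card_closure_le (A : Set (I → ℤ)) (hA : A.Nonempty) :
    #(AddSubgroup.closure A) ≤ max #A ℵ₀ := by
  have : Nonempty A := hA.to_subtype
  have h1 : #(A →₀ ℤ) = max #A ℵ₀ := by
    rw [mk_finsupp_of_infinite']; simp
  rw [← h1]
  let f : (A →₀ ℤ) → (I → ℤ) := Finsupp.linearCombination ℤ (Subtype.val : A → (I → ℤ))
  have hsub : (AddSubgroup.closure A : Set (I → ℤ)) ⊆ range f := by
    intro g hg
    have h2 : g ∈ Submodule.span ℤ A := by
      have h3 : AddSubgroup.closure A ≤ (Submodule.span ℤ A).toAddSubgroup :=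
        (AddSubgroup.closure_le _).2 Submodule.subset_span
      exact h3 hg
    rw [Finsupp.mem_span_iff_linearCombination] at h2
    obtain ⟨l, hl⟩ := h2
    exact ⟨l, hl⟩
  exact (mk_le_mk_of_subset hsub).trans mk_range_le

theorem card_B {κ : Cardinal.{0}} (hI : Idx I κ) (δ : I) : #(B δ) < κ := by
  have h1 : B δ ⊆ (AddSubgroup.closure (D δ) : Set (I → ℤ)) := by
    intro g hg
    have h2 := tr_mem_D δ hg.1
    have h3 : tr δ g = g := by
      funext ξ
      rcases lt_or_ge ξ δ with h' | h'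
      · exact tr_of_lt _ h'
      · rw [tr_of_le _ h', hg.2 ξ h']
    rwa [h3] at h2
  have hne : (D δ).Nonempty := ⟨xl δ, Or.inr ⟨δ, self_mem_Iic, rfl⟩⟩
  have hIic : #(Iic δ) < κ := by
    rw [← Iio_insert]
    exact (mk_insert_le).trans_lt (add_lt_of_lt hI.aleph.le (hI.seg δ)
      (one_lt_aleph0.trans hI.aleph))
  have hD : #(D δ) < κ := by
    refine (mk_union_le _ _).trans_lt (add_lt_of_lt hI.aleph.le ?_ ?_)
    · exact mk_image_le.trans_lt (hI.seg δ)
    · exact mk_image_le.trans_lt hIic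
  exact (mk_le_mk_of_subset h1).trans_lt ((card_closure_le _ hne).trans_lt (max_lt hD hI.aleph))

/-- every member has bounded support -/
theorem bdd_supp {κ : Cardinal.{0}} (hI : Idx I κ) {g : I → ℤ} (hg : g ∈ G I) :
    ∃ δ, g ∈ B δ := by
  have hsucc : ∀ ξ : I, ∃ b, ξ < b := by
    intro ξ
    obtain ⟨b, hb⟩ := hI.bound {ξ} (by rw [mk_singleton]; exact one_lt_aleph0.trans hI.aleph)
    exact ⟨b, hb ξ rfl⟩
  suffices h : ∃ δ, ∀ ξ, δ ≤ ξ → g ξ = 0 by
    obtain ⟨δ, hδ⟩ := h
    exact ⟨δ, hg, hδ⟩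
  induction hg using AddSubgroup.closure_induction with
  | mem g hg =>
    rcases hg with ⟨ξ, rfl⟩ | ⟨γ, rfl⟩
    · obtain ⟨b, hb⟩ := hsucc ξ
      exact ⟨b, fun η hη => ev_ne (hb.trans_le hη).ne'⟩
    · exact ⟨γ, fun η hη => xl_of_le hη⟩
  | zero =>
    obtain ⟨b⟩ := hI.nonempty
    exact ⟨b, fun _ _ => rfl⟩
  | add x y _ _ hx hy =>
    obtain ⟨a, ha⟩ := hx
    obtain ⟨b, hb⟩ := hy
    refine ⟨max a b, fun ξ hξ => ?_⟩
    rw [Pi.add_apply, ha ξ ((le_max_left _ _).trans hξ), hb ξ ((le_max_right _ _).trans hξ),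
      add_zero]
  | neg x _ hx =>
    obtain ⟨a, ha⟩ := hx
    exact ⟨a, fun ξ hξ => by rw [Pi.neg_apply, ha ξ hξ, neg_zero]⟩

/-- limit points of the support -/
def Lim (g : I → ℤ) : Set I := {α | (∃ β, β < α) ∧ ∀ β < α, ∃ ξ, β < ξ ∧ ξ < α ∧ g ξ ≠ 0}

theorem lim_finite {g : I → ℤ} (hg : g ∈ G I) : (Lim g).Finite := by
  induction hg using AddSubgroup.closure_induction with
  | mem g hg =>
    rcases hg with ⟨ξ, rfl⟩ | ⟨γ, rfl⟩
    · refine Set.Finite.subset finite_empty fun α hα => ?_
      obtain ⟨⟨β, hβ⟩, h⟩ := hα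
      rcases lt_or_ge ξ α with h1 | h1
      · obtain ⟨η, hη, _, hne⟩ := h ξ h1
        exact hne (ev_ne hη.ne')
      · obtain ⟨η, _, hη, hne⟩ := h β hβ
        exact hne (ev_ne (hη.trans_le h1).ne)
    · refine (finite_singleton γ).subset fun α hα => ?_
      obtain ⟨⟨β, hβ⟩, h⟩ := hα
      rcases lt_trichotomy α γ with h1 | h1 | h1
      · exfalso
        by_cases hγ : OmLim γ
        · -- the last rung below `α`
          obtain ⟨N, hN⟩ := lad_cof hγ h1
          have h2 : ∃ b < α, ∀ n, lad hγ n < α → lad hγ n ≤ b := by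
            have h3 : ∀ M : ℕ, ∃ b < α, ∀ n < M, lad hγ n < α → lad hγ n ≤ b := by
              intro M
              induction M with
              | zero => exact ⟨β, hβ, fun n hn => absurd hn (Nat.not_lt_zero n)⟩
              | succ M ih =>
                obtain ⟨b, hb, hb'⟩ := ih
                by_cases hM : lad hγ M < α
                · refine ⟨max b (lad hγ M), max_lt hb hM, fun n hn hnα => ?_⟩
                  rcases Nat.lt_succ_iff_lt_or_eq.1 hn with h4 | h4
                  · exact (hb' n h4 hnα).trans (le_max_left _ _)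
                  · rw [h4]; exact le_max_right _ _
                · refine ⟨b, hb, fun n hn hnα => ?_⟩
                  rcases Nat.lt_succ_iff_lt_or_eq.1 hn with h4 | h4
                  · exact hb' n h4 hnα
                  · rw [h4] at hnα; exact absurd hnα hM
            obtain ⟨b, hb, hb'⟩ := h3 N
            exact ⟨b, hb, fun n hn => hb' n ((lad_mono hγ).lt_iff_lt.1 (hn.trans hN)) hn⟩
          obtain ⟨b, hb, hb'⟩ := h2
          obtain ⟨ξ, hξ1, hξ2, hξ3⟩ := h b hb
          classical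
          unfold xl at hξ3
          have h4 : ∃ h : OmLim γ, ∃ n, lad h n = ξ := by
            by_contra hc
            exact hξ3 (if_neg hc)
          obtain ⟨_, n, rfl⟩ := h4
          exact absurd hξ1 (not_lt.2 (hb' n hξ2))
        · obtain ⟨ξ, _, _, hξ3⟩ := h β hβ
          classical
          unfold xl at hξ3
          have h4 : ∃ h : OmLim γ, ∃ n, lad h n = ξ := by
            by_contra hc
            exact hξ3 (if_neg hc)
          exact hγ h4.1
      · exact h1
      · obtain ⟨ξ, hξ1, _, hξ3⟩ := h γ h1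
        exact absurd (xl_of_le hξ1.le) hξ3
  | zero =>
    refine Set.Finite.subset finite_empty fun α hα => ?_
    obtain ⟨⟨β, hβ⟩, h⟩ := hα
    obtain ⟨ξ, _, _, hξ⟩ := h β hβ
    exact hξ rfl
  | add x y _ _ hx hy =>
    refine (hx.union hy).subset fun α hα => ?_
    by_contra hcon
    rw [mem_union, not_or] at hcon
    obtain ⟨hb, h⟩ := hα
    have h1 : ∀ z : I → ℤ, α ∉ Lim z → ∃ β < α, ∀ ξ, β < ξ → ξ < α → z ξ = 0 := by
      intro z hz
      by_contra hc
      push Not at hc
      exact hz ⟨hb, fun β hβ => hc β hβ⟩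
    obtain ⟨β1, hβ1, h2⟩ := h1 x hcon.1
    obtain ⟨β2, hβ2, h3⟩ := h1 y hcon.2
    obtain ⟨ξ, hξ1, hξ2, hξ3⟩ := h (max β1 β2) (max_lt hβ1 hβ2)
    apply hξ3
    rw [Pi.add_apply, h2 ξ ((le_max_left _ _).trans_lt hξ1) hξ2,
      h3 ξ ((le_max_right _ _).trans_lt hξ1) hξ2, add_zero]
  | neg x _ hx =>
    refine hx.subset fun α hα => ?_
    refine ⟨hα.1, fun β hβ => ?_⟩
    obtain ⟨ξ, h1, h2, h3⟩ := hα.2 β hβ
    exact ⟨ξ, h1, h2, fun h => h3 (by rw [Pi.neg_apply, h, neg_zero])⟩

/-- agreement below `β` -/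
def Agr (β : I) (g h : I → ℤ) : Prop := ∀ ξ, ξ < β → g ξ = h ξ

/-- countable sets have least upper bounds which are `ω`-limits for strictly increasing
sequences -/
theorem exists_sup {κ : Cardinal.{0}} (hI : Idx I κ) {c : ℕ → I} (hc : StrictMono c) :
    ∃ α, (∀ n, c n < α) ∧ ∀ β < α, ∃ n, β < c n := by
  obtain ⟨b, hb⟩ := hI.bound (range c) (mk_range_le.trans_lt (by
    rw [mk_nat]; exact hI.aleph))
  let U : Set I := {a | ∀ n, c n < a}
  have hU : U.Nonempty := ⟨b, fun n => hb _ (mem_range_self n)⟩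
  let α := WellFounded.min (wellFounded_lt (α := I)) U hU
  refine ⟨α, WellFounded.min_mem _ U hU, fun β hβ => ?_⟩
  by_contra hcon
  push Not at hcon
  have h1 : β ∈ U := fun n => (hc (Nat.lt_succ_self n)).trans_le (hcon (n + 1))
  exact WellFounded.not_lt_min _ U h1 hβ

/-- a set with unbounded supports accumulates at some member of the group -/
theorem exists_acc {κ : Cardinal.{0}} (hI : Idx I κ) (Y : Set (I → ℤ)) (hY : Y ⊆ G I)
    (hbig : ¬ ∃ γ, Y ⊆ B γ) :
    ∃ g ∈ G I, ∀ β, ¬ ∃ γ, {y ∈ Y | Agr β y g} ⊆ B γ := by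
  classical
  have hne : Nonempty I := hI.nonempty
  by_contra hcon
  push Not at hcon
  choose! β hβ using hcon
  choose! γ hγ using hβ
  -- closure points
  have hstep : ∀ δ : I, ∃ δ', δ < δ' ∧ ∀ g ∈ B δ, β g < δ' ∧ γ g < δ' := by
    intro δ
    have hc : #(insert δ (β '' B δ ∪ γ '' B δ) : Set I) < κ := by
      refine mk_insert_le.trans_lt (add_lt_of_lt hI.aleph.le ?_ (one_lt_aleph0.trans hI.aleph))
      refine (mk_union_le _ _).trans_lt (add_lt_of_lt hI.aleph.le ?_ ?_)
      · exact mk_image_le.trans_lt (card_B hI δ)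
      · exact mk_image_le.trans_lt (card_B hI δ)
    obtain ⟨b, hb⟩ := hI.bound _ hc
    exact ⟨b, hb δ (mem_insert _ _), fun g hg =>
      ⟨hb _ (mem_insert_of_mem _ (Or.inl ⟨g, hg, rfl⟩)),
        hb _ (mem_insert_of_mem _ (Or.inr ⟨g, hg, rfl⟩))⟩⟩
  choose nx hnx hnx' using hstep
  have hclosed : ∀ δ0 : I, ∃ δ, δ0 < δ ∧ ∀ y ∈ Y, y ∉ B δ → δ ∈ Lim y := by
    intro δ0
    let c : ℕ → I := fun n => nx^[n] δ0
    have hc : ∀ n, c (n + 1) = nx (c n) := fun n => Function.iterate_succ_apply' _ _ _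
    have hcm : StrictMono c := strictMono_nat_of_lt_succ fun n => by rw [hc]; exact hnx _
    obtain ⟨δ, hδ, hδ'⟩ := exists_sup hI hcm
    refine ⟨δ, hδ 0, fun y hy hyB => ⟨⟨c 0, hδ 0⟩, fun b hb => ?_⟩⟩
    by_contra hno
    push Not at hno
    obtain ⟨n, hn⟩ := hδ' b hb
    have hg : tr (c n) y ∈ B (c n) := ⟨tr_mem _ (hY hy), fun ξ hξ => tr_of_le _ hξ⟩
    have h1 := hnx' (c n) _ hg
    rw [← hc] at h1
    have h2 : Agr (β (tr (c n) y)) y (tr (c n) y) := by
      intro ξ hξ
      rcases lt_or_ge ξ (c n) with h3 | h3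
      · rw [tr_of_lt _ h3]
      · rw [tr_of_le _ h3]
        exact hno ξ (hn.trans_le h3) ((hξ.trans h1.1).trans (hδ _))
    have h3 := hγ _ hg.1 ⟨hy, h2⟩
    exact hyB (B_mono ((h1.2.trans (hδ (n + 1))).le) h3)
  choose cl hcl hcl' using hclosed
  let i0 : I := Classical.arbitrary I
  let d : ℕ → I := fun n => cl^[n + 1] i0
  have hd : ∀ n, d (n + 1) = cl (d n) := fun n => Function.iterate_succ_apply' _ _ _
  have hdm : StrictMono d := strictMono_nat_of_lt_succ fun n => by rw [hd]; exact hcl _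
  have hd' : ∀ n, ∃ e, d n = cl e := fun n => ⟨cl^[n] i0, Function.iterate_succ_apply' _ _ _⟩
  obtain ⟨δ, hδ, _⟩ := exists_sup hI hdm
  obtain ⟨y, hy, hyB⟩ : ∃ y ∈ Y, y ∉ B δ := by
    by_contra hno
    push Not at hno
    exact hbig ⟨δ, hno⟩
  have hinf : range d ⊆ Lim y := by
    rintro _ ⟨n, rfl⟩
    obtain ⟨e, he⟩ := hd' n
    rw [he]
    refine hcl' e y hy fun h => hyB (B_mono ?_ h)
    rw [← he]
    exact (hδ n).le
  exact (infinite_range_of_injective hdm.injective) ((lim_finite (hY hy)).subset hinf)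

end Pool.Agent.X198.GOG
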