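import Mathlib
import Pool.Agent.X198.GOG

/-!
# The topology, the order, and the absence of a suitable set
-/

set_option autoImplicit false
set_option linter.unusedSectionVars false

namespace Pool.Agent.X198.GOG

open Set Filter Topology Cardinal

/-- suitable sets (additive notation) -/
def HasSuitableSet (G : Type*) [AddCommGroup G] [TopologicalSpace G] : Prop :=
  ∃ S : Set G, DiscreteTopology S ∧ IsClosed (S ∪ {0}) ∧
    Dense (AddSubgroup.closure S : Set G)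

/-- every point has a neighbourhood base monotonically indexed by `ω^ω` -/
def HasOmegaOmegaBase (X : Type*) [TopologicalSpace X] : Prop :=
  ∀ x : X, ∃ U : (ℕ → ℕ) → Set X, (∀ α, U α ∈ 𝓝 x) ∧ (∀ s ∈ 𝓝 x, ∃ α, U α ⊆ s) ∧
    ∀ α β, α ≤ β → U β ⊆ U α

/-- generalized orderable spaces -/
def IsGO (X : Type*) [TopologicalSpace X] : Prop :=
  ∃ _ : LinearOrder X, (∀ a : X, IsOpen {x | x < a}) ∧ (∀ a : X, IsOpen {x | a < x}) ∧
    ∀ (x : X) (U : Set X), IsOpen U → x ∈ U →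
      ∃ V : Set X, IsOpen V ∧ V.OrdConnected ∧ x ∈ V ∧ V ⊆ U

/-- linearly orderable spaces -/
def IsLO (X : Type*) [TopologicalSpace X] : Prop := ∃ _ : LinearOrder X, OrderTopology X

/-- the group, as a type -/
def GT (I : Type) [LinearOrder I] : Type := ↥(G I)

section
variable {I : Type} [LinearOrder I] [WellFoundedLT I]

noncomputable instance : AddCommGroup (GT I) := inferInstanceAs (AddCommGroup (G I))

theorem Agr.refl (β : I) (g : I → ℤ) : Agr β g g := fun _ _ => rfl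
theorem Agr.symm {β : I} {g h : I → ℤ} (H : Agr β g h) : Agr β h g := fun ξ hξ => (H ξ hξ).symm
theorem Agr.trans {β : I} {g h k : I → ℤ} (H : Agr β g h) (H' : Agr β h k) : Agr β g k :=
  fun ξ hξ => (H ξ hξ).trans (H' ξ hξ)
theorem Agr.mono {β β' : I} {g h : I → ℤ} (H : Agr β g h) (hb : β' ≤ β) : Agr β' g h :=
  fun ξ hξ => H ξ (hξ.trans_le hb)

theorem coe_add (x y : GT I) : (x + y).1 = x.1 + y.1 := rfl
theorem coe_neg (x : GT I) : (-x).1 = -x.1 := rfl
theorem coe_sub (x y : GT I) : (x - y).1 = x.1 - y.1 := rfl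
theorem coe_zero : (0 : GT I).1 = 0 := rfl
theorem GT.ext {x y : GT I} (h : ∀ ξ, x.1 ξ = y.1 ξ) : x = y := Subtype.ext (funext h)

variable [Nonempty I]

instance : TopologicalSpace (GT I) where
  IsOpen U := ∀ x ∈ U, ∃ β : I, ∀ y : GT I, Agr β y.1 x.1 → y ∈ U
  isOpen_univ := fun _ _ => ⟨Classical.arbitrary I, fun _ _ => mem_univ _⟩
  isOpen_inter := by
    rintro U V hU hV x ⟨hxU, hxV⟩
    obtain ⟨a, ha⟩ := hU x hxU
    obtain ⟨b, hb⟩ := hV x hxV
    exact ⟨max a b, fun y hy => ⟨ha y (hy.mono (le_max_left _ _)), hb y (hy.mono (le_max_right _ _))⟩⟩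
  isOpen_sUnion := by
    rintro S hS x ⟨U, hU, hxU⟩
    obtain ⟨a, ha⟩ := hS U hU x hxU
    exact ⟨a, fun y hy => ⟨U, hU, ha y hy⟩⟩

theorem isOpen_def {U : Set (GT I)} :
    IsOpen U ↔ ∀ x ∈ U, ∃ β : I, ∀ y : GT I, Agr β y.1 x.1 → y ∈ U := Iff.rfl

theorem isOpen_agr (β : I) (x : GT I) : IsOpen {y : GT I | Agr β y.1 x.1} :=
  isOpen_def.2 fun _ hy => ⟨β, fun _ hz => hz.trans hy⟩

theorem mem_nhds_def {s : Set (GT I)} {x : GT I} :
    s ∈ 𝓝 x ↔ ∃ β : I, ∀ y : GT I, Agr β y.1 x.1 → y ∈ s := by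
  constructor
  · intro h
    obtain ⟨U, hUs, hU, hxU⟩ := mem_nhds_iff.1 h
    obtain ⟨β, hβ⟩ := isOpen_def.1 hU x hxU
    exact ⟨β, fun y hy => hUs (hβ y hy)⟩
  · rintro ⟨β, hβ⟩
    exact mem_nhds_iff.2 ⟨{y | Agr β y.1 x.1}, fun y hy => hβ y hy, isOpen_agr β x, Agr.refl _ _⟩

instance : IsTopologicalAddGroup (GT I) where
  continuous_add := by
    rw [continuous_iff_continuousAt]
    rintro ⟨x, y⟩ s hs
    obtain ⟨β, hβ⟩ := mem_nhds_def.1 hs
    rw [mem_map, mem_nhds_prod_iff]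
    refine ⟨{z | Agr β z.1 x.1}, (isOpen_agr β x).mem_nhds (Agr.refl _ _),
      {z | Agr β z.1 y.1}, (isOpen_agr β y).mem_nhds (Agr.refl _ _), ?_⟩
    rintro ⟨z, w⟩ ⟨hz, hw⟩
    refine hβ _ fun ξ hξ => ?_
    change z.1 ξ + w.1 ξ = x.1 ξ + y.1 ξ
    rw [hz ξ hξ, hw ξ hξ]
  continuous_neg := by
    rw [continuous_iff_continuousAt]
    intro x s hs
    obtain ⟨β, hβ⟩ := mem_nhds_def.1 hs
    rw [mem_map]
    refine mem_nhds_def.2 ⟨β, fun y hy => hβ _ fun ξ hξ => ?_⟩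
    change -y.1 ξ = -x.1 ξ
    rw [hy ξ hξ]

theorem t2 {κ : Cardinal.{0}} (hI : Idx I κ) : T2Space (GT I) := by
  refine ⟨fun x y hxy => ?_⟩
  obtain ⟨ξ, hξ⟩ : ∃ ξ, x.1 ξ ≠ y.1 ξ := by
    by_contra h
    push Not at h
    exact hxy (GT.ext h)
  obtain ⟨b, hb⟩ := hI.bound {ξ} (by rw [mk_singleton]; exact one_lt_aleph0.trans hI.aleph)
  refine ⟨_, _, isOpen_agr b x, isOpen_agr b y, Agr.refl _ _, Agr.refl _ _, ?_⟩
  rw [Set.disjoint_left]
  intro z hz1 hz2
  exact hξ ((hz1 ξ (hb ξ rfl)).symm.trans (hz2 ξ (hb ξ rfl)))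

noncomputable instance : LinearOrder (GT I) :=
  LinearOrder.lift' (fun g : GT I => (toLex g.1 : Lex (I → ℤ))) (fun _ _ h => Subtype.ext h)

theorem lt_def {x y : GT I} : x < y ↔ ∃ i, (∀ j < i, x.1 j = y.1 j) ∧ x.1 i < y.1 i := Iff.rfl

theorem convex {β : I} {a b x y : GT I} (ha : Agr β a.1 x.1) (hb : Agr β b.1 x.1)
    (h1 : a ≤ y) (h2 : y ≤ b) : Agr β y.1 x.1 := by
  intro ξ hξ
  induction ξ using WellFoundedLT.induction with
  | ind ξ ih =>
    by_contra hne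
    rcases lt_or_gt_of_ne hne with h | h
    · have : y < a := lt_def.2 ⟨ξ, fun j hj => (ih j hj (hj.trans hξ)).trans
        (ha j (hj.trans hξ)).symm, by rw [ha ξ hξ]; exact h⟩
      exact absurd h1 (not_le.2 this)
    · have : b < y := lt_def.2 ⟨ξ, fun j hj => (hb j (hj.trans hξ)).trans
        (ih j hj (hj.trans hξ)).symm, by rw [hb ξ hξ]; exact h⟩
      exact absurd h2 (not_le.2 this)

theorem open_lt {κ : Cardinal.{0}} (hI : Idx I κ) (a : GT I) : IsOpen {x : GT I | x < a} := by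
  rw [isOpen_def]
  intro x hx
  obtain ⟨i, hi, hlt⟩ := lt_def.1 hx
  obtain ⟨b, hb⟩ := hI.bound {i} (by rw [mk_singleton]; exact one_lt_aleph0.trans hI.aleph)
  have hib := hb i rfl
  exact ⟨b, fun y hy => lt_def.2 ⟨i, fun j hj => (hy j (hj.trans hib)).trans (hi j hj),
    by rw [hy i hib]; exact hlt⟩⟩

theorem open_gt {κ : Cardinal.{0}} (hI : Idx I κ) (a : GT I) : IsOpen {x : GT I | a < x} := by
  rw [isOpen_def]
  intro x hx
  obtain ⟨i, hi, hlt⟩ := lt_def.1 hx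
  obtain ⟨b, hb⟩ := hI.bound {i} (by rw [mk_singleton]; exact one_lt_aleph0.trans hI.aleph)
  have hib := hb i rfl
  exact ⟨b, fun y hy => lt_def.2 ⟨i, fun j hj => (hi j hj).trans (hy j (hj.trans hib)).symm,
    by rw [hy i hib]; exact hlt⟩⟩

theorem isGO {κ : Cardinal.{0}} (hI : Idx I κ) : IsGO (GT I) := by
  refine ⟨inferInstance, open_lt hI, open_gt hI, fun x U hU hx => ?_⟩
  obtain ⟨β, hβ⟩ := isOpen_def.1 hU x hx
  refine ⟨{y | Agr β y.1 x.1}, isOpen_agr β x, ⟨fun a ha b hb y hy => ?_⟩, Agr.refl _ _,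
    fun y hy => hβ y hy⟩
  exact convex ha hb hy.1 hy.2

/-- unit vectors in the group -/
noncomputable def evG (ξ : I) : GT I := ⟨ev ξ, ev_mem ξ⟩

theorem orderTopology {κ : Cardinal.{0}} (hI : Idx I κ) : OrderTopology (GT I) := by
  constructor
  refine le_antisymm ?_ ?_
  · refine le_generateFrom ?_
    rintro s ⟨a, rfl | rfl⟩
    · exact open_gt hI a
    · exact open_lt hI a
  · intro U hU
    let t' : TopologicalSpace (GT I) := Preorder.topology (GT I)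
    have ho : @OrderTopology (GT I) t' _ := @OrderTopology.mk _ t' _ rfl
    refine (@isOpen_iff_mem_nhds (GT I) t' U).2 fun x hx => ?_
    obtain ⟨β, hβ⟩ := isOpen_def.1 hU x hx
    have hpos : 0 < (evG β).1 β := by
      change 0 < ev β β
      rw [ev_self]; exact one_pos
    have hz : ∀ j < β, (evG β).1 j = 0 := fun j hj => ev_ne hj.ne
    have h1 : x - evG β < x := lt_def.2 ⟨β, fun j hj => by
      rw [coe_sub, Pi.sub_apply, hz j hj, sub_zero], by
        rw [coe_sub, Pi.sub_apply]; linarith⟩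
    have h2 : x < x + evG β := lt_def.2 ⟨β, fun j hj => by
      rw [coe_add, Pi.add_apply, hz j hj, add_zero], by
        rw [coe_add, Pi.add_apply]; linarith⟩
    refine Filter.mem_of_superset (@Ioo_mem_nhds (GT I) t' _ _ _ _ _ h1 h2) fun y hy => ?_
    refine hβ y (convex (a := x - evG β) (b := x + evG β) ?_ ?_ hy.1.le hy.2.le)
    · intro j hj
      rw [coe_sub, Pi.sub_apply, hz j hj, sub_zero]
    · intro j hj
      rw [coe_add, Pi.add_apply, hz j hj, add_zero]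

theorem omegaOmega (m : (ℕ → ℕ) → I) (hm : Monotone m) (hcof : ∀ i, ∃ f, i ≤ m f) :
    HasOmegaOmegaBase (GT I) := by
  intro x
  refine ⟨fun f => {y | Agr (m f) y.1 x.1}, fun f => (isOpen_agr _ _).mem_nhds (Agr.refl _ _),
    fun s hs => ?_, fun f g hfg y hy => Agr.mono hy (hm hfg)⟩
  obtain ⟨β, hβ⟩ := mem_nhds_def.1 hs
  obtain ⟨f, hf⟩ := hcof β
  exact ⟨f, fun y hy => hβ y (Agr.mono hy hf)⟩

theorem no_suitable {κ : Cardinal.{0}} (hI : Idx I κ) : ¬ HasSuitableSet (GT I) := by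
  classical
  rintro ⟨S, hd, hc, hdense⟩
  -- the part outside `H β` has uniformly bounded supports
  have hsmall : ∀ β : I, ∃ γ, ∀ s ∈ S, ¬ Agr β s.1 0 → s.1 ∈ B γ := by
    intro β
    by_contra hcon
    let Y : Set (I → ℤ) := {g | ∃ s ∈ S, s.1 = g ∧ ¬ Agr β s.1 0}
    have hbig : ¬ ∃ γ, Y ⊆ B γ := by
      rintro ⟨γ, hγ⟩
      exact hcon ⟨γ, fun s hs hsβ => hγ ⟨s, hs, rfl, hsβ⟩⟩
    obtain ⟨g, hg, hacc⟩ := exists_acc hI Y (by rintro _ ⟨s, _, rfl, _⟩; exact s.2) hbig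
    let G0 : GT I := ⟨g, hg⟩
    -- `G0` belongs to `S`
    have hcl : G0 ∈ S ∪ {0} := by
      refine hc.closure_subset (mem_closure_iff_nhds.2 fun t ht => ?_)
      obtain ⟨δ, hδ⟩ := mem_nhds_def.1 ht
      by_contra hempty
      refine hacc δ ⟨Classical.arbitrary I, fun y hy => ?_⟩
      obtain ⟨⟨s, hs, rfl, _⟩, hagr⟩ := hy
      exact absurd ⟨s, hδ s hagr, Or.inl hs⟩ hempty
    have hne : G0 ≠ 0 := by
      intro h0
      have hg0 : g = 0 := congrArg Subtype.val h0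
      refine hacc β ⟨Classical.arbitrary I, fun y hy => ?_⟩
      obtain ⟨⟨s, hs, rfl, hsβ⟩, hagr⟩ := hy
      rw [hg0] at hagr
      exact absurd hagr hsβ
    have hGS : G0 ∈ S := hcl.resolve_right hne
    -- discreteness
    have h1 := (discreteTopology_subtype_iff'.1 hd) G0 hGS
    obtain ⟨O, hO, hOS⟩ := h1
    have hGO : G0 ∈ O := by
      have : G0 ∈ O ∩ S := by rw [hOS]; rfl
      exact this.1
    obtain ⟨δ, hδ⟩ := isOpen_def.1 hO G0 hGO
    obtain ⟨γ, hγ⟩ := bdd_supp hI hg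
    refine hacc δ ⟨γ, fun y hy => ?_⟩
    obtain ⟨⟨s, hs, rfl, hsβ⟩, hagr⟩ := hy
    have h2 : s ∈ O ∩ S := ⟨hδ s hagr, hs⟩
    rw [hOS] at h2
    have h3 : s = G0 := h2
    rw [h3]
    exact hγ
  choose φ hφ using hsmall
  have hsucc : ∀ a : I, ∃ b, a < b ∧ φ a < b := by
    intro a
    obtain ⟨b, hb⟩ := hI.bound {a, φ a} ((mk_le_aleph0 (α := ({a, φ a} : Set I))).trans_lt hI.aleph)
    exact ⟨b, hb a (by simp), hb _ (by simp)⟩
  choose nx hnx hnx' using hsucc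
  let i0 : I := Classical.arbitrary I
  let c : ℕ → I := fun n => nx^[n] i0
  have hcs : ∀ n, c (n + 1) = nx (c n) := fun n => Function.iterate_succ_apply' _ _ _
  have hcm : StrictMono c := strictMono_nat_of_lt_succ fun n => by rw [hcs]; exact hnx _
  obtain ⟨α, hα, hα'⟩ := exists_sup hI hcm
  have hlim : OmLim α := ⟨c, hcm, hα, hα'⟩
  let X : GT I := ⟨xl α, xl_mem α⟩
  obtain ⟨s, hsX, hs⟩ := hdense.inter_open_nonempty _ (isOpen_agr α X) ⟨X, Agr.refl _ _⟩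
  have hb : ∃ n, ∀ ξ, c n ≤ ξ → ξ < α → s.1 ξ = 0 := by
    clear hsX
    induction hs using AddSubgroup.closure_induction with
    | mem s hs =>
      by_cases h : Agr α s.1 0
      · exact ⟨0, fun ξ _ hξ => h ξ hξ⟩
      · have h1 : ∃ ξ, ξ < α ∧ s.1 ξ ≠ 0 := by
          by_contra hno
          push Not at hno
          exact h fun ξ hξ => hno ξ hξ
        obtain ⟨ξ, hξ, hne⟩ := h1
        obtain ⟨n, hn⟩ := hα' ξ hξ
        have h2 := hφ (c n) s hs fun hagr => hne (hagr ξ hn)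
        refine ⟨n + 1, fun η hη _ => h2.2 η ?_⟩
        rw [hcs] at hη
        exact (hnx' _).le.trans hη
    | zero => exact ⟨0, fun _ _ _ => rfl⟩
    | add x y _ _ hx hy =>
      obtain ⟨n, hn⟩ := hx
      obtain ⟨k, hk⟩ := hy
      refine ⟨max n k, fun ξ h1 h2 => ?_⟩
      rw [coe_add, Pi.add_apply, hn ξ ((hcm.monotone (le_max_left _ _)).trans h1) h2,
        hk ξ ((hcm.monotone (le_max_right _ _)).trans h1) h2, add_zero]
    | neg x _ hx =>
      obtain ⟨n, hn⟩ := hx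
      exact ⟨n, fun ξ h1 h2 => by rw [coe_neg, Pi.neg_apply, hn ξ h1 h2, neg_zero]⟩
  obtain ⟨n, hn⟩ := hb
  obtain ⟨k, hk⟩ := lad_cof hlim (hα n)
  have h1 := hn _ hk.le (lad_lt hlim k)
  have h2 : s.1 (lad hlim k) = xl α (lad hlim k) := hsX _ (lad_lt hlim k)
  rw [h1, xl_lad] at h2
  exact absurd h2 (by norm_num)

end

/-! ### the index set from the bounding number -/

/-- eventually dominated families -/
def Bd (F : Set (ℕ → ℕ)) : Prop := ∃ g : ℕ → ℕ, ∀ f ∈ F, ∀ᶠ n in atTop, f n ≤ g n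

theorem bd_of_countable {F : Set (ℕ → ℕ)} (hF : F.Countable) : Bd F := by
  rcases F.eq_empty_or_nonempty with rfl | hne
  · exact ⟨0, fun f hf => absurd hf (notMem_empty f)⟩
  obtain ⟨e, rfl⟩ := hF.exists_eq_range hne
  refine ⟨fun n => (Finset.range (n + 1)).sup fun k => e k n, ?_⟩
  rintro _ ⟨k, rfl⟩
  filter_upwards [eventually_ge_atTop k] with n hn
  exact Finset.le_sup (f := fun k => e k n) (Finset.mem_range.2 (by omega))

theorem not_bd_univ : ¬ Bd univ := by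
  rintro ⟨g, hg⟩
  obtain ⟨n, hn⟩ := (hg (fun n => g n + 1) (mem_univ _)).exists
  omega

theorem exists_index : ∃ (I : Type) (_ : LinearOrder I) (_ : WellFoundedLT I) (κ : Cardinal.{0})
    (m : (ℕ → ℕ) → I), Idx I κ ∧ Monotone m ∧ ∀ i, ∃ f, i ≤ m f := by
  classical
  let A : Set Cardinal.{0} := {c | ∃ F : Set (ℕ → ℕ), ¬ Bd F ∧ #F = c}
  have hA : A.Nonempty := ⟨_, univ, not_bd_univ, rfl⟩
  let κ := sInf A
  obtain ⟨F, hF, hFκ⟩ : κ ∈ A := csInf_mem hA
  have hlt : ∀ F' : Set (ℕ → ℕ), #F' < κ → Bd F' := by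
    intro F' h
    by_contra hcon
    exact absurd (csInf_le' (s := A) ⟨F', hcon, rfl⟩) (not_le.2 h)
  have hal : ℵ₀ < κ := by
    by_contra h
    rw [not_lt, ← hFκ, le_aleph0_iff_set_countable] at h
    exact hF (bd_of_countable h)
  let I := κ.ord.ToType
  have hIκ : #I = κ := mk_ord_toType κ
  obtain ⟨e⟩ : Nonempty (I ≃ F) := Cardinal.eq.1 (hIκ.trans hFκ.symm)
  have hseg : ∀ i : I, #(Iio i) < κ := fun i =>
    (mk_Iio_lt (α := κ.ord.ToType) i (by simp)).trans_eq (mk_ord_toType κ)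
  have hIic : ∀ i : I, #(Iic i) < κ := fun i => by
    rw [← Iio_insert]
    exact (mk_insert_le).trans_lt (add_lt_of_lt hal.le (hseg i) (one_lt_aleph0.trans hal))
  have hdom : ∀ i : I, ∃ g : ℕ → ℕ, ∀ j ≤ i, ∀ᶠ n in atTop, (e j).1 n ≤ g n := by
    intro i
    obtain ⟨g, hg⟩ := hlt ((fun j => (e j).1) '' Iic i) (mk_image_le.trans_lt (hIic i))
    exact ⟨g, fun j hj => hg _ ⟨j, hj, rfl⟩⟩
  choose h hh using hdom
  have hbound : ∀ S : Set I, #S < κ → ∃ b, ∀ s ∈ S, s < b := by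
    intro S hS
    by_contra hcon
    push Not at hcon
    obtain ⟨g, hg⟩ := hlt (h '' S) (mk_image_le.trans_lt hS)
    apply hF
    refine ⟨g, fun f hf => ?_⟩
    obtain ⟨s, hs, hle⟩ := hcon (e.symm ⟨f, hf⟩)
    filter_upwards [hh s _ hle, hg _ ⟨s, hs, rfl⟩] with n h1 h2
    rw [Equiv.apply_symm_apply] at h1
    exact h1.trans h2
  have hI : Idx I κ := ⟨hal, hseg, hbound⟩
  have hex : ∀ f : ℕ → ℕ, {i : I | ¬ ∀ᶠ n in atTop, (e i).1 n ≤ f n}.Nonempty := by
    intro f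
    by_contra hcon
    rw [not_nonempty_iff_eq_empty] at hcon
    apply hF
    refine ⟨f, fun g hg => ?_⟩
    by_contra hno
    have : e.symm ⟨g, hg⟩ ∈ {i : I | ¬ ∀ᶠ n in atTop, (e i).1 n ≤ f n} := by
      change ¬ _
      rw [Equiv.apply_symm_apply]
      exact hno
    rw [hcon] at this
    exact this
  let m : (ℕ → ℕ) → I := fun f => WellFounded.min (wellFounded_lt (α := I)) _ (hex f)
  refine ⟨I, inferInstance, inferInstance, κ, m, hI, ?_, ?_⟩
  · intro f g hfg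
    refine WellFounded.min_le _ (s := {i : I | ¬ ∀ᶠ n in atTop, (e i).1 n ≤ f n}) ?_
    have h1 : m g ∈ {i : I | ¬ ∀ᶠ n in atTop, (e i).1 n ≤ g n} := WellFounded.min_mem _ _ (hex g)
    intro hev
    exact h1 (hev.mono fun n hn => hn.trans (hfg n))
  · intro i
    refine ⟨h i, ?_⟩
    by_contra hlt'
    rw [not_le] at hlt'
    have h1 : m (h i) ∈ {j : I | ¬ ∀ᶠ n in atTop, (e j).1 n ≤ h i n} :=
      WellFounded.min_mem _ _ (hex (h i))
    exact h1 (hh i _ hlt'.le)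

theorem main : ∃ (G : Type) (_ : AddCommGroup G) (_ : TopologicalSpace G),
    IsTopologicalAddGroup G ∧ T2Space G ∧ HasOmegaOmegaBase G ∧ IsGO G ∧ IsLO G ∧
      ¬ HasSuitableSet G := by
  obtain ⟨I, _, _, κ, m, hI, hm, hcof⟩ := exists_index
  have : Nonempty I := hI.nonempty
  exact ⟨GT I, inferInstance, inferInstance, inferInstance, t2 hI, omegaOmega m hm hcof, isGO hI,
    ⟨inferInstance, orderTopology hI⟩, no_suitable hI⟩

end Pool.Agent.X198.GOG
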