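import Mathlib

/-!
# A countably compact `g`-reversible abelian group which is not minimal
-/

set_option autoImplicit false

namespace Pool.Agent.X198.GRev

open Set Filter Topology

/-- the circle -/
abbrev T : Type := UnitAddCircle

theorem norm_two_smul {y : T} (h : ‖y‖ < 1 / 4) : ‖(2 : ℤ) • y‖ = 2 * ‖y‖ := by
  obtain ⟨x, rfl⟩ := QuotientAddGroup.mk_surjective y
  have h1 : ‖((x : ℝ) : T)‖ = |x - round x| := UnitAddCircle.norm_eq
  set r : ℝ := x - round x with hr
  have h2 : ((r : ℝ) : T) = ((x : ℝ) : T) := by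
    rw [hr, AddCircle.coe_sub]
    have : (((round x : ℤ) : ℝ) : T) = 0 := by
      rw [AddCircle.coe_eq_zero_iff]
      exact ⟨round x, by simp⟩
    rw [this, sub_zero]
  change ‖((x : ℝ) : T)‖ < 1 / 4 at h
  change ‖(2 : ℤ) • ((x : ℝ) : T)‖ = 2 * ‖((x : ℝ) : T)‖
  rw [← h2] at h ⊢
  have h3 : ‖((r : ℝ) : T)‖ = |r| := by
    rw [AddCircle.norm_coe_eq_abs_iff _ one_ne_zero]
    rw [h2, h1] at h
    norm_num
    linarith
  rw [h3] at h
  rw [← AddCircle.coe_zsmul, h3, (AddCircle.norm_coe_eq_abs_iff (1 : ℝ) one_ne_zero).2]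
  · simp [abs_mul]
  · simp only [zsmul_eq_mul, abs_mul]
    norm_num
    linarith

theorem norm_pow_smul {y : T} : ∀ {j : ℕ}, (∀ i ≤ j, ‖((2 : ℤ) ^ i) • y‖ < 1 / 4) →
    ‖y‖ < 1 / (4 * 2 ^ j) := by
  suffices h : ∀ j : ℕ, (∀ i ≤ j, ‖((2 : ℤ) ^ i) • y‖ < 1 / 4) →
      ‖((2 : ℤ) ^ j) • y‖ = 2 ^ j * ‖y‖ by
    intro j hj
    have h1 := h j hj
    have h2 := hj j le_rfl
    rw [h1] at h2
    rw [lt_div_iff₀ (by positivity)]
    linarith
  intro j
  induction j with
  | zero => intro _; simp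
  | succ j ih =>
    intro h
    have h1 := ih fun i hi => h i (by omega)
    rw [pow_succ', mul_smul, norm_two_smul (h j (by omega)), h1, pow_succ]
    ring

theorem eq_zero_of_small {y : T} (h : ∀ n : ℤ, ‖n • y‖ < 1 / 4) : y = 0 := by
  rw [← norm_le_zero_iff]
  refine le_of_forall_pos_lt_add fun ε hε => ?_
  obtain ⟨j, hj⟩ := exists_pow_lt_of_lt_one hε (show (1 / 2 : ℝ) < 1 by norm_num)
  have h1 := norm_pow_smul (y := y) (j := j) fun i _ => h _
  have h2 : (1 : ℝ) / (4 * 2 ^ j) ≤ (1 / 2) ^ j := by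
    rw [one_div_pow, one_div_le_one_div (by positivity) (by positivity)]
    nlinarith [show (0 : ℝ) < 2 ^ j by positivity]
  linarith

/-- a homomorphism of the circle bounded by `1/4` near zero is a multiplication -/
theorem circle_hom (g : T →+ T) {δ : ℝ} (hδ : 0 < δ) (hg : ∀ x, ‖x‖ < δ → ‖g x‖ < 1 / 4) :
    ∃ k : ℤ, ∀ x, g x = k • x := by
  -- continuity
  have hcont : Continuous g := by
    refine continuous_of_continuousAt_zero g ?_
    rw [ContinuousAt, map_zero, Metric.tendsto_nhds_nhds]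
    intro ε hε
    obtain ⟨j, hj⟩ := exists_pow_lt_of_lt_one hε (show (1 / 2 : ℝ) < 1 by norm_num)
    refine ⟨δ / 2 ^ j, by positivity, fun x hx => ?_⟩
    rw [dist_zero_right] at hx ⊢
    have h1 : ‖g x‖ < 1 / (4 * 2 ^ j) := by
      refine norm_pow_smul fun i hi => ?_
      rw [← map_zsmul]
      refine hg _ (lt_of_le_of_lt (norm_zsmul_le _ _) ?_)
      rw [lt_div_iff₀ (by positivity)] at hx
      refine lt_of_le_of_lt ?_ hx
      rw [mul_comm]
      refine mul_le_mul_of_nonneg_left ?_ (norm_nonneg _)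
      simp only [Int.norm_eq_abs, Int.cast_pow, Int.cast_ofNat, abs_pow, Nat.abs_ofNat]
      exact pow_le_pow_right₀ (by norm_num) hi
    have h2 : (1 : ℝ) / (4 * 2 ^ j) ≤ (1 / 2) ^ j := by
      rw [one_div_pow, one_div_le_one_div (by positivity) (by positivity)]
      nlinarith [show (0 : ℝ) < 2 ^ j by positivity]
    linarith
  -- the values at the dyadic points
  obtain ⟨m, hm⟩ := exists_pow_lt_of_lt_one hδ (show (1 / 2 : ℝ) < 1 by norm_num)
  let u : ℕ → T := fun j => (((1 / 2 : ℝ) ^ (m + j) : ℝ) : T)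
  have hu2 : ∀ j, (2 : ℤ) • u (j + 1) = u j := by
    intro j
    change (2 : ℤ) • (((1 / 2 : ℝ) ^ (m + (j + 1)) : ℝ) : T) = (((1 / 2 : ℝ) ^ (m + j) : ℝ) : T)
    rw [← AddCircle.coe_zsmul]
    congr 1
    rw [← add_assoc, pow_succ]
    simp only [zsmul_eq_mul]
    push_cast
    ring
  have hun : ∀ j, ‖g (u j)‖ < 1 / 4 := by
    intro j
    refine hg _ (lt_of_le_of_lt (b := |(1 / 2 : ℝ) ^ (m + j)|) ?_ ?_)
    · rw [UnitAddCircle.norm_eq]
      have := round_le ((1 / 2 : ℝ) ^ (m + j)) 0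
      simpa using this
    · rw [abs_of_pos (by positivity)]
      refine lt_of_le_of_lt ?_ hm
      exact pow_le_pow_of_le_one (by norm_num) (by norm_num) (by omega)
  have hrep : ∀ y : T, ‖y‖ < 1 / 4 → ∃ r : ℝ, (r : T) = y ∧ |r| < 1 / 4 := by
    intro y hy
    obtain ⟨x, rfl⟩ := QuotientAddGroup.mk_surjective y
    refine ⟨x - round x, ?_, ?_⟩
    · rw [AddCircle.coe_sub]
      have : (((round x : ℤ) : ℝ) : T) = 0 := by
        rw [AddCircle.coe_eq_zero_iff]
        exact ⟨round x, by simp⟩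
      rw [this, sub_zero]
    · rw [← UnitAddCircle.norm_eq]
      exact hy
  obtain ⟨r, hr, hr4⟩ := hrep _ (hun 0)
  have hru : ∀ j : ℕ, g (u j) = ((r * (1 / 2) ^ j : ℝ) : T) := by
    intro j
    induction j with
    | zero => rw [pow_zero, mul_one]; exact hr.symm
    | succ j ih =>
      obtain ⟨s, hs, hs4⟩ := hrep _ (hun (j + 1))
      have h1 : (((2 : ℤ) • s - r * (1 / 2) ^ j : ℝ) : T) = 0 := by
        rw [AddCircle.coe_sub, AddCircle.coe_zsmul, hs, ← map_zsmul, hu2, ih, sub_self]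
      rw [AddCircle.coe_eq_zero_iff] at h1
      obtain ⟨n, hn⟩ := h1
      have h2 : |(n : ℝ)| < 1 := by
        have h3 : (n : ℝ) = 2 * s - r * (1 / 2) ^ j := by simpa using hn
        rw [h3]
        have h4 : |r * (1 / 2 : ℝ) ^ j| < 1 / 4 := by
          rw [abs_mul, abs_of_pos (show (0 : ℝ) < (1 / 2) ^ j by positivity)]
          have := pow_le_one₀ (n := j) (show (0 : ℝ) ≤ 1 / 2 by norm_num) (by norm_num)
          nlinarith [abs_nonneg r]
        rw [abs_lt] at *
        constructor <;> linarith [h4.1, h4.2, hs4.1, hs4.2]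
      have h5 : n = 0 := by
        have : |n| < 1 := by exact_mod_cast h2
        exact Int.abs_lt_one_iff.1 this
      rw [← hs]
      congr 1
      rw [h5] at hn
      have h6 : 2 * s - r * (1 / 2) ^ j = 0 := by
        have := hn.symm
        simpa using this
      rw [pow_succ]
      linarith
  have hz : ((2 : ℤ) ^ m) • u 0 = 0 := by
    change ((2 : ℤ) ^ m) • (((1 / 2 : ℝ) ^ (m + 0) : ℝ) : T) = 0
    rw [← AddCircle.coe_zsmul, AddCircle.coe_eq_zero_iff]
    refine ⟨1, ?_⟩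
    simp
  have hk : ∃ k : ℤ, (2 : ℝ) ^ m * r = k := by
    have h1 : (((2 : ℝ) ^ m * r : ℝ) : T) = 0 := by
      have h2 : ((2 : ℤ) ^ m) • g (u 0) = 0 := by rw [← map_zsmul, hz, map_zero]
      rw [← hr, ← AddCircle.coe_zsmul] at h2
      rw [← h2]
      congr 1
      simp
    rw [AddCircle.coe_eq_zero_iff] at h1
    obtain ⟨n, hn⟩ := h1
    exact ⟨n, by rw [← hn]; simp⟩
  obtain ⟨k, hk⟩ := hk
  have hgu : ∀ j, g (u j) = k • u j := by
    intro j
    rw [hru j]
    change _ = k • (((1 / 2 : ℝ) ^ (m + j) : ℝ) : T)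
    rw [← AddCircle.coe_zsmul]
    congr 1
    rw [zsmul_eq_mul, ← hk, pow_add]
    have : (2 : ℝ) ^ m * (1 / 2) ^ m = 1 := by rw [← mul_pow]; norm_num
    calc r * (1 / 2) ^ j = r * (1 / 2) ^ j * ((2 : ℝ) ^ m * (1 / 2) ^ m) := by rw [this, mul_one]
      _ = _ := by ring
  refine ⟨k, ?_⟩
  -- density
  have hdense : Dense (AddSubgroup.closure (range u) : Set T) := by
    rw [dense_iff_closure_eq, eq_univ_iff_forall]
    intro y
    obtain ⟨x, rfl⟩ := QuotientAddGroup.mk_surjective y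
    rw [Metric.mem_closure_iff]
    intro ε hε
    obtain ⟨j, hj⟩ := exists_pow_lt_of_lt_one hε (show (1 / 2 : ℝ) < 1 by norm_num)
    refine ⟨(⌊x * 2 ^ (m + j)⌋ : ℤ) • u j,
      AddSubgroup.zsmul_mem _ (AddSubgroup.subset_closure (mem_range_self _)) _, ?_⟩
    rw [dist_eq_norm]
    change ‖((x : ℝ) : T) - (⌊x * 2 ^ (m + j)⌋ : ℤ) • (((1 / 2 : ℝ) ^ (m + j) : ℝ) : T)‖ < ε
    rw [← AddCircle.coe_zsmul, ← AddCircle.coe_sub]
    have h1 : ∀ z : ℝ, ‖((z : ℝ) : T)‖ ≤ |z| := by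
      intro z
      rw [UnitAddCircle.norm_eq]
      simpa using round_le z 0
    refine lt_of_le_of_lt (h1 _) ?_
    have h2 := Int.floor_le (x * 2 ^ (m + j))
    have h3 := Int.lt_floor_add_one (x * 2 ^ (m + j))
    have h4 : (0 : ℝ) < 2 ^ (m + j) := by positivity
    have h5 : x - (⌊x * 2 ^ (m + j)⌋ : ℤ) • (1 / 2 : ℝ) ^ (m + j)
        = (x * 2 ^ (m + j) - ⌊x * 2 ^ (m + j)⌋) * (1 / 2) ^ (m + j) := by
      have h6 : (2 : ℝ) ^ (m + j) * (1 / 2) ^ (m + j) = 1 := by rw [← mul_pow]; norm_num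
      rw [zsmul_eq_mul, sub_mul, mul_assoc, h6, mul_one]
    rw [h5, abs_mul, abs_of_nonneg (by linarith), abs_of_pos (show (0 : ℝ) < (1 / 2) ^ (m + j) by
      positivity)]
    have h7 : (1 / 2 : ℝ) ^ (m + j) ≤ (1 / 2) ^ j :=
      pow_le_pow_of_le_one (by norm_num) (by norm_num) (by omega)
    have h8 : (0 : ℝ) < (1 / 2) ^ (m + j) := by positivity
    nlinarith
  have hclosed : IsClosed {x : T | g x = k • x} :=
    isClosed_eq hcont (continuous_zsmul k)
  have hsub : (AddSubgroup.closure (range u) : Set T) ⊆ {x : T | g x = k • x} := by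
    intro x hx
    induction hx using AddSubgroup.closure_induction with
    | mem x hx => obtain ⟨j, rfl⟩ := hx; exact hgu j
    | zero => simp
    | add x y _ _ hx hy =>
      change g (x + y) = k • (x + y)
      rw [map_add, smul_add]
      exact congrArg₂ _ hx hy
    | neg x _ hx =>
      change g (-x) = k • (-x)
      rw [map_neg, smul_neg]
      exact congrArg _ hx
  intro x
  have := closure_minimal hsub hclosed (hdense x)
  exact this

/-! ### the 2-adic integers -/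

instance : Fact (Nat.Prime 2) := ⟨Nat.prime_two⟩

/-- additive endomorphisms of the 2-adic integers are multiplications -/
theorem padic_end (φ : ℤ_[2] →+ ℤ_[2]) (x : ℤ_[2]) : φ x = φ 1 * x := by
  rw [← sub_eq_zero, ← norm_le_zero_iff]
  refine le_of_forall_pos_lt_add fun ε hε => ?_
  obtain ⟨n, hn⟩ := exists_pow_lt_of_lt_one hε (show (1 / 2 : ℝ) < 1 by norm_num)
  obtain ⟨c, hc⟩ := Ideal.mem_span_singleton.1 (PadicInt.appr_spec n x)
  have h1 : x = ((PadicInt.appr x n : ℕ) : ℤ_[2]) + (2 ^ n : ℕ) • c := by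
    rw [nsmul_eq_mul]
    push_cast
    push_cast at hc
    rw [← hc]
    ring
  have h2 : φ x - φ 1 * x = (2 : ℤ_[2]) ^ n * (φ c - φ 1 * c) := by
    have h3 : φ ((PadicInt.appr x n : ℕ) : ℤ_[2]) = φ 1 * ((PadicInt.appr x n : ℕ) : ℤ_[2]) := by
      have : ((PadicInt.appr x n : ℕ) : ℤ_[2]) = (PadicInt.appr x n) • (1 : ℤ_[2]) := by
        rw [nsmul_eq_mul, mul_one]
      rw [this, map_nsmul, nsmul_eq_mul, nsmul_eq_mul]
      ring
    conv_lhs => rw [h1]
    rw [map_add, map_nsmul, h3, nsmul_eq_mul, nsmul_eq_mul]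
    push_cast
    ring
  rw [h2, norm_mul, norm_pow]
  have h4 : ‖(2 : ℤ_[2])‖ = 1 / 2 := by
    have := PadicInt.norm_p (p := 2)
    simpa using this
  rw [h4]
  have h5 := PadicInt.norm_le_one (φ c - φ 1 * c)
  have h6 : (0 : ℝ) < (1 / 2) ^ n := by positivity
  nlinarith [norm_nonneg (φ c - φ 1 * c)]

/-- an uncountable independent family with a label in `ℚ`, each label used uncountably often -/
theorem exists_family : ∃ (I : Type) (a : I → ℤ_[2]) (q : I → ℚ),
    LinearIndependent ℤ a ∧ (∀ i, ∃ c, a i = 2 * c) ∧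
      ∀ (J : Set I), J.Countable → ∀ r : ℚ, ∃ i ∉ J, q i = r := by
  classical
  let b := Module.Basis.ofVectorSpace ℚ ℚ_[2]
  let ι := Module.Basis.ofVectorSpaceIndex ℚ ℚ_[2]
  have hunc : ¬ Countable ι := by
    intro hc
    have h1 : Countable ℚ_[2] := b.repr.toEquiv.injective.countable
    have h2 := continuum_le_cardinal_of_nontriviallyNormedField ℚ_[2]
    have h3 := Cardinal.mk_le_aleph0_iff.2 h1
    exact absurd (h2.trans h3) (not_le.2 Cardinal.aleph0_lt_continuum)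
  have hinf : Infinite ι := by
    by_contra h
    rw [not_infinite_iff_finite] at h
    exact hunc inferInstance
  have hcard : Cardinal.mk (ι × ℚ) = Cardinal.mk ι := by
    rw [Cardinal.mk_prod, Cardinal.lift_id, Cardinal.lift_id]
    rw [Cardinal.mul_eq_left (Cardinal.aleph0_le_mk ι)]
    · exact (Cardinal.mk_le_aleph0).trans (Cardinal.aleph0_le_mk ι)
    · simp [Cardinal.aleph0_ne_zero]
  obtain ⟨e⟩ := Cardinal.eq.1 hcard
  -- scaling into the integers
  have hs : ∀ v : ℚ_[2], ∃ n : ℕ, ‖(2 : ℚ_[2]) ^ n * v‖ ≤ 1 := by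
    intro v
    have h2 : ‖(2 : ℚ_[2])‖ = 1 / 2 := by
      have := Padic.norm_p (p := 2)
      simpa using this
    obtain ⟨n, hn⟩ := exists_pow_lt_of_lt_one (show (0 : ℝ) < 1 / (1 + ‖v‖) by positivity)
      (show (1 / 2 : ℝ) < 1 by norm_num)
    refine ⟨n, ?_⟩
    rw [norm_mul, norm_pow, h2]
    rw [lt_div_iff₀ (by positivity)] at hn
    have : (0 : ℝ) < (1 / 2) ^ n := by positivity
    nlinarith [norm_nonneg v]
  choose n hn using hs
  let z : ι → ℤ_[2] := fun i => ⟨(2 : ℚ_[2]) ^ n (b i) * b i, hn (b i)⟩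
  have hz : ∀ i, ((z i : ℤ_[2]) : ℚ_[2]) = (2 : ℚ_[2]) ^ n (b i) * b i := fun i => rfl
  let a : ι → ℤ_[2] := fun i => 2 * z i
  have hlin : LinearIndependent ℤ a := by
    have h1 : LinearIndependent ℚ (fun i => (2 : ℚ_[2]) * ((2 : ℚ_[2]) ^ n (b i) * b i)) := by
      have h2 := b.linearIndependent.units_smul
        (fun i => (Units.mk0 (2 : ℚ) two_ne_zero) ^ (n (b i) + 1))
      have h3 : (fun i => (2 : ℚ_[2]) * ((2 : ℚ_[2]) ^ n (b i) * b i)) =
          (fun i => (Units.mk0 (2 : ℚ) two_ne_zero) ^ (n (b i) + 1)) • ⇑b := by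
        funext i
        simp only [Pi.smul_apply', Units.smul_def, Units.val_pow_eq_pow_val, Units.val_mk0]
        rw [Algebra.smul_def, map_pow, pow_succ']
        simp only [eq_ratCast, Rat.cast_ofNat]
        ring
      rw [h3]
      exact h2
    have h3 : LinearIndependent ℤ (fun i => (2 : ℚ_[2]) * ((2 : ℚ_[2]) ^ n (b i) * b i)) :=
      h1.restrict_scalars (by
        intro x y hxy
        simpa using hxy)
    let f : ℤ_[2] →ₗ[ℤ] ℚ_[2] := (PadicInt.Coe.ringHom (p := 2)).toAddMonoidHom.toIntLinearMap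
    refine LinearIndependent.of_comp f ?_
    have h4 : ⇑f ∘ a = fun i => (2 : ℚ_[2]) * ((2 : ℚ_[2]) ^ n (b i) * b i) := by
      funext i
      change ((2 * z i : ℤ_[2]) : ℚ_[2]) = _
      have h5 : ((2 : ℤ_[2]) : ℚ_[2]) = 2 := map_ofNat (PadicInt.Coe.ringHom (p := 2)) 2
      rw [PadicInt.coe_mul, hz, h5]
    rw [h4]
    exact h3
  refine ⟨ι, a, fun i => (e.symm i).2, hlin, fun i => ⟨_, rfl⟩, fun J hJ r => ?_⟩
  by_contra hcon
  push Not at hcon
  apply hunc
  have h1 : ∀ i : ι, e (i, r) ∈ J := by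
    intro i
    by_contra h
    exact hcon _ h (by simp)
  have : Countable J := hJ
  exact Function.Injective.countable (f := fun i : ι => (⟨e (i, r), h1 i⟩ : J)) (by
    intro i j hij
    have := congrArg Subtype.val hij
    simpa using this)

end Pool.Agent.X198.GRev
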