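import Mathlib
import Pool.Agent.X198.GRev

/-!
# The group of characters of ℤ₂ vanishing on almost all members of an independent family
-/

set_option autoImplicit false

namespace Pool.Agent.X198.GRev

open Set Filter Topology

/-- every continuous automorphism is open -/
def GReversible (G : Type*) [AddCommGroup G] [TopologicalSpace G] : Prop :=
  ∀ f : G ≃+ G, Continuous f → IsOpenMap f

/-- no strictly coarser Hausdorff group topology -/
def IsMinimalGroup (G : Type*) [AddCommGroup G] [t : TopologicalSpace G] : Prop :=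
  ∀ s : TopologicalSpace G, t ≤ s → @IsTopologicalAddGroup G s _ → @T2Space G s → s = t

/-- every continuous real-valued function is bounded -/
def Pseudocompact (X : Type*) [TopologicalSpace X] : Prop :=
  ∀ f : X → ℝ, Continuous f → ∃ C, ∀ x, |f x| ≤ C

/-- closures of countable sets are compact -/
def OmegaBounded (X : Type*) [TopologicalSpace X] : Prop :=
  ∀ C : Set X, C.Countable → IsCompact (closure C)

theorem OmegaBounded.countablyCompactSpace {X : Type*} [TopologicalSpace X]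
    (h : OmegaBounded X) : CountablyCompactSpace X := by
  refine ⟨isCountablyCompact_iff_seq_clusterPt.2 fun x _ => ?_⟩
  obtain ⟨y, _, hy⟩ := (h (range x) (countable_range x)).exists_mapClusterPt (f := atTop) (u := x)
    (by
      exact tendsto_principal.2 (Eventually.of_forall fun n =>
        subset_closure (mem_range_self n)))
  exact ⟨y, mem_univ _, hy⟩

theorem pseudocompact_of_countablyCompactSpace (X : Type*) [TopologicalSpace X]
    [h : CountablyCompactSpace X] : Pseudocompact X := by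
  intro f hf
  obtain ⟨t, ht⟩ := h.isCountablyCompact_univ.elim_finite_subcover
    (U := fun n : ℕ => {x | |f x| < n}) (fun n => isOpen_lt hf.abs continuous_const)
    (fun x _ => by
      obtain ⟨n, hn⟩ := exists_nat_gt |f x|
      exact mem_iUnion.2 ⟨n, hn⟩)
  refine ⟨(t.sup id : ℕ), fun x => ?_⟩
  obtain ⟨n, hn⟩ := mem_iUnion.1 (ht (mem_univ x))
  obtain ⟨hn, hx⟩ := mem_iUnion.1 hn
  have h1 : n ≤ t.sup id := Finset.le_sup (f := id) hn
  have h2 : |f x| < n := hx
  have h3 : (n : ℝ) ≤ (t.sup id : ℕ) := by exact_mod_cast h1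
  linarith

variable {I : Type} (a : I → ℤ_[2])

/-- the homomorphisms `ℤ₂ → T` vanishing at all but countably many `a i` -/
def G : AddSubgroup (ℤ_[2] → T) where
  carrier := {f | (∀ x y, f (x + y) = f x + f y) ∧
    ∃ J : Set I, J.Countable ∧ ∀ i ∉ J, f (a i) = 0}
  zero_mem' := ⟨by simp, ∅, countable_empty, by simp⟩
  add_mem' := by
    rintro f g ⟨hf, J, hJ, hfJ⟩ ⟨hg, J', hJ', hgJ⟩
    refine ⟨fun x y => ?_, J ∪ J', hJ.union hJ', fun i hi => ?_⟩
    · simp only [Pi.add_apply, hf, hg]; abel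
    · simp only [mem_union, not_or] at hi
      simp [hfJ i hi.1, hgJ i hi.2]
  neg_mem' := by
    rintro f ⟨hf, J, hJ, hfJ⟩
    refine ⟨fun x y => ?_, J, hJ, fun i hi => ?_⟩
    · simp only [Pi.neg_apply, hf]; abel
    · simp [hfJ i hi]

/-- the homomorphism underlying a member of `G a` -/
noncomputable def toHom (χ : G a) : ℤ_[2] →+ T := AddMonoidHom.mk' χ.1 χ.2.1

@[simp] theorem toHom_apply (χ : G a) (x : ℤ_[2]) : toHom a χ x = χ.1 x := rfl

theorem map_zero' (χ : G a) : χ.1 0 = 0 := (toHom a χ).map_zero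

theorem map_zsmul' (χ : G a) (n : ℤ) (x : ℤ_[2]) : χ.1 (n • x) = n • χ.1 x :=
  map_zsmul (toHom a χ) n x

theorem map_sub' (χ : G a) (x y : ℤ_[2]) : χ.1 (x - y) = χ.1 x - χ.1 y :=
  (toHom a χ).map_sub x y

/-- evaluation at a point -/
noncomputable def ev (x : ℤ_[2]) : G a →+ T where
  toFun χ := χ.1 x
  map_zero' := rfl
  map_add' _ _ := rfl

theorem continuous_ev (x : ℤ_[2]) : Continuous (ev a x) :=
  (continuous_apply x).comp continuous_subtype_val

theorem exists_ext (ha : LinearIndependent ℤ a) (B : Submodule ℤ ℤ_[2]) [Countable B]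
    (t : B →ₗ[ℤ] T) : ∃ χ : G a, ∀ b : B, χ.1 b = t b := by
  let Ls : Set (I →₀ ℤ) := {l | Finsupp.linearCombination ℤ a l ∈ B}
  have hLs : Ls.Countable := by
    have : Function.Injective (fun l : Ls => (⟨Finsupp.linearCombination ℤ a l.1, l.2⟩ : B)) := by
      intro l l' hl
      have h1 := congrArg Subtype.val hl
      exact Subtype.ext (ha h1)
    exact this.countable
  let J : Set I := ⋃ l ∈ Ls, (l.support : Set I)
  have hJ : J.Countable := hLs.biUnion fun l _ => l.support.countable_toSet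
  let AJ : Submodule ℤ ℤ_[2] := Submodule.span ℤ (a '' Jᶜ)
  have hdisj : ∀ x ∈ B, x ∈ AJ → x = 0 := by
    intro x hx hxA
    rw [Finsupp.mem_span_image_iff_linearCombination] at hxA
    obtain ⟨l, hl, rfl⟩ := hxA
    have h1 : l = 0 := by
      ext i
      by_contra hi
      have h2 : i ∈ l.support := Finsupp.mem_support_iff.2 hi
      have h3 : i ∈ J := mem_biUnion (show l ∈ Ls from hx) h2
      exact hl h2 h3
    rw [h1, map_zero]
  let f : B →ₗ[ℤ] (ℤ_[2] ⧸ AJ) := AJ.mkQ ∘ₗ B.subtype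
  have hf : Function.Injective f := by
    rw [injective_iff_map_eq_zero]
    intro x hx
    have h1 : (x : ℤ_[2]) ∈ AJ := by
      rw [← Submodule.Quotient.mk_eq_zero]
      exact hx
    exact Subtype.ext (hdisj x x.2 h1)
  obtain ⟨h, hh⟩ := (Module.Baer.of_divisible T).extension_property f hf t
  refine ⟨⟨fun x => h (AJ.mkQ x), fun x y => by simp only [map_add], J, hJ, fun i hi => ?_⟩,
    fun b => ?_⟩
  · have h1 : AJ.mkQ (a i) = 0 := by
      rw [Submodule.mkQ_apply, Submodule.Quotient.mk_eq_zero]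
      exact Submodule.subset_span ⟨i, hi, rfl⟩
    change h (AJ.mkQ (a i)) = 0
    rw [h1, map_zero]
  · have h1 := congrArg (fun g => g b) hh
    exact h1

/-- `G a` separates the points -/
theorem separates (ha : LinearIndependent ℤ a) {x : ℤ_[2]} (hx : ∀ χ : G a, χ.1 x = 0) :
    x = 0 := by
  by_contra hne
  let e := LinearEquiv.toSpanNonzeroSingleton ℤ ℤ_[2] x hne
  let t : (Submodule.span ℤ {x} : Submodule ℤ ℤ_[2]) →ₗ[ℤ] T :=
    (LinearMap.toSpanSingleton ℤ T ((1 / 2 : ℝ) : T)) ∘ₗ e.symm.toLinearMap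
  have : Countable (Submodule.span ℤ {x} : Submodule ℤ ℤ_[2]) :=
    e.symm.toEquiv.injective.countable
  obtain ⟨χ, hχ⟩ := exists_ext a ha _ t
  have h1 := hχ ⟨x, Submodule.mem_span_singleton_self x⟩
  have h2 : e.symm ⟨x, Submodule.mem_span_singleton_self x⟩ = 1 := by
    rw [LinearEquiv.symm_apply_eq]
    exact (LinearEquiv.toSpanNonzeroSingleton_one ℤ ℤ_[2] x hne).symm
  have h3 : t ⟨x, Submodule.mem_span_singleton_self x⟩ = ((1 / 2 : ℝ) : T) := by
    change LinearMap.toSpanSingleton ℤ T ((1 / 2 : ℝ) : T)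
      (e.symm ⟨x, Submodule.mem_span_singleton_self x⟩) = _
    rw [h2]
    simp
  rw [h3] at h1
  have h4 : ((1 / 2 : ℝ) : T) = 0 := by rw [← h1]; exact hx χ
  rw [AddCircle.coe_eq_zero_iff] at h4
  obtain ⟨n, hn⟩ := h4
  have h5 : (2 * n : ℤ) = 1 := by
    have h6 : (n : ℝ) = 1 / 2 := by simpa using hn
    have : (2 * n : ℝ) = 1 := by rw [h6]; norm_num
    exact_mod_cast this
  omega

/-- every continuous character of `G a` is an evaluation -/
theorem dual (ha : LinearIndependent ℤ a) (ψ : G a →+ T) (hψ : Continuous ψ) :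
    ∃ b : ℤ_[2], ∀ χ : G a, ψ χ = χ.1 b := by
  classical
  have h0 : {χ : G a | ‖ψ χ‖ < 1 / 4} ∈ 𝓝 (0 : G a) := by
    have : IsOpen {χ : G a | ‖ψ χ‖ < 1 / 4} := isOpen_lt hψ.norm continuous_const
    refine this.mem_nhds ?_
    change ‖ψ 0‖ < 1 / 4
    rw [map_zero, norm_zero]; norm_num
  rw [mem_nhds_subtype] at h0
  obtain ⟨U, hU, hUsub⟩ := h0
  rw [nhds_pi, Filter.mem_pi] at hU
  obtain ⟨S, hS, t, ht, htU⟩ := hU
  have hsmall : ∀ χ : G a, (∀ l ∈ S, χ.1 l ∈ t l) → ‖ψ χ‖ < 1 / 4 := fun χ h =>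
    hUsub (show χ.1 ∈ U from htU fun l hl => h l hl)
  have ht0 : ∀ l, (0 : T) ∈ t l := fun l => mem_of_mem_nhds (ht l)
  let B : Submodule ℤ ℤ_[2] := Submodule.span ℤ S
  have hfin : Module.Finite ℤ B := Module.Finite.span_of_finite ℤ hS
  let b := Module.finBasis ℤ B
  have : Countable S := hS.countable
  have : Countable B := b.equivFun.toEquiv.injective.countable
  let n := Module.finrank ℤ B
  -- coordinates
  have hexp : ∀ (χ : G a) (x : B), χ.1 x = ∑ i, (b.repr x i) • χ.1 (b i) := by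
    intro χ x
    conv_lhs => rw [← b.sum_repr x]
    have h1 : ((∑ i, b.repr x i • b i : B) : ℤ_[2]) = ∑ i, b.repr x i • (b i : ℤ_[2]) := by
      push_cast; rfl
    rw [h1]
    change toHom a χ _ = _
    rw [map_sum]
    refine Finset.sum_congr rfl fun i _ => ?_
    rw [map_zsmul]
    rfl
  have hker : ∀ χ : G a, (∀ i, χ.1 (b i) = 0) → ψ χ = 0 := by
    intro χ hχ
    refine eq_zero_of_small fun m => ?_
    rw [← map_zsmul]
    refine hsmall _ fun l hl => ?_
    have h1 : (m • χ).1 l = m • χ.1 l := rfl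
    have h2 : χ.1 l = 0 := by
      have h3 := hexp χ ⟨l, Submodule.subset_span hl⟩
      simp only [hχ, smul_zero, Finset.sum_const_zero] at h3
      exact h3
    rw [h1, h2, smul_zero]
    exact ht0 l
  have hsurj : ∀ v : Fin n → T, ∃ χ : G a, ∀ i, χ.1 (b i) = v i := by
    intro v
    obtain ⟨χ, hχ⟩ := exists_ext a ha B (b.constr ℤ v)
    refine ⟨χ, fun i => ?_⟩
    rw [hχ, b.constr_basis]
  choose s hs using hsurj
  have hψs : ∀ (v : Fin n → T) (χ : G a), (∀ i, χ.1 (b i) = v i) → ψ χ = ψ (s v) := by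
    intro v χ h
    rw [← sub_eq_zero, ← map_sub]
    refine hker _ fun i => ?_
    change χ.1 (b i) - (s v).1 (b i) = 0
    rw [h, hs, sub_self]
  let ψ' : (Fin n → T) →+ T := AddMonoidHom.mk' (fun v => ψ (s v)) (fun v w => by
    rw [← map_add]
    refine (hψs _ _ fun i => ?_).symm
    change (s v).1 (b i) + (s w).1 (b i) = v i + w i
    rw [hs, hs])
  have hk : ∀ i : Fin n, ∃ k : ℤ, ∀ x : T, ψ' (Pi.single i x) = k • x := by
    intro i
    let g : T →+ T := ψ'.comp (AddMonoidHom.single (fun _ : Fin n => T) i)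
    have hev : ∀ᶠ x : T in 𝓝 0, ‖g x‖ < 1 / 4 := by
      have h1 : ∀ᶠ x : T in 𝓝 0, ∀ l ∈ S, ∀ hl : l ∈ B, (b.repr ⟨l, hl⟩ i) • x ∈ t l := by
        rw [eventually_all_finite hS]
        intro l hl
        have hlB : l ∈ B := Submodule.subset_span hl
        have h2 : Tendsto (fun x : T => (b.repr ⟨l, hlB⟩ i) • x) (𝓝 0) (𝓝 0) := by
          have := (continuous_zsmul (G := T) (b.repr ⟨l, hlB⟩ i)).tendsto 0
          rwa [smul_zero] at this
        filter_upwards [h2 (ht l)] with x hx _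
        exact hx
      filter_upwards [h1] with x hx
      refine hsmall _ fun l hl => ?_
      have hlB : l ∈ B := Submodule.subset_span hl
      have h3 := hexp (s (Pi.single i x)) ⟨l, hlB⟩
      simp only [hs] at h3
      rw [Finset.sum_eq_single i] at h3
      · rw [Pi.single_eq_same] at h3
        change (s (Pi.single i x)).1 l ∈ t l
        rw [show (s (Pi.single i x)).1 l = (b.repr ⟨l, hlB⟩ i) • x from h3]
        exact hx l hl hlB
      · intro j _ hj
        rw [Pi.single_eq_of_ne hj, smul_zero]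
      · intro h
        exact absurd (Finset.mem_univ i) h
    obtain ⟨δ, hδ, hδg⟩ := Metric.eventually_nhds_iff.1 hev
    exact circle_hom g hδ fun x hx => hδg (by rwa [dist_zero_right])
  choose k hk using hk
  refine ⟨∑ i, k i • (b i : ℤ_[2]), fun χ => ?_⟩
  have h1 : ψ χ = ψ' (fun i => χ.1 (b i)) := hψs _ _ fun i => rfl
  have h2 : (fun i => χ.1 (b i)) = ∑ i, Pi.single i (χ.1 (b i)) :=
    (Finset.univ_sum_single (fun i => χ.1 (b i))).symm
  rw [h1, h2, map_sum]
  change _ = toHom a χ _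
  rw [map_sum]
  refine Finset.sum_congr rfl fun i _ => ?_
  rw [hk, map_zsmul]
  rfl

/-- the automorphisms of `G a` are the multiplications by units -/
theorem gReversible (ha : LinearIndependent ℤ a) (h2 : ∀ i, ∃ c, a i = 2 * c) :
    GReversible (G a) := by
  intro f hf
  have h1 : ∀ x : ℤ_[2], ∃ y : ℤ_[2], ∀ χ : G a, (f χ).1 x = χ.1 y := by
    intro x
    obtain ⟨y, hy⟩ := dual a ha ((ev a x).comp f.toAddMonoidHom) ((continuous_ev a x).comp hf)
    exact ⟨y, fun χ => hy χ⟩
  choose φ hφ using h1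
  have hsep : ∀ x y : ℤ_[2], (∀ χ : G a, χ.1 x = χ.1 y) → x = y := by
    intro x y h
    rw [← sub_eq_zero]
    refine separates a ha fun χ => ?_
    rw [map_sub', h χ, sub_self]
  let Φ : ℤ_[2] →+ ℤ_[2] := AddMonoidHom.mk' φ fun x y => hsep _ _ fun χ => by
    rw [← hφ, (f χ).2.1, hφ, hφ, ← χ.2.1]
  let c := φ 1
  have hc : ∀ x, φ x = c * x := padic_end Φ
  have hunit : IsUnit c := by
    by_contra hcu
    rw [PadicInt.isUnit_iff] at hcu
    have h3 : ‖c‖ < 1 := lt_of_le_of_ne (PadicInt.norm_le_one c) hcu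
    rw [PadicInt.norm_lt_one_iff_dvd] at h3
    obtain ⟨μ, hμ⟩ := h3
    have hhalf : (2 : ℤ) • (((1 / 2 : ℝ)) : T) = 0 := by
      rw [← AddCircle.coe_zsmul, AddCircle.coe_eq_zero_iff]
      exact ⟨1, by norm_num⟩
    let τ : ZMod 2 →+ T := ZMod.lift 2 ⟨zmultiplesHom T (((1 / 2 : ℝ)) : T), by
      simpa using hhalf⟩
    have hτ : ∀ x : ℤ_[2], τ (PadicInt.toZMod (2 * x)) = 0 := by
      intro x
      have : PadicInt.toZMod (2 * x) = 0 := by
        rw [map_mul]
        have : PadicInt.toZMod (2 : ℤ_[2]) = 0 := by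
          have h4 := map_natCast (PadicInt.toZMod (p := 2)) 2
          rw [ZMod.natCast_self] at h4
          exact_mod_cast h4
        rw [this, zero_mul]
      rw [this, map_zero]
    let χ0 : G a := ⟨fun x => τ (PadicInt.toZMod x), fun x y => by simp only [map_add],
      ∅, countable_empty, fun i _ => by
        obtain ⟨d, hd⟩ := h2 i
        change τ (PadicInt.toZMod (a i)) = 0
        rw [hd, hτ]⟩
    have h5 : f χ0 = 0 := by
      refine Subtype.ext (funext fun x => ?_)
      rw [hφ, hc, hμ]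
      change τ (PadicInt.toZMod (((2 : ℕ) : ℤ_[2]) * μ * x)) = 0
      rw [mul_assoc]
      exact hτ _
    have h6 : χ0 = 0 := by
      apply f.injective
      rw [h5, map_zero]
    have h7 : χ0.1 1 = ((1 / 2 : ℝ) : T) := by
      change τ (PadicInt.toZMod 1) = _
      rw [map_one]
      have h8 : τ ((1 : ℤ) : ZMod 2) = zmultiplesHom T (((1 / 2 : ℝ)) : T) 1 :=
        ZMod.lift_coe 2 _ 1
      simpa using h8
    rw [h6] at h7
    have h4 : ((1 / 2 : ℝ) : T) = 0 := h7.symm
    rw [AddCircle.coe_eq_zero_iff] at h4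
    obtain ⟨n, hn⟩ := h4
    have h5 : (2 * n : ℤ) = 1 := by
      have h6 : (n : ℝ) = 1 / 2 := by simpa using hn
      have : (2 * n : ℝ) = 1 := by rw [h6]; norm_num
      exact_mod_cast this
    omega
  obtain ⟨u, hu⟩ := hunit
  have hinv : Continuous f.symm := by
    rw [continuous_induced_rng, continuous_pi_iff]
    intro x
    have h3 : (fun χ : G a => (Subtype.val ∘ f.symm) χ x) = fun χ : G a => χ.1 (↑u⁻¹ * x) := by
      funext χ
      change (f.symm χ).1 x = χ.1 (↑u⁻¹ * x)
      have h4 := hφ (↑u⁻¹ * x) (f.symm χ)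
      rw [hc, ← hu, Units.mul_inv_cancel_left] at h4
      rw [← h4, AddEquiv.apply_symm_apply]
    rw [h3]
    exact continuous_ev a _
  exact (Homeomorph.mk f.toEquiv hf hinv).isOpenMap

theorem omegaBounded : OmegaBounded (G a) := by
  intro C hC
  have hch : ∀ χ : G a, ∃ J : Set I, J.Countable ∧ ∀ i ∉ J, χ.1 (a i) = 0 := fun χ => χ.2.2
  choose Jf hJc hJf using hch
  let J : Set I := ⋃ χ ∈ C, Jf χ
  have hJ : J.Countable := hC.biUnion fun χ _ => hJc χ
  let K : Set (ℤ_[2] → T) := {f | (∀ x y, f (x + y) = f x + f y) ∧ ∀ i ∉ J, f (a i) = 0}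
  have hK : IsClosed K := by
    have h1 : K = (⋂ x, ⋂ y, {f : ℤ_[2] → T | f (x + y) = f x + f y}) ∩
        ⋂ i, ⋂ (_ : i ∉ J), {f : ℤ_[2] → T | f (a i) = 0} := by
      ext f
      simp [K]
    rw [h1]
    refine IsClosed.inter ?_ ?_
    · refine isClosed_iInter fun x => isClosed_iInter fun y =>
        isClosed_eq (continuous_apply _) ?_
      exact (continuous_apply (A := fun _ : ℤ_[2] => T) x).add
        (continuous_apply (A := fun _ : ℤ_[2] => T) y)
    · exact isClosed_iInter fun i => isClosed_iInter fun _ =>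
        isClosed_eq (continuous_apply _) continuous_const
  have hKc : IsCompact K := hK.isCompact
  let K' : Set (G a) := Subtype.val ⁻¹' K
  have hK' : IsCompact K' := by
    rw [Topology.IsInducing.subtypeVal.isCompact_iff]
    have hKK : (fun χ : G a => χ.1) '' K' = K := by
      ext f
      constructor
      · rintro ⟨χ, hχ, rfl⟩
        exact hχ
      · intro hf
        exact ⟨⟨f, hf.1, J, hJ, hf.2⟩, hf, rfl⟩
    exact hKK ▸ hKc
  have hsub : closure C ⊆ K' := by
    refine closure_minimal (fun χ hχ => ?_) (hK.preimage continuous_subtype_val)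
    exact ⟨χ.2.1, fun i hi => hJf χ i fun h => hi (mem_biUnion hχ h)⟩
  exact hK'.of_isClosed_subset isClosed_closure hsub

theorem not_minimal (ha : LinearIndependent ℤ a) (q : I → ℚ)
    (hq : ∀ (J : Set I), J.Countable → ∀ r : ℚ, ∃ i ∉ J, q i = r) :
    ¬ IsMinimalGroup (G a) := by
  intro hmin
  obtain ⟨σ, hσ⟩ : ∃ σ : ℤ_[2] →ₗ[ℤ] ℚ, ∀ i, σ (a i) = q i := by
    have : DivisibleBy ℚ ℤ := ⟨fun x n => x / n, fun x => by simp, fun {n} x hn => by
      simp only [zsmul_eq_mul]
      have : (n : ℚ) ≠ 0 := by exact_mod_cast hn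
      field_simp⟩
    obtain ⟨h, hh⟩ := (Module.Baer.of_divisible ℚ).extension_property
      (Finsupp.linearCombination ℤ a) ha (Finsupp.linearCombination ℤ q)
    refine ⟨h, fun i => ?_⟩
    have h1 := congrArg (fun g => g (Finsupp.single i 1)) hh
    simpa using h1
  let L : Set ℤ_[2] := {x | σ x = 0}
  let r : G a →+ (L → T) := {
    toFun := fun χ l => χ.1 l
    map_zero' := rfl
    map_add' := fun _ _ => rfl }
  have hrinj : Function.Injective r := by
    rw [injective_iff_map_eq_zero]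
    intro χ hχ
    refine Subtype.ext (funext fun x => ?_)
    obtain ⟨J, hJ, hJχ⟩ := χ.2.2
    obtain ⟨i, hi, hqi⟩ := hq J hJ (σ x)
    have h1 : x - a i ∈ L := by
      change σ (x - a i) = 0
      rw [map_sub, hσ, hqi, sub_self]
    have h2 : χ.1 (x - a i) = 0 := congrFun hχ ⟨x - a i, h1⟩
    rw [map_sub', hJχ i hi, sub_zero] at h2
    exact h2
  have hrc : Continuous r := by
    refine continuous_pi fun l => ?_
    exact continuous_ev a l.1
  have hs := hmin (TopologicalSpace.induced r Pi.topologicalSpace)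
    (continuous_iff_le_induced.1 hrc) (topologicalAddGroup_induced r)
    (@T2Space.of_injective_continuous (G a) (L → T)
      (TopologicalSpace.induced r Pi.topologicalSpace) _ _ r hrinj continuous_induced_dom)
  obtain ⟨i0, _, hi0⟩ := hq ∅ countable_empty (1 / 2)
  have hO : IsOpen {χ : G a | ‖χ.1 (a i0)‖ < 1 / 4} :=
    isOpen_lt (continuous_ev a (a i0)).norm continuous_const
  rw [← hs, isOpen_induced_iff] at hO
  obtain ⟨V, hV, hVO⟩ := hO
  have h0V : (0 : L → T) ∈ V := by
    have h1 : (0 : G a) ∈ r ⁻¹' V := by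
      rw [hVO]
      change ‖(0 : T)‖ < 1 / 4
      rw [norm_zero]; norm_num
    have h2 : r 0 ∈ V := h1
    rwa [map_zero] at h2
  have hVn := hV.mem_nhds h0V
  rw [nhds_pi, Filter.mem_pi] at hVn
  obtain ⟨S, hS, t, ht, htV⟩ := hVn
  let S' : Set ℤ_[2] := insert (a i0) (Subtype.val '' S)
  have hS' : S'.Finite := (hS.image _).insert _
  let B : Submodule ℤ ℤ_[2] := Submodule.span ℤ S'
  have : Countable S' := hS'.countable
  have hcB : Countable B := by
    have hfin : Module.Finite ℤ B := Module.Finite.span_of_finite ℤ hS'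
    exact (Module.finBasis ℤ B).equivFun.toEquiv.injective.countable
  let m : ℤ_[2] →ₗ[ℤ] T := (((QuotientAddGroup.mk' (AddSubgroup.zmultiples (1 : ℝ))).comp
    (algebraMap ℚ ℝ).toAddMonoidHom).toIntLinearMap) ∘ₗ σ
  have hm : ∀ x, m x = (((σ x : ℚ) : ℝ) : T) := fun x => rfl
  obtain ⟨χ, hχ⟩ := exists_ext a ha B (m ∘ₗ B.subtype)
  have h1 : χ ∈ {χ : G a | ‖χ.1 (a i0)‖ < 1 / 4} := by
    rw [← hVO]
    refine htV fun l hl => ?_
    have h2 : χ.1 l = 0 := by
      have h3 := hχ ⟨l, Submodule.subset_span (mem_insert_of_mem _ ⟨l, hl, rfl⟩)⟩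
      have h4 : σ l = 0 := l.2
      have h5 : χ.1 l = (((σ l : ℚ) : ℝ) : T) := h3
      rw [h5, h4]
      simp
    change χ.1 l ∈ t l
    rw [h2]
    exact mem_of_mem_nhds (ht l)
  have h2 : ‖χ.1 (a i0)‖ < 1 / 4 := h1
  have h3 : χ.1 (a i0) = (((1 / 2 : ℝ)) : T) := by
    have h4 := hχ ⟨a i0, Submodule.subset_span (mem_insert _ _)⟩
    have h5 : χ.1 (a i0) = (((σ (a i0) : ℚ) : ℝ) : T) := h4
    rw [h5, hσ, hi0]
    norm_num
  rw [h3, (AddCircle.norm_coe_eq_abs_iff (1 : ℝ) one_ne_zero).2 (by norm_num)] at h2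
  norm_num at h2

theorem main : ∃ (G : Type) (_ : AddCommGroup G) (_ : TopologicalSpace G),
    IsTopologicalAddGroup G ∧ T2Space G ∧ OmegaBounded G ∧ CountablyCompactSpace G ∧
      Pseudocompact G ∧ GReversible G ∧ ¬ IsMinimalGroup G := by
  obtain ⟨I, a, q, ha, h2, hq⟩ := exists_family
  have h1 : CountablyCompactSpace (G a) := (omegaBounded a).countablyCompactSpace
  exact ⟨G a, inferInstance, inferInstance, inferInstance, inferInstance, omegaBounded a, h1,
    pseudocompact_of_countablyCompactSpace _, gReversible a ha h2, not_minimal a ha q hq⟩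

end Pool.Agent.X198.GRev
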