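import Mathlib

/-!
# Weakly pseudocompact neighbourhoods in subgroups
-/

set_option autoImplicit false

namespace Pool.Agent.X198.WPs

open Set Filter Topology

universe u v w

/-- every continuous real-valued function is bounded -/
def Pseudocompact (X : Type u) [TopologicalSpace X] : Prop :=
  ∀ f : X → ℝ, Continuous f → ∃ C, ∀ x, |f x| ≤ C

/-- `X` is `G_δ`-dense in some Hausdorff compactification -/
def WeaklyPseudocompact (X : Type u) [TopologicalSpace X] : Prop :=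
  ∃ (K : Type v) (_ : TopologicalSpace K) (_ : CompactSpace K) (_ : T2Space K) (j : X → K),
    IsEmbedding j ∧ DenseRange j ∧ ∀ S : Set K, IsGδ S → S.Nonempty → (S ∩ range j).Nonempty

section fusion

variable {G : Type u} [Group G] [TopologicalSpace G]
  {H : Type w} [Group H] [TopologicalSpace H] [IsTopologicalGroup H]
  (i : G →* H) {X : Set G} {K : Type v} [TopologicalSpace K] (j : X → K)

/-- a stage of the fusion -/
structure Stage (t : H) (Uh : Set H) where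
  V : Set K
  V' : Set K
  O : Set H
  O' : Set H
  hV : IsOpen V
  hV' : IsOpen V'
  hO : IsOpen O
  hO' : IsOpen O'
  hOU : O ⊆ Uh
  hOU' : O' ⊆ Uh
  h : ∀ y : X, i y.1 ∈ O → j y ∈ V
  h' : ∀ y : X, i y.1 ∈ O' → j y ∈ V'
  hne : ∃ g : G, i g ∈ O' ∧ t * i g ∈ O

theorem step [CompactSpace K] [T2Space K] (hi : IsInducing i) (hd : DenseRange i)
    (hj : IsEmbedding j) (t : H) (Uh : Set H) (hUX : ∀ g : G, i g ∈ Uh → g ∈ X)
    (F : Set H) (hF : IsOpen F) (hF1 : 1 ∈ F) (s : Stage i j t Uh) :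
    ∃ s' : Stage i j t Uh, closure s'.V ⊆ s.V ∧ closure s'.V' ⊆ s.V' ∧
      ∀ y y' : X, j y ∈ s'.V → j y' ∈ s'.V' → t⁻¹ * (i y.1 * (i y'.1)⁻¹) ∈ F := by
  -- the composition `X → H` is inducing
  have hiX : IsInducing (fun y : X => i y.1) := hi.comp IsInducing.subtypeVal
  -- a small neighbourhood of one
  have hE : {p : H × H | t⁻¹ * (p.1 * p.2⁻¹) * t ∈ F} ∈ 𝓝 ((1 : H), (1 : H)) := by
    have hc : Continuous fun p : H × H => t⁻¹ * (p.1 * p.2⁻¹) * t := by fun_prop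
    refine (hF.preimage hc).mem_nhds ?_
    change t⁻¹ * (1 * 1⁻¹) * t ∈ F
    simpa using hF1
  rw [nhds_prod_eq, mem_prod_self_iff] at hE
  obtain ⟨E, hE, hEF⟩ := hE
  obtain ⟨E0, hE0E, hE0, h1E0⟩ := mem_nhds_iff.1 hE
  -- first point
  let W : Set H := s.O ∩ {h | t⁻¹ * h ∈ s.O'}
  have hW : IsOpen W := s.hO.inter (s.hO'.preimage (continuous_const.mul continuous_id))
  have hWne : W.Nonempty := by
    obtain ⟨g, hg, hg'⟩ := s.hne
    refine ⟨t * i g, hg', ?_⟩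
    change t⁻¹ * (t * i g) ∈ s.O'
    rwa [inv_mul_cancel_left]
  obtain ⟨x, hx⟩ := hd.exists_mem_open hW hWne
  let P : Set H := {h | h * (i x)⁻¹ ∈ E0}
  have hP : IsOpen P := hE0.preimage (continuous_id.mul continuous_const)
  have hxP : i x ∈ P := by
    change i x * (i x)⁻¹ ∈ E0
    rwa [mul_inv_cancel]
  have hPP : ∀ p ∈ P, ∀ p' ∈ P, t⁻¹ * (p * p'⁻¹) * t ∈ F := by
    intro p hp p' hp'
    have := hEF (show (p * (i x)⁻¹, p' * (i x)⁻¹) ∈ E ×ˢ E from ⟨hE0E hp, hE0E hp'⟩)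
    change t⁻¹ * ((p * (i x)⁻¹) * (p' * (i x)⁻¹)⁻¹) * t ∈ F at this
    have he : (p * (i x)⁻¹) * (p' * (i x)⁻¹)⁻¹ = p * p'⁻¹ := by group
    rwa [he] at this
  -- general shrinking
  have shrink : ∀ (A : Set K) (Q : Set H) (g : G), IsOpen A → IsOpen Q → i g ∈ Q → Q ⊆ Uh →
      (∀ y : X, i y.1 ∈ Q → j y ∈ A) → ∃ (A1 : Set K) (Q1 : Set H), IsOpen A1 ∧ IsOpen Q1 ∧
        closure A1 ⊆ A ∧ Q1 ⊆ Q ∧ i g ∈ Q1 ∧ (∀ y : X, i y.1 ∈ Q1 → j y ∈ A1) ∧
        ∀ y : X, j y ∈ A1 → i y.1 ∈ Q := by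
    intro A Q g hA hQ hgQ hQU hQA
    have hgX : g ∈ X := hUX g (hQU hgQ)
    have hop : IsOpen {y : X | i y.1 ∈ Q} := hQ.preimage hiX.continuous
    obtain ⟨A', hA', hA'eq⟩ := hj.isInducing.isOpen_iff.1 hop
    have hgA : j ⟨g, hgX⟩ ∈ A ∩ A' := ⟨hQA _ hgQ, by
      have : (⟨g, hgX⟩ : X) ∈ j ⁻¹' A' := by rw [hA'eq]; exact hgQ
      exact this⟩
    obtain ⟨A1, hgA1, hA1, hA1sub⟩ : ∃ A1 : Set K, j ⟨g, hgX⟩ ∈ A1 ∧ IsOpen A1 ∧
        closure A1 ⊆ A ∩ A' := by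
      obtain ⟨A1, hA1, hA1c, hA1sub⟩ := exists_mem_nhds_isClosed_subset
        ((hA.inter hA').mem_nhds hgA)
      obtain ⟨A2, hA2sub, hA2, hgA2⟩ := mem_nhds_iff.1 hA1
      exact ⟨A2, hgA2, hA2, (closure_minimal hA2sub hA1c).trans hA1sub⟩
    have hop1 : IsOpen (j ⁻¹' A1) := hA1.preimage hj.continuous
    obtain ⟨Q', hQ', hQ'eq⟩ := hiX.isOpen_iff.1 hop1
    refine ⟨A1, Q' ∩ Q, hA1, hQ'.inter hQ, hA1sub.trans inter_subset_left, inter_subset_right,
      ⟨?_, hgQ⟩, ?_, ?_⟩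
    · have : (⟨g, hgX⟩ : X) ∈ (fun y : X => i y.1) ⁻¹' Q' := by rw [hQ'eq]; exact hgA1
      exact this
    · intro y hy
      have : y ∈ (fun y : X => i y.1) ⁻¹' Q' := hy.1
      rw [hQ'eq] at this
      exact this
    · intro y hy
      have h1 : y ∈ j ⁻¹' A' := (hA1sub (subset_closure hy)).2
      rw [hA'eq] at h1
      exact h1
  obtain ⟨A1, Q1, hA1, hQ1, hA1V, hQ1sub, hxQ1, hQ1A1, hA1Q⟩ := shrink s.V (W ∩ P) x s.hV
    (hW.inter hP) ⟨hx, hxP⟩ (fun h hh => s.hOU hh.1.1) (fun y hy => s.h y hy.1.1)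
  let W' : Set H := {h | t * h ∈ Q1}
  have hW' : IsOpen W' := hQ1.preimage (continuous_const.mul continuous_id)
  have hW'O : W' ⊆ s.O' := by
    intro h hh
    have h1 : t⁻¹ * (t * h) ∈ s.O' := (hQ1sub hh).1.2
    rwa [inv_mul_cancel_left] at h1
  obtain ⟨x', hx'⟩ := hd.exists_mem_open hW' ⟨t⁻¹ * i x, by
    change t * (t⁻¹ * i x) ∈ Q1
    rwa [mul_inv_cancel_left]⟩
  obtain ⟨A2, Q2, hA2, hQ2, hA2V, hQ2sub, hxQ2, hQ2A2, hA2Q⟩ := shrink s.V' W' x' s.hV'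
    hW' hx' (hW'O.trans s.hOU') (fun y hy => s.h' y (hW'O hy))
  refine ⟨⟨A1, A2, Q1, Q2, hA1, hA2, hQ1, hQ2, fun h hh => s.hOU (hQ1sub hh).1.1,
    (hQ2sub.trans hW'O).trans s.hOU', hQ1A1, hQ2A2, x', hxQ2, hx'⟩, hA1V, hA2V, ?_⟩
  intro y y' hy hy'
  have h1 : i y.1 ∈ P := (hA1Q y hy).2
  have h2 : t * i y'.1 ∈ P := (hQ1sub (hA2Q y' hy')).2
  have h3 := hPP _ h1 _ h2
  have h4 : t⁻¹ * (i y.1 * (t * i y'.1)⁻¹) * t = t⁻¹ * (i y.1 * (i y'.1)⁻¹) := by group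
  rwa [h4] at h3

/-- the group is `G_δ`-dense -/
theorem gdense [IsTopologicalGroup G] (hi : IsInducing i) (hd : DenseRange i) (U : Set G)
    (hU : IsOpen U) (hUne : U.Nonempty) (hw : WeaklyPseudocompact.{u, v} (closure U))
    (t : H) (F : ℕ → Set H) (hF : ∀ n, IsOpen (F n)) (hF1 : ∀ n, 1 ∈ F n) :
    ∃ g : G, ∀ n, t⁻¹ * i g ∈ F n := by
  obtain ⟨K, _, _, _, j, hj, _, hG⟩ := hw
  obtain ⟨Uh, hUh, hUeq⟩ := hi.isOpen_iff.1 hU
  have hUX : ∀ g : G, i g ∈ Uh → g ∈ closure U := fun g hg => subset_closure (by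
    rw [← hUeq]; exact hg)
  -- reduction to small `t`
  suffices key : ∀ t : H, (∃ h ∈ Uh, t * h ∈ Uh) → ∃ g : G, ∀ n, t⁻¹ * i g ∈ F n by
    obtain ⟨u0, hu0⟩ := hUne
    have hu0' : i u0 ∈ Uh := by
      have : u0 ∈ i ⁻¹' Uh := by rw [hUeq]; exact hu0
      exact this
    have hop : IsOpen {h : H | h * t * i u0 ∈ Uh} :=
      hUh.preimage ((continuous_id.mul continuous_const).mul continuous_const)
    obtain ⟨g, hg⟩ := hd.exists_mem_open hop ⟨t⁻¹, by
      change t⁻¹ * t * i u0 ∈ Uh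
      rwa [inv_mul_cancel, one_mul]⟩
    obtain ⟨g', hg'⟩ := key (i g * t) ⟨i u0, hu0', hg⟩
    refine ⟨g⁻¹ * g', fun n => ?_⟩
    have := hg' n
    rw [mul_inv_rev, mul_assoc] at this
    rwa [map_mul, map_inv]
  intro t ht
  let s0 : Stage i j t Uh := ⟨univ, univ, Uh, Uh, isOpen_univ, isOpen_univ, hUh, hUh,
    Subset.rfl, Subset.rfl, fun _ _ => mem_univ _, fun _ _ => mem_univ _, by
      obtain ⟨h, hh, hth⟩ := ht
      have hop : IsOpen (Uh ∩ {h | t * h ∈ Uh}) :=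
        hUh.inter (hUh.preimage (continuous_const.mul continuous_id))
      obtain ⟨g, hg⟩ := hd.exists_mem_open hop ⟨h, hh, hth⟩
      exact ⟨g, hg.1, hg.2⟩⟩
  choose nx hn1 hn2 hn3 using fun (n : ℕ) (s : Stage i j t Uh) =>
    step i j hi hd hj t Uh hUX (F n) (hF n) (hF1 n) s
  let st : ℕ → Stage i j t Uh := fun n => Nat.rec s0 (fun k s => nx k s) n
  have hst : ∀ n, st (n + 1) = nx n (st n) := fun n => rfl
  have hneV : ∀ s : Stage i j t Uh, s.V.Nonempty ∧ s.V'.Nonempty := by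
    intro s
    obtain ⟨g, hg, hg'⟩ := s.hne
    have hop : IsOpen (s.O ∩ {h | t⁻¹ * h ∈ s.O'}) :=
      s.hO.inter (s.hO'.preimage (continuous_const.mul continuous_id))
    obtain ⟨x, hx⟩ := hd.exists_mem_open hop ⟨t * i g, hg', by
      change t⁻¹ * (t * i g) ∈ s.O'
      rwa [inv_mul_cancel_left]⟩
    exact ⟨⟨_, s.h ⟨x, hUX x (s.hOU hx.1)⟩ hx.1⟩, ⟨_, s.h' ⟨g, hUX g (s.hOU' hg)⟩ hg⟩⟩
  have hmeet : ∀ V : ℕ → Set K, (∀ n, IsOpen (V n)) → (∀ n, (V n).Nonempty) →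
      (∀ n, closure (V (n + 1)) ⊆ V n) → ∃ y : closure U, ∀ n, j y ∈ V n := by
    intro V hV hVne hVs
    have h1 : (⋂ n, closure (V (n + 1))).Nonempty := by
      refine IsCompact.nonempty_iInter_of_sequence_nonempty_isCompact_isClosed
        (fun n => closure (V (n + 1))) (fun n => ?_) (fun n => ((hVne _).closure))
        isClosed_closure.isCompact (fun n => isClosed_closure)
      exact closure_mono (subset_closure.trans (hVs (n + 1)))
    obtain ⟨k, hk⟩ := h1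
    have hk' : k ∈ ⋂ n, V n := mem_iInter.2 fun n => hVs n (mem_iInter.1 hk n)
    obtain ⟨_, hz, y, rfl⟩ := hG (⋂ n, V n) (IsGδ.iInter_of_isOpen hV) ⟨k, hk'⟩
    exact ⟨y, fun n => mem_iInter.1 hz n⟩
  obtain ⟨y, hy⟩ := hmeet (fun n => (st n).V) (fun n => (st n).hV) (fun n => (hneV _).1)
    (fun n => by rw [hst]; exact hn1 n _)
  obtain ⟨y', hy'⟩ := hmeet (fun n => (st n).V') (fun n => (st n).hV') (fun n => (hneV _).2)
    (fun n => by rw [hst]; exact hn2 n _)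
  refine ⟨y.1 * y'.1⁻¹, fun n => ?_⟩
  have := hn3 n (st n) y y' (by rw [← hst]; exact hy (n + 1)) (by rw [← hst]; exact hy' (n + 1))
  rwa [map_mul, map_inv]

/-- `G_δ`-density in a locally compact group gives a pseudocompact neighbourhood -/
theorem pseudo_nhd [IsTopologicalGroup G] [LocallyCompactSpace H] (hi : IsInducing i)
    (hd : DenseRange i)
    (hg : ∀ (t : H) (F : ℕ → Set H), (∀ n, IsOpen (F n)) → (∀ n, 1 ∈ F n) →
      ∃ g : G, ∀ n, t⁻¹ * i g ∈ F n) :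
    ∃ V : Set G, IsOpen V ∧ 1 ∈ V ∧ Pseudocompact (closure V) := by
  obtain ⟨O, hO, h1O, hOc⟩ := exists_isOpen_mem_isCompact_closure (1 : H)
  refine ⟨i ⁻¹' O, hO.preimage hi.continuous, by
    change i 1 ∈ O
    rwa [map_one], ?_⟩
  set V : Set G := i ⁻¹' O with hVdef
  have hV : IsOpen V := hO.preimage hi.continuous
  intro f hf
  by_contra hcon
  push Not at hcon
  -- the open sets where `f` is large
  let S : ℕ → Set G := fun n => {g | ∃ h : g ∈ V, (n : ℝ) < |f ⟨g, subset_closure h⟩|}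
  have hS : ∀ n, IsOpen (S n) := by
    intro n
    have h1 : IsOpen {y : closure V | (n : ℝ) < |f y|} := isOpen_lt continuous_const hf.abs
    obtain ⟨W, hW, hWeq⟩ := isOpen_induced_iff.1 h1
    have : S n = W ∩ V := by
      ext g
      constructor
      · rintro ⟨hgV, hgn⟩
        refine ⟨?_, hgV⟩
        have h2 : (⟨g, subset_closure hgV⟩ : closure V) ∈ {y : closure V | (n : ℝ) < |f y|} := hgn
        rw [← hWeq] at h2
        exact h2
      · rintro ⟨hgW, hgV⟩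
        refine ⟨hgV, ?_⟩
        have h2 : (⟨g, subset_closure hgV⟩ : closure V) ∈ Subtype.val ⁻¹' W := hgW
        rw [hWeq] at h2
        exact h2
    rw [this]
    exact hW.inter hV
  have hSne : ∀ n, (S n).Nonempty := by
    intro n
    obtain ⟨y, hy⟩ := hcon n
    have h1 : IsOpen {y : closure V | (n : ℝ) < |f y|} := isOpen_lt continuous_const hf.abs
    obtain ⟨W, hW, hWeq⟩ := isOpen_induced_iff.1 h1
    have h2 : y ∈ Subtype.val ⁻¹' W := by rw [hWeq]; exact hy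
    obtain ⟨g, hgW, hgV⟩ := mem_closure_iff.1 y.2 W hW h2
    refine ⟨g, hgV, ?_⟩
    have h3 : (⟨g, subset_closure hgV⟩ : closure V) ∈ Subtype.val ⁻¹' W := hgW
    rw [hWeq] at h3
    exact h3
  choose x hx using hSne
  choose A hA hAeq using fun n => hi.isOpen_iff.1 (hS n)
  have hxA : ∀ n, i (x n) ∈ A n := fun n => by
    have : x n ∈ i ⁻¹' A n := by rw [hAeq]; exact hx n
    exact this
  obtain ⟨c, _, hc⟩ := hOc.exists_mapClusterPt (f := atTop) (u := fun n => i (x n)) (by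
    exact tendsto_principal.2 (Eventually.of_forall fun n => subset_closure (hx n).1))
  obtain ⟨z, hz⟩ := hg c (fun n => {h | i (x n) * h ∈ A n})
    (fun n => (hA n).preimage (continuous_const.mul continuous_id))
    (fun n => by
      change i (x n) * 1 ∈ A n
      rw [mul_one]; exact hxA n)
  -- `z` is a cluster point of the sets `S n`
  have hclus : ∀ Ω : Set G, IsOpen Ω → z ∈ Ω → ∀ m : ℕ, ∃ n ≥ m, (Ω ∩ S n).Nonempty := by
    intro Ω hΩ hzΩ m
    obtain ⟨Ωh, hΩh, hΩeq⟩ := hi.isOpen_iff.1 hΩ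
    have hzh : i z ∈ Ωh := by
      have : z ∈ i ⁻¹' Ωh := by rw [hΩeq]; exact hzΩ
      exact this
    have hop : IsOpen {h : H | h * (c⁻¹ * i z) ∈ Ωh} :=
      hΩh.preimage (continuous_id.mul continuous_const)
    have hmem : {h : H | h * (c⁻¹ * i z) ∈ Ωh} ∈ 𝓝 c := hop.mem_nhds (by
      change c * (c⁻¹ * i z) ∈ Ωh
      rwa [mul_inv_cancel_left])
    obtain ⟨n, hn, hnm⟩ := (frequently_atTop.1 (mapClusterPt_iff_frequently.1 hc _ hmem)) m
    refine ⟨n, hn, ?_⟩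
    obtain ⟨g, hg⟩ := hd.exists_mem_open (hΩh.inter (hA n)) ⟨_, hnm, hz n⟩
    refine ⟨g, ?_, ?_⟩
    · rw [← hΩeq]; exact hg.1
    · rw [← hAeq]; exact hg.2
  have hzV : z ∈ closure V := by
    rw [mem_closure_iff]
    intro Ω hΩ hzΩ
    obtain ⟨n, _, g, hg, hgS⟩ := hclus Ω hΩ hzΩ 0
    exact ⟨g, hg, hgS.1⟩
  let z' : closure V := ⟨z, hzV⟩
  have h1 : IsOpen {y : closure V | |f y| < |f z'| + 1} := isOpen_lt hf.abs continuous_const
  obtain ⟨W, hW, hWeq⟩ := isOpen_induced_iff.1 h1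
  have hzW : z ∈ W := by
    have : z' ∈ Subtype.val ⁻¹' W := by
      rw [hWeq]
      change |f z'| < |f z'| + 1
      linarith
    exact this
  obtain ⟨N, hN⟩ := exists_nat_gt (|f z'| + 1)
  obtain ⟨n, hn, g, hgW, hgV, hgn⟩ := hclus W hW hzW N
  have h2 : (⟨g, subset_closure hgV⟩ : closure V) ∈ Subtype.val ⁻¹' W := hgW
  rw [hWeq] at h2
  have h3 : |f ⟨g, subset_closure hgV⟩| < |f z'| + 1 := h2
  have h4 : (N : ℝ) ≤ n := by exact_mod_cast hn
  linarith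

end fusion

/-- the positive answer -/
theorem main {H : Type u} [Group H] [TopologicalSpace H] [IsTopologicalGroup H] [T2Space H]
    [LocallyCompactSpace H] (G : Subgroup H) (U : Set G) (hU : IsOpen U) (h1 : 1 ∈ U)
    (hw : WeaklyPseudocompact.{u, v} (closure U)) :
    (∀ S : Set H, IsGδ S → (S ∩ closure (G : Set H)).Nonempty → (S ∩ G).Nonempty) ∧
    ∃ V : Set G, IsOpen V ∧ 1 ∈ V ∧ Pseudocompact (closure V) := by
  let H' := G.topologicalClosure
  let i : G →* H' := Subgroup.inclusion G.le_topologicalClosure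
  have hcl : IsClosed (H' : Set H) := G.isClosed_topologicalClosure
  have hlc : LocallyCompactSpace H' := hcl.locallyCompactSpace
  have hi : IsInducing i := by
    have h2 : IsInducing (Subtype.val ∘ i) := IsInducing.subtypeVal
    exact IsInducing.of_comp (by exact Continuous.subtype_mk continuous_subtype_val _)
      continuous_subtype_val h2
  have hd : DenseRange i := by
    intro y
    rw [mem_closure_iff]
    intro W hW hy
    obtain ⟨W', hW', rfl⟩ := isOpen_induced_iff.1 hW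
    obtain ⟨g, hg, hgG⟩ := mem_closure_iff.1 (show y.1 ∈ closure (G : Set H) from y.2) W' hW' hy
    exact ⟨i ⟨g, hgG⟩, hg, ⟨g, hgG⟩, rfl⟩
  have hg := gdense i hi hd U hU ⟨1, h1⟩ hw
  refine ⟨?_, pseudo_nhd i hi hd hg⟩
  intro S hS hSne
  obtain ⟨t, htS, htc⟩ := hSne
  obtain ⟨O, hO, rfl⟩ := isGδ_iff_eq_iInter_nat.1 hS
  obtain ⟨g, hg'⟩ := hg ⟨t, htc⟩ (fun n => {h : H' | t * h.1 ∈ O n})
    (fun n => (hO n).preimage (continuous_const.mul continuous_subtype_val))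
    (fun n => by
      change t * 1 ∈ O n
      rw [mul_one]; exact mem_iInter.1 htS n)
  refine ⟨g.1, mem_iInter.2 fun n => ?_, g.2⟩
  have := hg' n
  change t * (t⁻¹ * g.1) ∈ O n at this
  rwa [mul_inv_cancel_left] at this

end Pool.Agent.X198.WPs
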