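import Mathlib

/-!
# The stable linear group over the field with two elements
-/

set_option autoImplicit false
set_option warn.classDefReducibility false

namespace Pool.Agent.X198.GLinf

open Set Filter Topology

/-- the centralizer topology: generated by the sets `{x | x b x⁻¹ = a b a⁻¹}` -/
def centralizerTopology (G : Type) [Group G] : TopologicalSpace G :=
  TopologicalSpace.generateFrom {s | ∃ a b : G, s = {x | x * b * x⁻¹ = a * b * a⁻¹}}

/-- the Markov topology: the sets which are open in all Hausdorff group topologies -/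
def markovTopology (G : Type) [Group G] : TopologicalSpace G where
  IsOpen U := ∀ t : TopologicalSpace G, @IsTopologicalGroup G t _ → @T2Space G t → IsOpen[t] U
  isOpen_univ := fun t _ _ => @isOpen_univ G t
  isOpen_inter := fun U V hU hV t h1 h2 => @IsOpen.inter G t U V (hU t h1 h2) (hV t h1 h2)
  isOpen_sUnion := fun S hS t h1 h2 => @isOpen_sUnion G t S fun U hU => hS U hU t h1 h2

/-- all double centralizers of finite sets are finite -/
def FiniteDoubleCentralizers (G : Type) [Group G] : Prop :=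
  ∀ F : Set G, F.Finite → (Subgroup.centralizer (Subgroup.centralizer F : Set G) : Set G).Finite

/-- the space of vectors -/
abbrev V : Type := ℕ →₀ ZMod 2

/-- unit vectors -/
noncomputable def e (i : ℕ) : V := Finsupp.single i 1

theorem e_same (i : ℕ) : e i i = 1 := by simp [e]
theorem e_ne {i j : ℕ} (h : j ≠ i) : e i j = 0 := by simp [e, h.symm]

/-- `g` is the identity from `n` on -/
def Lev (n : ℕ) (g : V ≃ₗ[ZMod 2] V) : Prop := ∀ i ≥ n, g (e i) = e i ∧ ∀ v, g v i = v i

theorem Lev.mono {n m : ℕ} {g : V ≃ₗ[ZMod 2] V} (h : Lev n g) (hnm : n ≤ m) : Lev m g :=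
  fun i hi => h i (hnm.trans hi)

theorem Lev.one (n : ℕ) : Lev n 1 := fun _ _ => ⟨rfl, fun _ => rfl⟩

theorem Lev.mul {n : ℕ} {g h : V ≃ₗ[ZMod 2] V} (hg : Lev n g) (hh : Lev n h) :
    Lev n (g * h) := fun i hi => ⟨by
      rw [LinearEquiv.mul_apply, (hh i hi).1, (hg i hi).1], fun v => by
      rw [LinearEquiv.mul_apply, (hg i hi).2, (hh i hi).2]⟩

theorem Lev.inv {n : ℕ} {g : V ≃ₗ[ZMod 2] V} (hg : Lev n g) : Lev n g⁻¹ := fun i hi => ⟨by
    change g.symm (e i) = e i
    rw [LinearEquiv.symm_apply_eq, (hg i hi).1], fun v => by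
    change g.symm v i = v i
    have := (hg i hi).2 (g.symm v)
    rw [LinearEquiv.apply_symm_apply] at this
    exact this.symm⟩

/-- the stable linear group -/
def Gi : Subgroup (V ≃ₗ[ZMod 2] V) where
  carrier := {g | ∃ n, Lev n g}
  one_mem' := ⟨0, Lev.one 0⟩
  mul_mem' := by
    rintro g h ⟨n, hn⟩ ⟨m, hm⟩
    exact ⟨max n m, (hn.mono (le_max_left _ _)).mul (hm.mono (le_max_right _ _))⟩
  inv_mem' := by
    rintro g ⟨n, hn⟩
    exact ⟨n, hn.inv⟩

/-- two additive maps agreeing on unit vectors -/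
theorem ext_e {g h : V ≃ₗ[ZMod 2] V} (H : ∀ i, g (e i) = h (e i)) : g = h := by
  have : (g : V →ₗ[ZMod 2] V) = h := by
    refine Finsupp.lhom_ext' fun i => ?_
    refine LinearMap.ext_ring ?_
    exact H i
  exact LinearEquiv.toLinearMap_injective this

theorem finite_lev (n : ℕ) : {g : V ≃ₗ[ZMod 2] V | Lev n g}.Finite := by
  let f : (V ≃ₗ[ZMod 2] V) → (Fin n → Fin n → ZMod 2) := fun g i k => g (e i) k
  have hinj : InjOn f {g : V ≃ₗ[ZMod 2] V | Lev n g} := by
    intro g hg h hh hgh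
    refine ext_e fun i => ?_
    rcases lt_or_ge i n with hi | hi
    · ext k
      rcases lt_or_ge k n with hk | hk
      · exact congrFun (congrFun hgh ⟨i, hi⟩) ⟨k, hk⟩
      · rw [(hg k hk).2, (hh k hk).2]
    · rw [(hg i hi).1, (hh i hi).1]
  exact Set.Finite.of_finite_image (Set.toFinite _) hinj

/-- elementary transvections -/
noncomputable def tv (i j : ℕ) (h : i ≠ j) : V ≃ₗ[ZMod 2] V :=
  LinearEquiv.ofInvolutive
    { toFun := fun v => v + v j • e i
      map_add' := fun v w => by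
        rw [Finsupp.add_apply, add_smul]; abel
      map_smul' := fun c v => by
        rw [Finsupp.smul_apply, RingHom.id_apply, smul_add, smul_eq_mul, mul_smul] }
    (fun v => by
      change (v + v j • e i) + (v + v j • e i) j • e i = v
      rw [Finsupp.add_apply, Finsupp.smul_apply, e_ne h.symm, smul_zero, add_zero, add_assoc,
        ← add_smul, CharTwo.add_self_eq_zero, zero_smul, add_zero])

theorem tv_apply (i j : ℕ) (h : i ≠ j) (v : V) : tv i j h v = v + v j • e i := rfl

theorem tv_lev {i j n : ℕ} (h : i ≠ j) (hi : i < n) (hj : j < n) : Lev n (tv i j h) := by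
  intro k hk
  refine ⟨?_, fun v => ?_⟩
  · rw [tv_apply, e_ne (by omega : j ≠ k), zero_smul, add_zero]
  · rw [tv_apply, Finsupp.add_apply, Finsupp.smul_apply, e_ne (by omega : k ≠ i), smul_zero,
      add_zero]

theorem tv_mem {i j : ℕ} (h : i ≠ j) : tv i j h ∈ Gi :=
  ⟨max i j + 1, tv_lev h (by omega) (by omega)⟩

/-- an element commuting with all transvections with indices at least `n` has level `n` -/
theorem lev_of_comm {n : ℕ} {g : V ≃ₗ[ZMod 2] V}
    (hg : ∀ i j (h : i ≠ j), n ≤ i → n ≤ j → g * tv i j h = tv i j h * g) : Lev n g := by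
  have key : ∀ i j (_ : i ≠ j), n ≤ i → n ≤ j → ∀ v : V, v j • g (e i) = (g v) j • e i := by
    intro i j h hi hj v
    have h1 := LinearEquiv.congr_fun (hg i j h hi hj) v
    rw [LinearEquiv.mul_apply, LinearEquiv.mul_apply, tv_apply, tv_apply, map_add,
      map_smul] at h1
    exact add_left_cancel h1
  have hfix : ∀ i ≥ n, g (e i) = e i := by
    intro i hi
    have h1 := key i (i + 1) (by omega) hi (by omega) (e (i + 1))
    rw [e_same, one_smul] at h1
    have h2 : (g (e (i + 1))) (i + 1) = 0 ∨ (g (e (i + 1))) (i + 1) = 1 := by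
      generalize (g (e (i + 1))) (i + 1) = c
      revert c
      decide
    rcases h2 with h2 | h2
    · rw [h2, zero_smul] at h1
      have h3 : e i = 0 := by
        apply g.injective
        rw [h1, map_zero]
      have h4 := congrArg (fun v : V => v i) h3
      simp only [e_same] at h4
      exact absurd h4 (by simp)
    · rw [h2, one_smul] at h1
      exact h1
  intro j hj
  refine ⟨hfix j hj, fun v => ?_⟩
  have h1 := key (j + 1) j (by omega) (by omega) hj v
  rw [hfix (j + 1) (by omega)] at h1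
  have h2 := congrArg (fun v : V => v (j + 1)) h1
  simp only [Finsupp.smul_apply, e_same, smul_eq_mul, mul_one] at h2
  exact h2.symm

/-- elements which are trivial on the first `n` coordinates commute with level `n` elements -/
theorem comm_of_lev {n : ℕ} {g : V ≃ₗ[ZMod 2] V} (hg : Lev n g) {i j : ℕ} (h : i ≠ j)
    (hi : n ≤ i) (hj : n ≤ j) : g * tv i j h = tv i j h * g := by
  refine LinearEquiv.ext fun v => ?_
  rw [LinearEquiv.mul_apply, LinearEquiv.mul_apply, tv_apply, tv_apply, map_add, map_smul,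
    (hg i hi).1, (hg j hj).2]

theorem finite_double : FiniteDoubleCentralizers Gi := by
  intro F hF
  have hn : ∃ n, ∀ g ∈ F, Lev n g.1 := by
    have h1 : ∀ g : Gi, ∃ n, Lev n g.1 := fun g => g.2
    choose l hl using h1
    obtain ⟨n, hn⟩ := (hF.image l).bddAbove
    exact ⟨n, fun g hg => (hl g).mono (hn ⟨g, hg, rfl⟩)⟩
  obtain ⟨n, hn⟩ := hn
  have hfin : {g : Gi | Lev n g.1}.Finite :=
    (finite_lev n).preimage Subtype.val_injective.injOn
  refine hfin.subset fun g hg => ?_
  refine lev_of_comm fun i j h hi hj => ?_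
  have h1 : (⟨tv i j h, tv_mem h⟩ : Gi) ∈ Subgroup.centralizer F := by
    rw [Subgroup.mem_centralizer_iff]
    intro f hf
    exact Subtype.ext (comm_of_lev (hn f hf) h hi hj)
  have h2 := Subgroup.mem_centralizer_iff.1 hg _ h1
  exact (congrArg Subtype.val h2).symm

theorem center_trivial : Subgroup.center Gi = ⊥ := by
  rw [eq_bot_iff]
  intro g hg
  rw [Subgroup.mem_center_iff] at hg
  have h1 : Lev 0 g.1 := lev_of_comm fun i j h _ _ =>
    (congrArg Subtype.val (hg ⟨tv i j h, tv_mem h⟩)).symm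
  rw [Subgroup.mem_bot]
  refine Subtype.ext (ext_e fun i => ?_)
  exact (h1 i (Nat.zero_le i)).1

theorem countable_Gi : Countable Gi := by
  have h1 : (Gi : Set (V ≃ₗ[ZMod 2] V)) = ⋃ n, {g | Lev n g} := by
    ext g
    rw [mem_iUnion]
    rfl
  have h2 : (Gi : Set (V ≃ₗ[ZMod 2] V)).Countable := by
    rw [h1]
    exact countable_iUnion fun n => (finite_lev n).countable
  exact h2.to_subtype

/-- the topology of pointwise convergence on vectors -/
def ptw : TopologicalSpace Gi where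
  IsOpen U := ∀ g ∈ U, ∃ S : Finset V, ∀ h : Gi, (∀ v ∈ S, h.1 v = g.1 v) → h ∈ U
  isOpen_univ := fun _ _ => ⟨∅, fun _ _ => mem_univ _⟩
  isOpen_inter := by
    classical
    rintro U W hU hW g ⟨h1, h2⟩
    obtain ⟨S, hS⟩ := hU g h1
    obtain ⟨T, hT⟩ := hW g h2
    exact ⟨S ∪ T, fun h hh => ⟨hS h fun v hv => hh v (Finset.mem_union_left _ hv),
      hT h fun v hv => hh v (Finset.mem_union_right _ hv)⟩⟩
  isOpen_sUnion := by
    rintro A hA g ⟨U, hU, hg⟩
    obtain ⟨S, hS⟩ := hA U hU g hg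
    exact ⟨S, fun h hh => ⟨U, hU, hS h hh⟩⟩

theorem ptw_isOpen {U : Set Gi} : IsOpen[ptw] U ↔
    ∀ g ∈ U, ∃ S : Finset V, ∀ h : Gi, (∀ v ∈ S, h.1 v = g.1 v) → h ∈ U := Iff.rfl

theorem ptw_basic (g : Gi) (S : Finset V) : IsOpen[ptw] {h : Gi | ∀ v ∈ S, h.1 v = g.1 v} :=
  fun _ hh => ⟨S, fun _ hk v hv => (hk v hv).trans (hh v hv)⟩

theorem ptw_group : @IsTopologicalGroup Gi ptw _ := by
  classical
  let _ := ptw
  have hm : ContinuousMul Gi := by
    refine ⟨continuous_def.2 fun U hU => isOpen_prod_iff.2 fun g h hgh => ?_⟩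
    obtain ⟨S, hS⟩ := ptw_isOpen.1 hU (g * h) hgh
    refine ⟨{k : Gi | ∀ v ∈ S.image h.1, k.1 v = g.1 v}, {k : Gi | ∀ v ∈ S, k.1 v = h.1 v},
      ptw_basic g _, ptw_basic h S, fun _ _ => rfl, fun _ _ => rfl, ?_⟩
    rintro ⟨k, l⟩ ⟨hk, hl⟩
    refine hS (k * l) fun v hv => ?_
    change k.1 (l.1 v) = g.1 (h.1 v)
    rw [hl v hv]
    exact hk _ (Finset.mem_image_of_mem _ hv)
  have hi : ContinuousInv Gi := by
    refine ⟨continuous_def.2 fun U hU => ptw_isOpen.2 fun g hg => ?_⟩
    obtain ⟨S, hS⟩ := ptw_isOpen.1 hU g⁻¹ hg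
    refine ⟨S.image (g⁻¹).1, fun k hk => hS k⁻¹ fun v hv => ?_⟩
    have h1 := hk _ (Finset.mem_image_of_mem _ hv)
    have h2 : g.1 ((g⁻¹).1 v) = v := LinearEquiv.apply_symm_apply g.1 v
    rw [h2] at h1
    change k.1.symm v = (g⁻¹).1 v
    rw [LinearEquiv.symm_apply_eq]
    exact h1.symm
  exact { continuous_mul := hm.continuous_mul, continuous_inv := hi.continuous_inv }

theorem ptw_t2 : @T2Space Gi ptw := by
  let _ := ptw
  refine ⟨fun g h hgh => ?_⟩
  obtain ⟨v, hv⟩ : ∃ v, g.1 v ≠ h.1 v := by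
    by_contra hcon
    push Not at hcon
    exact hgh (Subtype.ext (LinearEquiv.ext hcon))
  refine ⟨_, _, ptw_basic g {v}, ptw_basic h {v}, fun _ _ => rfl, fun _ _ => rfl, ?_⟩
  rw [Set.disjoint_left]
  intro k hk1 hk2
  exact hv ((hk1 v (Finset.mem_singleton_self v)).symm.trans (hk2 v (Finset.mem_singleton_self v)))

theorem ne : markovTopology Gi ≠ centralizerTopology Gi := by
  intro heq
  let b : Gi := ⟨tv 1 0 (by omega), tv_mem _⟩
  have h1 : IsOpen[centralizerTopology Gi] {x : Gi | x * b * x⁻¹ = 1 * b * 1⁻¹} :=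
    TopologicalSpace.isOpen_generateFrom_of_mem ⟨1, b, rfl⟩
  rw [← heq] at h1
  have h2 : IsOpen[ptw] {x : Gi | x * b * x⁻¹ = 1 * b * 1⁻¹} := h1 ptw ptw_group ptw_t2
  obtain ⟨S, hS⟩ := ptw_isOpen.1 h2 1 rfl
  obtain ⟨m, hm⟩ : ∃ m, 2 ≤ m ∧ ∀ v ∈ S, v m = 0 := by
    classical
    obtain ⟨m, hm⟩ := (S.biUnion fun v => v.support).bddAbove
    refine ⟨m + 2, by omega, fun v hv => ?_⟩
    by_contra hne
    have h3 : m + 2 ∈ S.biUnion fun v => v.support :=
      Finset.mem_biUnion.2 ⟨v, hv, Finsupp.mem_support_iff.2 hne⟩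
    have := hm h3
    omega
  have h0m : 0 ≠ m := by omega
  let x : Gi := ⟨tv 0 m h0m, tv_mem _⟩
  have hx := hS x fun v hv => by
    change tv 0 m h0m v = v
    rw [tv_apply, hm.2 v hv, zero_smul, add_zero]
  have h3 : x * b = b * x := by
    have h4 : x * b * x⁻¹ = 1 * b * 1⁻¹ := hx
    rw [one_mul, inv_one, mul_one] at h4
    calc x * b = x * b * x⁻¹ * x := by group
      _ = b * x := by rw [h4]
  have h4 := LinearEquiv.congr_fun (congrArg Subtype.val h3) (e m)
  change tv 0 m h0m (tv 1 0 (by omega) (e m)) = tv 1 0 (by omega) (tv 0 m h0m (e m)) at h4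
  rw [tv_apply 1 0, e_ne h0m, zero_smul, add_zero, tv_apply 0 m, e_same, one_smul, tv_apply 1 0,
    Finsupp.add_apply, e_ne h0m, e_same, zero_add, one_smul] at h4
  have h5 := congrArg (fun v : V => v 1) h4
  simp only [Finsupp.add_apply, e_same] at h5
  rw [e_ne (by omega : 1 ≠ m), e_ne (by omega : 1 ≠ 0)] at h5
  exact absurd h5 (by decide)

end Pool.Agent.X198.GLinf
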