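import Mathlib

/-!
# Gromov-Hausdorff distance of arbitrary metric spaces
-/

set_option autoImplicit false
set_option linter.style.haveILetI false

namespace Pool.Agent.X198.GH

open Set Metric

/-- The Gromov-Hausdorff distance of two metric spaces: the infimum, over all metric spaces `Z` and
all isometric embeddings of the two spaces in `Z`, of the Hausdorff distances of the images. -/
noncomputable def ghE (X Y : Type) [MetricSpace X] [MetricSpace Y] : ENNReal :=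
  ⨅ (Z : Type) (_ : MetricSpace Z) (f : X → Z) (g : Y → Z) (_ : Isometry f) (_ : Isometry g),
    hausdorffEDist (range f) (range g)

theorem ghE_le {X Y W : Type} [MetricSpace X] [MetricSpace Y] [Nonempty W] (Φ : W → X) (Ψ : W → Y)
    (hΦ : Function.Surjective Φ) (hΨ : Function.Surjective Ψ) {ε : ℝ} (hε : 0 < ε)
    (H : ∀ p q, |dist (Φ p) (Φ q) - dist (Ψ p) (Ψ q)| ≤ 2 * ε) : ghE X Y ≤ ENNReal.ofReal ε := by
  letI : MetricSpace (X ⊕ Y) := glueMetricApprox Φ Ψ ε hε H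
  have h1 : Isometry (Sum.inl : X → X ⊕ Y) := Isometry.of_dist_eq fun _ _ => rfl
  have h2 : Isometry (Sum.inr : Y → X ⊕ Y) := Isometry.of_dist_eq fun _ _ => rfl
  have hd : ∀ p, dist (Sum.inl (Φ p) : X ⊕ Y) (Sum.inr (Ψ p)) = ε := fun p =>
    glueDist_glued_points Φ Ψ ε p
  refine iInf_le_of_le (X ⊕ Y) (iInf_le_of_le inferInstance (iInf_le_of_le Sum.inl
    (iInf_le_of_le Sum.inr (iInf_le_of_le h1 (iInf_le_of_le h2 ?_)))))
  refine hausdorffEDist_le_of_mem_edist ?_ ?_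
  · rintro _ ⟨x, rfl⟩
    obtain ⟨p, rfl⟩ := hΦ x
    refine ⟨Sum.inr (Ψ p), ⟨_, rfl⟩, ?_⟩
    rw [edist_dist, hd]
  · rintro _ ⟨y, rfl⟩
    obtain ⟨p, rfl⟩ := hΨ y
    refine ⟨Sum.inl (Φ p), ⟨_, rfl⟩, ?_⟩
    rw [edist_dist, dist_comm, hd]

end Pool.Agent.X198.GH
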