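import Mathlib
import Pool.Agent.Helper761.Omega1

/-!
# The well-ordered type of countable ordinals, stationary sets, Ulam's partition
-/

set_option autoImplicit false
set_option linter.style.haveILetI false

namespace Pool.Agent.X198.Om

open Set Pool.Agent.Helper761.Om Cardinal

/-- The well-ordered set of countable ordinals. -/
abbrev Om1 : Type := (Cardinal.aleph 1).ord.ToType

theorem om1_countable (a : Om1) : (Iio a).Countable := by
  have h := Cardinal.mk_Iio_toType_ord_lt (c := Cardinal.aleph 1) a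
  have h2 : Cardinal.mk (Iio a) ≤ Cardinal.aleph0 := by
    have h3 : Cardinal.aleph 1 = Order.succ Cardinal.aleph0 := by
      rw [← Cardinal.succ_aleph0]
    exact Order.lt_succ_iff.1 (lt_of_lt_of_eq h h3)
  exact Cardinal.le_aleph0_iff_set_countable.1 h2

theorem mk_om1 : Cardinal.mk Om1 = Cardinal.aleph 1 := by simp

theorem om1_bounded (A : Set Om1) (hA : A.Countable) : ∃ b, ∀ a ∈ A, a < b := by
  by_contra hcon
  push Not at hcon
  have h2 : (univ : Set Om1) = ⋃ a ∈ A, insert a (Iio a) := by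
    apply Subset.antisymm _ (subset_univ _)
    intro b _
    obtain ⟨a, ha, hba⟩ := hcon b
    rw [mem_iUnion₂]
    refine ⟨a, ha, ?_⟩
    rcases eq_or_lt_of_le hba with h | h
    · exact Or.inl h
    · exact Or.inr h
  have h3 : (univ : Set Om1).Countable := by
    rw [h2]
    exact hA.biUnion (fun a _ => (om1_countable a).insert a)
  have h5 : Cardinal.mk Om1 ≤ Cardinal.aleph0 := by
    have := Cardinal.le_aleph0_iff_set_countable.2 h3
    rwa [Cardinal.mk_univ] at this
  rw [mk_om1] at h5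
  exact absurd h5 (not_le.2 Cardinal.aleph0_lt_aleph_one)

instance : Nonempty Om1 := ⟨(om1_bounded ∅ countable_empty).choose⟩

/-- A set is stationary if it meets every set of limit closure points of a function. -/
def Stat (S : Set Om1) : Prop := ∀ F : Om1 → Om1, ∃ δ ∈ S, Lim δ ∧ ∀ ξ < δ, F ξ < δ

/-- closure points exist -/
theorem exists_closed (F : Om1 → Om1) (a : Om1) : ∃ δ, a < δ ∧ Lim δ ∧ ∀ ξ < δ, F ξ < δ := by
  have h1 : ∀ β : Om1, ∃ b, β < b ∧ ∀ ξ ≤ β, F ξ < b := by
    intro β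
    obtain ⟨b, hb⟩ := om1_bounded (insert β (F '' insert β (Iio β)))
      ((((om1_countable β).insert β).image F).insert β)
    refine ⟨b, hb β (mem_insert _ _), fun ξ hξ => hb _ (mem_insert_of_mem _ ⟨ξ, ?_, rfl⟩)⟩
    rcases eq_or_lt_of_le hξ with h | h
    · exact Or.inl h
    · exact Or.inr h
  choose g hg1 hg2 using h1
  let s : ℕ → Om1 := fun n => g^[n] a
  have hs : ∀ n, s (n + 1) = g (s n) := fun n => Function.iterate_succ_apply' g n _
  obtain ⟨δ, hL, hlt, hcof⟩ := exists_lub om1_bounded s (fun n => by rw [hs]; exact hg1 _)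
  refine ⟨δ, hlt 0, hL, fun ξ hξ => ?_⟩
  obtain ⟨n, hn⟩ := hcof ξ hξ
  calc F ξ < g (s n) := hg2 _ _ hn
    _ = s (n + 1) := (hs n).symm
    _ < δ := hlt _

/-- The nonstationary ideal is σ-complete. -/
theorem stat_of_union {S : ℕ → Set Om1} (h : Stat (⋃ n, S n)) : ∃ n, Stat (S n) := by
  by_contra! hcon
  unfold Stat at hcon
  push Not at hcon
  choose F hF using hcon
  have h1 : ∀ ξ, ∃ b, ∀ n, F n ξ < b := by
    intro ξ
    obtain ⟨b, hb⟩ := om1_bounded (range fun n => F n ξ) (countable_range _)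
    exact ⟨b, fun n => hb _ ⟨n, rfl⟩⟩
  choose G hG using h1
  obtain ⟨δ, hδS, hL, hδ⟩ := h G
  obtain ⟨n, hn⟩ := mem_iUnion.1 hδS
  obtain ⟨ξ, hξ, hle⟩ := hF n δ hn hL
  exact absurd ((hG ξ n).trans (hδ ξ hξ)) (not_lt.2 hle)

theorem stat_mono {S T : Set Om1} (h : Stat S) (hST : S ⊆ T) : Stat T := fun F => by
  obtain ⟨δ, h1, h2⟩ := h F
  exact ⟨δ, hST h1, h2⟩

theorem stat_Ioi (a : Om1) : Stat (Ioi a) := fun F => by
  obtain ⟨δ, h1, h2⟩ := exists_closed F a
  exact ⟨δ, h1, h2⟩

theorem not_countable_univ : ¬ (univ : Set Om1).Countable := by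
  intro h
  obtain ⟨b, hb⟩ := om1_bounded univ h
  exact lt_irrefl b (hb b (mem_univ b))

/-- Ulam: there is a labelling of the countable ordinals by countable ordinals all of whose
classes are stationary. -/
theorem exists_labels : ∃ l : Om1 → Om1, ∀ y, Stat {δ | l δ = y} := by
  classical
  have h1 : ∀ β : Om1, ∃ e : Om1 → ℕ, InjOn e (Iio β) := by
    intro β
    have := (om1_countable β).to_subtype
    obtain ⟨f, hf⟩ := exists_injective_nat (Iio β)
    refine ⟨fun a => if h : a ∈ Iio β then f ⟨a, h⟩ else 0, ?_⟩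
    intro a ha b hb hab
    simp only [dif_pos ha, dif_pos hb] at hab
    exact congrArg Subtype.val (hf hab)
  choose e he using h1
  have h2 : ∀ a : Om1, ∃ n : ℕ, Stat {β | a < β ∧ e β a = n} := by
    intro a
    refine stat_of_union (S := fun n => {β | a < β ∧ e β a = n}) (stat_mono (stat_Ioi a) ?_)
    intro β hβ
    exact mem_iUnion.2 ⟨e β a, hβ, rfl⟩
  choose n hn using h2
  have h3 : ∃ m : ℕ, ¬ {a | n a = m}.Countable := by
    by_contra! hcon
    apply not_countable_univ
    refine (countable_iUnion hcon).mono fun a _ => mem_iUnion.2 ⟨n a, rfl⟩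
  obtain ⟨m, hm⟩ := h3
  have h4 : #Om1 ≤ #{a | n a = m} := by
    rw [mk_om1, ← Cardinal.succ_aleph0, Order.succ_le_iff]
    by_contra hcon
    exact hm (Cardinal.le_aleph0_iff_set_countable.1 (not_lt.1 hcon))
  obtain ⟨j⟩ := (Cardinal.le_def _ _).1 h4
  have hdis : ∀ (β : Om1) (y z : Om1), ((j y).1 < β ∧ e β (j y).1 = m) →
      ((j z).1 < β ∧ e β (j z).1 = m) → y = z := by
    intro β y z hy hz
    exact j.injective (Subtype.ext (he β hy.1 hz.1 (hy.2.trans hz.2.symm)))
  refine ⟨fun β => if h : ∃ y, (j y).1 < β ∧ e β (j y).1 = m then h.choose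
    else Classical.arbitrary _, fun y => ?_⟩
  have h5 : Stat {β | (j y).1 < β ∧ e β (j y).1 = m} := by
    have := hn (j y).1
    rwa [show n (j y).1 = m from (j y).2] at this
  refine stat_mono h5 fun β hβ => ?_
  have h6 : ∃ y, (j y).1 < β ∧ e β (j y).1 = m := ⟨y, hβ⟩
  change (if h : ∃ y, (j y).1 < β ∧ e β (j y).1 = m then h.choose else _) = y
  rw [dif_pos h6]
  exact hdis β _ _ h6.choose_spec hβ

end Pool.Agent.X198.Om
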