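import Mathlib

/-!
An omega-bounded Boolean topological group in which player `O` wins the selectively
sequentially pseudocompact game.
-/

namespace X198.SspO

open Filter Topology Set

/-- Player `P` wins the play with moves `x`: some subsequence converges. -/
def PWins {X : Type*} [TopologicalSpace X] (x : ℕ → X) : Prop :=
  ∃ φ : ℕ → ℕ, StrictMono φ ∧ ∃ y : X, Tendsto (fun n => x (φ n)) atTop (𝓝 y)

/-- `s` is a stationary strategy of `P`: it picks a point in every non-empty open set. -/
def IsStationary {X : Type*} [TopologicalSpace X] (s : Set X → X) : Prop :=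
  ∀ U : Set X, IsOpen U → U.Nonempty → s U ∈ U

/-- `P` has a stationary winning strategy in `Ssp(X)`. -/
def PHasStationaryWinning (X : Type*) [TopologicalSpace X] : Prop :=
  ∃ s : Set X → X, IsStationary s ∧
    ∀ U : ℕ → Set X, (∀ n, IsOpen (U n) ∧ (U n).Nonempty) → PWins (fun n => s (U n))

/-- `O` has a winning strategy in `Ssp(X)`: a rule `t` that, from the list of the points played
by `P` so far, produces a non-empty open set, such that `P` loses every play in which `O`
follows `t`. -/
def OHasWinning (X : Type*) [TopologicalSpace X] : Prop :=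
  ∃ t : List X → Set X, (∀ l, IsOpen (t l) ∧ (t l).Nonempty) ∧
    ∀ x : ℕ → X, (∀ n, x n ∈ t (List.ofFn (fun i : Fin n => x i))) → ¬ PWins x

/-- `P` has a winning strategy in `Ssp(X)` with full memory: `σ` gives the answer to the list
`U_0, …, U_n` of the moves of `O` so far. -/
def PHasWinning (X : Type*) [TopologicalSpace X] : Prop :=
  ∃ σ : List (Set X) → X, (∀ (l : List (Set X)) (U : Set X), IsOpen U → U.Nonempty →
      σ (l ++ [U]) ∈ U) ∧
    ∀ U : ℕ → Set X, (∀ n, IsOpen (U n) ∧ (U n).Nonempty) →
      PWins (fun n => σ (List.ofFn (fun i : Fin (n + 1) => U i)))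

theorem not_P_of_O {X : Type*} [TopologicalSpace X] (h : OHasWinning X) :
    ¬ PHasWinning X := by
  obtain ⟨t, ht, hw⟩ := h
  rintro ⟨σ, hσ, hσw⟩
  let M : ℕ → List (Set X) × List X := fun n =>
    Nat.rec ([], []) (fun _ p => (p.1 ++ [t p.2], p.2 ++ [σ (p.1 ++ [t p.2])])) n
  have hM : ∀ n, M (n + 1) =
      ((M n).1 ++ [t (M n).2], (M n).2 ++ [σ ((M n).1 ++ [t (M n).2])]) := fun n => rfl
  let U : ℕ → Set X := fun n => t (M n).2
  let x : ℕ → X := fun n => σ ((M n).1 ++ [U n])
  have h1 : ∀ n, (M n).1 = List.ofFn (fun i : Fin n => U i) := by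
    intro n
    induction n with
    | zero => simp [M]
    | succ n ih =>
      rw [List.ofFn_succ', List.concat_eq_append]
      exact congrArg (· ++ [U n]) ih
  have h2 : ∀ n, (M n).2 = List.ofFn (fun i : Fin n => x i) := by
    intro n
    induction n with
    | zero => simp [M]
    | succ n ih =>
      rw [List.ofFn_succ', List.concat_eq_append]
      exact congrArg (· ++ [x n]) ih
  have h3 : ∀ n, x n = σ (List.ofFn (fun i : Fin (n + 1) => U i)) := by
    intro n
    rw [← h1 (n + 1)]
  refine hw x (fun n => ?_) ?_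
  · rw [← h2 n]
    exact hσ _ _ (ht _).1 (ht _).2
  · have := hσw U (fun n => ht _)
    simpa only [← h3] using this

theorem not_stationary_of_O {X : Type*} [TopologicalSpace X] (h : OHasWinning X) :
    ¬ PHasStationaryWinning X := by
  obtain ⟨t, ht, hw⟩ := h
  rintro ⟨s, hs, hsw⟩
  let L : ℕ → List X := fun n => Nat.rec [] (fun _ l => l ++ [s (t l)]) n
  have hL : ∀ n, L n = List.ofFn (fun i : Fin n => s (t (L i))) := by
    intro n
    induction n with
    | zero => simp [L]
    | succ n ih =>
      have h1 : L (n + 1) = L n ++ [s (t (L n))] := rfl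
      rw [h1, List.ofFn_succ', List.concat_eq_append]
      congr 1
  refine hw (fun n => s (t (L n))) (fun n => ?_) (hsw (fun n => t (L n)) (fun n => ht _))
  have := hs (t (L n)) (ht _).1 (ht _).2
  rw [← hL n]
  exact this

section

variable (I : Type*)

/-- The group of homomorphisms `(ZMod 2)^I → ZMod 2` that only depend on countably many
coordinates. -/
def G : AddSubgroup ((I → ZMod 2) → ZMod 2) where
  carrier := {x | (∀ a b, x (a + b) = x a + x b) ∧
    ∃ S : Set I, S.Countable ∧ ∀ a, (∀ i ∈ S, a i = 0) → x a = 0}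
  zero_mem' := ⟨by simp, ∅, countable_empty, by simp⟩
  add_mem' := by
    rintro x y ⟨hx, S, hS, hxS⟩ ⟨hy, T, hT, hyT⟩
    refine ⟨fun a b => ?_, S ∪ T, hS.union hT, fun a ha => ?_⟩
    · simp only [Pi.add_apply, hx, hy]; ring
    · simp only [Pi.add_apply]
      rw [hxS a (fun i hi => ha i (Or.inl hi)), hyT a (fun i hi => ha i (Or.inr hi)), add_zero]
  neg_mem' := by
    rintro x ⟨hx, S, hS, hxS⟩
    refine ⟨fun a b => ?_, S, hS, fun a ha => ?_⟩
    · simp only [Pi.neg_apply, hx]; ring
    · simp only [Pi.neg_apply, hxS a ha, neg_zero]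

/-- Homomorphisms depending only on the coordinates in `S`. -/
def K (S : Set I) : Set ((I → ZMod 2) → ZMod 2) :=
  {x | (∀ a b, x (a + b) = x a + x b) ∧ ∀ a, (∀ i ∈ S, a i = 0) → x a = 0}

theorem isClosed_K (S : Set I) : IsClosed (K I S) := by
  have h1 : IsClosed {x : (I → ZMod 2) → ZMod 2 | ∀ a b, x (a + b) = x a + x b} := by
    simp only [ofPred_forall]
    refine isClosed_iInter fun a => isClosed_iInter fun b => ?_
    have hc : Continuous fun x : (I → ZMod 2) → ZMod 2 => x a + x b :=
      Continuous.add (f := fun x : (I → ZMod 2) → ZMod 2 => x a) (g := fun x => x b)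
        (continuous_apply a) (continuous_apply b)
    exact isClosed_eq (continuous_apply _) hc
  have h2 : IsClosed {x : (I → ZMod 2) → ZMod 2 | ∀ a, (∀ i ∈ S, a i = 0) → x a = 0} := by
    simp only [ofPred_forall]
    refine isClosed_iInter fun a => isClosed_iInter fun _ => ?_
    exact isClosed_eq (continuous_apply _) continuous_const
  exact h1.inter h2

theorem omegaBounded (H : Set (G I)) (hH : H.Countable) : IsCompact (closure H) := by
  classical
  have hsupp : ∀ x : G I, ∃ S : Set I, S.Countable ∧ ∀ a, (∀ i ∈ S, a i = 0) → x.1 a = 0 :=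
    fun x => x.2.2
  choose S hS hxS using hsupp
  let T : Set I := ⋃ x ∈ H, S x
  have hT : T.Countable := hH.biUnion (fun x _ => hS x)
  let C : Set (G I) := Subtype.val ⁻¹' (K I T)
  have hCcl : IsClosed C := (isClosed_K I T).preimage continuous_subtype_val
  have hCc : IsCompact C := by
    rw [Subtype.isCompact_iff]
    have : Subtype.val '' C = K I T := by
      apply Set.Subset.antisymm
      · rintro _ ⟨x, hx, rfl⟩; exact hx
      · intro x hx
        exact ⟨⟨x, hx.1, T, hT, hx.2⟩, hx, rfl⟩
    rw [this]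
    exact (isClosed_K I T).isCompact
  have hsub : H ⊆ C := by
    intro x hx
    refine ⟨x.2.1, fun a ha => hxS x a (fun i hi => ha i ?_)⟩
    exact mem_biUnion hx hi
  exact hCc.of_isClosed_subset isClosed_closure (closure_minimal hsub hCcl)

variable {I}

theorem map_zero' (x : G I) : x.1 0 = 0 := by
  have := x.2.1 0 0
  simpa using this

theorem map_sub' (x : G I) (a b : I → ZMod 2) : x.1 (a - b) = x.1 a - x.1 b := by
  have := x.2.1 (a - b) b
  rw [sub_add_cancel] at this
  rw [this]; ring

theorem map_smul' (x : G I) (c : ZMod 2) (a : I → ZMod 2) : x.1 (c • a) = c * x.1 a := by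
  have hc : c = 0 ∨ c = 1 := by revert c; decide
  rcases hc with rfl | rfl
  · simp [map_zero' x]
  · simp

/-- the support chosen for `x` -/
noncomputable def supp (x : G I) : Set I := x.2.2.choose

theorem supp_countable (x : G I) : (supp x).Countable := x.2.2.choose_spec.1

theorem supp_spec (x : G I) (a : I → ZMod 2) (h : ∀ i ∈ supp x, a i = 0) : x.1 a = 0 :=
  x.2.2.choose_spec.2 a h

theorem supp_congr (x : G I) (a b : I → ZMod 2) (h : ∀ i ∈ supp x, a i = b i) :
    x.1 a = x.1 b := by
  have h1 : x.1 (a - b) = 0 := supp_spec x _ (fun i hi => by simp [h i hi])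
  rw [map_sub'] at h1
  exact sub_eq_zero.1 h1

open Classical in
/-- indicator of the complement of `S` -/
noncomputable def ind (S : Set I) : I → ZMod 2 := fun i => if i ∈ S then 0 else 1

/-- the set of supports of a list of points -/
def sup (l : List (G I)) : Set I := ⋃ x ∈ {x | x ∈ l}, supp x

theorem sup_countable (l : List (G I)) : (sup l).Countable :=
  (l.finite_toSet.countable).biUnion (fun x _ => supp_countable x)

/-- the strategy of `O` -/
noncomputable def strat (l : List (G I)) : Set (G I) := {x | x.1 (ind (sup l)) = 1}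

theorem strat_open (l : List (G I)) : IsOpen (strat l) := by
  have : strat l = (fun x : G I => x.1 (ind (sup l))) ⁻¹' {1} := rfl
  rw [this]
  exact (isOpen_discrete _).preimage ((continuous_apply _).comp continuous_subtype_val)

theorem strat_nonempty [Uncountable I] (l : List (G I)) : (strat l).Nonempty := by
  have h : ∃ i, i ∉ sup l := by
    by_contra hcon
    push Not at hcon
    have : (univ : Set I).Countable := (sup_countable l).mono (fun i _ => hcon i)
    exact not_countable (α := I) (countable_univ_iff.1 this)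
  obtain ⟨i, hi⟩ := h
  refine ⟨⟨fun a => a i, fun a b => rfl, {i}, countable_singleton i, fun a ha => ha i rfl⟩, ?_⟩
  simp [strat, ind, hi]

theorem O_wins [Uncountable I] : OHasWinning (G I) := by
  classical
  refine ⟨strat, fun l => ⟨strat_open l, strat_nonempty l⟩, ?_⟩
  intro x hx
  rintro ⟨φ, hφ, y, hy⟩
  let S : ℕ → Set I := fun n => ⋃ i ∈ {i | i < n}, supp (x i)
  have hSmem : ∀ n i, i ∈ S n ↔ ∃ m, m < n ∧ i ∈ supp (x m) := by
    intro n i; simp [S]
  have hS : ∀ n, sup (List.ofFn (fun i : Fin n => x i)) = S n := by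
    intro n
    ext i
    rw [hSmem]
    simp only [sup, mem_iUnion, mem_ofPred_eq, List.mem_ofFn, exists_prop]
    constructor
    · rintro ⟨z, ⟨m, rfl⟩, hz⟩
      exact ⟨m, m.2, hz⟩
    · rintro ⟨m, hm, hz⟩
      exact ⟨x m, ⟨⟨m, hm⟩, rfl⟩, hz⟩
  have hSmono : ∀ m n, m ≤ n → S m ⊆ S n := by
    intro m n hmn i hi
    rw [hSmem] at hi ⊢
    obtain ⟨k, hk, hki⟩ := hi
    exact ⟨k, by omega, hki⟩
  have hsuppS : ∀ n, supp (x n) ⊆ S (n + 1) := by
    intro n i hi
    rw [hSmem]; exact ⟨n, by omega, hi⟩
  have hx1 : ∀ n, (x n).1 (ind (S n)) = 1 := by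
    intro n
    have := hx n
    simp only [strat, mem_ofPred_eq] at this
    rwa [hS n] at this
  -- the layers
  let v : ℕ → (I → ZMod 2) := fun n i => if i ∈ S (n + 1) ∧ i ∉ S n then 1 else 0
  have hv : ∀ n, (x n).1 (v n) = 1 := by
    intro n
    rw [← hx1 n]
    apply supp_congr
    intro i hi
    have h1 := hsuppS n hi
    simp only [v, ind]
    by_cases h2 : i ∈ S n <;> simp [h1, h2]
  -- target values
  have hd : ∃ d : ℕ → ZMod 2, ∀ k, d (φ k) = (k : ZMod 2) := by
    refine ⟨fun n => if h : ∃ k, φ k = n then (h.choose : ZMod 2) else 0, fun k => ?_⟩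
    have h : ∃ k', φ k' = φ k := ⟨k, rfl⟩
    simp only [h, dif_pos]
    rw [hφ.injective h.choose_spec]
  obtain ⟨d, hd⟩ := hd
  let b : ℕ → (I → ZMod 2) := fun n =>
    Nat.rec 0 (fun n u => u + (d n - (x n).1 u) • v n) n
  have hb : ∀ n, b (n + 1) = b n + (d n - (x n).1 (b n)) • v n := fun n => rfl
  have hxb : ∀ n, (x n).1 (b (n + 1)) = d n := by
    intro n
    rw [hb, (x n).2.1, map_smul', hv n]; ring
  have hstab : ∀ n i, i ∈ S n → ∀ m, n ≤ m → b m i = b n i := by
    intro n i hi m hm
    induction m, hm using Nat.le_induction with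
    | base => rfl
    | succ m hm ih =>
      rw [hb, Pi.add_apply, Pi.smul_apply, ih]
      have : v m i = 0 := by
        have h3 : i ∈ S m := hSmono n m hm hi
        simp [v, h3]
      rw [this]; simp
  let a : I → ZMod 2 := fun i => if h : ∃ n, i ∈ S (n + 1) then b (Nat.find h + 1) i else 0
  have ha : ∀ n i, i ∈ S (n + 1) → a i = b (n + 1) i := by
    intro n i hi
    have h : ∃ n, i ∈ S (n + 1) := ⟨n, hi⟩
    have h1 : a i = b (Nat.find h + 1) i := by simp only [a, h, dif_pos]
    rw [h1]
    have h2 := Nat.find_min' h hi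
    exact (hstab _ i (Nat.find_spec h) (n + 1) (by omega)).symm
  have hxa : ∀ n, (x n).1 a = d n := by
    intro n
    rw [← hxb n]
    exact supp_congr _ _ _ (fun i hi => ha n i (hsuppS n hi))
  have hlim : Tendsto (fun k => (x (φ k)).1 a) atTop (𝓝 (y.1 a)) :=
    (((continuous_apply a).comp continuous_subtype_val).tendsto y).comp hy
  have hlim2 : Tendsto (fun k : ℕ => (k : ZMod 2)) atTop (𝓝 (y.1 a)) := by
    refine hlim.congr (fun k => ?_)
    rw [hxa, hd]
  rw [nhds_discrete, tendsto_pure] at hlim2
  obtain ⟨N, hN⟩ := eventually_atTop.1 hlim2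
  have e1 := hN N le_rfl
  have e2 := hN (N + 1) (by omega)
  push_cast at e2
  rw [← e1] at e2
  have : (1 : ZMod 2) = 0 := by simpa using e2
  exact one_ne_zero this

end

end X198.SspO
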