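import Mathlib
import Pool.Agent.Helper761.Omega1

/-!
# A subgroup of the product of `ω₁` infinite cyclic groups without suitable set
-/

set_option autoImplicit false

set_option linter.unusedSectionVars false

namespace Pool.Agent.X198.SuitB

open Set Pool.Agent.Helper761.Om

/-- closures of countable sets are countable -/
theorem countable_closure {G : Type*} [Group G] {S : Set G} (hS : S.Countable) :
    ((Subgroup.closure S : Subgroup G) : Set G).Countable := by
  have : Countable S := hS.to_subtype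
  have : Countable (FreeGroup S) := by
    unfold FreeGroup
    infer_instance
  have h : (Subgroup.closure S : Subgroup G) = (FreeGroup.lift (Subtype.val : S → G)).range := by
    rw [FreeGroup.range_lift_eq_closure]
    simp
  rw [h, MonoidHom.coe_range]
  exact countable_range _

/-- The infinite cyclic group, written multiplicatively. -/
abbrev Zm : Type := Multiplicative ℤ

variable {ι : Type} [LinearOrder ι]

/-- The characteristic function of a point. -/
def chi (a : ι) : ι → Zm := Pi.mulSingle a (Multiplicative.ofAdd 1)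

open Classical in
/-- The characteristic function of a set. -/
noncomputable def ind (A : Set ι) : ι → Zm := fun i => if i ∈ A then Multiplicative.ofAdd 1 else 1

theorem ofAdd_one_ne : (Multiplicative.ofAdd (1 : ℤ)) ≠ 1 := by
  intro h
  have := congrArg Multiplicative.toAdd h
  simp at this

theorem ind_mem {A : Set ι} {i : ι} (h : i ∈ A) : ind A i = Multiplicative.ofAdd 1 := by
  simp [ind, h]

theorem ind_notMem {A : Set ι} {i : ι} (h : i ∉ A) : ind A i = 1 := by
  simp [ind, h]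

/-- The group generated by the characteristic functions of points and of the sets `C γ`,
restricted to indices below `δ`. -/
noncomputable def GG (C : ι → Set ι) (δ : ι) : Subgroup (ι → Zm) :=
  Subgroup.closure (chi '' Iio δ ∪ (fun γ => ind (C γ)) '' Iio δ)

/-- The whole group. -/
noncomputable def BB (C : ι → Set ι) : Subgroup (ι → Zm) :=
  Subgroup.closure (range chi ∪ range (fun γ => ind (C γ)))

variable {C : ι → Set ι}

theorem GG_le_BB (δ : ι) : GG C δ ≤ BB C :=
  Subgroup.closure_mono (union_subset_union (image_subset_range _ _) (image_subset_range _ _))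

theorem GG_mono {δ δ' : ι} (h : δ ≤ δ') : GG C δ ≤ GG C δ' :=
  Subgroup.closure_mono (union_subset_union (image_mono (Iio_subset_Iio h))
    (image_mono (Iio_subset_Iio h)))

theorem chi_mem_GG {a δ : ι} (h : a < δ) : chi a ∈ GG C δ :=
  Subgroup.subset_closure (Or.inl ⟨a, h, rfl⟩)

theorem ind_mem_GG {a δ : ι} (h : a < δ) : ind (C a) ∈ GG C δ :=
  Subgroup.subset_closure (Or.inr ⟨a, h, rfl⟩)

theorem chi_mem_BB (a : ι) : chi a ∈ BB C := Subgroup.subset_closure (Or.inl ⟨a, rfl⟩)

theorem ind_mem_BB (a : ι) : ind (C a) ∈ BB C := Subgroup.subset_closure (Or.inr ⟨a, rfl⟩)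

theorem chi_apply_self (a : ι) : chi a a = Multiplicative.ofAdd 1 := by simp [chi]

theorem chi_apply_ne {a i : ι} (h : i ≠ a) : chi a i = 1 := by simp [chi, h]

theorem GG_countable (hc : ∀ a : ι, (Iio a).Countable) (δ : ι) :
    ((GG C δ : Subgroup (ι → Zm)) : Set (ι → Zm)).Countable :=
  countable_closure (((hc δ).image _).union ((hc δ).image _))

theorem ind_finset_mem {δ : ι} (F : Finset ι) (h : ∀ i ∈ F, i < δ) :
    ind (F : Set ι) ∈ GG C δ := by
  classical
  induction F using Finset.induction_on with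
  | empty =>
    have : ind ((∅ : Finset ι) : Set ι) = 1 := by
      funext i
      rw [ind_notMem (by simp)]
      rfl
    rw [this]
    exact one_mem _
  | insert a F ha ih =>
    have h1 : ind ((insert a F : Finset ι) : Set ι) = chi a * ind (F : Set ι) := by
      funext i
      by_cases hi : i = a
      · subst hi
        rw [ind_mem (by simp), Pi.mul_apply, chi_apply_self, ind_notMem (by simpa using ha),
          mul_one]
      · rw [Pi.mul_apply, chi_apply_ne hi, one_mul]
        by_cases hF : i ∈ F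
        · rw [ind_mem (by simp [hF]), ind_mem (by simpa using hF)]
        · rw [ind_notMem (by simp [hF, hi]), ind_notMem (by simpa using hF)]
    rw [h1]
    exact mul_mem (chi_mem_GG (h a (Finset.mem_insert_self _ _)))
      (ih fun i hi => h i (Finset.mem_insert_of_mem hi))

/-- `C` is a ladder system. -/
structure Ladder (C : ι → Set ι) : Prop where
  sub : ∀ γ, C γ ⊆ Iio γ
  fin : ∀ γ, ∀ a < γ, (C γ ∩ Iio a).Finite
  inf : ∀ γ, Lim γ → (C γ).Infinite

/-- Ladder systems exist. -/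
theorem exists_ladder (hc : ∀ a : ι, (Iio a).Countable) : ∃ C : ι → Set ι, Ladder C := by
  have key : ∀ γ : ι, ∃ A : Set ι, A ⊆ Iio γ ∧ (∀ a < γ, (A ∩ Iio a).Finite) ∧
      (Lim γ → A.Infinite) := by
    intro γ
    by_cases hL : Lim γ
    · obtain ⟨⟨a0, ha0⟩, hnext⟩ := hL
      have : Countable (Iio γ) := (hc γ).to_subtype
      have : Nonempty (Iio γ) := ⟨⟨a0, ha0⟩⟩
      obtain ⟨e, he⟩ := exists_surjective_nat (Iio γ)
      have hn : ∀ x y : Iio γ, ∃ z : Iio γ, x < z ∧ y < z := by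
        intro x y
        obtain ⟨z, hz1, hz2⟩ := hnext (max x.1 y.1) (max_lt x.2 y.2)
        exact ⟨⟨z, hz2⟩, (show x.1 < z from lt_of_le_of_lt (le_max_left x.1 y.1) hz1),
          (show y.1 < z from lt_of_le_of_lt (le_max_right x.1 y.1) hz1)⟩
      choose nx hnx1 hnx2 using hn
      let s : ℕ → Iio γ := fun n => Nat.rec ⟨a0, ha0⟩ (fun n r => nx r (e n)) n
      have hs : ∀ n, s (n + 1) = nx (s n) (e n) := fun n => rfl
      have hmono : StrictMono s := strictMono_nat_of_lt_succ fun n => by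
        rw [hs]; exact hnx1 _ _
      refine ⟨range fun n => (s n).1, ?_, ?_, ?_⟩
      · rintro _ ⟨n, rfl⟩
        exact (s n).2
      · intro a ha
        obtain ⟨k, hk⟩ := he ⟨a, ha⟩
        refine (Finite.image (fun n => (s n).1) (finite_Iic k)).subset ?_
        rintro _ ⟨⟨n, rfl⟩, hn⟩
        refine ⟨n, ?_, rfl⟩
        by_contra hcon
        have h1 : k + 1 ≤ n := by simpa using hcon
        have h2 : s (k + 1) ≤ s n := hmono.monotone h1
        have h3 : (⟨a, ha⟩ : Iio γ) < s (k + 1) := by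
          rw [hs, ← hk]
          exact hnx2 _ _
        exact absurd (h3.trans_le h2) (not_lt.2 (le_of_lt hn))
      · intro _
        exact infinite_range_of_injective fun m n h => hmono.injective (Subtype.ext h)
    · exact ⟨∅, empty_subset _, fun a _ => by simp, fun h => absurd h hL⟩
  choose C h1 h2 h3 using key
  exact ⟨C, ⟨h1, h2, h3⟩⟩

/-- All but finitely many restrictions of an element of the group come from the smaller groups. -/
theorem bad_finite (hC : Ladder C) {d : ι → Zm} (hd : d ∈ BB C) :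
    {δ | ¬ ∃ a ∈ GG C δ, EqOn d a (Iio δ)}.Finite := by
  refine Subgroup.closure_induction (p := fun d _ => {δ | ¬ ∃ a ∈ GG C δ, EqOn d a (Iio δ)}.Finite)
    ?_ ?_ ?_ ?_ hd
  · rintro x (⟨a, rfl⟩ | ⟨γ, rfl⟩)
    · convert finite_empty
      rw [eq_empty_iff_forall_notMem]
      intro δ hδ
      apply hδ
      by_cases h : a < δ
      · exact ⟨_, chi_mem_GG h, fun i _ => rfl⟩
      · refine ⟨1, one_mem _, fun i hi => ?_⟩
        have h' : i ≠ a := fun h' => h (by rw [← h']; exact hi)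
        exact chi_apply_ne h'
    · refine (finite_singleton γ).subset ?_
      intro δ hδ
      by_contra hne
      apply hδ
      rcases lt_or_gt_of_ne (hne : δ ≠ γ) with h | h
      · have hf := hC.fin γ δ h
        refine ⟨ind (hf.toFinset : Set ι), ind_finset_mem _ (fun i hi => ?_), fun i hi => ?_⟩
        · rw [Finite.mem_toFinset] at hi
          exact hi.2
        · rw [Finite.coe_toFinset]
          by_cases hi' : i ∈ C γ
          · change ind (C γ) i = _
            have h2 : i ∈ C γ ∩ Iio δ := ⟨hi', hi⟩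
            rw [ind_mem hi', ind_mem h2]
          · change ind (C γ) i = _
            have h2 : i ∉ C γ ∩ Iio δ := fun h => hi' h.1
            rw [ind_notMem hi', ind_notMem h2]
      · exact ⟨_, ind_mem_GG h, fun i _ => rfl⟩
  · convert finite_empty
    rw [eq_empty_iff_forall_notMem]
    intro δ hδ
    apply hδ
    exact ⟨1, one_mem _, fun i _ => rfl⟩
  · intro x y _ _ hx hy
    refine (hx.union hy).subset ?_
    intro δ hδ
    by_contra hcon
    rw [mem_union, not_or] at hcon
    obtain ⟨a, ha, hxa⟩ := not_not.1 hcon.1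
    obtain ⟨b, hb, hyb⟩ := not_not.1 hcon.2
    exact hδ ⟨a * b, mul_mem ha hb, fun i hi => by rw [Pi.mul_apply, Pi.mul_apply, hxa hi, hyb hi]⟩
  · intro x _ hx
    refine hx.subset ?_
    intro δ hδ
    by_contra hcon
    obtain ⟨a, ha, hxa⟩ := not_not.1 hcon
    exact hδ ⟨a⁻¹, inv_mem ha, fun i hi => by rw [Pi.inv_apply, Pi.inv_apply, hxa hi]⟩

variable [WellFoundedLT ι]

/-- Closing-off points. -/
theorem exists_closing (hc : ∀ a : ι, (Iio a).Countable)
    (hu : ∀ A : Set ι, A.Countable → ∃ b, ∀ a ∈ A, a < b) (f : (ι → Zm) → ι) (β0 : ι) :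
    ∃ δ, β0 < δ ∧ ∀ g ∈ GG C δ, f g < δ := by
  have h1 : ∀ β : ι, ∃ b, β < b ∧ ∀ g ∈ GG C β, f g < b := by
    intro β
    obtain ⟨b, hb⟩ := hu (insert β (f '' (GG C β : Set (ι → Zm))))
      (((GG_countable hc β).image f).insert β)
    exact ⟨b, hb β (mem_insert _ _), fun g hg => hb _ (mem_insert_of_mem _ ⟨g, hg, rfl⟩)⟩
  choose F hF1 hF2 using h1
  let s : ℕ → ι := fun n => F^[n] β0
  have hs : ∀ n, s (n + 1) = F (s n) := fun n => Function.iterate_succ_apply' F n _
  have hs' : ∀ n, s n < s (n + 1) := fun n => by rw [hs]; exact hF1 _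
  have hmono : StrictMono s := strictMono_nat_of_lt_succ hs'
  obtain ⟨δ, hL, hlt, hcof⟩ := exists_lub hu s hs'
  have h2 : ∀ g ∈ GG C δ, ∃ n, g ∈ GG C (s n) := by
    intro g hg
    refine Subgroup.closure_induction (p := fun g _ => ∃ n, g ∈ GG C (s n)) ?_ ?_ ?_ ?_ hg
    · rintro x (⟨a, ha, rfl⟩ | ⟨a, ha, rfl⟩)
      · obtain ⟨n, hn⟩ := hcof a ha
        exact ⟨n + 1, chi_mem_GG (hn.trans_lt (hs' n))⟩
      · obtain ⟨n, hn⟩ := hcof a ha
        exact ⟨n + 1, ind_mem_GG (hn.trans_lt (hs' n))⟩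
    · exact ⟨0, one_mem _⟩
    · rintro x y _ _ ⟨m, hm⟩ ⟨n, hn⟩
      exact ⟨max m n, mul_mem (GG_mono (hmono.monotone (le_max_left _ _)) hm)
        (GG_mono (hmono.monotone (le_max_right _ _)) hn)⟩
    · rintro x _ ⟨m, hm⟩
      exact ⟨m, inv_mem hm⟩
  refine ⟨δ, hlt 0, fun g hg => ?_⟩
  obtain ⟨n, hn⟩ := h2 g hg
  calc f g < F (s n) := hF2 _ g hn
    _ = s (n + 1) := (hs n).symm
    _ < δ := hlt _

/-- Closed discrete subsets are countable. -/
theorem countable_of_closed_discrete (hc : ∀ a : ι, (Iio a).Countable)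
    (hu : ∀ A : Set ι, A.Countable → ∃ b, ∀ a ∈ A, a < b) (hC : Ladder C)
    {D : Set (ι → Zm)} (hD : D ⊆ BB C)
    (h : ∀ b ∈ BB C, ∃ δ, ∀ d ∈ D, EqOn d b (Iio δ) → d = b) : D.Countable := by
  classical
  have h' : ∃ f : (ι → Zm) → ι, ∀ b ∈ BB C, ∀ d ∈ D, EqOn d b (Iio (f b)) → d = b := by
    have : Nonempty ι := ⟨(h 1 (one_mem _)).choose⟩
    refine ⟨fun b => if hb : b ∈ BB C then (h b hb).choose else Classical.arbitrary ι, ?_⟩
    intro b hb d hd he
    simp only [dif_pos hb] at he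
    exact (h b hb).choose_spec d hd he
  obtain ⟨f, hf⟩ := h'
  have hne : Nonempty ι := ⟨(h 1 (one_mem _)).choose⟩
  choose nx hnx1 hnx2 using exists_closing (C := C) hc hu f
  let s : ℕ → ι := fun n => Nat.rec (nx (Classical.arbitrary ι)) (fun _ r => nx r) n
  have hs : ∀ n, s (n + 1) = nx (s n) := fun n => rfl
  have hmono : StrictMono s := strictMono_nat_of_lt_succ fun n => by rw [hs]; exact hnx1 _
  have hcl : ∀ n, ∀ g ∈ GG C (s n), f g < s n := by
    intro n
    cases n with
    | zero => exact hnx2 _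
    | succ n => rw [hs]; exact hnx2 _
  have hsub : D ⊆ ⋃ n, (GG C (s n) : Set (ι → Zm)) := by
    intro d hd
    have hfin := bad_finite hC (hD hd)
    have : ∃ n, s n ∉ {δ | ¬ ∃ a ∈ GG C δ, EqOn d a (Iio δ)} := by
      refine Classical.by_contradiction fun hcon => ?_
      refine (infinite_range_of_injective hmono.injective) (hfin.subset ?_)
      rintro _ ⟨n, rfl⟩
      exact Classical.not_not.1 fun h => hcon ⟨n, h⟩
    obtain ⟨n, hn⟩ := this
    obtain ⟨a, ha, hda⟩ := not_not.1 hn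
    have hda' : d = a := hf a (GG_le_BB _ ha) d hd
      (hda.mono (Iio_subset_Iio (hcl n a ha).le))
    rw [mem_iUnion]
    exact ⟨n, hda' ▸ ha⟩
  exact (countable_iUnion fun n => GG_countable hc (s n)).mono hsub

/-- There is no suitable set. -/
theorem no_suitable (hc : ∀ a : ι, (Iio a).Countable)
    (hu : ∀ A : Set ι, A.Countable → ∃ b, ∀ a ∈ A, a < b) (hC : Ladder C)
    (S : Set (ι → Zm)) (hSB : S ⊆ BB C)
    (hdis : ∀ s ∈ S, ∃ δ, ∀ t ∈ S, EqOn t s (Iio δ) → t = s)
    (hcl : ∀ b ∈ BB C, b ≠ 1 → b ∉ S → ∃ δ, ∀ t ∈ S, ¬ EqOn t b (Iio δ))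
    (hdense : ∀ b ∈ BB C, ∀ δ, ∃ h ∈ Subgroup.closure S, EqOn h b (Iio δ)) : False := by
  have hne : Nonempty ι := by
    obtain ⟨b, -⟩ := hu ∅ countable_empty
    exact ⟨b⟩
  let T : ι → Set (ι → Zm) := fun δ => {s | s ∈ S ∧ ¬ EqOn s 1 (Iio δ)}
  have hTc : ∀ δ, (T δ).Countable := by
    intro δ0
    refine countable_of_closed_discrete hc hu hC (fun t ht => hSB ht.1) ?_
    intro b hb
    by_cases hb1 : b = 1
    · refine ⟨δ0, fun d hd he => absurd ?_ hd.2⟩
      rwa [hb1] at he
    · by_cases hbS : b ∈ S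
      · obtain ⟨δ, hδ⟩ := hdis b hbS
        exact ⟨δ, fun d hd he => hδ d hd.1 he⟩
      · obtain ⟨δ, hδ⟩ := hcl b hb hb1 hbS
        exact ⟨δ, fun d hd he => absurd he (hδ d hd.1)⟩
  have hT : ∀ δ, ∀ h ∈ Subgroup.closure S, ∃ h' ∈ Subgroup.closure (T δ), EqOn h h' (Iio δ) := by
    intro δ h hh
    refine Subgroup.closure_induction
      (p := fun h _ => ∃ h' ∈ Subgroup.closure (T δ), EqOn h h' (Iio δ)) ?_ ?_ ?_ ?_ hh
    · intro x hx
      by_cases hx1 : EqOn x 1 (Iio δ)
      · exact ⟨1, one_mem _, hx1⟩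
      · exact ⟨x, Subgroup.subset_closure ⟨hx, hx1⟩, fun i _ => rfl⟩
    · exact ⟨1, one_mem _, fun i _ => rfl⟩
    · rintro x y _ _ ⟨a, ha, hxa⟩ ⟨b, hb, hyb⟩
      exact ⟨a * b, mul_mem ha hb, fun i hi => by
        rw [Pi.mul_apply, Pi.mul_apply, hxa hi, hyb hi]⟩
    · rintro x _ ⟨a, ha, hxa⟩
      exact ⟨a⁻¹, inv_mem ha, fun i hi => by rw [Pi.inv_apply, Pi.inv_apply, hxa hi]⟩
  have hfin : ∀ δ, Lim δ → ∃ β < δ, ∃ e ∈ ((Subgroup.closure (T β) : Subgroup (ι → Zm)) :
      Set (ι → Zm)), EqOn e (ind (C δ)) (Iio δ) := by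
    intro δ hL
    obtain ⟨h, hh, he⟩ := hdense (ind (C δ)) (ind_mem_BB δ) δ
    obtain ⟨h', hh', he'⟩ := hT δ h hh
    have hcont : ∀ g ∈ Subgroup.closure (T δ), ∃ β < δ, g ∈ Subgroup.closure (T β) := by
      intro g hg
      refine Subgroup.closure_induction
        (p := fun g _ => ∃ β < δ, g ∈ Subgroup.closure (T β)) ?_ ?_ ?_ ?_ hg
      · intro x hx
        have : ∃ i < δ, x i ≠ 1 := by
          by_contra hcon
          push Not at hcon
          exact hx.2 fun i hi => hcon i hi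
        obtain ⟨i, hi, hxi⟩ := this
        obtain ⟨β, hβ1, hβ2⟩ := hL.2 i hi
        exact ⟨β, hβ2, Subgroup.subset_closure ⟨hx.1, fun he => hxi (he hβ1)⟩⟩
      · obtain ⟨a, ha⟩ := hL.1
        exact ⟨a, ha, one_mem _⟩
      · rintro x y _ _ ⟨β, hβ, hx⟩ ⟨β', hβ', hy⟩
        have hm : ∀ γ γ' : ι, γ ≤ γ' → Subgroup.closure (T γ) ≤ Subgroup.closure (T γ') :=
          fun γ γ' h => Subgroup.closure_mono fun s hs =>
            ⟨hs.1, fun he => hs.2 (he.mono (Iio_subset_Iio h))⟩
        exact ⟨max β β', max_lt hβ hβ', mul_mem (hm _ _ (le_max_left _ _) hx)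
          (hm _ _ (le_max_right _ _) hy)⟩
      · rintro x _ ⟨β, hβ, hx⟩
        exact ⟨β, hβ, inv_mem hx⟩
    obtain ⟨β, hβ, hm⟩ := hcont h' hh'
    exact ⟨β, hβ, h', hm, fun i hi => (he' hi).symm.trans (he hi)⟩
  obtain ⟨e, he⟩ := pressing hc hu (fun β => ((Subgroup.closure (T β) : Subgroup (ι → Zm)) :
      Set (ι → Zm))) (fun β => countable_closure (hTc β)) (fun δ e => EqOn e (ind (C δ)) (Iio δ))
      hfin
  obtain ⟨δ1, -, hL1, h1⟩ := he (Classical.arbitrary ι)
  obtain ⟨δ2, h12, hL2, h2⟩ := he δ1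
  have hsub : C δ1 ⊆ C δ2 ∩ Iio δ1 := by
    intro i hi
    have hi1 : i < δ1 := hC.sub δ1 hi
    refine ⟨?_, hi1⟩
    by_contra hcon
    have e1 := h1 hi1
    have e2 := h2 (hi1.trans h12 : i < δ2)
    rw [ind_mem hi] at e1
    rw [ind_notMem hcon] at e2
    exact ofAdd_one_ne (e1.symm.trans e2)
  exact hC.inf δ1 hL1 ((hC.fin δ2 δ1 h12).subset hsub)

end Pool.Agent.X198.SuitB
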