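import Pool.Agent.X198.SuitB

/-!
# The topological group `B`
-/

set_option autoImplicit false
set_option linter.unusedSectionVars false

namespace Pool.Agent.X198.SuitB

open Set Pool.Agent.Helper761.Om

variable {ι : Type} [LinearOrder ι] [WellFoundedLT ι] {C : ι → Set ι}

/-- The group as a type of its own. -/
def BT (C : ι → Set ι) : Type := BB C

noncomputable instance : CommGroup (BT C) := inferInstanceAs (CommGroup (BB C))

/-- The function underlying an element of the group. -/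
def BT.fn (x : BT C) : ι → Zm := Subtype.val x

theorem BT.fn_mem (x : BT C) : x.fn ∈ BB C := Subtype.property x

theorem BT.fn_inj {x y : BT C} (h : x.fn = y.fn) : x = y := Subtype.ext h

theorem BT.fn_mul (x y : BT C) (i : ι) : (x * y).fn i = x.fn i * y.fn i := rfl

theorem BT.fn_inv (x : BT C) (i : ι) : (x⁻¹).fn i = (x.fn i)⁻¹ := rfl

theorem BT.fn_one (i : ι) : (1 : BT C).fn i = 1 := rfl

/-- Elements of the group as elements of the type. -/
def mkB {x : ι → Zm} (h : x ∈ BB C) : BT C := ⟨x, h⟩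

theorem fn_mkB {x : ι → Zm} (h : x ∈ BB C) : (mkB h).fn = x := rfl

/-- The inclusion as a homomorphism. -/
def fnHom (C : ι → Set ι) : BT C →* (ι → Zm) where
  toFun := BT.fn
  map_one' := rfl
  map_mul' _ _ := rfl

/-- A suitable set of a topology with the right neighbourhoods cannot exist. -/
theorem no_suitable_top (hc : ∀ a : ι, (Iio a).Countable)
    (hu : ∀ A : Set ι, A.Countable → ∃ b, ∀ a ∈ A, a < b) (hC : Ladder C)
    (t : TopologicalSpace (BT C))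
    (hN : ∀ (b : BT C) (U : Set (BT C)), IsOpen U → b ∈ U →
      ∃ δ, ∀ y : BT C, EqOn y.fn b.fn (Iio δ) → y ∈ U)
    (hO : ∀ (b : BT C) (δ : ι), IsOpen {y : BT C | EqOn y.fn b.fn (Iio δ)})
    (S : Set (BT C)) (hd : DiscreteTopology S) (hcl : IsClosed (S ∪ {1}))
    (hdn : Dense ((Subgroup.closure S : Subgroup (BT C)) : Set (BT C))) : False := by
  refine no_suitable hc hu hC (BT.fn '' S : Set (ι → Zm)) ?_ ?_ ?_ ?_
  · rintro _ ⟨x, -, rfl⟩
    exact x.fn_mem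
  · rintro _ ⟨s, hs, rfl⟩
    obtain ⟨U, hU, hUS⟩ := (discreteTopology_subtype_iff'.1 hd) s hs
    have hsU : s ∈ U := by
      have : s ∈ U ∩ S := by rw [hUS]; exact rfl
      exact this.1
    obtain ⟨δ, hδ⟩ := hN s U hU hsU
    refine ⟨δ, ?_⟩
    rintro _ ⟨t', ht', rfl⟩ he
    have : t' ∈ U ∩ S := ⟨hδ t' he, ht'⟩
    rw [hUS] at this
    rw [mem_singleton_iff.1 this]
  · intro b hb hb1 hbS
    have hmem : mkB hb ∈ (S ∪ {1})ᶜ := by
      rintro (h | h)
      · exact hbS ⟨_, h, rfl⟩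
      · exact hb1 (congrArg BT.fn (mem_singleton_iff.1 h))
    obtain ⟨δ, hδ⟩ := hN _ _ hcl.isOpen_compl hmem
    refine ⟨δ, ?_⟩
    rintro _ ⟨t', ht', rfl⟩ he
    exact hδ t' he (Or.inl ht')
  · intro b hb δ
    obtain ⟨y, hy1, hy2⟩ := hdn.exists_mem_open (hO (mkB hb) δ) ⟨mkB hb, fun i _ => rfl⟩
    refine ⟨y.fn, ?_, hy2⟩
    have : ((Subgroup.closure S).map (fnHom C)) = Subgroup.closure (BT.fn '' S) := by
      rw [MonoidHom.map_closure]
      rfl
    rw [← this]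
    exact ⟨y, hy1, rfl⟩

/-- The topology of uniform agreement on initial segments. -/
@[reducible] def tB [Nonempty ι] (C : ι → Set ι) : TopologicalSpace (BT C) where
  IsOpen s := ∀ x ∈ s, ∃ δ, ∀ y : BT C, EqOn y.fn x.fn (Iio δ) → y ∈ s
  isOpen_univ := fun _ _ => ⟨Classical.arbitrary ι, fun _ _ => mem_univ _⟩
  isOpen_inter := by
    rintro s t hs ht x ⟨hxs, hxt⟩
    obtain ⟨a, ha⟩ := hs x hxs
    obtain ⟨b, hb⟩ := ht x hxt
    exact ⟨max a b, fun y hy => ⟨ha y (hy.mono (Iio_subset_Iio (le_max_left _ _))),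
      hb y (hy.mono (Iio_subset_Iio (le_max_right _ _)))⟩⟩
  isOpen_sUnion := by
    rintro s hs x ⟨t, ht, hxt⟩
    obtain ⟨a, ha⟩ := hs t ht x hxt
    exact ⟨a, fun y hy => ⟨t, ht, ha y hy⟩⟩

section

variable [Nonempty ι]

attribute [local instance] tB

theorem isOpen_cyl (b : BT C) (δ : ι) : IsOpen {y : BT C | EqOn y.fn b.fn (Iio δ)} := by
  intro x hx
  exact ⟨δ, fun y hy => hy.trans hx⟩

theorem isClosed_cyl (b : BT C) (δ : ι) : IsClosed {y : BT C | EqOn y.fn b.fn (Iio δ)} := by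
  rw [← isOpen_compl_iff]
  intro x hx
  exact ⟨δ, fun y hy h => hx (hy.symm.trans h)⟩

theorem topGroup : IsTopologicalGroup (BT C) where
  continuous_mul := by
    rw [continuous_iff_continuousAt]
    rintro ⟨a, b⟩
    intro s hs
    obtain ⟨U, hUs, hU, haU⟩ := mem_nhds_iff.1 hs
    obtain ⟨δ, hδ⟩ := hU _ haU
    have h1 : {y : BT C | EqOn y.fn a.fn (Iio δ)} ∈ nhds a :=
      (isOpen_cyl a δ).mem_nhds fun i _ => rfl
    have h2 : {y : BT C | EqOn y.fn b.fn (Iio δ)} ∈ nhds b :=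
      (isOpen_cyl b δ).mem_nhds fun i _ => rfl
    rw [Filter.mem_map]
    refine Filter.mem_of_superset (prod_mem_nhds h1 h2) ?_
    rintro ⟨x, y⟩ ⟨hx, hy⟩
    refine hUs (hδ _ fun i hi => ?_)
    rw [BT.fn_mul, BT.fn_mul, hx hi, hy hi]
  continuous_inv := by
    rw [continuous_iff_continuousAt]
    intro a s hs
    obtain ⟨U, hUs, hU, haU⟩ := mem_nhds_iff.1 hs
    obtain ⟨δ, hδ⟩ := hU _ haU
    have h1 : {y : BT C | EqOn y.fn a.fn (Iio δ)} ∈ nhds a :=
      (isOpen_cyl a δ).mem_nhds fun i _ => rfl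
    rw [Filter.mem_map]
    refine Filter.mem_of_superset h1 ?_
    intro x hx
    refine hUs (hδ _ fun i hi => ?_)
    rw [BT.fn_inv, BT.fn_inv, hx hi]

theorem totSep (hu : ∀ A : Set ι, A.Countable → ∃ b, ∀ a ∈ A, a < b) :
    TotallySeparatedSpace (BT C) := by
  rw [totallySeparatedSpace_iff_exists_isClopen]
  intro x y hxy
  have : ∃ i, x.fn i ≠ y.fn i := by
    by_contra! h
    exact hxy (BT.fn_inj (funext h))
  obtain ⟨i, hi⟩ := this
  obtain ⟨δ, hδ⟩ := hu {i} (countable_singleton i)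
  refine ⟨{z : BT C | EqOn z.fn x.fn (Iio δ)}, ⟨isClosed_cyl x δ, isOpen_cyl x δ⟩,
    fun i _ => rfl, fun h => hi ((h (hδ i rfl)).symm)⟩

theorem not_gdelta (hu : ∀ A : Set ι, A.Countable → ∃ b, ∀ a ∈ A, a < b) (x : BT C) :
    ¬ IsGδ ({x} : Set (BT C)) := by
  intro h
  obtain ⟨U, hU, hx⟩ := h.eq_iInter_nat
  have h1 : ∀ n, ∃ δ, ∀ y : BT C, EqOn y.fn x.fn (Iio δ) → y ∈ U n := by
    intro n
    refine hU n x ?_
    have : x ∈ ⋂ n, U n := by rw [← hx]; rfl
    exact mem_iInter.1 this n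
  choose δ hδ using h1
  obtain ⟨b, hb⟩ := hu (range δ) (countable_range δ)
  have h2 : x * mkB (chi_mem_BB b) ∈ ({x} : Set (BT C)) := by
    rw [hx, mem_iInter]
    intro n
    refine hδ n _ fun i hi => ?_
    have : i ≠ b := ((show i < δ n from hi).trans (hb _ ⟨n, rfl⟩)).ne
    rw [BT.fn_mul, fn_mkB, chi_apply_ne this, mul_one]
  have h3 := congrArg (fun z : BT C => z.fn b) (mem_singleton_iff.1 h2)
  simp only [BT.fn_mul, fn_mkB, chi_apply_self, mul_eq_left] at h3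
  exact ofAdd_one_ne h3

theorem not_sep (hu : ∀ A : Set ι, A.Countable → ∃ b, ∀ a ∈ A, a < b) :
    ¬ TopologicalSpace.SeparableSpace (BT C) := by
  intro hsep
  let V : ι → Set (BT C) := fun a => {y | (∀ i < a, y.fn i = 1) ∧ y.fn a ≠ 1}
  have hVo : ∀ a, IsOpen (V a) := by
    intro a x hx
    obtain ⟨δ, hδ⟩ := hu {a} (countable_singleton a)
    refine ⟨δ, fun y hy => ⟨fun i hi => ?_, ?_⟩⟩
    · rw [hy (hi.trans (hδ a rfl)), hx.1 i hi]
    · rw [hy (hδ a rfl)]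
      exact hx.2
  have hVn : ∀ a, (V a).Nonempty := fun a =>
    ⟨mkB (chi_mem_BB a), fun i hi => chi_apply_ne hi.ne, by
      rw [fn_mkB, chi_apply_self]; exact ofAdd_one_ne⟩
  have hVd : ∀ a b, (V a ∩ V b).Nonempty → a = b := by
    rintro a b ⟨y, h1, h2⟩
    rcases lt_trichotomy a b with h | h | h
    · exact absurd (h2.1 a h) h1.2
    · exact h
    · exact absurd (h1.1 b h) h2.2
  obtain ⟨Q, hQc, hQd⟩ := TopologicalSpace.exists_countable_dense (BT C)
  have h1 : ∀ a, ∃ q ∈ Q, q ∈ V a := fun a => by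
    obtain ⟨q, h1, h2⟩ := hQd.exists_mem_open (hVo a) (hVn a)
    exact ⟨q, h1, h2⟩
  choose q hq1 hq2 using h1
  have hinj : Function.Injective (fun a => (⟨q a, hq1 a⟩ : Q)) := by
    intro a b hab
    have : q a = q b := congrArg Subtype.val hab
    exact hVd a b ⟨q a, hq2 a, this ▸ hq2 b⟩
  have := hQc.to_subtype
  have hcι : Countable ι := hinj.countable
  obtain ⟨b, hb⟩ := hu univ countable_univ
  exact lt_irrefl b (hb b (mem_univ b))

/-- The lexicographic order of the group. -/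
noncomputable abbrev loB (C : ι → Set ι) : LinearOrder (BT C) :=
  LinearOrder.lift' (fun x : BT C => toLex x.fn)
    (fun _ _ h => BT.fn_inj (toLex.injective h))

attribute [local instance] loB

theorem lt_iff {x y : BT C} : x < y ↔
    ∃ i, (∀ j < i, x.fn j = y.fn j) ∧ x.fn i < y.fn i :=
  Iff.rfl

theorem exists_diff {x y : BT C} {δ : ι} (h : ¬ EqOn y.fn x.fn (Iio δ)) :
    ∃ i < δ, (∀ j < i, y.fn j = x.fn j) ∧ y.fn i ≠ x.fn i := by
  have h1 : {i | i < δ ∧ y.fn i ≠ x.fn i}.Nonempty := by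
    by_contra hcon
    rw [not_nonempty_iff_eq_empty, eq_empty_iff_forall_notMem] at hcon
    exact h fun i hi => by
      by_contra hne
      exact hcon i ⟨hi, hne⟩
  obtain ⟨i, hi, hmin⟩ := WellFounded.has_min (wellFounded_lt (α := ι)) _ h1
  refine ⟨i, hi.1, fun j hj => ?_, hi.2⟩
  by_contra hne
  exact hmin j ⟨hj.trans hi.1, hne⟩ hj

theorem Ioo_sub {x : BT C} {δ : ι} :
    Ioo (x * (mkB (chi_mem_BB δ))⁻¹) (x * mkB (chi_mem_BB δ)) ⊆
      {y : BT C | EqOn y.fn x.fn (Iio δ)} := by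
  intro y hy
  by_contra hcon
  obtain ⟨i, hiδ, hi1, hi2⟩ := exists_diff hcon
  have ha : ∀ j < δ, (x * (mkB (chi_mem_BB δ))⁻¹).fn j = x.fn j := by
    intro j hj
    rw [BT.fn_mul, BT.fn_inv, fn_mkB, chi_apply_ne hj.ne, inv_one, mul_one]
  have hb : ∀ j < δ, (x * mkB (chi_mem_BB δ)).fn j = x.fn j := by
    intro j hj
    rw [BT.fn_mul, fn_mkB, chi_apply_ne hj.ne, mul_one]
  rcases lt_or_gt_of_ne hi2 with h | h
  · refine lt_asymm hy.1 (lt_iff.2 ⟨i, fun j hj => ?_, ?_⟩)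
    · rw [ha j (hj.trans hiδ), hi1 j hj]
    · rw [ha i hiδ]; exact h
  · refine lt_asymm hy.2 (lt_iff.2 ⟨i, fun j hj => ?_, ?_⟩)
    · rw [hb j (hj.trans hiδ), hi1 j hj]
    · rw [hb i hiδ]; exact h

theorem one_lt_ofAdd : (1 : Zm) < Multiplicative.ofAdd 1 := by
  rw [← ofAdd_zero, Multiplicative.ofAdd_lt]
  norm_num

theorem mem_Ioo (x : BT C) (δ : ι) :
    x ∈ Ioo (x * (mkB (chi_mem_BB δ))⁻¹) (x * mkB (chi_mem_BB δ)) := by
  constructor
  · refine lt_iff.2 ⟨δ, fun j hj => ?_, ?_⟩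
    · rw [BT.fn_mul, BT.fn_inv, fn_mkB, chi_apply_ne hj.ne, inv_one, mul_one]
    · rw [BT.fn_mul, BT.fn_inv, fn_mkB, chi_apply_self]
      exact mul_lt_of_lt_one_right' _ (inv_lt_one'.2 one_lt_ofAdd)
  · refine lt_iff.2 ⟨δ, fun j hj => ?_, ?_⟩
    · rw [BT.fn_mul, fn_mkB, chi_apply_ne hj.ne, mul_one]
    · rw [BT.fn_mul, fn_mkB, chi_apply_self]
      exact lt_mul_of_one_lt_right' _ one_lt_ofAdd

theorem ordTop (hu : ∀ A : Set ι, A.Countable → ∃ b, ∀ a ∈ A, a < b) :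
    OrderTopology (BT C) := by
  refine ⟨le_antisymm ?_ ?_⟩
  · refine le_generateFrom ?_
    rintro s ⟨a, rfl | rfl⟩
    · intro x hx
      obtain ⟨i, hi1, hi2⟩ := lt_iff.1 (show a < x from hx)
      obtain ⟨δ, hδ⟩ := hu {i} (countable_singleton i)
      refine ⟨δ, fun y hy => (lt_iff.2 ⟨i, fun j hj => ?_, ?_⟩ : a < y)⟩
      · rw [hi1 j hj, hy (hj.trans (hδ i rfl))]
      · rw [hy (hδ i rfl)]; exact hi2
    · intro x hx
      obtain ⟨i, hi1, hi2⟩ := lt_iff.1 (show x < a from hx)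
      obtain ⟨δ, hδ⟩ := hu {i} (countable_singleton i)
      refine ⟨δ, fun y hy => (lt_iff.2 ⟨i, fun j hj => ?_, ?_⟩ : y < a)⟩
      · rw [← hi1 j hj, hy (hj.trans (hδ i rfl))]
      · rw [hy (hδ i rfl)]; exact hi2
  · intro s hs
    have hs' : s = ⋃ I ∈ {I : Set (BT C) | (∃ a b, I = Ioi a ∩ Iio b) ∧ I ⊆ s}, I := by
      apply Subset.antisymm
      · intro x hx
        obtain ⟨δ, hδ⟩ := hs x hx
        rw [mem_iUnion₂]
        refine ⟨Ioo (x * (mkB (chi_mem_BB δ))⁻¹) (x * mkB (chi_mem_BB δ)), ⟨⟨_, _, rfl⟩, ?_⟩,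
          mem_Ioo x δ⟩
        exact fun y hy => hδ y (Ioo_sub hy)
      · exact iUnion₂_subset fun I hI => hI.2
    rw [hs']
    refine @isOpen_biUnion _ _ (TopologicalSpace.generateFrom _) _ _ ?_
    rintro I ⟨⟨a, b, rfl⟩, -⟩
    refine (TopologicalSpace.generateFrom _).isOpen_inter _ _ ?_ ?_
    · exact TopologicalSpace.isOpen_generateFrom_of_mem ⟨a, Or.inl rfl⟩
    · exact TopologicalSpace.isOpen_generateFrom_of_mem ⟨b, Or.inr rfl⟩

theorem mul_lt_mulB {a b : BT C} (c : BT C) (h : a < b) : a * c < b * c := by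
  obtain ⟨i, h1, h2⟩ := lt_iff.1 h
  refine lt_iff.2 ⟨i, fun j hj => ?_, ?_⟩
  · rw [BT.fn_mul, BT.fn_mul, h1 j hj]
  · rw [BT.fn_mul, BT.fn_mul]
    exact mul_lt_mul_left h2 _

/-- No suitable set in the standard topology. -/
theorem no_suitable_tB (hc : ∀ a : ι, (Iio a).Countable)
    (hu : ∀ A : Set ι, A.Countable → ∃ b, ∀ a ∈ A, a < b) (hC : Ladder C)
    (S : Set (BT C)) (hd : DiscreteTopology S) (hcl : IsClosed (S ∪ {1}))
    (hdn : Dense ((Subgroup.closure S : Subgroup (BT C)) : Set (BT C))) : False :=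
  no_suitable_top hc hu hC (tB C) (fun b _ hU hb => hU b hb) (fun b δ => isOpen_cyl b δ) S hd hcl hdn

end

end Pool.Agent.X198.SuitB
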