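import Mathlib

/-!
Two overlapping congruent 3-4-5 triangles whose boundary overlap ratio exceeds `csc (θ/2)`.
-/

namespace X198.TriOverlap

open Set MeasureTheory Metric

/-- the Euclidean plane -/
abbrev E : Type := EuclideanSpace ℝ (Fin 2)

/-- one-dimensional Hausdorff measure (length) of a subset of the plane -/
noncomputable def len (s : Set E) : ENNReal := Measure.hausdorffMeasure 1 s

/-- the ratio `length(C ∩ K') / length(C' ∩ K)`, `C`, `C'` the boundaries of `K`, `K'` -/
noncomputable def R (K K' : Set E) : ENNReal := len (frontier K ∩ K') / len (frontier K' ∩ K)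

/-- `K` is the image of `T` under an isometry of the plane -/
def Congruent (K T : Set E) : Prop := ∃ g : E ≃ᵢ E, K = g '' T

/-- `K` and `K'` overlap: their interiors intersect and they are different -/
def Overlap (K K' : Set E) : Prop := (interior K ∩ interior K').Nonempty ∧ K ≠ K'

/-- the supremum of the ratio over all overlapping pairs of sets congruent to `T` -/
noncomputable def M (T : Set E) : ENNReal :=
  ⨆ (K : Set E) (K' : Set E) (_ : Congruent K T) (_ : Congruent K' T) (_ : Overlap K K'), R K K'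

/-- the triangle with vertices `A, B, C` (a compact convex set) -/
def tri (A B C : E) : Set E := convexHull ℝ {A, B, C}

/-- the smallest angle of the triangle `ABC` -/
noncomputable def minAngle (A B C : E) : ℝ :=
  min (EuclideanGeometry.angle B A C) (min (EuclideanGeometry.angle A B C)
    (EuclideanGeometry.angle A C B))

noncomputable def pA : E := !₂[0, 0]
noncomputable def pB : E := !₂[16, 0]
noncomputable def pC : E := !₂[16, 12]

theorem not_collinear : ¬ Collinear ℝ ({pA, pB, pC} : Set E) := by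
  intro h
  rw [collinear_iff_of_mem (p₀ := pA) (by simp)] at h
  obtain ⟨v, hv⟩ := h
  obtain ⟨r, hr⟩ := hv pB (by simp)
  obtain ⟨s, hs⟩ := hv pC (by simp)
  have h1 := congrFun (congrArg (fun z : E => z.ofLp) hr) 0
  have h2 := congrFun (congrArg (fun z : E => z.ofLp) hr) 1
  have h3 := congrFun (congrArg (fun z : E => z.ofLp) hs) 1
  simp [pA, pB, pC] at h1 h2 h3
  rcases h2 with h2 | h2
  · rw [h2] at h1; norm_num at h1
  · rw [h2] at h3; norm_num at h3

/-- half-plane description of the triangle -/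
def H : Set E := {z | 0 ≤ z 1 ∧ 0 ≤ 3 * z 0 - 4 * z 1 ∧ z 0 ≤ 16}

theorem convex_H : Convex ℝ H := by
  intro x hx y hy a b ha hb hab
  obtain ⟨h1, h2, h3⟩ := hx
  obtain ⟨k1, k2, k3⟩ := hy
  have hb' : b = 1 - a := by linarith
  refine ⟨?_, ?_, ?_⟩
  · simp only [PiLp.add_apply, PiLp.smul_apply, smul_eq_mul]
    have := mul_nonneg ha h1
    have := mul_nonneg hb k1
    linarith
  · simp only [PiLp.add_apply, PiLp.smul_apply, smul_eq_mul]
    have := mul_nonneg ha h2
    have := mul_nonneg hb k2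
    nlinarith
  · simp only [PiLp.add_apply, PiLp.smul_apply, smul_eq_mul]
    have := mul_le_mul_of_nonneg_left h3 ha
    have := mul_le_mul_of_nonneg_left k3 hb
    nlinarith

theorem tri_eq : tri pA pB pC = H := by
  apply Set.Subset.antisymm
  · apply convexHull_min _ convex_H
    intro z hz
    simp only [mem_insert_iff, mem_singleton_iff] at hz
    rcases hz with rfl | rfl | rfl
    · simp [H, pA]
    · simp [H, pB]
    · refine ⟨?_, ?_, ?_⟩ <;> simp [pC] <;> norm_num
  · intro z hz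
    obtain ⟨h1, h2, h3⟩ := hz
    have hconv := convex_convexHull ℝ ({pA, pB, pC} : Set E)
    have hA : pA ∈ convexHull ℝ ({pA, pB, pC} : Set E) := subset_convexHull ℝ _ (by simp)
    have hB : pB ∈ convexHull ℝ ({pA, pB, pC} : Set E) := subset_convexHull ℝ _ (by simp)
    have hC : pC ∈ convexHull ℝ ({pA, pB, pC} : Set E) := subset_convexHull ℝ _ (by simp)
    have hsum := hconv.sum_mem (t := Finset.univ) (w := ![1 - z 0 / 16,
      (3 * z 0 - 4 * z 1) / 48, z 1 / 12]) (z := ![pA, pB, pC]) ?_ ?_ ?_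
    · have hz : z = (1 - z 0 / 16) • pA + ((3 * z 0 - 4 * z 1) / 48) • pB + (z 1 / 12) • pC := by
        ext i
        fin_cases i
        · simp [pA, pB, pC]; ring
        · simp [pA, pB, pC]
      rw [Fin.sum_univ_three] at hsum
      rw [hz]
      exact hsum
    · intro i _
      fin_cases i
      · simp; linarith
      · simp; linarith
      · simp; linarith
    · simp [Fin.sum_univ_three]; ring
    · intro i _
      fin_cases i
      · exact hA
      · exact hB
      · exact hC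

/-- the mirror image across the bisector at `A`, shifted by `(2,1)` -/
noncomputable def gfun (z : E) : E :=
  !₂[(4 * z 0 + 3 * z 1) / 5 + 2, (3 * z 0 - 4 * z 1) / 5 + 1]

noncomputable def ginv (z : E) : E :=
  !₂[(4 * (z 0 - 2) + 3 * (z 1 - 1)) / 5, (3 * (z 0 - 2) - 4 * (z 1 - 1)) / 5]

theorem gfun_ginv (z : E) : gfun (ginv z) = z := by
  ext i
  fin_cases i
  · simp [gfun, ginv]; ring
  · simp [gfun, ginv]; ring

theorem isometry_gfun : Isometry gfun := by
  apply Isometry.of_dist_eq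
  intro x y
  rw [EuclideanSpace.dist_eq, EuclideanSpace.dist_eq]
  congr 1
  simp only [Fin.sum_univ_two, Real.dist_eq, sq_abs, gfun]
  simp
  ring

noncomputable def g : E ≃ᵢ E := IsometryEquiv.mk' gfun ginv gfun_ginv isometry_gfun

/-- the second triangle -/
def H' : Set E := {z | 1 ≤ z 1 ∧ 2 ≤ 3 * z 0 - 4 * z 1 ∧ 4 * z 0 + 3 * z 1 ≤ 91}

theorem image_eq : g '' H = H' := by
  ext z
  constructor
  · rintro ⟨w, ⟨h1, h2, h3⟩, rfl⟩
    have e0 : (g w) 0 = (4 * w 0 + 3 * w 1) / 5 + 2 := rfl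
    have e1 : (g w) 1 = (3 * w 0 - 4 * w 1) / 5 + 1 := rfl
    refine ⟨?_, ?_, ?_⟩
    · rw [e1]; linarith
    · rw [e0, e1]; linarith
    · rw [e0, e1]; linarith
  · rintro ⟨h1, h2, h3⟩
    refine ⟨ginv z, ?_, gfun_ginv z⟩
    have e0 : (ginv z) 0 = (4 * (z 0 - 2) + 3 * (z 1 - 1)) / 5 := rfl
    have e1 : (ginv z) 1 = (3 * (z 0 - 2) - 4 * (z 1 - 1)) / 5 := rfl
    refine ⟨?_, ?_, ?_⟩
    · rw [e1]; linarith
    · rw [e0, e1]; linarith
    · rw [e0]; linarith

theorem cont0 : Continuous fun z : E => z 0 := by fun_prop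
theorem cont1 : Continuous fun z : E => z 1 := by fun_prop
theorem cont2 : Continuous fun z : E => 3 * z 0 - 4 * z 1 := by fun_prop
theorem cont3 : Continuous fun z : E => 4 * z 0 + 3 * z 1 := by fun_prop

theorem interior_H_sup : {z : E | 0 < z 1 ∧ 0 < 3 * z 0 - 4 * z 1 ∧ z 0 < 16} ⊆ interior H := by
  apply interior_maximal
  · rintro z ⟨h1, h2, h3⟩
    exact ⟨h1.le, h2.le, h3.le⟩
  · exact (isOpen_lt continuous_const cont1).inter
      ((isOpen_lt continuous_const cont2).inter (isOpen_lt cont0 continuous_const))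

theorem interior_H'_sup :
    {z : E | 1 < z 1 ∧ 2 < 3 * z 0 - 4 * z 1 ∧ 4 * z 0 + 3 * z 1 < 91} ⊆ interior H' := by
  apply interior_maximal
  · rintro z ⟨h1, h2, h3⟩
    exact ⟨h1.le, h2.le, h3.le⟩
  · exact (isOpen_lt continuous_const cont1).inter
      ((isOpen_lt continuous_const cont2).inter (isOpen_lt cont3 continuous_const))

theorem closed_H : IsClosed H := by
  exact (isClosed_le continuous_const cont1).inter
      ((isClosed_le continuous_const cont2).inter (isClosed_le cont0 continuous_const))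

theorem closed_H' : IsClosed H' := by
  exact (isClosed_le continuous_const cont1).inter
      ((isClosed_le continuous_const cont2).inter (isClosed_le cont3 continuous_const))

/-- The part of the boundary of the first triangle inside the second one. -/
theorem upper : frontier H ∩ H' ⊆ segment ℝ (!₂[16, 1] : E) !₂[16, 9] := by
  rintro z ⟨hz, h1, h2, h3⟩
  have hzH : z ∈ H := closed_H.frontier_subset hz
  have hni : z ∉ interior H := hz.2
  obtain ⟨k1, k2, k3⟩ := hzH
  have h0 : z 0 = 16 := by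
    by_contra hne
    exact hni (interior_H_sup ⟨by linarith, by linarith, lt_of_le_of_ne k3 hne⟩)
  rw [segment_eq_image]
  refine ⟨(z 1 - 1) / 8, ⟨by linarith, by rw [h0] at h3; linarith⟩, ?_⟩
  ext i
  fin_cases i
  · simp [h0]; ring
  · simp; ring

theorem upper_len : len (frontier H ∩ H') ≤ ENNReal.ofReal 8 := by
  refine (measure_mono upper).trans ?_
  rw [hausdorffMeasure_segment, edist_dist]
  apply ENNReal.ofReal_le_ofReal
  rw [EuclideanSpace.dist_eq]
  simp [Fin.sum_univ_two, Real.dist_eq]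
  rw [show ((1:ℝ) - 9) ^ 2 = 8 ^ 2 by norm_num, Real.sqrt_sq (by norm_num)]

theorem not_interior_of_min (K : Set E) (a b c : ℝ) (hab : 0 < a ^ 2 + b ^ 2)
    (hK : ∀ z ∈ K, c ≤ a * z 0 + b * z 1) (z : E) (hz : a * z 0 + b * z 1 = c) :
    z ∉ interior K := by
  intro hi
  rw [mem_interior_iff_mem_nhds] at hi
  -- move from `z` in the direction `-(a,b)`
  let γ : ℝ → E := fun t => z - t • (!₂[a, b] : E)
  have hγ : Continuous γ := by fun_prop
  have hγ0 : γ 0 = z := by simp [γ]
  have hev : ∀ᶠ t in nhds (0:ℝ), γ t ∈ K := by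
    have := hγ.tendsto 0
    rw [hγ0] at this
    exact this hi
  obtain ⟨ε, hε, hb⟩ := Metric.eventually_nhds_iff.1 hev
  have h1 := hb (y := ε / 2) (by rw [Real.dist_eq, sub_zero, abs_of_pos (by linarith)]; linarith)
  have h2 := hK _ h1
  have e0 : (γ (ε / 2)) 0 = z 0 - ε / 2 * a := by simp [γ]
  have e1 : (γ (ε / 2)) 1 = z 1 - ε / 2 * b := by simp [γ]
  rw [e0, e1] at h2
  nlinarith

/-- Two disjoint pieces of the boundary of the second triangle inside the first one. -/
theorem lower1 : segment ℝ (!₂[2, 1] : E) !₂[16, 1] ⊆ frontier H' ∩ H := by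
  rw [segment_eq_image]
  rintro _ ⟨t, ⟨ht0, ht1⟩, rfl⟩
  have e0 : ((1 - t) • (!₂[2, 1] : E) + t • (!₂[16, 1] : E)) 0 = 2 + 14 * t := by simp; ring
  have e1 : ((1 - t) • (!₂[2, 1] : E) + t • (!₂[16, 1] : E)) 1 = 1 := by simp
  set w : E := (1 - t) • (!₂[2, 1] : E) + t • (!₂[16, 1] : E)
  have hw' : w ∈ H' := by
    refine ⟨?_, ?_, ?_⟩
    · rw [e1]
    · rw [e0, e1]; linarith
    · rw [e0, e1]; linarith
  refine ⟨?_, ?_, ?_, ?_⟩
  · rw [closed_H'.frontier_eq]
    refine ⟨hw', not_interior_of_min H' 0 1 1 (by norm_num) (fun z hz => ?_) w ?_⟩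
    · have := hz.1; linarith
    · rw [e1]; ring
  · rw [e1]; norm_num
  · rw [e0, e1]; linarith
  · rw [e0]; linarith

theorem lower2 : segment ℝ (!₂[14/5, 8/5] : E) !₂[74/5, 53/5] ⊆ frontier H' ∩ H := by
  rw [segment_eq_image]
  rintro _ ⟨t, ⟨ht0, ht1⟩, rfl⟩
  have e0 : ((1 - t) • (!₂[14/5, 8/5] : E) + t • (!₂[74/5, 53/5] : E)) 0 = 14/5 + 12 * t := by
    simp; ring
  have e1 : ((1 - t) • (!₂[14/5, 8/5] : E) + t • (!₂[74/5, 53/5] : E)) 1 = 8/5 + 9 * t := by
    simp; ring
  set w : E := (1 - t) • (!₂[14/5, 8/5] : E) + t • (!₂[74/5, 53/5] : E)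
  have hw' : w ∈ H' := by
    refine ⟨?_, ?_, ?_⟩
    · rw [e1]; linarith
    · rw [e0, e1]; linarith
    · rw [e0, e1]; linarith
  refine ⟨?_, ?_, ?_, ?_⟩
  · rw [closed_H'.frontier_eq]
    refine ⟨hw', not_interior_of_min H' 3 (-4) 2 (by norm_num) (fun z hz => ?_) w ?_⟩
    · have := hz.2.1; linarith
    · rw [e0, e1]; ring
  · rw [e1]; linarith
  · rw [e0, e1]; linarith
  · rw [e0]; linarith

theorem seg_closed (x y : E) : IsClosed (segment ℝ x y) := by
  rw [segment_eq_image]
  exact (isCompact_Icc.image (by fun_prop)).isClosed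

theorem lower_len : ENNReal.ofReal 29 ≤ len (frontier H' ∩ H) := by
  have hdisj : Disjoint (segment ℝ (!₂[2, 1] : E) !₂[16, 1])
      (segment ℝ (!₂[14/5, 8/5] : E) !₂[74/5, 53/5]) := by
    rw [Set.disjoint_left]
    intro z hz hz'
    rw [segment_eq_image] at hz hz'
    obtain ⟨t, _, rfl⟩ := hz
    obtain ⟨s, ⟨hs0, _⟩, hs⟩ := hz'
    have := congrFun (congrArg (fun z : E => z.ofLp) hs) 1
    simp at this
    linarith
  have hsub : segment ℝ (!₂[2, 1] : E) !₂[16, 1] ∪
      segment ℝ (!₂[14/5, 8/5] : E) !₂[74/5, 53/5] ⊆ frontier H' ∩ H :=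
    union_subset lower1 lower2
  refine le_trans ?_ (measure_mono hsub)
  rw [measure_union hdisj (seg_closed _ _).measurableSet, hausdorffMeasure_segment,
    hausdorffMeasure_segment, edist_dist, edist_dist,
    ← ENNReal.ofReal_add dist_nonneg dist_nonneg]
  apply ENNReal.ofReal_le_ofReal
  rw [EuclideanSpace.dist_eq, EuclideanSpace.dist_eq]
  simp only [Fin.sum_univ_two, Real.dist_eq, sq_abs]
  simp
  rw [show (2 - 16 : ℝ) ^ 2 = 14 ^ 2 by norm_num,
    show ((14/5 - 74/5 : ℝ) ^ 2 + (8/5 - 53/5) ^ 2) = 15 ^ 2 by norm_num,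
    Real.sqrt_sq (by norm_num)]
  norm_num

theorem ratio : ENNReal.ofReal (29 / 8) ≤ R H' H := by
  unfold R
  have h8 : len (frontier H ∩ H') ≤ ENNReal.ofReal 8 := upper_len
  calc ENNReal.ofReal (29 / 8) = ENNReal.ofReal 29 / ENNReal.ofReal 8 := by
        rw [ENNReal.ofReal_div_of_pos (by norm_num)]
    _ ≤ len (frontier H' ∩ H) / len (frontier H ∩ H') := ENNReal.div_le_div lower_len h8

theorem overlap : Overlap H' H := by
  constructor
  · refine ⟨!₂[10, 4], interior_H'_sup ?_, interior_H_sup ?_⟩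
    · refine ⟨?_, ?_, ?_⟩ <;> simp <;> norm_num
    · refine ⟨?_, ?_, ?_⟩ <;> simp <;> norm_num
  · intro h
    have : (!₂[0, 0] : E) ∈ H := by
      refine ⟨?_, ?_, ?_⟩ <;> simp
    rw [← h] at this
    have := this.1
    simp at this
    norm_num at this

theorem M_ge : ENNReal.ofReal (29 / 8) ≤ M (tri pA pB pC) := by
  unfold M
  refine le_iSup_of_le H' (le_iSup_of_le H (le_iSup_of_le ⟨g, ?_⟩ (le_iSup_of_le ⟨IsometryEquiv.refl E, ?_⟩
    (le_iSup_of_le overlap ratio))))
  · rw [tri_eq, image_eq]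
  · rw [tri_eq]; exact (Set.image_id H).symm

theorem angleA : EuclideanGeometry.angle pB pA pC = Real.arccos (4 / 5) := by
  unfold EuclideanGeometry.angle InnerProductGeometry.angle
  congr 1
  have h1 : inner ℝ (pB -ᵥ pA) (pC -ᵥ pA) = 256 := by
    simp [pA, pB, pC, PiLp.inner_apply, Fin.sum_univ_two]; norm_num
  have h2 : ‖pB -ᵥ pA‖ = 16 := by
    rw [EuclideanSpace.norm_eq]
    simp [pA, pB, Fin.sum_univ_two]
  have h3 : ‖pC -ᵥ pA‖ = 20 := by
    rw [EuclideanSpace.norm_eq]
    simp [pA, pC, Fin.sum_univ_two]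
    rw [show ((16:ℝ) ^ 2 + 12 ^ 2) = 20 ^ 2 by norm_num, Real.sqrt_sq (by norm_num)]
  rw [h1, h2, h3]; norm_num

theorem angleB : EuclideanGeometry.angle pA pB pC = Real.arccos 0 := by
  unfold EuclideanGeometry.angle InnerProductGeometry.angle
  congr 1
  have h1 : inner ℝ (pA -ᵥ pB) (pC -ᵥ pB) = 0 := by
    simp [pA, pB, pC, PiLp.inner_apply, Fin.sum_univ_two]
  rw [h1]; simp

theorem angleC : EuclideanGeometry.angle pA pC pB = Real.arccos (3 / 5) := by
  unfold EuclideanGeometry.angle InnerProductGeometry.angle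
  congr 1
  have h1 : inner ℝ (pA -ᵥ pC) (pB -ᵥ pC) = 144 := by
    simp [pA, pB, pC, PiLp.inner_apply, Fin.sum_univ_two]; norm_num
  have h2 : ‖pA -ᵥ pC‖ = 20 := by
    rw [EuclideanSpace.norm_eq]
    simp [pA, pC, Fin.sum_univ_two]
    rw [show ((16:ℝ) ^ 2 + 12 ^ 2) = 20 ^ 2 by norm_num, Real.sqrt_sq (by norm_num)]
  have h3 : ‖pB -ᵥ pC‖ = 12 := by
    rw [EuclideanSpace.norm_eq]
    simp [pB, pC, Fin.sum_univ_two]
  rw [h1, h2, h3]; norm_num

theorem minAngle_eq : minAngle pA pB pC = Real.arccos (4 / 5) := by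
  unfold minAngle
  rw [angleA, angleB, angleC]
  apply min_eq_left
  apply le_min
  · exact Real.antitone_arccos (by norm_num)
  · exact Real.antitone_arccos (by norm_num)

theorem csc_eq : 1 / Real.sin (minAngle pA pB pC / 2) = Real.sqrt 10 := by
  rw [minAngle_eq]
  set θ := Real.arccos (4 / 5) with hθ
  have hcos : Real.cos θ = 4 / 5 := Real.cos_arccos (by norm_num) (by norm_num)
  have h0 : 0 ≤ θ := Real.arccos_nonneg _
  have hpi : θ ≤ Real.pi := Real.arccos_le_pi _
  have hs : 0 ≤ Real.sin (θ / 2) := Real.sin_nonneg_of_nonneg_of_le_pi (by linarith) (by linarith)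
  have h2 : Real.cos θ = 2 * Real.cos (θ / 2) ^ 2 - 1 := by
    rw [← Real.cos_two_mul]; congr 1; ring
  have h3 := Real.sin_sq_add_cos_sq (θ / 2)
  have h4 : Real.sin (θ / 2) ^ 2 = 1 / 10 := by linarith
  have h5 : Real.sin (θ / 2) = Real.sqrt (1 / 10) := by
    rw [← h4, Real.sqrt_sq hs]
  rw [h5, ← Real.sqrt_one, ← Real.sqrt_div' _ (by norm_num)]
  norm_num

theorem sqrt_lt : Real.sqrt 10 < 29 / 8 := by
  rw [Real.sqrt_lt' (by norm_num)]; norm_num

end X198.TriOverlap
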